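import Pool.Agent.IRR.NumDefs

/-!
# IRR.Approx: soundness of `lo`, `cdiv`, `vpf`, `sqs` (diff 2)

`loGo m k L`: invariant `2^L ≤ m < 2^(L + 2^k)` (`L` may be `0` with `m ≥ 1`), the result `R` satisfies
`2^R ≤ m < 2^(R+1)` (`Nat.shiftRight m L' = m / 2^L'`, `1 ≤ m / 2^L' ↔ 2^L' ≤ m`).  For `lo n`:
`m = n^1024 < 2^65536` as `n < 2^64`.  `force_eq` removes `force`.
-/

namespace Pool.Agent.IRR

theorem Approx_loGo (m : ℕ) : ∀ k L : ℕ, 2 ^ L ≤ m → m < 2 ^ (L + 2 ^ k) →
    2 ^ (loGo m k L) ≤ m ∧ m < 2 ^ (loGo m k L + 1) := by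
  intro k
  induction k with
  | zero =>
    intro L h1 h2
    exact ⟨h1, h2⟩
  | succ k ih =>
    intro L h1 h2
    have hdef : loGo m (k + 1) L = cond (Nat.ble 1 (Nat.shiftRight m (L + Nat.pow 2 k)))
        (loGo m k (L + Nat.pow 2 k)) (loGo m k L) := by
      rw [loGo, force_eq]
    have hp : Nat.pow 2 k = 2 ^ k := rfl
    have hs : Nat.shiftRight m (L + 2 ^ k) = m / 2 ^ (L + 2 ^ k) := Nat.shiftRight_eq_div_pow m _
    rw [hdef, hp, hs]
    have hpos : 0 < 2 ^ (L + 2 ^ k) := by positivity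
    by_cases hc : 2 ^ (L + 2 ^ k) ≤ m
    · have : Nat.ble 1 (m / 2 ^ (L + 2 ^ k)) = true := by
        rw [Nat.ble_eq]
        exact (Nat.one_le_div_iff hpos).mpr hc
      rw [this, cond_true]
      apply ih _ hc
      have : L + 2 ^ k + 2 ^ k = L + 2 ^ (k + 1) := by rw [pow_succ]; ring
      rw [this]
      exact h2
    · have : Nat.ble 1 (m / 2 ^ (L + 2 ^ k)) = false := by
        rw [← Bool.not_eq_true, Nat.ble_eq]
        intro h
        exact hc ((Nat.one_le_div_iff hpos).mp h)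
      rw [this, cond_false]
      exact ih _ h1 (not_le.mp hc)

theorem lo_spec {n : ℕ} (hn : 0 < n) (hn2 : n < 2 ^ 64) :
    (lo n : ℝ) ≤ 1024 * Real.logb 2 n ∧ 1024 * Real.logb 2 n < lo n + 1 := by
  have hlo : lo n = loGo (n ^ 1024) 16 0 := by
    unfold lo
    rw [force_eq]
    rfl
  have h := Approx_loGo (n ^ 1024) 16 0 (by simpa using Nat.one_le_pow 1024 n hn) (by
    have h1 : n ^ 1024 < (2 ^ 64) ^ 1024 := Nat.pow_lt_pow_left hn2 (by norm_num)
    rw [← pow_mul] at h1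
    have h2 : 64 * 1024 = 0 + 2 ^ 16 := by norm_num
    rw [h2] at h1
    exact h1)
  rw [← hlo] at h
  obtain ⟨h1, h2⟩ := h
  have hn' : (0 : ℝ) < n := by exact_mod_cast hn
  have hlog : Real.logb 2 ((n : ℝ) ^ 1024) = 1024 * Real.logb 2 n := by
    rw [Real.logb_pow]
    norm_num
  have hpos : (0 : ℝ) < (n : ℝ) ^ 1024 := by positivity
  rw [← hlog]
  constructor
  · rw [Real.le_logb_iff_rpow_le (by norm_num) hpos, Real.rpow_natCast]
    exact_mod_cast h1
  · have : ((lo n : ℝ) + 1) = ((lo n + 1 : ℕ) : ℝ) := by push_cast; ring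
    rw [this, Real.logb_lt_iff_lt_rpow (by norm_num) hpos, Real.rpow_natCast]
    exact_mod_cast h2

theorem cdiv_ge (a b : ℕ) (hb : 0 < b) : (a : ℝ) / b ≤ cdiv a b := by
  have hb' : (0 : ℝ) < b := by exact_mod_cast hb
  rw [div_le_iff₀ hb']
  have h : a ≤ cdiv a b * b := by
    unfold cdiv
    have h1 := Nat.div_add_mod (a + b - 1) b
    have h2 := Nat.mod_lt (a + b - 1) hb
    rw [mul_comm] at h1
    omega
  exact_mod_cast h

/-- for `n ≥ 1`, `p ≥ 2` and enough fuel `vpf` is the exponent -/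
theorem vpf_eq {p : ℕ} (hp : p.Prime) {n : ℕ} (hn : 0 < n) {k : ℕ} (hk : padicValNat p n ≤ k) :
    vpf k p n = padicValNat p n := by
  haveI : Fact p.Prime := ⟨hp⟩
  induction k generalizing n with
  | zero =>
    rw [vpf]
    omega
  | succ k ih =>
    rw [vpf]
    by_cases h : p ∣ n
    · have h1 : Nat.beq (n % p) 0 = true := by
        rw [Nat.beq_eq, Nat.mod_eq_zero_of_dvd h]
      rw [h1, cond_true]
      have h2 : padicValNat p (n / p) = padicValNat p n - 1 := padicValNat.div h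
      have h3 : 1 ≤ padicValNat p n := one_le_padicValNat_of_dvd hn.ne' h
      rw [ih (Nat.div_pos (Nat.le_of_dvd hn h) hp.pos) (by omega), h2]
      omega
    · have h1 : Nat.beq (n % p) 0 = false := by
        rw [← Bool.not_eq_true, Nat.beq_eq]
        intro h'
        exact h (Nat.dvd_of_mod_eq_zero h')
      rw [h1, cond_false, padicValNat.eq_zero_of_not_dvd h]

theorem Approx_mem_sqs (n : ℕ) (p h e : ℕ) (l : List (ℕ × ℕ)) : ∀ acc : List (ℕ × ℕ × ℕ),
    (p, h, e) ∈ sqs n l acc ↔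
      (p, h, e) ∈ acc ∨ ((p, h) ∈ l ∧ n % (p * p) = 0 ∧ e = vpf 14 p n) := by
  induction l with
  | nil =>
    intro acc
    simp [sqs]
  | cons x l ih =>
    obtain ⟨q, k⟩ := x
    intro acc
    rw [sqs]
    by_cases hq : n % (q * q) = 0
    · have h1 : Nat.beq (n % (q * q)) 0 = true := by rw [Nat.beq_eq, hq]
      rw [h1, cond_true, force_eq, ih]
      simp only [List.mem_cons, Prod.mk.injEq]
      constructor
      · rintro ((⟨rfl, rfl, rfl⟩ | h) | h)
        · exact Or.inr ⟨Or.inl ⟨rfl, rfl⟩, hq, rfl⟩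
        · exact Or.inl h
        · exact Or.inr ⟨Or.inr h.1, h.2⟩
      · rintro (h | ⟨⟨rfl, rfl⟩ | h, h2, h3⟩)
        · exact Or.inl (Or.inr h)
        · exact Or.inl (Or.inl ⟨rfl, rfl, h3⟩)
        · exact Or.inr ⟨h, h2, h3⟩
    · have h1 : Nat.beq (n % (q * q)) 0 = false := by
        rw [← Bool.not_eq_true, Nat.beq_eq]
        exact hq
      rw [h1, cond_false, ih]
      simp only [List.mem_cons, Prod.mk.injEq]
      constructor
      · rintro (h | h)
        · exact Or.inl h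
        · exact Or.inr ⟨Or.inr h.1, h.2⟩
      · rintro (h | ⟨⟨rfl, rfl⟩ | h, h2, h3⟩)
        · exact Or.inl h
        · exact absurd h2 hq
        · exact Or.inr ⟨h, h2, h3⟩

/-- the list `sqs` contains exactly the primes whose square divides `n` -/
theorem mem_sqs {n : ℕ} (hn : 0 < n) (p h e : ℕ) :
    (p, h, e) ∈ sqs n smallPrimes [] ↔
      (p, h) ∈ smallPrimes ∧ p ^ 2 ∣ n ∧ e = vpf 14 p n := by
  rw [Approx_mem_sqs]
  simp only [List.not_mem_nil, false_or]
  rw [sq, Nat.dvd_iff_mod_eq_zero]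

theorem Approx_nodup_sqs (n : ℕ) (l : List (ℕ × ℕ)) : ∀ acc : List (ℕ × ℕ × ℕ),
    (l.map Prod.fst).Nodup → (acc.map Prod.fst).Nodup →
    (∀ x ∈ l.map Prod.fst, x ∉ acc.map Prod.fst) →
    ((sqs n l acc).map Prod.fst).Nodup := by
  induction l with
  | nil =>
    intro acc _ h _
    simpa [sqs] using h
  | cons x l ih =>
    obtain ⟨q, k⟩ := x
    intro acc h1 h2 h3
    rw [List.map_cons, List.nodup_cons] at h1
    rw [sqs]
    rcases Nat.beq (n % (q * q)) 0 with _ | _
    · rw [cond_false]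
      exact ih acc h1.2 h2 fun x hx => h3 x (List.mem_cons_of_mem _ hx)
    · rw [cond_true, force_eq]
      refine ih _ h1.2 ?_ ?_
      · rw [List.map_cons, List.nodup_cons]
        exact ⟨h3 q (by simp), h2⟩
      · intro x hx hx2
        rw [List.map_cons, List.mem_cons] at hx2
        rcases hx2 with rfl | hx2
        · exact h1.1 hx
        · exact h3 x (List.mem_cons_of_mem _ hx) hx2

theorem nodup_sqs (n : ℕ) : ((sqs n smallPrimes []).map Prod.fst).Nodup := by
  apply Approx_nodup_sqs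
  · decide +kernel
  · simp
  · simp

theorem smallPrimes_spec : ∀ x ∈ smallPrimes, x.1.Prime ∧ x.1 < 90 ∧ x.2 = lo x.1 + 1 := by
  decide +kernel

theorem smallPrimes_complete (p : ℕ) (hp : p.Prime) (h : p ≤ 90) :
    (p, lo p + 1) ∈ smallPrimes := by
  have key : ∀ p < 91, p.Prime → (p, lo p + 1) ∈ smallPrimes := by decide +kernel
  exact key p (by omega) hp

end Pool.Agent.IRR
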