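import Pool.Agent.IRR.Defs

/-!
# IRR.Hadamard: bound for the product of all differences (diff 2-3)

Vandermonde: for `y_1, …, y_d` of norm `≤ 1`, `M = (y_i^j)`, `∏_{i≠j} |y_i - y_j| = |det M|^2 =
det (M Mᴴ)`; `M Mᴴ` is positive semidefinite, so by AM-GM for its eigenvalues
(`Matrix.IsHermitian.det_eq_prod_eigenvalues`, `trace = ∑ eigenvalues`)
`det (M Mᴴ) ≤ (tr (M Mᴴ) / d)^d ≤ d^d` since the trace is `∑_{i,j} |y_i|^(2j) ≤ d^2`.
(Any other proof of Hadamard's inequality is fine.)  General `r > 0`: scale `y = x / r`, there are `d(d-1)` factors.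
-/

namespace Pool.Agent.IRR

open Polynomial
open scoped ComplexOrder

theorem Hadamard_amgm {d : ℕ} (z : Fin d → ℝ) (hz : ∀ i, 0 ≤ z i) (B : ℝ)
    (hB : ∑ i, z i ≤ d * B) : ∏ i, z i ≤ B ^ d := by
  rcases Nat.eq_zero_or_pos d with hd | hd
  · subst hd; simp
  have hd' : (0 : ℝ) < d := by exact_mod_cast hd
  have h1 := Real.geom_mean_le_arith_mean_weighted Finset.univ (fun _ : Fin d => (1 / (d : ℝ))) z
    (fun i _ => by positivity) (by simp [hd'.ne']) (fun i _ => hz i)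
  have h2 : ∏ i, z i ^ (1 / (d : ℝ)) = (∏ i, z i) ^ (1 / (d : ℝ)) :=
    Real.finsetProd_rpow Finset.univ z (fun i _ => hz i) _
  rw [h2, ← Finset.mul_sum] at h1
  have h3 : (1 / (d : ℝ)) * ∑ i, z i ≤ B := by
    rw [one_div, inv_mul_le_iff₀ hd']
    exact hB
  have hP : 0 ≤ ∏ i, z i := Finset.prod_nonneg (fun i _ => hz i)
  have h4 : (∏ i, z i) ^ (1 / (d : ℝ)) ≤ B := h1.trans h3
  have h5 : ((∏ i, z i) ^ (1 / (d : ℝ))) ^ d ≤ B ^ d :=
    pow_le_pow_left₀ (Real.rpow_nonneg hP _) h4 d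
  rwa [one_div, Real.rpow_inv_natCast_pow hP hd.ne'] at h5

theorem Hadamard_det {d : ℕ} (y : Fin d → ℂ) (hy : ∀ i, ‖y i‖ ≤ 1) :
    ‖(Matrix.vandermonde y).det‖ ^ 2 ≤ (d : ℝ) ^ d := by
  set V := Matrix.vandermonde y with hV
  have hpsd : (V * V.conjTranspose).PosSemidef := Matrix.posSemidef_self_mul_conjTranspose V
  have hH := hpsd.isHermitian
  have hdet : (V * V.conjTranspose).det = ((‖V.det‖ ^ 2 : ℝ) : ℂ) := by
    rw [Matrix.det_mul, Matrix.det_conjTranspose]
    have := Complex.mul_conj V.det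
    rw [Complex.normSq_eq_norm_sq] at this
    exact_mod_cast this
  have h1 := hH.det_eq_prod_eigenvalues
  rw [hdet] at h1
  have h2 : ‖V.det‖ ^ 2 = ∏ i, hH.eigenvalues i := by
    apply Complex.ofReal_injective
    rw [h1, Complex.ofReal_prod]
    rfl
  rw [h2]
  apply Hadamard_amgm _ (fun i => hpsd.eigenvalues_nonneg i)
  have h3 := hH.trace_eq_sum_eigenvalues
  have h4 : (V * V.conjTranspose).trace = ((∑ i, ∑ j, ‖V i j‖ ^ 2 : ℝ) : ℂ) := by
    simp only [Matrix.trace, Matrix.diag_apply, Matrix.mul_apply, Matrix.conjTranspose_apply]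
    push_cast
    refine Finset.sum_congr rfl (fun i _ => Finset.sum_congr rfl (fun j _ => ?_))
    have := Complex.mul_conj (V i j)
    rw [Complex.normSq_eq_norm_sq] at this
    exact_mod_cast this
  rw [h4] at h3
  have h5 : ∑ i, ∑ j, ‖V i j‖ ^ 2 = ∑ i, hH.eigenvalues i := by
    apply Complex.ofReal_injective
    rw [h3, Complex.ofReal_sum]
    rfl
  rw [← h5]
  calc ∑ i, ∑ j, ‖V i j‖ ^ 2 ≤ ∑ _i : Fin d, ∑ _j : Fin d, (1 : ℝ) := by
        refine Finset.sum_le_sum (fun i _ => Finset.sum_le_sum (fun j _ => ?_))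
        rw [hV, Matrix.vandermonde_apply, norm_pow, ← pow_mul]
        exact pow_le_one₀ (norm_nonneg _) (hy i)
    _ = d * d := by simp

theorem Hadamard_offdiag {d : ℕ} (F : Fin d → Fin d → ℝ) (hF : ∀ i j, F i j = F j i) :
    ∏ i, ∏ j ∈ Finset.univ.erase i, F i j = (∏ i, ∏ j ∈ Finset.Ioi i, F i j) ^ 2 := by
  have h1 : ∀ i, ∏ j ∈ Finset.univ.erase i, F i j
      = (∏ j ∈ Finset.Iio i, F i j) * ∏ j ∈ Finset.Ioi i, F i j := by
    intro i
    rw [← Finset.prod_union]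
    · congr 1
      ext j
      simp [lt_or_lt_iff_ne]
    · rw [Finset.disjoint_left]
      intro j hj hj'
      simp only [Finset.mem_Iio, Finset.mem_Ioi] at hj hj'
      exact absurd hj (not_lt.mpr hj'.le)
  have h2 : ∏ i, ∏ j ∈ Finset.Iio i, F i j = ∏ i, ∏ j ∈ Finset.Ioi i, F i j := by
    rw [Finset.prod_comm' (t' := Finset.univ) (s' := fun j => Finset.Ioi j)]
    · exact Finset.prod_congr rfl (fun i _ => Finset.prod_congr rfl (fun j _ => hF _ _))
    · intro x y; simp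
  simp_rw [h1]
  rw [Finset.prod_mul_distrib, h2, sq]

theorem hadamard (S : Finset ℂ) (r : ℝ) (hr : 0 < r) (hS : ∀ x ∈ S, ‖x‖ ≤ r) :
    ∏ x ∈ S, ∏ y ∈ S.erase x, ‖x - y‖ ≤ (S.card : ℝ) ^ S.card * r ^ (S.card * (S.card - 1)) := by
  classical
  set d := S.card with hd
  let e : Fin d ≃ S := S.equivFin.symm
  let x : Fin d → ℂ := fun i => (e i : ℂ)
  have hxinj : Function.Injective x := fun i j h => e.injective (Subtype.ext h)
  have hximg : Finset.univ.image x = S := by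
    ext z
    simp only [Finset.mem_image, Finset.mem_univ, true_and]
    constructor
    · rintro ⟨i, rfl⟩
      exact (e i).2
    · intro hz
      exact ⟨e.symm ⟨z, hz⟩, by simp [x]⟩
  have h1 : ∏ z ∈ S, ∏ w ∈ S.erase z, ‖z - w‖
      = ∏ i, ∏ j ∈ Finset.univ.erase i, ‖x i - x j‖ := by
    rw [← hximg, Finset.prod_image (fun i _ j _ h => hxinj h)]
    refine Finset.prod_congr rfl (fun i _ => ?_)
    rw [← Finset.image_erase hxinj, Finset.prod_image (fun i _ j _ h => hxinj h)]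
  rw [h1]
  let y : Fin d → ℂ := fun i => x i / r
  have hy : ∀ i, ‖y i‖ ≤ 1 := by
    intro i
    simp only [y, norm_div, Complex.norm_real, Real.norm_eq_abs, abs_of_pos hr]
    rw [div_le_one hr]
    exact hS _ (e i).2
  have h2 : ∀ i j, ‖x i - x j‖ = r * ‖y i - y j‖ := by
    intro i j
    have : x i - x j = (r : ℂ) * (y i - y j) := by
      have hr' : (r : ℂ) ≠ 0 := by exact_mod_cast hr.ne'
      simp only [y]
      field_simp
    rw [this, norm_mul, Complex.norm_real, Real.norm_eq_abs, abs_of_pos hr]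
  have h3 : ∏ i, ∏ j ∈ Finset.univ.erase i, ‖x i - x j‖
      = r ^ (d * (d - 1)) * ∏ i, ∏ j ∈ Finset.univ.erase i, ‖y i - y j‖ := by
    simp_rw [h2, Finset.prod_mul_distrib]
    congr 1
    simp [Finset.card_erase_of_mem, ← pow_mul, mul_comm]
  rw [h3, mul_comm]
  refine mul_le_mul_of_nonneg_right ?_ (by positivity)
  rw [Hadamard_offdiag (fun i j => ‖y i - y j‖) (fun i j => norm_sub_rev _ _)]
  have h4 := Hadamard_det y hy
  rw [Matrix.det_vandermonde] at h4
  have h5 : ∏ i, ∏ j ∈ Finset.Ioi i, ‖y i - y j‖ = ‖∏ i, ∏ j ∈ Finset.Ioi i, (y j - y i)‖ := by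
    rw [norm_prod]
    refine Finset.prod_congr rfl (fun i _ => ?_)
    rw [norm_prod]
    exact Finset.prod_congr rfl (fun j _ => norm_sub_rev _ _)
  rw [h5]
  exact h4

end Pool.Agent.IRR
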