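import Pool.Agent.IRR.Rts

/-!
# IRR.Res: resultants with a factor `a` (diff 1-2)

`resultant_map_map` and `resultant_eq_prod_eval` (Mathlib), `a` monic with simple roots.
-/

namespace Pool.Agent.IRR

open Polynomial

variable {K : Type*} [Field K] [CharZero K] [IsAlgClosed K] {N : ℕ} {a b : ℤ[X]}

theorem res_cast (h : Factn N a b) (q : ℤ[X]) :
    ((resultant a q : ℤ) : K) = ∏ x ∈ rts K a, ev q x := by
  classical
  have h1 := resultant_map_map a q a.natDegree q.natDegree (Int.castRingHom K)
  have hdeg : (a.map (Int.castRingHom K)).natDegree = a.natDegree := h.ha.natDegree_map _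
  have h2 := resultant_eq_prod_eval (a.map (Int.castRingHom K)) (q.map (Int.castRingHom K))
    q.natDegree natDegree_map_le (IsAlgClosed.splits _)
  rw [hdeg, (h.ha.map _).leadingCoeff, one_pow, one_mul, h1] at h2
  change ((resultant a q : ℤ) : K) = _ at h2
  rw [h2]
  have h3 := roots_nodup (K := K) h
  rw [Finset.prod_multiset_map_count]
  unfold rts
  have h4 : ((a.map (Int.castRingHom K)).roots).toFinset
      = @Multiset.toFinset K (fun x y => Classical.propDecidable (x = y))
        ((a.map (Int.castRingHom K)).roots) := by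
    congr
  rw [← h4]
  refine Finset.prod_congr rfl fun x hx => ?_
  rw [Multiset.count_eq_one_of_mem h3 (Multiset.mem_toFinset.1 hx), pow_one]
  rfl

theorem res_eq_prod (h : Factn N a b) :
    ((resultant a b : ℤ) : K) = ∏ x ∈ rts K a, ∏ y ∈ rts K b, (x - y) := by
  rw [res_cast h b]
  exact Finset.prod_congr rfl fun x _ => ev_eq_prod h.symm x

theorem res_ne_zero (h : Factn N a b) : resultant a b ≠ 0 := by
  intro h0
  have h1 := res_cast (K := AlgebraicClosure ℚ) h b
  rw [h0, Int.cast_zero] at h1
  obtain ⟨x, hx, hx0⟩ := Finset.prod_eq_zero_iff.1 h1.symm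
  exact not_mem_both h hx ((mem_rts h.hb.ne_zero).2 hx0)

/-- `q = X^R - 1` -/
theorem res_cyc (h : Factn N a b) (R : ℕ) :
    ((resultant a (X ^ R - 1) : ℤ) : K) = ∏ x ∈ rts K a, (x ^ R - 1) := by
  rw [res_cast h]
  refine Finset.prod_congr rfl fun x _ => ?_
  simp [ev]

end Pool.Agent.IRR
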