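import Pool.Agent.IRR.ArchRoots
import Pool.Agent.IRR.Res
import Pool.Agent.IRR.Hadamard

/-!
# IRR.ArchEnergy: lower bound for the resultant (diff 2)

Multiply `root_der` over the roots `x` of `a`, with `g'(x) = ∏_{x' ≠ x} (x - x') ∏_{y} (x - y)`
(`der_eq_prod`), and take norms:
`|Res(a,b)| · ∏_{x ≠ x'} |x - x'| · |a(0)| · |a(1)| = (N(N-1))^d`
(`∏ x = ± a(0)`, `∏ (x - 1) = ± a(1)` by `ev_eq_prod` at `0`, `1`).
With `r = (2N)^(1/(N-1))` (all `|x| ≤ r`), `hadamard` gives `∏_{x≠x'} |x-x'| ≤ d^d r^(d(d-1))`,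
`|a(0)| ≤ r^d`, `|a(1)| ≤ N(N-1)/2`.  So
`(N(N-1))^d ≤ |Res| d^d (2N)^(d²/(N-1)) N(N-1)/2`.  Take `log2`.
-/

namespace Pool.Agent.IRR

open Polynomial

variable {N : ℕ} {a b : ℤ[X]}

theorem ArchEnergy_identity (h : Factn N a b) :
    (∏ x ∈ rts ℂ a, ∏ y ∈ (rts ℂ a).erase x, (x - y)) * ((resultant a b : ℤ) : ℂ) *
      ((∏ x ∈ rts ℂ a, x) * ∏ x ∈ rts ℂ a, (x - 1)) =
      ((N : ℂ) * (N - 1)) ^ a.natDegree := by
  have hN := h.hN
  rw [res_eq_prod h, ← card_rts (K := ℂ) h, ← Finset.prod_const, ← Finset.prod_mul_distrib,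
    ← Finset.prod_mul_distrib, ← Finset.prod_mul_distrib]
  apply Finset.prod_congr rfl
  intro x hx
  have hxg : x ∈ rts ℂ (g N) := (mem_rts_g h).2 (Or.inl hx)
  have hg0 : g N ≠ 0 := (g_monic N (by omega)).ne_zero
  have hx0 : ev (g N) x = 0 := (mem_rts hg0).1 hxg
  rw [← root_der (by omega) hx0, der_eq_prod h hx]

theorem ArchEnergy_norm (h : Factn N a b) :
    (∏ x ∈ rts ℂ a, ∏ y ∈ (rts ℂ a).erase x, ‖x - y‖) * |((resultant a b : ℤ) : ℝ)| *
      (((|a.eval 0| : ℤ) : ℝ) * ((|a.eval 1| : ℤ) : ℝ)) =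
      ((N : ℝ) * (N - 1)) ^ a.natDegree := by
  have h1 := congrArg norm (ArchEnergy_identity h)
  have hN := h.hN
  have hN1 : (1 : ℝ) ≤ N := by
    have : 1 ≤ N := by omega
    exact_mod_cast this
  rw [norm_mul, norm_mul, norm_mul, norm_pow, norm_mul] at h1
  have e1 : ‖∏ x ∈ rts ℂ a, ∏ y ∈ (rts ℂ a).erase x, (x - y)‖ =
      ∏ x ∈ rts ℂ a, ∏ y ∈ (rts ℂ a).erase x, ‖x - y‖ := by
    rw [norm_prod]
    exact Finset.prod_congr rfl fun x _ => norm_prod _ _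
  have e2 : ‖((resultant a b : ℤ) : ℂ)‖ = |((resultant a b : ℤ) : ℝ)| := Complex.norm_intCast _
  have e3 : ‖∏ x ∈ rts ℂ a, x‖ = ((|a.eval 0| : ℤ) : ℝ) := by
    have h2 := ev_eq_prod h (0 : ℂ)
    have h3 := ev_intCast (K := ℂ) a 0
    rw [Int.cast_zero, h2] at h3
    have h4 := congrArg norm h3
    rw [norm_prod] at h4
    rw [norm_prod]
    calc ∏ x ∈ rts ℂ a, ‖x‖ = ∏ y ∈ rts ℂ a, ‖0 - y‖ :=
          Finset.prod_congr rfl fun x _ => by rw [zero_sub, norm_neg]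
      _ = _ := h4
      _ = _ := by rw [Complex.norm_intCast, Int.cast_abs]
  have e4 : ‖∏ x ∈ rts ℂ a, (x - 1)‖ = ((|a.eval 1| : ℤ) : ℝ) := by
    have h2 := ev_eq_prod h (1 : ℂ)
    have h3 := ev_intCast (K := ℂ) a 1
    rw [Int.cast_one, h2] at h3
    have h4 := congrArg norm h3
    rw [norm_prod] at h4
    rw [norm_prod]
    calc ∏ x ∈ rts ℂ a, ‖x - 1‖ = ∏ y ∈ rts ℂ a, ‖1 - y‖ :=
          Finset.prod_congr rfl fun x _ => norm_sub_rev _ _
      _ = _ := h4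
      _ = _ := by rw [Complex.norm_intCast, Int.cast_abs]
  have e5 : ‖(N : ℂ)‖ = N := Complex.norm_natCast N
  have e6 : ‖(N : ℂ) - 1‖ = (N : ℝ) - 1 := by
    have : (N : ℂ) - 1 = (((N : ℝ) - 1 : ℝ) : ℂ) := by push_cast; ring
    rw [this, Complex.norm_real, Real.norm_eq_abs, abs_of_nonneg (by linarith)]
  rw [e1, e2, e3, e4, e5, e6] at h1
  exact h1

theorem arch_energy (h : Factn N a b) :
    (a.natDegree : ℝ) * Real.logb 2 (N * (N - 1)) - Real.logb 2 (N * (N - 1) / 2)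
      - a.natDegree * Real.logb 2 a.natDegree
      - (a.natDegree : ℝ) ^ 2 * Real.logb 2 (2 * N) / (N - 1)
    ≤ Real.logb 2 |((resultant a b : ℤ) : ℝ)| := by
  have hN := h.hN
  have hN4 : (4 : ℝ) ≤ N := by exact_mod_cast hN
  have hN1 : (0 : ℝ) < (N : ℝ) - 1 := by linarith
  have hcast : ((N - 1 : ℕ) : ℝ) = (N : ℝ) - 1 := by
    rw [Nat.cast_sub (by omega)]; norm_num
  have hNm : N - 1 ≠ 0 := by omega
  set d := a.natDegree with hd
  have hd1 : 1 ≤ d := h.da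
  have hdpos : (0 : ℝ) < d := by exact_mod_cast hd1
  -- the radius
  set r : ℝ := (2 * N : ℝ) ^ (((N - 1 : ℕ) : ℝ)⁻¹) with hr
  have h2N : (0 : ℝ) < 2 * N := by linarith
  have hrpos : 0 < r := Real.rpow_pos_of_pos h2N _
  have hrpow : r ^ (N - 1) = 2 * N := Real.rpow_inv_natCast_pow h2N.le hNm
  have hroots : ∀ x ∈ rts ℂ a, ‖x‖ ≤ r := by
    intro x hx
    have hxg : x ∈ rts ℂ (g N) := (mem_rts_g h).2 (Or.inl hx)
    have h1 := norm_pow_lt hN hxg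
    rw [← hrpow] at h1
    exact (lt_of_pow_lt_pow_left₀ _ hrpos.le h1).le
  have hhad := hadamard (rts ℂ a) r hrpos hroots
  rw [card_rts h] at hhad
  have hA0 : 0 ≤ ∏ x ∈ rts ℂ a, ∏ y ∈ (rts ℂ a).erase x, ‖x - y‖ :=
    Finset.prod_nonneg fun x _ => Finset.prod_nonneg fun y _ => norm_nonneg _
  -- a(0)
  have ha0 : ((|a.eval 0| : ℤ) : ℝ) ≤ r ^ d := by
    have h1 := eval_zero_pow_le h
    rw [← hrpow, ← pow_mul, mul_comm (N - 1) _, pow_mul] at h1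
    exact le_of_pow_le_pow_left₀ hNm (by positivity) h1
  have ha1 : ((|a.eval 1| : ℤ) : ℝ) ≤ (N : ℝ) * (N - 1) / 2 := by
    have h1 := abs_eval_one_le h
    have h2 : ((2 * |a.eval 1| : ℤ) : ℝ) ≤ (((N : ℤ) * (N - 1) : ℤ) : ℝ) := by exact_mod_cast h1
    push_cast at h2
    push_cast
    linarith
  have ha0' : (0 : ℝ) ≤ ((|a.eval 0| : ℤ) : ℝ) := by exact_mod_cast abs_nonneg _
  have ha1' : (0 : ℝ) ≤ ((|a.eval 1| : ℤ) : ℝ) := by exact_mod_cast abs_nonneg _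
  have hnorm := ArchEnergy_norm h
  set R := |((resultant a b : ℤ) : ℝ)| with hR
  have hRpos : 0 < R := by
    rw [hR]
    apply abs_pos.mpr
    exact_mod_cast res_ne_zero h
  have hNN : (0 : ℝ) < (N : ℝ) * (N - 1) := by positivity
  have hmain : ((N : ℝ) * (N - 1)) ^ d ≤
      ((d : ℝ) ^ d * r ^ (d * (d - 1))) * R * (r ^ d * ((N : ℝ) * (N - 1) / 2)) := by
    rw [← hnorm]
    apply mul_le_mul
    · exact mul_le_mul_of_nonneg_right hhad hRpos.le
    · exact mul_le_mul ha0 ha1 ha1' (by positivity)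
    · exact mul_nonneg ha0' ha1'
    · positivity
  have hexp : ((d : ℝ) ^ d * r ^ (d * (d - 1))) * R * (r ^ d * ((N : ℝ) * (N - 1) / 2)) =
      (d : ℝ) ^ d * r ^ (d * d) * R * ((N : ℝ) * (N - 1) / 2) := by
    have e : d * (d - 1) + d = d * d := by
      obtain ⟨m, hm⟩ : ∃ m, d = m + 1 := ⟨d - 1, by omega⟩
      rw [hm, Nat.add_sub_cancel]; ring
    rw [← e, pow_add]; ring
  rw [hexp] at hmain
  have hlog := Real.logb_le_logb_of_le (b := 2) (by norm_num) (by positivity) hmain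
  have hrlog : Real.logb 2 r = Real.logb 2 (2 * N) / (N - 1) := by
    rw [hr, Real.logb_rpow_eq_mul_logb_of_pos h2N, hcast]
    field_simp
  rw [Real.logb_mul (by positivity) (by positivity), Real.logb_mul (by positivity) (by positivity),
    Real.logb_mul (by positivity) (by positivity), Real.logb_pow, Real.logb_pow, Real.logb_pow,
    hrlog] at hlog
  have e2 : ((d * d : ℕ) : ℝ) * (Real.logb 2 (2 * N) / (N - 1)) =
      (d : ℝ) ^ 2 * Real.logb 2 (2 * N) / (N - 1) := by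
    push_cast; ring
  rw [e2] at hlog
  linarith

end Pool.Agent.IRR
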