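import Pool.Agent.IRR.Rts

/-!
# IRR.ArchRoots: complex size of the roots and of `a(0)`, `a(1)` (diff 2)

* `|x| > 1`: if `|x| ≤ 1`, then `(X-1) g = X^(N-1) + ... + X - (N-1)` (`g_mul`) gives
  `x^(N-1) + ... + x = N-1`, real parts are `≤ 1`, so `Re x = 1`, `x = 1`, but `g(1) ≠ 0`.
* `|x|^N = |N(x-1)+1| ≤ N|x| + (N-1) < (2N-1)|x|`, so `|x|^(N-1) < 2N`.
* `|a(0)| = ∏|x| > 1` is an integer, so `≥ 2`; `2^(N-1) ≤ ∏ |x|^(N-1) ≤ (2N)^d`.
* `a(1) b(1) = g(1) = N(N-1)/2`, integers, nonzero.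
-/

namespace Pool.Agent.IRR

open Polynomial

variable {N : ℕ} {a b : ℤ[X]}

lemma ArchRoots_g_ne (hN : 4 ≤ N) : g N ≠ 0 := (g_monic N (by omega)).ne_zero

lemma ArchRoots_sum (hN : 4 ≤ N) {x : ℂ} (hx : x ∈ rts ℂ (g N)) :
    ∑ k ∈ Finset.range (N - 1), x ^ (k + 1) = (N : ℂ) - 1 := by
  have h0 := (mem_rts (ArchRoots_g_ne hN)).1 hx
  have h1 := g_mul N (by omega)
  have h2 := congrArg (fun q : ℤ[X] => ev q x) h1
  simp only [ev_mul, ev_sub, h0, mul_zero, ev_C] at h2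
  have h3 : ev (∑ k ∈ Finset.range (N - 1), (X : ℤ[X]) ^ (k + 1)) x =
      ∑ k ∈ Finset.range (N - 1), x ^ (k + 1) := by
    rw [ev_eq_aeval, map_sum]
    simp
  rw [h3] at h2
  push_cast at h2
  linear_combination -h2

theorem one_lt_norm (hN : 4 ≤ N) {x : ℂ} (hx : x ∈ rts ℂ (g N)) : 1 < ‖x‖ := by
  by_contra hcon
  push Not at hcon
  have h0 := (mem_rts (ArchRoots_g_ne hN)).1 hx
  have hx1 : x ≠ 1 := root_ne_one (by omega) h0
  have hs := congrArg Complex.re (ArchRoots_sum hN hx)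
  rw [Complex.re_sum] at hs
  have hre : ∀ k ∈ Finset.range (N - 1), (x ^ (k + 1)).re ≤ 1 := by
    intro k _
    calc (x ^ (k + 1)).re ≤ ‖x ^ (k + 1)‖ := Complex.re_le_norm _
      _ = ‖x‖ ^ (k + 1) := norm_pow _ _
      _ ≤ 1 := pow_le_one₀ (norm_nonneg _) hcon
  have hlt : x.re < 1 := by
    have h1 : x.re ≤ 1 := (Complex.re_le_norm _).trans hcon
    rcases h1.lt_or_eq with h | h
    · exact h
    · exfalso
      apply hx1
      have h2 : ‖x‖ ^ 2 = x.re ^ 2 + x.im ^ 2 := by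
        rw [← Complex.normSq_eq_norm_sq, Complex.normSq_apply]; ring
      have h3 : ‖x‖ ^ 2 ≤ 1 := by
        have := norm_nonneg x
        nlinarith
      have h4 : x.im = 0 := by
        rw [h] at h2
        have : x.im ^ 2 ≤ 0 := by linarith
        exact pow_eq_zero_iff (two_ne_zero) |>.1 (le_antisymm this (sq_nonneg _))
      exact Complex.ext h h4
  have hlt2 : ∑ k ∈ Finset.range (N - 1), (x ^ (k + 1)).re <
      ∑ k ∈ Finset.range (N - 1), (1 : ℝ) := by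
    apply Finset.sum_lt_sum hre
    refine ⟨0, Finset.mem_range.2 (by omega), ?_⟩
    simpa using hlt
  rw [hs] at hlt2
  simp only [Finset.sum_const, Finset.card_range, nsmul_eq_mul, mul_one, Complex.sub_re,
    Complex.natCast_re, Complex.one_re] at hlt2
  have : ((N - 1 : ℕ) : ℝ) = (N : ℝ) - 1 := by
    rw [Nat.cast_sub (by omega)]; simp
  rw [this] at hlt2
  exact lt_irrefl _ hlt2

theorem norm_pow_lt (hN : 4 ≤ N) {x : ℂ} (hx : x ∈ rts ℂ (g N)) : ‖x‖ ^ (N - 1) < 2 * N := by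
  have h0 := (mem_rts (ArchRoots_g_ne hN)).1 hx
  have h1 := one_lt_norm hN hx
  have h2 := root_pow (by omega) h0
  have hNr : (4 : ℝ) ≤ N := by exact_mod_cast hN
  have h3 : ‖x‖ ^ N ≤ N * ‖x‖ + (N - 1) := by
    rw [← norm_pow, h2]
    have e : (N : ℂ) * (x - 1) + 1 = N * x - ((N - 1 : ℝ) : ℂ) := by push_cast; ring
    rw [e]
    refine (norm_sub_le _ _).trans ?_
    rw [norm_mul, Complex.norm_natCast, Complex.norm_real, Real.norm_eq_abs,
      abs_of_nonneg (by linarith)]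
  have h4 : ‖x‖ ^ N = ‖x‖ ^ (N - 1) * ‖x‖ := by
    rw [← pow_succ]
    congr 1
    omega
  rw [h4] at h3
  have h5 : ‖x‖ ^ (N - 1) * ‖x‖ < 2 * N * ‖x‖ := by nlinarith
  exact lt_of_mul_lt_mul_right h5 (by linarith)

lemma ArchRoots_mem (h : Factn N a b) {x : ℂ} (hx : x ∈ rts ℂ a) : x ∈ rts ℂ (g N) :=
  (mem_rts_g h).2 (Or.inl hx)

lemma ArchRoots_eval0 (h : Factn N a b) :
    ((|a.eval 0| : ℤ) : ℝ) = ∏ y ∈ rts ℂ a, ‖y‖ := by
  have h1 := ev_eq_prod (K := ℂ) h 0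
  have h2 := ev_intCast (K := ℂ) a 0
  rw [Int.cast_zero] at h2
  rw [h2] at h1
  have h3 := congrArg norm h1
  rw [norm_prod, Complex.norm_intCast] at h3
  rw [Int.cast_abs, h3]
  apply Finset.prod_congr rfl
  intro y _
  rw [zero_sub, norm_neg]

theorem two_le_eval_zero (h : Factn N a b) : 2 ≤ |a.eval 0| := by
  have hc : (rts ℂ a).Nonempty := by
    rw [← Finset.card_pos, card_rts h]
    exact h.da
  have h1 : (1 : ℝ) < ∏ y ∈ rts ℂ a, ‖y‖ := by
    have h2 : ∏ y ∈ rts ℂ a, (1 : ℝ) < ∏ y ∈ rts ℂ a, ‖y‖ := by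
      apply Finset.prod_lt_prod_of_nonempty
      · intro i _; norm_num
      · intro i hi
        exact one_lt_norm h.hN (ArchRoots_mem h hi)
      · exact hc
    simpa using h2
  rw [← ArchRoots_eval0 h] at h1
  have h2 : (1 : ℤ) < |a.eval 0| := by exact_mod_cast h1
  omega

/-- `|a(0)| ≤ (2N)^(d/(N-1))` -/
theorem eval_zero_pow_le (h : Factn N a b) :
    ((|a.eval 0| : ℤ) : ℝ) ^ (N - 1) ≤ (2 * N : ℝ) ^ a.natDegree := by
  rw [ArchRoots_eval0 h, ← Finset.prod_pow]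
  calc ∏ y ∈ rts ℂ a, ‖y‖ ^ (N - 1) ≤ ∏ y ∈ rts ℂ a, (2 * N : ℝ) := by
        apply Finset.prod_le_prod
        · intro i _; positivity
        · intro i hi
          exact (norm_pow_lt h.hN (ArchRoots_mem h hi)).le
    _ = (2 * N : ℝ) ^ a.natDegree := by
        rw [Finset.prod_const, card_rts h]

theorem two_pow_le (h : Factn N a b) : 2 ^ (N - 1) ≤ (2 * N) ^ a.natDegree := by
  have h1 := eval_zero_pow_le h
  have h2 := two_le_eval_zero h
  have h3 : (2 : ℝ) ≤ ((|a.eval 0| : ℤ) : ℝ) := by exact_mod_cast h2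
  have h4 : (2 : ℝ) ^ (N - 1) ≤ (2 * N : ℝ) ^ a.natDegree :=
    (pow_le_pow_left₀ (by norm_num) h3 _).trans h1
  exact_mod_cast h4

theorem eval_one_ne_zero (h : Factn N a b) : a.eval 1 ≠ 0 := by
  intro h0
  have h1 := g_eval_one N (by have := h.hN; omega)
  rw [← h.hab, eval_mul, h0, zero_mul, mul_zero] at h1
  have hN := h.hN
  have : (0 : ℤ) < (N : ℤ) * (N - 1) := by
    have : (4 : ℤ) ≤ N := by exact_mod_cast hN
    nlinarith
  omega

theorem abs_eval_one_le (h : Factn N a b) : 2 * |a.eval 1| ≤ (N : ℤ) * (N - 1) := by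
  have h1 := g_eval_one N (by have := h.hN; omega)
  rw [← h.hab, eval_mul] at h1
  have hb : b.eval 1 ≠ 0 := eval_one_ne_zero h.symm
  have hb1 : 1 ≤ |b.eval 1| := Int.one_le_abs hb
  rw [← h1]
  have hN : (4 : ℤ) ≤ N := by exact_mod_cast h.hN
  have hpos : 0 ≤ 2 * (a.eval 1 * b.eval 1) := by rw [h1]; nlinarith
  calc 2 * |a.eval 1| ≤ 2 * (|a.eval 1| * |b.eval 1|) := by
        have := abs_nonneg (a.eval 1)
        nlinarith
    _ = |2 * (a.eval 1 * b.eval 1)| := by rw [abs_mul, abs_mul, abs_two]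
    _ = 2 * (a.eval 1 * b.eval 1) := abs_of_nonneg hpos

end Pool.Agent.IRR
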