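import Pool.Agent.IRR.ArchRoots
import Pool.Agent.IRR.Res

/-!
# IRR.ArchT3: size of `Res(a, X^R - 1)` (diff 1-2)

`Res = ∏ (x^R - 1)` (`res_cyc` with `K = ℂ`), `x^R ≠ 1` as `|x| > 1`, `|x^R - 1| ≤ 2 |x|^R`,
`|x|^(N-1) < 2N`, so `log2 |x^R - 1| ≤ 1 + R log2(2N)/(N-1)`.
-/

namespace Pool.Agent.IRR

open Polynomial

variable {N : ℕ} {a b : ℤ[X]}

theorem arch_t3 (h : Factn N a b) (R : ℕ) (hR : 1 ≤ R) :
    resultant a (X ^ R - 1) ≠ 0 ∧
    Real.logb 2 |((resultant a (X ^ R - 1) : ℤ) : ℝ)| ≤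
      a.natDegree * (1 + R * Real.logb 2 (2 * N) / (N - 1)) := by
  have hres := res_cyc (K := ℂ) h R
  have hN : 4 ≤ N := h.hN
  have hx1 : ∀ x ∈ rts ℂ a, 1 < ‖x‖ := fun x hx =>
    one_lt_norm hN ((mem_rts_g h).mpr (Or.inl hx))
  have hne : ∀ x ∈ rts ℂ a, x ^ R - 1 ≠ 0 := by
    intro x hx h0
    have h1 : x ^ R = 1 := sub_eq_zero.mp h0
    have h2 : ‖x‖ ^ R = 1 := by rw [← norm_pow, h1, norm_one]
    have h3 := one_lt_pow₀ (hx1 x hx) (n := R) (by omega)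
    rw [h2] at h3
    exact lt_irrefl _ h3
  have hprod : ∏ x ∈ rts ℂ a, (x ^ R - 1) ≠ 0 := Finset.prod_ne_zero_iff.mpr hne
  constructor
  · intro h0
    rw [← hres, h0] at hprod
    simp at hprod
  · have habs : |((resultant a (X ^ R - 1) : ℤ) : ℝ)| = ∏ x ∈ rts ℂ a, ‖x ^ R - 1‖ := by
      have h1 : ‖((resultant a (X ^ R - 1) : ℤ) : ℂ)‖ = |((resultant a (X ^ R - 1) : ℤ) : ℝ)| :=
        Complex.norm_intCast _
      rw [← h1, hres, norm_prod]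
    have hpos : ∀ x ∈ rts ℂ a, ‖x ^ R - 1‖ ≠ 0 := fun x hx => norm_ne_zero_iff.mpr (hne x hx)
    rw [habs, Real.logb_prod _ _ hpos, ← card_rts (K := ℂ) h, ← nsmul_eq_mul]
    apply Finset.sum_le_card_nsmul
    intro x hx
    have hx0 : 0 < ‖x‖ := lt_trans one_pos (hx1 x hx)
    have h1 : ‖x ^ R - 1‖ ≤ 2 * ‖x‖ ^ R := by
      calc ‖x ^ R - 1‖ ≤ ‖x ^ R‖ + ‖(1 : ℂ)‖ := norm_sub_le _ _
        _ = ‖x‖ ^ R + 1 := by rw [norm_pow, norm_one]
        _ ≤ 2 * ‖x‖ ^ R := by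
          have := one_lt_pow₀ (hx1 x hx) (n := R) (by omega)
          linarith
    have h2 : Real.logb 2 ‖x ^ R - 1‖ ≤ 1 + R * Real.logb 2 ‖x‖ := by
      calc Real.logb 2 ‖x ^ R - 1‖ ≤ Real.logb 2 (2 * ‖x‖ ^ R) :=
            Real.logb_le_logb_of_le (by norm_num) (lt_of_le_of_ne (norm_nonneg _)
              (hpos x hx).symm) h1
        _ = 1 + R * Real.logb 2 ‖x‖ := by
          rw [Real.logb_mul (by norm_num) (by positivity), Real.logb_pow,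
            Real.logb_self_eq_one (by norm_num)]
    have hN1 : (0 : ℝ) < N - 1 := by
      have : (4 : ℝ) ≤ N := by exact_mod_cast hN
      linarith
    have h3 : (N - 1 : ℝ) * Real.logb 2 ‖x‖ ≤ Real.logb 2 (2 * N) := by
      have h4 := norm_pow_lt hN ((mem_rts_g h).mpr (Or.inl hx) : x ∈ rts ℂ (g N))
      have h5 : Real.logb 2 (‖x‖ ^ (N - 1)) ≤ Real.logb 2 (2 * N) :=
        Real.logb_le_logb_of_le (by norm_num) (by positivity) h4.le
      rw [Real.logb_pow, Nat.cast_sub (by omega), Nat.cast_one] at h5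
      exact h5
    have h6 : Real.logb 2 ‖x‖ ≤ Real.logb 2 (2 * N) / (N - 1) := by
      rw [le_div_iff₀ hN1, mul_comm]
      exact h3
    calc Real.logb 2 ‖x ^ R - 1‖ ≤ 1 + R * Real.logb 2 ‖x‖ := h2
      _ ≤ 1 + R * (Real.logb 2 (2 * N) / (N - 1)) := by gcongr
      _ = _ := by ring

end Pool.Agent.IRR
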