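import Pool.Agent.IRR.Defs

/-!
# IRR.Basic: elementary facts on `g N`, `f N`, and the evaluation map `ev` (diff 1)

`(X-1) g = X^(N-1) + ... + X - (N-1)` and `(X-1)^2 g = f`.
-/

namespace Pool.Agent.IRR

open Polynomial

/-- Shifted recursion for the coefficients polynomial. -/
private theorem Basic_aux (m : ℕ) :
    (X - 1 : ℤ[X]) * (∑ k ∈ Finset.range m, C ((m : ℤ) - k) * X ^ k) =
      (∑ k ∈ Finset.range m, X ^ (k + 1)) - C (m : ℤ) := by
  induction m with
  | zero => simp
  | succ m ih =>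
    have h1 : (∑ k ∈ Finset.range (m + 1), C (((m + 1 : ℕ) : ℤ) - k) * X ^ k : ℤ[X]) =
        (∑ k ∈ Finset.range m, C ((m : ℤ) - k) * X ^ k) + ∑ k ∈ Finset.range (m + 1), X ^ k := by
      rw [Finset.sum_range_succ, Finset.sum_range_succ (f := fun k => (X : ℤ[X]) ^ k),
        ← add_assoc, ← Finset.sum_add_distrib]
      congr 1
      · refine Finset.sum_congr rfl fun k _ => ?_
        push_cast
        simp only [map_sub, map_add, map_natCast, map_one]
        ring
      · push_cast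
        simp
    rw [h1, mul_add, ih]
    have h2 : (X - 1 : ℤ[X]) * ∑ k ∈ Finset.range (m + 1), X ^ k = X ^ (m + 1) - 1 := by
      rw [mul_comm]; exact geom_sum_mul X (m + 1)
    rw [h2, Finset.sum_range_succ]
    push_cast
    simp only [map_add, map_one]
    ring

private theorem Basic_g_eq (N : ℕ) (hN : 2 ≤ N) :
    g N = ∑ k ∈ Finset.range (N - 1), C (((N - 1 : ℕ) : ℤ) - k) * X ^ k := by
  unfold g
  refine Finset.sum_congr rfl fun k _ => ?_
  rw [Nat.cast_sub (by omega)]
  push_cast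
  ring

theorem g_mul (N : ℕ) (hN : 2 ≤ N) :
    (X - 1 : ℤ[X]) * g N = (∑ k ∈ Finset.range (N - 1), X ^ (k + 1)) - C ((N : ℤ) - 1) := by
  rw [Basic_g_eq N hN, Basic_aux, Nat.cast_sub (by omega)]
  push_cast
  rfl

theorem f_eq (N : ℕ) (hN : 2 ≤ N) : (X - 1 : ℤ[X]) ^ 2 * g N = f N := by
  rw [pow_two, mul_assoc, g_mul N hN, mul_sub]
  have h2 : (X - 1 : ℤ[X]) * ∑ k ∈ Finset.range (N - 1), X ^ (k + 1) = X ^ N - X := by
    have h3 := geom_sum_mul (X : ℤ[X]) (N - 1)
    have h4 : (∑ k ∈ Finset.range (N - 1), X ^ (k + 1) : ℤ[X]) =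
        X * ∑ k ∈ Finset.range (N - 1), X ^ k := by
      rw [Finset.mul_sum]
      exact Finset.sum_congr rfl fun k _ => pow_succ' X k
    rw [h4]
    have h5 : (X : ℤ[X]) ^ N = X * X ^ (N - 1) := by
      rw [← pow_succ']
      congr 1
      omega
    rw [h5]
    linear_combination X * h3
  rw [h2]
  unfold f
  simp only [map_sub, map_one]
  ring

private theorem Basic_coeff (N k : ℕ) (hk : k < N - 1) : (g N).coeff k = (N : ℤ) - 1 - k := by
  unfold g
  rw [finsetSum_coeff]
  simp only [coeff_C_mul, coeff_X_pow]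
  rw [Finset.sum_eq_single k]
  · simp
  · intro b _ hb
    rw [if_neg (fun h => hb h.symm), mul_zero]
  · intro h
    exact absurd (Finset.mem_range.2 hk) h

private theorem Basic_degree_lt (N : ℕ) (hN : 2 ≤ N) : (g N).natDegree ≤ N - 2 := by
  unfold g
  apply natDegree_sum_le_of_forall_le
  intro k hk
  have := Finset.mem_range.1 hk
  exact (natDegree_C_mul_X_pow_le _ _).trans (by omega)

theorem g_monic (N : ℕ) (hN : 2 ≤ N) : (g N).Monic := by
  apply monic_of_natDegree_le_of_coeff_eq_one (N - 2) (Basic_degree_lt N hN)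
  rw [Basic_coeff N (N - 2) (by omega), Nat.cast_sub hN]
  push_cast
  ring

theorem g_natDegree (N : ℕ) (hN : 2 ≤ N) : (g N).natDegree = N - 2 := by
  refine le_antisymm (Basic_degree_lt N hN) (le_natDegree_of_ne_zero ?_)
  rw [Basic_coeff N (N - 2) (by omega), Nat.cast_sub hN]
  push_cast
  ring_nf
  exact one_ne_zero

theorem g_coeff_zero (N : ℕ) (hN : 2 ≤ N) : (g N).coeff 0 = (N : ℤ) - 1 := by
  rw [Basic_coeff N 0 (by omega)]
  push_cast
  ring

theorem g_coeff_one (N : ℕ) (hN : 3 ≤ N) : (g N).coeff 1 = (N : ℤ) - 2 := by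
  rw [Basic_coeff N 1 (by omega)]
  push_cast
  ring

private theorem Basic_sum (m : ℕ) :
    2 * (∑ k ∈ Finset.range m, ((m : ℤ) - k)) = (m : ℤ) * (m + 1) := by
  induction m with
  | zero => simp
  | succ m ih =>
    have h : ∑ k ∈ Finset.range (m + 1), (((m + 1 : ℕ) : ℤ) - k) =
        (∑ k ∈ Finset.range m, ((m : ℤ) - k)) + (m + 1) := by
      rw [Finset.sum_range_succ]
      have : ∀ k ∈ Finset.range m, (((m + 1 : ℕ) : ℤ) - k) = ((m : ℤ) - k) + 1 := by
        intro k _; push_cast; ring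
      rw [Finset.sum_congr rfl this, Finset.sum_add_distrib]
      push_cast
      simp
      ring
    rw [h, mul_add, ih]
    push_cast
    ring

theorem g_eval_one (N : ℕ) (hN : 2 ≤ N) : 2 * (g N).eval 1 = (N : ℤ) * (N - 1) := by
  have h := Basic_sum (N - 1)
  have h1 : (g N).eval 1 = ∑ k ∈ Finset.range (N - 1), (((N - 1 : ℕ) : ℤ) - k) := by
    rw [Basic_g_eq N hN, eval_finsetSum]
    refine Finset.sum_congr rfl fun k _ => ?_
    simp
  rw [h1, h, Nat.cast_sub (by omega)]
  push_cast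
  ring

section ev

variable {K : Type*} [Field K]

theorem ev_mul (a b : ℤ[X]) (x : K) : ev (a * b) x = ev a x * ev b x := by
  simp [ev]

theorem ev_add (a b : ℤ[X]) (x : K) : ev (a + b) x = ev a x + ev b x := by
  simp [ev]

theorem ev_sub (a b : ℤ[X]) (x : K) : ev (a - b) x = ev a x - ev b x := by
  simp [ev]

theorem ev_pow (a : ℤ[X]) (k : ℕ) (x : K) : ev (a ^ k) x = ev a x ^ k := by
  simp [ev]

theorem ev_X (x : K) : ev (X : ℤ[X]) x = x := by
  simp [ev]

theorem ev_C (c : ℤ) (x : K) : ev (C c : ℤ[X]) x = (c : K) := by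
  simp [ev]

theorem ev_one (x : K) : ev (1 : ℤ[X]) x = 1 := by
  simp [ev]

theorem ev_eq_aeval (a : ℤ[X]) (x : K) : ev a x = aeval x a := by
  unfold ev
  rw [eval_map, aeval_def]
  rfl

theorem ev_intCast (a : ℤ[X]) (c : ℤ) : ev a (c : K) = ((a.eval c : ℤ) : K) := by
  unfold ev
  rw [eval_map, eval₂_at_intCast]
  rfl

end ev

end Pool.Agent.IRR
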