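import Pool.Agent.IRR.Defs

/-!
# IRR.Comb: the abstract inequalities (diff 2-3)

`0 ≤ m_i ≤ D_i`, `D_1 = p`, `D_i = p^i - p^(i-1)` (`i ≥ 2`), `D_1 + ... + D_k = p^k` (`k ≥ 1`), `D_i ≤ D_k` for
`1 ≤ i ≤ k`.  `V = ∑_{1≤i<k≤e, s_i≠s_k} m_i m_k / D_k`, `U = ∑_{s_i} m_i`; `A = {s = true}`, `B` = the rest.
* comb1: a pair `(i<k)` contributes at most `m` of its member in `A` (`m_i m_k/D_k ≤ m_i`, and
  `≤ m_k` as `m_i ≤ D_i ≤ D_k`); each member of `A` is in at most `e-1` pairs.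
* comb3: the same for the members `< e` of `A`.  If `e ∈ A`: its pairs contribute
  `(m_e/D_e) ∑_{i<e} m_i ≤ m_e p^(e-1)/D_e = m_e/(p-1)` for `e ≥ 2` (and nothing if `e = 1`).
* comb2: let `h_k(j) = p^(k+1)/((p²-1) p^j)`, `V_k` = the sum over the indices `≤ k`, `U_{k,S}` the size of the
  side `S ∈ {A, B}`.
  (C1) `V_k + U_{k,S} ≤ p^(k+2)/(p²-1)` for both `S`: induction on `k`; the top index `k` may be assumed to be
  on the side `S` or not: if not, `V_k + U_{k,S} ≤ V_{k-1} + 2 U_{k-1,S} ≤ p^(k+1)/(p²-1) + p^(k-1)` (`≤ p^(k+2)/(p²-1)`);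
  if it is, `≤ V_{k-1} + U_{k-1,other} + U_{k-1,S} + D_k ≤ p^k/(p²-1) + p^(k-1) + (p^k - p^(k-1)) = p^(k+2)/(p²-1)`
  (`k ≥ 2`; `V_{k-1} ≤ p^k/(p²-1)` is (C0) below; `k ≤ 1` directly, `p ≤ p³/(p²-1)`).
  (C0) `V_k ≤ V_{k-1} + U_{k-1,other side} ≤ p^(k+1)/(p²-1) = h_k(0)` by (C1) for `k-1`.
  Then `V_k ≤ j U_{k,A} + h_k(j)` by induction on `k`: `j = 0` is (C0).  `j ≥ 1`: top index in `A`:
  `V_k - j U_k = V_{k-1} - j U_{k-1} + m_k (U_{k-1,B}/D_k - j) ≤ h_{k-1}(j) ≤ h_k(j)` as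
  `U_{k-1,B} ≤ p^(k-1) ≤ D_k` (`k ≥ 2`); top index in `B`: `V_k ≤ V_{k-1} + U_{k-1,A}`,
  `V_k - j U ≤ V_{k-1} - (j-1) U_{k-1} ≤ h_{k-1}(j-1) = h_k(j)`.
-/

namespace Pool.Agent.IRR

variable {p e : ℕ} {m : ℕ → ℝ} {s : ℕ → Bool}

theorem Comb_U_succ (k : ℕ) (m : ℕ → ℝ) (s : ℕ → Bool) :
    combU (k + 1) m s = combU k m s + if s (k + 1) then m (k + 1) else 0 := by
  unfold combU
  rw [Finset.sum_Icc_succ_top (by omega)]

theorem Comb_V_succ (p k : ℕ) (m : ℕ → ℝ) (s : ℕ → Bool) :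
    combV p (k + 1) m s = combV p k m s + m (k + 1) / (D p (k + 1) : ℝ) *
      (if s (k + 1) then combU k m (fun i => !s i) else combU k m s) := by
  unfold combV combU
  rw [Finset.sum_Icc_succ_top (by omega)]
  have h0 : Finset.Ioc (k + 1) (k + 1) = ∅ := by simp
  rw [h0, Finset.sum_empty, add_zero]
  have h1 : ∀ i ∈ Finset.Icc 1 k, (∑ j ∈ Finset.Ioc i (k + 1),
      if s i = s j then (0 : ℝ) else m i * m j / (D p j : ℝ)) =
      (∑ j ∈ Finset.Ioc i k, if s i = s j then (0 : ℝ) else m i * m j / (D p j : ℝ)) +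
        if s i = s (k + 1) then 0 else m i * m (k + 1) / (D p (k + 1) : ℝ) := by
    intro i hi
    rw [Finset.mem_Icc] at hi
    rw [Finset.sum_Ioc_succ_top (by omega)]
  rw [Finset.sum_congr rfl h1, Finset.sum_add_distrib]
  congr 1
  cases hs : s (k + 1)
  · simp only [Bool.false_eq_true, if_false]
    rw [Finset.mul_sum]
    refine Finset.sum_congr rfl fun i _ => ?_
    by_cases h : s i = true
    · simp only [h, Bool.true_eq_false, if_false, if_true]
      ring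
    · rw [Bool.not_eq_true] at h
      simp [h]
  · simp only [if_true]
    rw [Finset.mul_sum]
    refine Finset.sum_congr rfl fun i _ => ?_
    by_cases h : s i = true
    · simp [h]
    · rw [Bool.not_eq_true] at h
      simp only [h, Bool.false_eq_true, if_false, Bool.not_false, if_true]
      ring

theorem Comb_U_nonneg (hm : ∀ i, 0 ≤ m i ∧ m i ≤ D p i) (k : ℕ) (s : ℕ → Bool) :
    0 ≤ combU k m s := by
  unfold combU
  refine Finset.sum_nonneg fun i _ => ?_
  split_ifs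
  · exact (hm i).1
  · exact le_refl _

theorem Comb_D_succ (hp : 2 ≤ p) (k : ℕ) (hk : 1 ≤ k) :
    (D p (k + 1) : ℝ) = (p : ℝ) ^ (k + 1) - (p : ℝ) ^ k := by
  unfold D
  rw [if_neg (by omega)]
  have : k + 1 - 1 = k := by omega
  rw [this]
  push_cast [Nat.cast_sub (by omega : 1 ≤ p)]
  ring

theorem Comb_UU (hp : 2 ≤ p) (hm : ∀ i, 0 ≤ m i ∧ m i ≤ D p i) (k : ℕ) (hk : 1 ≤ k)
    (s : ℕ → Bool) : combU k m s + combU k m (fun i => !s i) ≤ (p : ℝ) ^ k := by
  induction k, hk using Nat.le_induction with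
  | base =>
    have h1 := (hm 1).2
    have hD : (D p 1 : ℝ) = p := by simp [D]
    rw [hD] at h1
    unfold combU
    simp only [Finset.Icc_self, Finset.sum_singleton, pow_one]
    by_cases h : s 1 = true
    · simpa [h] using h1
    · rw [Bool.not_eq_true] at h
      simpa [h] using h1
  | succ k hk ih =>
    rw [Comb_U_succ, Comb_U_succ]
    have h1 := (hm (k + 1)).2
    rw [Comb_D_succ hp k hk] at h1
    cases hs : s (k + 1)
    · simp only [Bool.false_eq_true, if_false, Bool.not_false, if_true]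
      linarith
    · simp only [if_true, Bool.not_true, Bool.false_eq_true, if_false]
      linarith

theorem Comb_U_le (hp : 2 ≤ p) (hm : ∀ i, 0 ≤ m i ∧ m i ≤ D p i) (k : ℕ) (hk : 1 ≤ k)
    (s : ℕ → Bool) : combU k m s ≤ (p : ℝ) ^ k := by
  have h1 := Comb_UU hp hm k hk s
  have h2 := Comb_U_nonneg hm k (fun i => !s i)
  linarith

theorem Comb_D_pos (hp : 2 ≤ p) (k : ℕ) (hk : 1 ≤ k) : (0 : ℝ) < D p (k + 1) := by
  rw [Comb_D_succ hp k hk, pow_succ]
  have h2 : (2 : ℝ) ≤ p := by exact_mod_cast hp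
  have h3 : (0 : ℝ) < (p : ℝ) ^ k := by positivity
  nlinarith

theorem Comb_D_ge (hp : 2 ≤ p) (k : ℕ) (hk : 1 ≤ k) : (p : ℝ) ^ k ≤ D p (k + 1) := by
  rw [Comb_D_succ hp k hk, pow_succ]
  have h2 : (2 : ℝ) ≤ p := by exact_mod_cast hp
  have h3 : (0 : ℝ) < (p : ℝ) ^ k := by positivity
  nlinarith

/-- the cross term with the top index is at most the other side -/
theorem Comb_top_le (hp : 2 ≤ p) (hm : ∀ i, 0 ≤ m i ∧ m i ≤ D p i) (k : ℕ) (hk : 1 ≤ k)
    (t : ℕ → Bool) : m (k + 1) / (D p (k + 1) : ℝ) * combU k m t ≤ combU k m t := by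
  have hD := Comb_D_pos hp k hk
  have h1 : m (k + 1) / (D p (k + 1) : ℝ) ≤ 1 := by
    rw [div_le_one hD]
    exact (hm (k + 1)).2
  have h2 := Comb_U_nonneg hm k t
  nlinarith

/-- the cross term with the top index is at most `m (k+1)` -/
theorem Comb_top_le' (hp : 2 ≤ p) (hm : ∀ i, 0 ≤ m i ∧ m i ≤ D p i) (k : ℕ) (hk : 1 ≤ k)
    (t : ℕ → Bool) : m (k + 1) / (D p (k + 1) : ℝ) * combU k m t ≤ m (k + 1) := by
  have hD := Comb_D_pos hp k hk
  have h2 : combU k m t ≤ D p (k + 1) := (Comb_U_le hp hm k hk t).trans (Comb_D_ge hp k hk)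
  rw [div_mul_eq_mul_div, div_le_iff₀ hD]
  exact mul_le_mul_of_nonneg_left h2 (hm (k + 1)).1

theorem Comb_V_one (p : ℕ) (m : ℕ → ℝ) (s : ℕ → Bool) : combV p 1 m s = 0 := by
  unfold combV
  simp

theorem comb1 (hp : 2 ≤ p) (hm : ∀ i, 0 ≤ m i ∧ m i ≤ D p i) (he : 1 ≤ e) :
    combV p e m s ≤ ((e : ℝ) - 1) * combU e m s := by
  induction e, he using Nat.le_induction with
  | base => rw [Comb_V_one]; simp
  | succ k hk ih =>
    rw [Comb_V_succ, Comb_U_succ]
    have hU := Comb_U_nonneg hm k s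
    have hk1 : (1 : ℝ) ≤ k := by exact_mod_cast hk
    have hm1 := (hm (k + 1)).1
    push_cast
    cases hs : s (k + 1)
    · simp only [Bool.false_eq_true, if_false]
      have h1 := Comb_top_le hp hm k hk s
      nlinarith
    · simp only [if_true]
      have h1 := Comb_top_le' hp hm k hk (fun i => !s i)
      nlinarith

theorem Comb_C (hp : 2 ≤ p) (hm : ∀ i, 0 ≤ m i ∧ m i ≤ D p i) (k : ℕ) (hk : 1 ≤ k)
    (s : ℕ → Bool) :
    combV p k m s ≤ (p : ℝ) ^ (k + 1) / ((p : ℝ) ^ 2 - 1) ∧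
    combV p k m s + combU k m s ≤ (p : ℝ) ^ (k + 2) / ((p : ℝ) ^ 2 - 1) ∧
    combV p k m s + combU k m (fun i => !s i) ≤ (p : ℝ) ^ (k + 2) / ((p : ℝ) ^ 2 - 1) := by
  have h2 : (2 : ℝ) ≤ p := by exact_mod_cast hp
  have hq : (0 : ℝ) < (p : ℝ) ^ 2 - 1 := by nlinarith
  induction k, hk using Nat.le_induction with
  | base =>
    rw [Comb_V_one]
    have hb : (p : ℝ) ≤ (p : ℝ) ^ (1 + 2) / ((p : ℝ) ^ 2 - 1) := by
      rw [le_div_iff₀ hq]
      ring_nf
      nlinarith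
    have u1 := Comb_U_le hp hm 1 le_rfl s
    have u2 := Comb_U_le hp hm 1 le_rfl (fun i => !s i)
    rw [pow_one] at u1 u2
    refine ⟨by positivity, by linarith, by linarith⟩
  | succ k hk ih =>
    obtain ⟨c0, c1, c2⟩ := ih
    have hUU := Comb_UU hp hm k hk s
    have hUA := Comb_U_nonneg hm k s
    have hUB := Comb_U_nonneg hm k (fun i => !s i)
    have hA := Comb_U_le hp hm k hk s
    have hB := Comb_U_le hp hm k hk (fun i => !s i)
    have hm1 := (hm (k + 1)).2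
    rw [Comb_D_succ hp k hk] at hm1
    have hpk : (0 : ℝ) < (p : ℝ) ^ k := by positivity
    have e1 : (p : ℝ) ^ (k + 2) / ((p : ℝ) ^ 2 - 1) + (p : ℝ) ^ k ≤
        (p : ℝ) ^ (k + 1 + 2) / ((p : ℝ) ^ 2 - 1) := by
      rw [div_add' _ _ _ hq.ne', div_le_div_iff_of_pos_right hq]
      have : (p : ℝ) ^ 2 + (p ^ 2 - 1) ≤ (p : ℝ) ^ 3 := by nlinarith [mul_nonneg (sub_nonneg.2 h2) (sub_nonneg.2 h2)]
      have h3 := mul_le_mul_of_nonneg_left this hpk.le
      calc (p : ℝ) ^ (k + 2) + (p : ℝ) ^ k * ((p : ℝ) ^ 2 - 1)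
          = (p : ℝ) ^ k * ((p : ℝ) ^ 2 + (p ^ 2 - 1)) := by ring
        _ ≤ (p : ℝ) ^ k * (p : ℝ) ^ 3 := h3
        _ = (p : ℝ) ^ (k + 1 + 2) := by ring
    have e2 : (p : ℝ) ^ (k + 1) / ((p : ℝ) ^ 2 - 1) + (p : ℝ) ^ (k + 1) =
        (p : ℝ) ^ (k + 1 + 2) / ((p : ℝ) ^ 2 - 1) := by
      field_simp
      ring
    rw [Comb_V_succ, Comb_U_succ, Comb_U_succ]
    have tA := Comb_top_le hp hm k hk s
    have tB := Comb_top_le hp hm k hk (fun i => !s i)
    cases hs : s (k + 1)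
    · simp only [Bool.false_eq_true, if_false, Bool.not_false, if_true]
      refine ⟨by linarith, by linarith, by linarith⟩
    · simp only [if_true, Bool.not_true, Bool.false_eq_true, if_false]
      refine ⟨by linarith, by linarith, by linarith⟩

theorem comb2 (hp : 2 ≤ p) (hm : ∀ i, 0 ≤ m i ∧ m i ≤ D p i) (he : 1 ≤ e) (j : ℕ) :
    combV p e m s ≤ j * combU e m s + (p : ℝ) ^ (e + 1) / (((p : ℝ) ^ 2 - 1) * (p : ℝ) ^ j) := by
  have h2 : (2 : ℝ) ≤ p := by exact_mod_cast hp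
  have hq : (0 : ℝ) < (p : ℝ) ^ 2 - 1 := by nlinarith
  have hp0 : (0 : ℝ) < p := by linarith
  induction e, he using Nat.le_induction generalizing j with
  | base =>
    rw [Comb_V_one]
    have := Comb_U_nonneg hm 1 s
    positivity
  | succ k hk ih =>
    rcases Nat.eq_zero_or_pos j with hj | hj
    · subst hj
      have := (Comb_C hp hm (k + 1) (by omega) s).1
      simpa using this
    · obtain ⟨i, rfl⟩ : ∃ i, j = i + 1 := ⟨j - 1, by omega⟩
      rw [Comb_V_succ, Comb_U_succ]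
      have hU := Comb_U_nonneg hm k s
      cases hs : s (k + 1)
      · simp only [Bool.false_eq_true, if_false, add_zero]
        have h1 := Comb_top_le hp hm k hk s
        have h3 := ih i
        have h4 : (p : ℝ) ^ (k + 1) / (((p : ℝ) ^ 2 - 1) * (p : ℝ) ^ i) =
            (p : ℝ) ^ (k + 1 + 1) / (((p : ℝ) ^ 2 - 1) * (p : ℝ) ^ (i + 1)) := by
          field_simp
          ring
        rw [h4] at h3
        push_cast
        linarith
      · simp only [if_true]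
        have h1 := Comb_top_le' hp hm k hk (fun i => !s i)
        have h3 := ih (i + 1)
        have hm1 := (hm (k + 1)).1
        have h4 : (p : ℝ) ^ (k + 1) / (((p : ℝ) ^ 2 - 1) * (p : ℝ) ^ (i + 1)) ≤
            (p : ℝ) ^ (k + 1 + 1) / (((p : ℝ) ^ 2 - 1) * (p : ℝ) ^ (i + 1)) := by
          refine div_le_div_of_nonneg_right ?_ (by positivity)
          exact pow_le_pow_right₀ (by linarith) (by omega)
        have h5 : (0 : ℝ) ≤ i * m (k + 1) := by positivity
        push_cast at h3 ⊢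
        linarith

theorem comb3 (hp : 2 ≤ p) (hm : ∀ i, 0 ≤ m i ∧ m i ≤ D p i) (he : 1 ≤ e) :
    combV p e m s ≤ ((e : ℝ) - 1) * combU (e - 1) m s + if s e then m e / ((p : ℝ) - 1) else 0 := by
  have h2 : (2 : ℝ) ≤ p := by exact_mod_cast hp
  have hp1 : (0 : ℝ) < (p : ℝ) - 1 := by linarith
  rcases Nat.lt_or_ge 1 e with h | h
  · obtain ⟨k, rfl⟩ : ∃ k, e = k + 1 := ⟨e - 1, by omega⟩
    have hk : 1 ≤ k := by omega
    have hk1 : k + 1 - 1 = k := by omega
    rw [hk1, Comb_V_succ]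
    have hU := Comb_U_nonneg hm k s
    have h1 := comb1 (s := s) hp hm hk
    have hk1 : (1 : ℝ) ≤ k := by exact_mod_cast hk
    push_cast
    cases hs : s (k + 1)
    · simp only [Bool.false_eq_true, if_false]
      have h3 := Comb_top_le hp hm k hk s
      linarith
    · simp only [if_true]
      have hD := Comb_D_pos hp k hk
      have h3 : m (k + 1) / (D p (k + 1) : ℝ) * combU k m (fun i => !s i) ≤
          m (k + 1) / ((p : ℝ) - 1) := by
        have h4 := Comb_U_le hp hm k hk (fun i => !s i)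
        have h5 : (D p (k + 1) : ℝ) = (p : ℝ) ^ k * (p - 1) := by
          rw [Comb_D_succ hp k hk]; ring
        have hpk : (0 : ℝ) < (p : ℝ) ^ k := by positivity
        calc m (k + 1) / (D p (k + 1) : ℝ) * combU k m (fun i => !s i)
            ≤ m (k + 1) / (D p (k + 1) : ℝ) * (p : ℝ) ^ k :=
              mul_le_mul_of_nonneg_left h4 (div_nonneg (hm (k + 1)).1 hD.le)
          _ = m (k + 1) / ((p : ℝ) - 1) := by
              rw [h5]
              field_simp
      linarith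
  · have : e = 1 := by omega
    subst this
    rw [Comb_V_one]
    have := (hm 1).1
    split_ifs
    · simp only [Nat.cast_one, sub_self, zero_mul, zero_add]
      positivity
    · simp

end Pool.Agent.IRR
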