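import Pool.Agent.IRR.Unram

/-!
# IRR.Orbit: the roots at a given distance of `ω` are Galois-stable (diff 2-3)

`K = ℚ_p(ω)`, `T = lvl p a ω c`.  An automorphism `σ` of `PadicAlgCl p` over `K` permutes the roots
of `a`, fixes `ω` and preserves `v` (`v_map` applied to the restriction of scalars), so permutes
`T`; hence `∏_T (x-ω)` and `∑_T (x-ω)` are fixed by all `σ`, so they are in `K` (`PadicAlgCl p / K`
is Galois).  By `unram` the valuation `#T · (1/D)` of the product is an integer: `D ∣ #T`.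
Pair: `p = 2`, `T = {x, x'}` with `v(x-ω) = v(x'-ω) = 1/2`: `S = (x-ω)+(x'-ω) ∈ K`, `S = 0` or
`v S ∈ ℤ`, `v S ≥ 1/2`, so `v S ≥ 1`; `x - x' = 2(x-ω) - S`, `v(2(x-ω)) = 3/2`, so `v(x-x') ≥ 1`.
-/

namespace Pool.Agent.IRR

open Polynomial

variable {p : ℕ} [Fact p.Prime] {M : ℕ} {ω : PadicAlgCl p}

theorem Orbit_mem (a : ℤ[X]) (c : ℝ) (σ : PadicAlgCl p ≃ₐ[ℚ_[p]] PadicAlgCl p) (hσ : σ ω = ω)
    {x : PadicAlgCl p} (hx : x ∈ lvl p a ω c) : σ x ∈ lvl p a ω c := by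
  classical
  rw [mem_lvl] at hx ⊢
  obtain ⟨h1, h2⟩ := hx
  constructor
  · unfold rts at h1 ⊢
    rw [Multiset.mem_toFinset, mem_roots'] at h1 ⊢
    refine ⟨h1.1, ?_⟩
    have h3 := h1.2
    rw [IsRoot.def, eval_map] at h3 ⊢
    have h4 := hom_eval₂ a (Int.castRingHom (PadicAlgCl p))
      (σ : PadicAlgCl p →+* PadicAlgCl p) x
    rw [h3, map_zero] at h4
    have h5 : (σ : PadicAlgCl p →+* PadicAlgCl p).comp (Int.castRingHom (PadicAlgCl p)) =
        Int.castRingHom (PadicAlgCl p) := RingHom.ext_int _ _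
    rw [h5] at h4
    exact h4.symm
  · have h3 : σ x - ω = σ (x - ω) := by rw [map_sub, hσ]
    rw [h3, v_map]
    exact h2

theorem Orbit_fixed (α : PadicAlgCl p)
    (h : ∀ σ : PadicAlgCl p ≃ₐ[ℚ_[p]] PadicAlgCl p, σ ω = ω → σ α = α) :
    α ∈ IntermediateField.adjoin ℚ_[p] {ω} := by
  rw [← InfiniteGalois.fixedField_fixingSubgroup (IntermediateField.adjoin ℚ_[p] {ω})]
  rw [IntermediateField.mem_fixedField_iff]
  intro σ hσ
  apply h
  rw [IntermediateField.mem_fixingSubgroup_iff] at hσ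
  exact hσ ω (IntermediateField.mem_adjoin_simple_self ℚ_[p] ω)

theorem Orbit_image (a : ℤ[X]) (c : ℝ) (σ : PadicAlgCl p ≃ₐ[ℚ_[p]] PadicAlgCl p) (hσ : σ ω = ω) :
    Set.BijOn σ (lvl p a ω c : Set (PadicAlgCl p)) (lvl p a ω c) := by
  have hσ' : σ.symm ω = ω := by
    rw [AlgEquiv.symm_apply_eq, hσ]
  refine ⟨fun x hx => Orbit_mem a c σ hσ hx, σ.injective.injOn, fun x hx => ?_⟩
  exact ⟨σ.symm x, Orbit_mem a c σ.symm hσ' hx, σ.apply_symm_apply x⟩

theorem prod_lvl_mem (a : ℤ[X]) (ω : PadicAlgCl p) (c : ℝ) :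
    ∏ x ∈ lvl p a ω c, (x - ω) ∈ IntermediateField.adjoin ℚ_[p] {ω} := by
  refine Orbit_fixed _ fun σ hσ => ?_
  rw [map_prod]
  have hb := Orbit_image a c σ hσ
  refine Finset.prod_bij (fun x _ => σ x) (fun x hx => Orbit_mem a c σ hσ hx)
    (fun x hx y hy h => σ.injective h) (fun y hy => ?_) (fun x hx => ?_)
  · obtain ⟨x, hx, h⟩ := hb.surjOn hy
    exact ⟨x, hx, h⟩
  · rw [map_sub, hσ]

theorem sum_lvl_mem (a : ℤ[X]) (ω : PadicAlgCl p) (c : ℝ) :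
    ∑ x ∈ lvl p a ω c, (x - ω) ∈ IntermediateField.adjoin ℚ_[p] {ω} := by
  refine Orbit_fixed _ fun σ hσ => ?_
  rw [map_sum]
  have hb := Orbit_image a c σ hσ
  refine Finset.sum_bij (fun x _ => σ x) (fun x hx => Orbit_mem a c σ hσ hx)
    (fun x hx y hy h => σ.injective h) (fun y hy => ?_) (fun x hx => ?_)
  · obtain ⟨x, hx, h⟩ := hb.surjOn hy
    exact ⟨x, hx, h⟩
  · rw [map_sub, hσ]

theorem dvd_card_lvl (hM : ¬ p ∣ M) (hω : ω ^ M = 1) (a : ℤ[X]) (D : ℕ) (hD : 1 ≤ D) :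
    D ∣ (lvl p a ω (1 / D)).card := by
  have hD0 : (0 : ℝ) < D := by exact_mod_cast hD
  have hne : ∀ x ∈ lvl p a ω (1 / D), x - ω ≠ 0 := by
    intro x hx
    rw [mem_lvl] at hx
    apply ne_zero_of_v_pos
    rw [hx.2]
    positivity
  obtain ⟨k, hk⟩ := unram hM hω (prod_lvl_mem a ω (1 / D)) (Finset.prod_ne_zero_iff.mpr hne)
  rw [v_prod _ _ hne] at hk
  have h1 : ∑ x ∈ lvl p a ω (1 / D), v p (x - ω) = (lvl p a ω (1 / D)).card * (1 / D : ℝ) := by
    rw [Finset.sum_congr rfl (fun x hx => (mem_lvl.mp hx).2), Finset.sum_const, nsmul_eq_mul]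
  rw [h1] at hk
  have h2 : ((lvl p a ω (1 / D)).card : ℝ) = D * k := by
    rw [← hk]
    field_simp
  have h3 : ((lvl p a ω (1 / D)).card : ℤ) = (D : ℤ) * k := by exact_mod_cast h2
  exact Int.natCast_dvd_natCast.mp ⟨k, h3⟩

theorem pair_close {ω : PadicAlgCl 2} {M : ℕ} (hM : ¬ 2 ∣ M) (hω : ω ^ M = 1) (a : ℤ[X])
    (hc : (lvl 2 a ω (1 / 2)).card = 2) {x y : PadicAlgCl 2} (hx : x ∈ lvl 2 a ω (1 / 2))
    (hy : y ∈ lvl 2 a ω (1 / 2)) (hne : x ≠ y) : 1 ≤ v 2 (x - y) := by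
  classical
  have hset : lvl 2 a ω (1 / 2) = {x, y} := by
    symm
    apply Finset.eq_of_subset_of_card_le
    · intro z hz
      rw [Finset.mem_insert, Finset.mem_singleton] at hz
      rcases hz with rfl | rfl
      · exact hx
      · exact hy
    · rw [hc, Finset.card_pair hne]
  have hS := sum_lvl_mem a ω (1 / 2)
  rw [hset, Finset.sum_pair hne] at hS
  have hvx := (mem_lvl.mp hx).2
  have hvy := (mem_lvl.mp hy).2
  have hx0 : x - ω ≠ 0 := by
    apply ne_zero_of_v_pos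
    rw [hvx]; norm_num
  have hy0 : y - ω ≠ 0 := by
    apply ne_zero_of_v_pos
    rw [hvy]; norm_num
  have h20 : (2 : PadicAlgCl 2) ≠ 0 := two_ne_zero
  have hv2 : v 2 (2 : PadicAlgCl 2) = 1 := by
    have := v_natCast (p := 2) (k := 2) (by norm_num)
    rw [padicValNat_self] at this
    exact_mod_cast this
  have hv2x : v 2 (2 * (x - ω)) = 3 / 2 := by
    rw [v_mul h20 hx0, hv2, hvx]; norm_num
  have hid : x - y = 2 * (x - ω) + -((x - ω) + (y - ω)) := by ring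
  have hxy : x - y ≠ 0 := sub_ne_zero.mpr hne
  by_cases hS0 : (x - ω) + (y - ω) = 0
  · rw [hid, hS0, neg_zero, add_zero, hv2x]
    norm_num
  · obtain ⟨k, hk⟩ := unram hM hω hS hS0
    have h1 : (1 / 2 : ℝ) ≤ v 2 ((x - ω) + (y - ω)) :=
      v_add_ge _ (Or.inr hvx.ge) (Or.inr hvy.ge) hS0
    have h2 : (1 : ℝ) ≤ v 2 ((x - ω) + (y - ω)) := by
      rw [hk] at h1 ⊢
      have : (0 : ℝ) < k := lt_of_lt_of_le (by norm_num) h1
      have : 0 < k := by exact_mod_cast this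
      exact_mod_cast this
    rw [hid]
    refine v_add_ge 1 (Or.inr ?_) (Or.inr ?_) ?_
    · rw [hv2x]; norm_num
    · rw [v_neg]; exact h2
    · rw [← hid]; exact hxy

end Pool.Agent.IRR
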