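import Pool.Agent.IRR.Mu
import Pool.Agent.IRR.Res

/-!
# IRR.Classes: every unit root lies in a class; away primes (diff 2)

* `root_class`: if `‖x‖ = 1`: `x^n - 1` is `n (x-1)` up to a unit (`root_pow` for `n = N`,
  `root_pow_sub` for `n = N-1`), so `‖x^n - 1‖ < 1`, `n = p^e M`; `(x^M)^(p^e) - 1 ≡ (x^M - 1)^(p^e)`
  mod `p`, so `‖x^M - 1‖ < 1`, and `x^M - 1 = ∏_{ω^M=1} (x - ω)`.
* `nonunit_unique`: `x ≠ y` nonunits: subtracting the equations `x^N - Nx + N - 1 = 0` gives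
  `x^(N-1) + ... + y^(N-1) = N`, so `‖N‖ < 1`; also `‖N - 1‖ < 1`: contradiction.
* `away`: if `p ∤ N(N-1)`, `root_der` gives `‖g'(x)‖ ‖x‖ ‖x-1‖ = 1`, all norms are `≤ 1`, so all
  `‖x - y‖ = 1` and `v_p(Res) = ∑ v(x-y) = 0`.
* `v_der`: for a unit root `x`: `∑_{y ≠ x} v(x - y) = v(g'(x)) = e - v(x-1)`.
-/

namespace Pool.Agent.IRR

open Polynomial

variable {p : ℕ} [Fact p.Prime] {N n e M : ℕ} {x y : PadicAlgCl p}

lemma Classes_add (x y : PadicAlgCl p) : ‖x + y‖ ≤ max ‖x‖ ‖y‖ :=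
  PadicAlgCl.isNonarchimedean p x y

lemma Classes_sub (x y : PadicAlgCl p) : ‖x - y‖ ≤ max ‖x‖ ‖y‖ := by
  have := Classes_add x (-y)
  rwa [norm_neg, ← sub_eq_add_neg] at this

lemma Classes_sum {ι : Type*} (s : Finset ι) (G : ι → PadicAlgCl p) {c : ℝ} (hc : 0 < c)
    (h : ∀ i ∈ s, ‖G i‖ < c) : ‖∑ i ∈ s, G i‖ < c := by
  classical
  induction s using Finset.induction_on with
  | empty => simpa using hc
  | insert a s ha ih =>
    rw [Finset.sum_insert ha]
    refine (Classes_add _ _).trans_lt (max_lt (h a (Finset.mem_insert_self _ _)) ?_)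
    exact ih fun i hi => h i (Finset.mem_insert_of_mem hi)

lemma Classes_sum_le {ι : Type*} (s : Finset ι) (G : ι → PadicAlgCl p) {c : ℝ} (hc : 0 ≤ c)
    (h : ∀ i ∈ s, ‖G i‖ ≤ c) : ‖∑ i ∈ s, G i‖ ≤ c := by
  classical
  induction s using Finset.induction_on with
  | empty => simpa using hc
  | insert a s ha ih =>
    rw [Finset.sum_insert ha]
    refine (Classes_add _ _).trans (max_le (h a (Finset.mem_insert_self _ _)) ?_)
    exact ih fun i hi => h i (Finset.mem_insert_of_mem hi)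

lemma Classes_aeval (q : ℤ[X]) (hy : ‖y‖ ≤ 1) : ‖aeval y q‖ ≤ 1 := by
  rw [aeval_eq_sum_range]
  apply Classes_sum_le _ _ zero_le_one
  intro i _
  rw [zsmul_eq_mul, norm_mul, norm_pow]
  exact mul_le_one₀ (norm_intCast_le _) (by positivity) (pow_le_one₀ (norm_nonneg _) hy)

lemma Classes_le (hN : 2 ≤ N) (hx : x ∈ rts (PadicAlgCl p) (g N)) : ‖x‖ ≤ 1 :=
  norm_rts_le_one (g_monic N hN) hx

lemma Classes_ev (hN : 2 ≤ N) (hx : x ∈ rts (PadicAlgCl p) (g N)) : ev (g N) x = 0 :=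
  (mem_rts (g_monic N hN).ne_zero).1 hx

lemma Classes_pow_prime (e : ℕ) (hy : ‖y‖ ≤ 1) (h : ‖y ^ (p ^ e) - 1‖ < 1) : ‖y - 1‖ < 1 := by
  obtain ⟨r, hr⟩ := exists_add_pow_prime_pow_eq (Fact.out : p.Prime) (X - 1 : ℤ[X]) 1 e
  have h1 := congrArg (fun q : ℤ[X] => aeval y q) hr
  simp only [sub_add_cancel, map_pow, aeval_X, map_add, map_sub, map_one, map_mul, one_pow,
    map_natCast] at h1
  have h2 : (y - 1) ^ (p ^ e) = (y ^ (p ^ e) - 1) - p * aeval y ((X - 1) * r) := by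
    rw [h1, map_mul, map_sub, aeval_X, map_one]; ring
  have h3 : ‖(y - 1) ^ (p ^ e)‖ < 1 := by
    rw [h2]
    refine (Classes_sub _ _).trans_lt (max_lt h ?_)
    rw [norm_mul]
    have hp1 : ‖(p : PadicAlgCl p)‖ < 1 := norm_natCast_lt_one dvd_rfl
    have := Classes_aeval ((X - 1) * r) hy
    calc ‖(p : PadicAlgCl p)‖ * ‖aeval y ((X - 1) * r)‖ ≤ ‖(p : PadicAlgCl p)‖ * 1 := by
          apply mul_le_mul_of_nonneg_left this (norm_nonneg _)
      _ < 1 := by rwa [mul_one]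
  rw [norm_pow] at h3
  by_contra hcon
  push Not at hcon
  exact absurd (one_le_pow₀ hcon (n := p ^ e)) (not_le.2 h3)

lemma Classes_norm_pow (hL : Loc p N n e M) (hx : x ∈ rts (PadicAlgCl p) (g N)) (hx1 : ‖x‖ = 1) :
    ∃ u : PadicAlgCl p, ‖u‖ = 1 ∧ u * (x ^ n - 1) = (n : PadicAlgCl p) * (x - 1) := by
  have hN := hL.hN
  have h0 := Classes_ev (by omega) hx
  rcases hL.hn with h | h
  · refine ⟨1, norm_one, ?_⟩
    rw [h, root_pow (by omega) h0]
    ring
  · refine ⟨x, hx1, ?_⟩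
    rw [h, root_pow_sub (by omega) h0, Nat.cast_sub (by omega)]
    simp

omit [Fact p.Prime] in
lemma Classes_n_pos (hL : Loc p N n e M) : n ≠ 0 := by
  have := hL.hN
  rcases hL.hn with h | h <;> omega

omit [Fact p.Prime] in
lemma Classes_p_dvd (hL : Loc p N n e M) : p ∣ n := by
  rw [hL.hM]
  exact Dvd.dvd.mul_right (dvd_pow_self p (by have := hL.he; omega)) M

omit [Fact p.Prime] in
lemma Classes_M_pos (hL : Loc p N n e M) : 0 < M := by
  rcases Nat.eq_zero_or_pos M with h | h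
  · exact absurd (by rw [h]; exact dvd_zero p) hL.hpM
  · exact h

theorem root_class (hL : Loc p N n e M) (hx : x ∈ rts (PadicAlgCl p) (g N)) :
    ‖x‖ < 1 ∨ ∃ ω : PadicAlgCl p, ω ^ M = 1 ∧ ‖x - ω‖ < 1 := by
  have hN := hL.hN
  rcases (Classes_le (by omega) hx).lt_or_eq with hlt | hx1
  · exact Or.inl hlt
  right
  obtain ⟨u, hu, hu2⟩ := Classes_norm_pow hL hx hx1
  have h1 : ‖x ^ n - 1‖ < 1 := by
    have h2 := congrArg norm hu2
    rw [norm_mul, norm_mul, hu, one_mul] at h2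
    rw [h2]
    have h3 : ‖(n : PadicAlgCl p)‖ < 1 := norm_natCast_lt_one (Classes_p_dvd hL)
    have h4 : ‖x - 1‖ ≤ 1 := by
      refine (Classes_sub _ _).trans ?_
      rw [hx1, norm_one, max_self]
    calc ‖(n : PadicAlgCl p)‖ * ‖x - 1‖ ≤ ‖(n : PadicAlgCl p)‖ * 1 :=
          mul_le_mul_of_nonneg_left h4 (norm_nonneg _)
      _ < 1 := by rwa [mul_one]
  have h2 : ‖x ^ M - 1‖ < 1 := by
    apply Classes_pow_prime (p := p) e
    · rw [norm_pow, hx1, one_pow]
    · rw [← pow_mul, mul_comm, ← hL.hM]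
      exact h1
  have hMpos := Classes_M_pos hL
  have : NeZero (M : PadicAlgCl p) := ⟨by exact_mod_cast hMpos.ne'⟩
  obtain ⟨ζ, hζ⟩ := HasEnoughRootsOfUnity.exists_primitiveRoot (PadicAlgCl p) M
  have h3 := congrArg (fun q : (PadicAlgCl p)[X] => q.eval x) (X_pow_sub_one_eq_prod hMpos hζ)
  simp only [eval_sub, eval_pow, eval_X, eval_one, eval_prod, eval_C] at h3
  by_contra hcon
  push Not at hcon
  have h4 : 1 ≤ ‖x ^ M - 1‖ := by
    rw [h3, norm_prod]
    have h5 : ∏ i ∈ nthRootsFinset M (1 : PadicAlgCl p), (1 : ℝ) ≤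
        ∏ i ∈ nthRootsFinset M (1 : PadicAlgCl p), ‖x - i‖ := by
      apply Finset.prod_le_prod
      · intro i _; norm_num
      · intro i hi
        exact hcon i ((mem_nthRootsFinset hMpos _).1 hi)
    simpa using h5
  exact absurd h4 (not_le.2 h2)

theorem nonunit_unique (hN : 4 ≤ N) (hx : x ∈ rts (PadicAlgCl p) (g N))
    (hy : y ∈ rts (PadicAlgCl p) (g N)) (hx1 : ‖x‖ < 1) (hy1 : ‖y‖ < 1) : x = y := by
  by_contra hne
  have hxe := root_pow (by omega) (Classes_ev (by omega) hx)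
  have hye := root_pow (by omega) (Classes_ev (by omega) hy)
  have h1 : (∑ i ∈ Finset.range N, x ^ i * y ^ (N - 1 - i)) * (x - y) = (N : PadicAlgCl p) * (x - y) := by
    rw [(Commute.all x y).geom_sum₂_mul, hxe, hye]
    ring
  have h2 := mul_right_cancel₀ (sub_ne_zero.2 hne) h1
  have h3 : ‖(N : PadicAlgCl p)‖ < 1 := by
    rw [← h2]
    apply Classes_sum _ _ zero_lt_one
    intro i hi
    rw [norm_mul, norm_pow, norm_pow]
    rw [Finset.mem_range] at hi
    rcases Nat.eq_zero_or_pos i with h0 | h0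
    · subst h0
      rw [pow_zero, one_mul]
      exact pow_lt_one₀ (norm_nonneg _) hy1 (by omega)
    · have h5 : ‖x‖ ^ i < 1 := pow_lt_one₀ (norm_nonneg _) hx1 (by omega)
      have h6 : ‖y‖ ^ (N - 1 - i) ≤ 1 := pow_le_one₀ (norm_nonneg _) hy1.le
      have h7 : 0 ≤ ‖x‖ ^ i := by positivity
      calc ‖x‖ ^ i * ‖y‖ ^ (N - 1 - i) ≤ ‖x‖ ^ i * 1 := mul_le_mul_of_nonneg_left h6 h7
        _ < 1 := by rwa [mul_one]
  have h4 : ‖(1 : PadicAlgCl p)‖ < 1 := by
    have e1 : (1 : PadicAlgCl p) = (x ^ N - N * x) + N := by rw [hxe]; ring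
    rw [e1]
    refine (Classes_add _ _).trans_lt (max_lt ?_ h3)
    refine (Classes_sub _ _).trans_lt (max_lt ?_ ?_)
    · rw [norm_pow]
      exact pow_lt_one₀ (norm_nonneg _) hx1 (by omega)
    · rw [norm_mul]
      calc ‖(N : PadicAlgCl p)‖ * ‖x‖ ≤ 1 * ‖x‖ :=
            mul_le_mul_of_nonneg_right h3.le (norm_nonneg _)
        _ < 1 := by rwa [one_mul]
  rw [norm_one] at h4
  exact lt_irrefl _ h4

lemma Classes_val_n (hL : Loc p N n e M) : padicValNat p n = e := by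
  rw [hL.hM, padicValNat.mul (pow_ne_zero _ (Fact.out : p.Prime).ne_zero) (Classes_M_pos hL).ne',
    padicValNat.prime_pow, padicValNat.eq_zero_of_not_dvd hL.hpM, add_zero]

/-- `v(x^n - 1) = e + v(x - 1)` for unit roots -/
theorem v_pow_n (hL : Loc p N n e M) (hx : x ∈ rts (PadicAlgCl p) (g N)) (hx1 : ‖x‖ = 1) :
    x ^ n ≠ 1 ∧ v p (x ^ n - 1) = e + v p (x - 1) := by
  have hN := hL.hN
  obtain ⟨u, hu, hu2⟩ := Classes_norm_pow hL hx hx1
  have hne1 : x ≠ 1 := root_ne_one (by omega) (Classes_ev (by omega) hx)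
  have hne : x - 1 ≠ 0 := sub_ne_zero.2 hne1
  have hn0 : (n : PadicAlgCl p) ≠ 0 := by exact_mod_cast Classes_n_pos hL
  have hu0 : u ≠ 0 := by
    intro h; rw [h, norm_zero] at hu; exact zero_ne_one hu
  have hxn : x ^ n - 1 ≠ 0 := by
    intro h
    rw [h, mul_zero] at hu2
    exact mul_ne_zero hn0 hne hu2.symm
  refine ⟨sub_ne_zero.1 hxn, ?_⟩
  have h1 := congrArg (v p) hu2
  rw [v_mul hu0 hxn, v_mul hn0 hne, v_eq_zero hu, zero_add, v_natCast (Classes_n_pos hL),
    Classes_val_n hL] at h1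
  exact h1

lemma Classes_val_NN (hL : Loc p N n e M) : padicValNat p (N * (N - 1)) = e := by
  have hN := hL.hN
  have hpr : p.Prime := Fact.out
  have hval := Classes_val_n hL
  have hdvd := Classes_p_dvd hL
  rw [padicValNat.mul (by omega) (by omega)]
  rcases hL.hn with h | h
  · have h2 : ¬ p ∣ N - 1 := by
      intro h3
      rw [h] at hdvd
      have h4 := Nat.dvd_sub hdvd h3
      have h5 : N - (N - 1) = 1 := by omega
      rw [h5] at h4
      exact hpr.one_lt.ne' (Nat.dvd_one.1 h4)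
    rw [padicValNat.eq_zero_of_not_dvd h2, add_zero, ← h, hval]
  · have h2 : ¬ p ∣ N := by
      intro h3
      rw [h] at hdvd
      have h4 := Nat.dvd_sub h3 hdvd
      have h5 : N - (N - 1) = 1 := by omega
      rw [h5] at h4
      exact hpr.one_lt.ne' (Nat.dvd_one.1 h4)
    rw [padicValNat.eq_zero_of_not_dvd h2, zero_add, ← h, hval]

lemma Classes_der (hN : 4 ≤ N) (hx : x ∈ rts (PadicAlgCl p) (g N)) :
    ev (derivative (g N)) x * (x * (x - 1)) = ((N * (N - 1) : ℕ) : PadicAlgCl p) := by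
  rw [root_der (by omega) (Classes_ev (by omega) hx), Nat.cast_mul, Nat.cast_sub (by omega)]
  simp

theorem v_der [DecidableEq (PadicAlgCl p)] (hL : Loc p N n e M) (hx : x ∈ rts (PadicAlgCl p) (g N)) (hx1 : ‖x‖ = 1) :
    ∑ y ∈ (rts (PadicAlgCl p) (g N)).erase x, v p (x - y) = e - v p (x - 1) := by
  have hN := hL.hN
  have hd := Classes_der hL.hN hx
  have hNN : N * (N - 1) ≠ 0 := by
    apply mul_ne_zero <;> omega
  have hNN' : ((N * (N - 1) : ℕ) : PadicAlgCl p) ≠ 0 := by exact_mod_cast hNN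
  have hprod : ev (derivative (g N)) x ≠ 0 ∧ x * (x - 1) ≠ 0 := by
    constructor
    · intro h; rw [h, zero_mul] at hd; exact hNN' hd.symm
    · intro h; rw [h, mul_zero] at hd; exact hNN' hd.symm
  have hx0 : x ≠ 0 := left_ne_zero_of_mul hprod.2
  have hx01 : x - 1 ≠ 0 := right_ne_zero_of_mul hprod.2
  have h1 := congrArg (v p) hd
  rw [v_mul hprod.1 hprod.2, v_mul hx0 hx01, v_natCast hNN, Classes_val_NN hL, v_eq_zero hx1,
    zero_add, der_eq_prod_g (by omega) hx, v_prod] at h1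
  · linarith
  · intro y hy
    exact sub_ne_zero.2 (Finset.ne_of_mem_erase hy).symm

theorem away {a b : ℤ[X]} (hp : ¬ p ∣ N * (N - 1)) (h : Factn N a b) :
    padicValInt p (resultant a b) = 0 := by
  classical
  have hN := h.hN
  have hr0 := res_ne_zero h
  have h1 : ‖((resultant a b : ℤ) : PadicAlgCl p)‖ = 1 := by
    rw [res_eq_prod h, norm_prod]
    apply Finset.prod_eq_one
    intro x hx
    have hxg : x ∈ rts (PadicAlgCl p) (g N) := (mem_rts_g h).2 (Or.inl hx)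
    have hd := congrArg norm (Classes_der h.hN hxg)
    rw [der_eq_prod h hx, norm_mul, norm_mul, norm_natCast_eq_one hp] at hd
    have hx1 := Classes_le (by omega) hxg
    have e1 : ‖x * (x - 1)‖ ≤ 1 := by
      rw [norm_mul]
      refine mul_le_one₀ hx1 (norm_nonneg _) ?_
      refine (Classes_sub _ _).trans ?_
      rw [norm_one]
      exact max_le hx1 le_rfl
    have e2 : ‖∏ y ∈ (rts (PadicAlgCl p) a).erase x, (x - y)‖ ≤ 1 := by
      rw [norm_prod]
      apply Finset.prod_le_one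
      · intro i _; positivity
      · intro i hi
        refine (Classes_sub _ _).trans (max_le hx1 ?_)
        exact Classes_le (by omega) ((mem_rts_g h).2 (Or.inl (Finset.mem_of_mem_erase hi)))
    have e3 : ‖∏ y ∈ rts (PadicAlgCl p) b, (x - y)‖ ≤ 1 := by
      rw [norm_prod]
      apply Finset.prod_le_one
      · intro i _; positivity
      · intro i hi
        refine (Classes_sub _ _).trans (max_le hx1 ?_)
        exact Classes_le (by omega) ((mem_rts_g h).2 (Or.inr hi))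
    set A := ‖∏ y ∈ (rts (PadicAlgCl p) a).erase x, (x - y)‖
    set B := ‖∏ y ∈ rts (PadicAlgCl p) b, (x - y)‖
    set C' := ‖x * (x - 1)‖
    have hA : 0 ≤ A := norm_nonneg _
    have hB : 0 ≤ B := norm_nonneg _
    have hC : 0 ≤ C' := norm_nonneg _
    refine le_antisymm e3 ?_
    calc (1 : ℝ) = A * B * C' := hd.symm
      _ ≤ 1 * B * 1 := by
          apply mul_le_mul _ e1 hC (by linarith)
          exact mul_le_mul_of_nonneg_right e2 hB
      _ = B := by ring
  have h2 := v_eq_zero h1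
  rw [v_intCast hr0] at h2
  exact_mod_cast h2

end Pool.Agent.IRR
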