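import Pool.Agent.IRR.PowMap
import Pool.Agent.IRR.Classes

/-!
# IRR.Zval: valuation of `x^(n/p) - 1` (diff 2-3)

`x` root of `g`, `‖x-ω‖ < 1`, `ω^M = 1`, `n/p = p^(e-1) M`.  `x^(n/p) = (x/ω)^(n/p)`; let
`u = (x/ω)^M`, `v(u-1) = v(x-ω) =: s` (`v_pow_prime_to`), `w = u^(p^(e-1)) = x^(n/p)`,
`w^p = x^n ≠ 1` (`v_pow_n`), so no `u^(p^k)`, `k ≤ e`, is `1` (unless..., `k ≤ e`).
* If `s ≥ 1/D p i`, `i ≥ 2`: each application of the `p`-power map multiplies the lower bound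
  `1/(p^k (p-1))` by `p` while `k ≥ 1`, and adds `1` when the bound is `≥ 1/(p-1)`
  (`min(p s, s+1)` is increasing in `s`; `1/p^k ≤ 1`).  After `e-1` steps:
  `v(w-1) ≥ (e - i) + 1/(p-1)`.  For `i = e` this is `zval_top`.  For `i ≤ e-1`, `v(w-1) > 1/(p-1)`,
  so `v(w^p - 1) = v(w-1) + 1` (`v_pow_p_eq`), and `v(w^p-1) = v(x^n - 1) = e + v(x-1) ≥ e`
  (`v_pow_n`), so `v(w-1) ≥ e - 1`.
* If `s ≥ 1/D p 1 = 1/p`: after one step `≥ 1`, then `+1` at each step: `v(w-1) ≥ e-1`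
  (and for `e ≥ 2` also `≥ 1/(p-1)`).
-/

namespace Pool.Agent.IRR

open Polynomial

variable {p : ℕ} [Fact p.Prime] {N n e M : ℕ} {x ω : PadicAlgCl p}

private theorem Zval_norm_sub_le (x y : PadicAlgCl p) : ‖x - y‖ ≤ max ‖x‖ ‖y‖ := by
  rw [sub_eq_add_neg]
  have h := IsUltrametricDist.norm_add_le_max x (-y)
  rwa [norm_neg] at h

private theorem Zval_norm_x (hω : ω ^ M = 1) (hM : M ≠ 0) (hxω : ‖x - ω‖ < 1) :
    ‖ω‖ = 1 ∧ ‖x‖ = 1 := by
  have h1 : ‖ω‖ = 1 := norm_mu hM hω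
  refine ⟨h1, ?_⟩
  have h2 : x = (x - ω) + ω := by ring
  have h3 : ‖(x - ω) + ω‖ = max ‖x - ω‖ ‖ω‖ :=
    IsUltrametricDist.norm_add_eq_max_of_norm_ne_norm (by rw [h1]; exact hxω.ne)
  rw [h2, h3, h1]
  exact max_eq_right hxω.le

/-- The chain `s k = v (u^(p^k) - 1)`. -/
private theorem Zval_chain (hL : Loc p N n e M) (hx : x ∈ rts (PadicAlgCl p) (g N))
    (hω : ω ^ M = 1) (hxω : ‖x - ω‖ < 1) :
    ∃ s : ℕ → ℝ, s 0 = v p (x - ω) ∧ s (e - 1) = v p (x ^ (n / p) - 1) ∧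
      (e : ℝ) ≤ s e ∧
      (∀ k, k + 1 ≤ e → min (p * s k) (s k + 1) ≤ s (k + 1)) ∧
      (∀ k, k ≤ e → 1 / ((p : ℝ) - 1) < s k → s (k + 1) = s k + 1) := by
  have hp : p.Prime := Fact.out
  have hM : M ≠ 0 := by
    rintro rfl
    exact hL.hpM (dvd_zero p)
  obtain ⟨nω, nx⟩ := Zval_norm_x hω hM hxω
  have hω0 : ω ≠ 0 := by
    rintro rfl
    simp at nω
  obtain ⟨hn1, hn2⟩ := v_pow_n hL hx nx
  have hnp : n / p = M * p ^ (e - 1) := by
    have : n = p * (M * p ^ (e - 1)) := by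
      rw [hL.hM]
      obtain ⟨e', rfl⟩ : ∃ e', e = e' + 1 := ⟨e - 1, by have := hL.he; omega⟩
      rw [Nat.add_sub_cancel, pow_succ]
      ring
    rw [this, Nat.mul_div_cancel_left _ hp.pos]
  have hnn : n = M * p ^ e := by rw [hL.hM]; ring
  obtain ⟨u, hu⟩ : ∃ u : PadicAlgCl p, u = (x / ω) ^ M := ⟨_, rfl⟩
  have hub : ∀ k, u ^ (p ^ k) = x ^ (M * p ^ k) := by
    intro k
    rw [hu, div_pow, hω, div_one, ← pow_mul]
  have ht : x / ω - 1 = (x - ω) / ω := by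
    field_simp
  have hnt : ‖x / ω - 1‖ < 1 := by
    rw [ht, norm_div, nω, div_one]
    exact hxω
  have hxo : x - ω ≠ 0 := by
    intro h
    have hxe : x = ω := sub_eq_zero.1 h
    apply hn1
    rw [hnn, pow_mul, hxe, hω, one_pow]
  have ht1 : x / ω ≠ 1 := by
    intro h
    apply hxo
    rw [div_eq_one_iff_eq hω0] at h
    exact sub_eq_zero.2 h
  obtain ⟨hu1, hu2, hu3⟩ := v_pow_prime_to hnt ht1 hL.hpM
  rw [← hu] at hu1 hu2 hu3
  have hlt : ∀ k, ‖u ^ (p ^ k) - 1‖ < 1 := by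
    intro k
    induction k with
    | zero => simpa using hu3
    | succ k ih =>
      rw [pow_succ, pow_mul]
      exact norm_pow_p_sub_one_lt ih
  have hne : ∀ k, k ≤ e → u ^ (p ^ k) ≠ 1 := by
    intro k hk h
    apply hn1
    rw [hnn, ← hub e]
    obtain ⟨j, rfl⟩ := Nat.exists_eq_add_of_le hk
    rw [pow_add, pow_mul, h, one_pow]
  refine ⟨fun k => v p (u ^ (p ^ k) - 1), ?_, ?_, ?_, ?_, ?_⟩
  · simp only [pow_zero, pow_one]
    rw [hu1, ht, v_div hxo hω0, v_eq_zero nω, sub_zero]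
  · simp only
    rw [hub, hnp]
  · simp only
    rw [hub, ← hnn, hn2]
    have h1 : ‖x - 1‖ ≤ 1 := by
      have := Zval_norm_sub_le x 1
      rw [nx, norm_one, max_self] at this
      exact this
    have := v_nonneg h1
    linarith
  · intro k hk
    simp only
    have h1 := v_pow_p_ge (hlt k) (by
      rw [← pow_mul, ← pow_succ]
      exact hne (k + 1) hk)
    rw [← pow_mul, ← pow_succ] at h1
    exact h1
  · intro k hk hs
    simp only at hs ⊢
    have h1 := v_pow_p_eq (hlt k) (hne k hk) hs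
    rw [← pow_mul, ← pow_succ] at h1
    exact h1

/-- lower bounds along the chain, up to the index `i - 1` -/
private theorem Zval_climb (hp : 2 ≤ p) {s : ℕ → ℝ} {i e : ℕ} (hi : 2 ≤ i) (hie : i ≤ e)
    (h0 : 1 / (D p i : ℝ) ≤ s 0)
    (hs : ∀ k, k + 1 ≤ e → min (p * s k) (s k + 1) ≤ s (k + 1)) :
    ∀ k, k + 1 ≤ i → 1 / ((p : ℝ) ^ (i - 1 - k) * (p - 1)) ≤ s k := by
  have h2 : (2 : ℝ) ≤ p := by exact_mod_cast hp
  have hp1 : (0 : ℝ) < (p : ℝ) - 1 := by linarith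
  intro k
  induction k with
  | zero =>
    intro _
    have : (D p i : ℝ) = (p : ℝ) ^ (i - 1 - 0) * (p - 1) := by
      unfold D
      rw [if_neg (by omega)]
      push_cast [Nat.cast_sub (by omega : 1 ≤ p)]
      simp
    rw [← this]
    exact h0
  | succ k ih =>
    intro hk
    have h1 := ih (by omega)
    refine le_trans ?_ (hs k (by omega))
    have hpk : (0 : ℝ) < (p : ℝ) ^ (i - 1 - (k + 1)) := by positivity
    have e1 : (p : ℝ) ^ (i - 1 - k) = (p : ℝ) ^ (i - 1 - (k + 1)) * p := by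
      rw [← pow_succ]
      congr 1
      omega
    have e2 : 1 / ((p : ℝ) ^ (i - 1 - (k + 1)) * (p - 1)) =
        p * (1 / ((p : ℝ) ^ (i - 1 - k) * (p - 1))) := by
      rw [e1]
      field_simp
    have e3 : p * (1 / ((p : ℝ) ^ (i - 1 - k) * (p - 1))) ≤
        1 / ((p : ℝ) ^ (i - 1 - k) * (p - 1)) + 1 := by
      have h3 : (1 : ℝ) ≤ (p : ℝ) ^ (i - 1 - k) := one_le_pow₀ (by linarith)
      have h4 : 1 / ((p : ℝ) ^ (i - 1 - k) * (p - 1)) ≤ 1 / (p - 1) := by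
        refine one_div_le_one_div_of_le hp1 ?_
        nlinarith
      have h5 : (p - 1) * (1 / ((p : ℝ) ^ (i - 1 - k) * (p - 1))) ≤ 1 := by
        calc (p - 1) * (1 / ((p : ℝ) ^ (i - 1 - k) * (p - 1))) ≤ (p - 1) * (1 / (p - 1)) :=
              mul_le_mul_of_nonneg_left h4 hp1.le
          _ = 1 := by field_simp
      nlinarith
    refine le_min ?_ ?_
    · rw [e2]
      exact mul_le_mul_of_nonneg_left h1 (by linarith)
    · rw [e2]
      linarith

/-- at `1/(p-1)` and above each step adds `1` -/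
private theorem Zval_add (hp : 2 ≤ p) {s : ℕ → ℝ} {e k0 : ℕ} {c : ℝ}
    (hc : 1 / ((p : ℝ) - 1) ≤ c) (h0 : c ≤ s k0)
    (hs : ∀ k, k + 1 ≤ e → min (p * s k) (s k + 1) ≤ s (k + 1)) :
    ∀ j, k0 + j ≤ e → c + j ≤ s (k0 + j) := by
  have h2 : (2 : ℝ) ≤ p := by exact_mod_cast hp
  have hp1 : (0 : ℝ) < (p : ℝ) - 1 := by linarith
  intro j
  induction j with
  | zero => intro _; simpa using h0
  | succ j ih =>
    intro hj
    have h1 := ih (by omega)
    have h3 := hs (k0 + j) (by omega)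
    have h4 : 1 / ((p : ℝ) - 1) ≤ s (k0 + j) := by
      have : (0 : ℝ) ≤ j := by positivity
      linarith
    have h5 : s (k0 + j) + 1 ≤ p * s (k0 + j) := by
      rw [div_le_iff₀ hp1] at h4
      linarith
    rw [min_eq_right h5] at h3
    have e1 : k0 + (j + 1) = k0 + j + 1 := by omega
    rw [e1]
    push_cast
    linarith

theorem zval_low (hL : Loc p N n e M) (hx : x ∈ rts (PadicAlgCl p) (g N)) (hω : ω ^ M = 1)
    (hxω : ‖x - ω‖ < 1) {i : ℕ} (hi : 1 ≤ i) (hie : i + 1 ≤ e)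
    (hv : 1 / (D p i : ℝ) ≤ v p (x - ω)) : (e : ℝ) - 1 ≤ v p (x ^ (n / p) - 1) := by
  have hp : p.Prime := Fact.out
  have hp2 : 2 ≤ p := hp.two_le
  have h2 : (2 : ℝ) ≤ p := by exact_mod_cast hp2
  have hp1 : (0 : ℝ) < (p : ℝ) - 1 := by linarith
  obtain ⟨s, s0, s1, s2, s3, s4⟩ := Zval_chain hL hx hω hxω
  rw [← s0] at hv
  rw [← s1]
  rcases Nat.lt_or_ge 1 i with h | h
  · have hc := Zval_climb hp2 (by omega) (by omega : i ≤ e) hv s3 (i - 1) (by omega)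
    rw [Nat.sub_self, pow_zero, one_mul] at hc
    have ha := Zval_add hp2 le_rfl hc s3 (e - i) (by omega)
    have e1 : i - 1 + (e - i) = e - 1 := by omega
    rw [e1] at ha
    have hei : (1 : ℝ) ≤ ((e - i : ℕ) : ℝ) := by
      have : 1 ≤ e - i := by omega
      exact_mod_cast this
    have h3 : 1 / ((p : ℝ) - 1) < s (e - 1) := by linarith
    have h4 := s4 (e - 1) (by omega) h3
    have e2 : e - 1 + 1 = e := by omega
    rw [e2] at h4
    linarith
  · have hi1 : i = 1 := by omega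
    subst hi1
    have hD : (D p 1 : ℝ) = p := by simp [D]
    rw [hD] at hv
    have h3 := s3 0 (by omega)
    have h4 : (1 : ℝ) ≤ s 1 := by
      refine le_trans ?_ h3
      refine le_min ?_ ?_
      · rw [div_le_iff₀ (by linarith)] at hv
        linarith
      · have : (0 : ℝ) < 1 / p := by positivity
        linarith
    have h5 : 1 / ((p : ℝ) - 1) ≤ 1 := by
      rw [div_le_one hp1]
      linarith
    have ha := Zval_add hp2 h5 h4 s3 (e - 2) (by omega)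
    have e1 : 1 + (e - 2) = e - 1 := by omega
    rw [e1] at ha
    have e3 : ((e - 2 : ℕ) : ℝ) = (e : ℝ) - 2 := by
      rw [Nat.cast_sub (by omega)]
      norm_num
    rw [e3] at ha
    linarith

theorem zval_top (hL : Loc p N n e M) (hx : x ∈ rts (PadicAlgCl p) (g N)) (hω : ω ^ M = 1)
    (hxω : ‖x - ω‖ < 1) (he : 2 ≤ e)
    (hv : 1 / (D p e : ℝ) ≤ v p (x - ω)) : 1 / ((p : ℝ) - 1) ≤ v p (x ^ (n / p) - 1) := by
  have hp : p.Prime := Fact.out
  have hp2 : 2 ≤ p := hp.two_le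
  obtain ⟨s, s0, s1, s2, s3, s4⟩ := Zval_chain hL hx hω hxω
  rw [← s0] at hv
  rw [← s1]
  have hc := Zval_climb hp2 he le_rfl hv s3 (e - 1) (by omega)
  rw [Nat.sub_self, pow_zero, one_mul] at hc
  exact hc

theorem zval_nonneg (hx : x ∈ rts (PadicAlgCl p) (g N)) (hN : 4 ≤ N) (R : ℕ) :
    0 ≤ v p (x ^ R - 1) := by
  have h1 : ‖x‖ ≤ 1 := norm_rts_le_one (g_monic N (by omega)) hx
  refine v_nonneg ?_
  have h2 := Zval_norm_sub_le (x ^ R) 1
  refine h2.trans (max_le ?_ (by rw [norm_one]))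
  rw [norm_pow]
  exact pow_le_one₀ (norm_nonneg _) h1

end Pool.Agent.IRR
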