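import Pool.Agent.IRR.NewtonOdd
import Pool.Agent.IRR.Orbit
import Pool.Agent.IRR.Zval
import Pool.Agent.IRR.Comb

/-!
# IRR.ClassOdd: the class inequalities for odd `p` (diff 3)

Let `T_i(c) = lvl p c ω (1/Dw_i)` for `c ∈ {g N, a, b}`, `1 ≤ i ≤ e`, `Dw_i = Dw p i ω`.  `#T_i(g) = Dw_i` and
`cls (g N) = ⊔ T_i(g)` (`newton_odd`; the `Dw_i` are strictly increasing), `T_i(g) = T_i(a) ⊔ T_i(b)`,
`Dw_i ∣ #T_i(a)` (`dvd_card_lvl`), so each `T_i(g)` is contained in the roots of `a` (`s_i = true`) or of `b`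
(`s_i = false`).  With `m_i = Dw_i ≤ D p i`:  `#cls a = combU e m s`, and for `x` of type `i`, `y` of
type `k`, `i ≠ k`: `v(x-y) = min(v(x-ω), v(y-ω)) = 1/Dw_{max(i,k)} = 1/D p (max(i,k))`, so
`W = combV p e m s`.  Then `comb1`, `comb2` give the first two bounds.  Third: if `e = 1`, `W ≤ 0` by
`comb1` and the right side is `≥ 0`.  If `e ≥ 2`: `comb3` and `zval_low` (types `i < e`),
`zval_top` (type `e`): `∑_{x∈cls a} v(x^(n/p)-1) ≥ (e-1) ∑_{i<e,s_i} m_i + [s_e] m_e/(p-1)`
(note `1/D p i ≤ 1/Dw_i`).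
-/

namespace Pool.Agent.IRR

open Polynomial

variable {p : ℕ} [Fact p.Prime] {N n e M : ℕ} {ω : PadicAlgCl p} {a b : ℤ[X]}

theorem ClassOdd_three (hp : p ≠ 2) : 3 ≤ p := by
  have h2 : 2 ≤ p := (Fact.out : p.Prime).two_le
  omega

theorem ClassOdd_Dw_pos (hp : p ≠ 2) (i : ℕ) : 1 ≤ Dw p i ω := by
  have h3 := ClassOdd_three (p := p) hp
  unfold Dw D
  split_ifs with h1 h2
  · omega
  · omega
  · exact Nat.mul_pos (pow_pos (by omega) _) (by omega)

theorem ClassOdd_Dw_le (i : ℕ) : Dw p i ω ≤ D p i := by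
  unfold Dw
  split_ifs with h1
  · obtain ⟨h1, -⟩ := h1
    subst h1
    simp [D]
  · exact le_rfl

theorem ClassOdd_Dw_eq {i : ℕ} (hi : 2 ≤ i) : Dw p i ω = D p i := by
  unfold Dw
  rw [if_neg]
  rintro ⟨h1, -⟩
  omega

theorem ClassOdd_D_lt (hp : p ≠ 2) {i k : ℕ} (hi : 1 ≤ i) (hik : i < k) : D p i < D p k := by
  have h3 := ClassOdd_three (p := p) hp
  unfold D
  rw [if_neg (by omega : k ≠ 1)]
  have hk : p ^ i ≤ p ^ (k - 1) := Nat.pow_le_pow_right (by omega) (by omega)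
  have h2 : 2 ≤ p - 1 := by omega
  split_ifs with h1
  · subst h1
    have : p ≤ p ^ (k - 1) := by simpa using hk
    nlinarith
  · have h4 : p ^ (i - 1) < p ^ i := Nat.pow_lt_pow_right (by omega) (by omega)
    have h5 : p ^ (i - 1) < p ^ (k - 1) := lt_of_lt_of_le h4 hk
    exact Nat.mul_lt_mul_of_pos_right h5 (by omega)

theorem ClassOdd_Dw_lt (hp : p ≠ 2) {i k : ℕ} (hi : 1 ≤ i) (hik : i < k) :
    Dw p i ω < Dw p k ω := by
  rw [ClassOdd_Dw_eq (p := p) (ω := ω) (by omega : 2 ≤ k)]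
  exact lt_of_le_of_lt (ClassOdd_Dw_le i) (ClassOdd_D_lt hp hi hik)

theorem ClassOdd_Dw_inj (hp : p ≠ 2) {i k : ℕ} (hi : 1 ≤ i) (hk : 1 ≤ k)
    (h : (1 : ℝ) / (Dw p i ω : ℝ) = 1 / (Dw p k ω : ℝ)) : i = k := by
  have h1 : (Dw p i ω : ℝ) = (Dw p k ω : ℝ) := by
    have := congrArg (fun t : ℝ => 1 / t) h
    simpa using this
  have h2 : Dw p i ω = Dw p k ω := by exact_mod_cast h1
  rcases lt_trichotomy i k with h3 | h3 | h3
  · have := ClassOdd_Dw_lt (p := p) (ω := ω) hp hi h3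
    omega
  · exact h3
  · have := ClassOdd_Dw_lt (p := p) (ω := ω) hp hk h3
    omega

/-- distance between two roots of different types -/
theorem ClassOdd_vsub (hp : p ≠ 2) {i k : ℕ} (hi : 1 ≤ i) (hik : i < k) {x y : PadicAlgCl p}
    (hx : v p (x - ω) = 1 / (Dw p i ω : ℝ)) (hy : v p (y - ω) = 1 / (Dw p k ω : ℝ)) :
    v p (x - y) = 1 / (D p k : ℝ) := by
  have hk2 : Dw p k ω = D p k := ClassOdd_Dw_eq (by omega)
  have hdi : (1 : ℝ) ≤ (Dw p i ω : ℝ) := by exact_mod_cast ClassOdd_Dw_pos hp i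
  have hdk : (1 : ℝ) ≤ (Dw p k ω : ℝ) := by exact_mod_cast ClassOdd_Dw_pos hp k
  have hlt : (Dw p i ω : ℝ) < (Dw p k ω : ℝ) := by exact_mod_cast ClassOdd_Dw_lt hp hi hik
  have hy0 : y - ω ≠ 0 := ne_zero_of_v_pos (by rw [hy]; positivity)
  have h := v_sub_eq_left (p := p) (x := y - ω) (y := x - ω) hy0 (Or.inr (by
    rw [hx, hy]
    exact one_div_lt_one_div_of_lt (by linarith) hlt))
  have h2 : (y - ω) - (x - ω) = y - x := by ring
  rw [h2] at h
  rw [v_sub_comm, h.1, hy, hk2]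

theorem ClassOdd_lvl_union (h : Factn N a b) (c : ℝ) :
    (lvl p (g N) ω c).card = (lvl p a ω c).card + (lvl p b ω c).card := by
  classical
  rw [← Finset.card_union_of_disjoint]
  · congr 1
    ext x
    simp only [Finset.mem_union, mem_lvl]
    rw [mem_rts_g h]
    tauto
  · rw [Finset.disjoint_left]
    intro x hx hx2
    rw [mem_lvl] at hx hx2
    exact not_mem_both h hx.1 hx2.1

/-- partition of a class into types -/
theorem ClassOdd_sum (hL : Loc p N n e M) (h : Factn N a b) (hp : p ≠ 2) (hω : ω ^ M = 1)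
    (c : ℤ[X]) (hc : c = a ∨ c = b) (G : PadicAlgCl p → ℝ) :
    ∑ x ∈ cls p c ω, G x = ∑ i ∈ Finset.Icc 1 e, ∑ x ∈ lvl p c ω (1 / (Dw p i ω : ℝ)), G x := by
  classical
  rw [← Finset.sum_biUnion]
  · refine Finset.sum_congr ?_ fun _ _ => rfl
    ext x
    rw [Finset.mem_biUnion]
    constructor
    · intro hx
      rw [mem_cls] at hx
      have hg : x ∈ cls p (g N) ω := by
        rw [mem_cls]
        refine ⟨?_, hx.2⟩
        rw [mem_rts_g h]
        rcases hc with rfl | rfl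
        · exact Or.inl hx.1
        · exact Or.inr hx.1
      obtain ⟨i, hi, hv⟩ := (newton_odd hL hp hω).1 x hg
      exact ⟨i, hi, by rw [mem_lvl]; exact ⟨hx.1, hv⟩⟩
    · rintro ⟨i, hi, hx⟩
      rw [mem_lvl] at hx
      rw [mem_cls]
      refine ⟨hx.1, norm_lt_one_of_v_pos ?_⟩
      rw [hx.2]
      have : (1 : ℝ) ≤ (Dw p i ω : ℝ) := by exact_mod_cast ClassOdd_Dw_pos hp i
      positivity
  · intro i hi k hk hik
    rw [Function.onFun, Finset.disjoint_left]
    intro x hx hx2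
    rw [mem_lvl] at hx hx2
    apply hik
    have hi1 : 1 ≤ i := (Finset.mem_Icc.1 hi).1
    have hk1 : 1 ≤ k := (Finset.mem_Icc.1 hk).1
    exact ClassOdd_Dw_inj (ω := ω) hp hi1 hk1 (by rw [← hx.2, ← hx2.2])

theorem ClassOdd_aux (e : ℕ) (m : ℕ → ℝ) (s : ℕ → Bool) :
    (∑ i ∈ Finset.Icc 1 e, ∑ k ∈ Finset.Icc 1 e,
      if i = k then 0 else (if s i then m i else 0) * (if s k then 0 else m k) / (D p (max i k) : ℝ))
      = combV p e m s := by
  unfold combV
  have h1 : ∀ i ∈ Finset.Icc 1 e, (∑ k ∈ Finset.Icc 1 e,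
      if i = k then 0 else (if s i then m i else 0) * (if s k then 0 else m k) / (D p (max i k) : ℝ))
      = (∑ k ∈ Finset.Ioc i e, (if s i then m i else 0) * (if s k then 0 else m k) / (D p k : ℝ))
        + ∑ k ∈ Finset.Ico 1 i, (if s i then m i else 0) * (if s k then 0 else m k) / (D p i : ℝ) := by
    intro i hi
    have hi' := Finset.mem_Icc.1 hi
    have hsplit : Finset.Icc 1 e = (Finset.Ioc i e ∪ Finset.Ico 1 i) ∪ {i} := by
      ext k
      simp only [Finset.mem_union, Finset.mem_Icc, Finset.mem_Ioc, Finset.mem_Ico,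
        Finset.mem_singleton]
      omega
    rw [hsplit, Finset.sum_union, Finset.sum_union]
    · simp only [Finset.sum_singleton, if_true, add_zero]
      congr 1
      · refine Finset.sum_congr rfl fun k hk => ?_
        have hk' := Finset.mem_Ioc.1 hk
        rw [if_neg (by omega : ¬ i = k), max_eq_right (by omega : i ≤ k)]
      · refine Finset.sum_congr rfl fun k hk => ?_
        have hk' := Finset.mem_Ico.1 hk
        rw [if_neg (by omega : ¬ i = k), max_eq_left (by omega : k ≤ i)]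
    · rw [Finset.disjoint_left]
      intro k hk hk2
      have := Finset.mem_Ioc.1 hk
      have := Finset.mem_Ico.1 hk2
      omega
    · rw [Finset.disjoint_singleton_right]
      simp
  rw [Finset.sum_congr rfl h1, Finset.sum_add_distrib]
  have h2 : (∑ i ∈ Finset.Icc 1 e, ∑ k ∈ Finset.Ico 1 i,
      (if s i then m i else 0) * (if s k then 0 else m k) / (D p i : ℝ))
      = ∑ k ∈ Finset.Icc 1 e, ∑ i ∈ Finset.Ioc k e,
      (if s i then m i else 0) * (if s k then 0 else m k) / (D p i : ℝ) := by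
    apply Finset.sum_comm'
    intro i k
    simp only [Finset.mem_Icc, Finset.mem_Ico, Finset.mem_Ioc]
    omega
  rw [h2, ← Finset.sum_add_distrib]
  refine Finset.sum_congr rfl fun i hi => ?_
  rw [← Finset.sum_add_distrib]
  refine Finset.sum_congr rfl fun k hk => ?_
  cases hsi : s i <;> cases hsk : s k <;> (simp; try ring)

theorem class_odd (hL : Loc p N n e M) (h : Factn N a b) (hp : p ≠ 2) (hω : ω ^ M = 1) :
    W p a b ω ≤ ((e : ℝ) - 1) * (cls p a ω).card ∧
    (∀ j : ℕ, W p a b ω ≤ j * (cls p a ω).card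
      + (p : ℝ) ^ (e + 1) / (((p : ℝ) ^ 2 - 1) * (p : ℝ) ^ j)) ∧
    W p a b ω ≤ ∑ x ∈ cls p a ω, v p (x ^ (n / p) - 1) := by
  classical
  have hp2 : 2 ≤ p := (Fact.out : p.Prime).two_le
  have hp3 : 3 ≤ p := ClassOdd_three hp
  have he : 1 ≤ e := hL.he
  set m : ℕ → ℝ := fun i => (Dw p i ω : ℝ) with hm_def
  set s : ℕ → Bool := fun i => decide ((lvl p a ω (1 / (Dw p i ω : ℝ))).card ≠ 0) with hs_def
  have hm : ∀ i, 0 ≤ m i ∧ m i ≤ D p i := by
    intro i
    refine ⟨Nat.cast_nonneg _, ?_⟩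
    show (Dw p i ω : ℝ) ≤ (D p i : ℝ)
    exact_mod_cast ClassOdd_Dw_le i
  -- cardinalities
  have hcard : ∀ i ∈ Finset.Icc 1 e,
      (((lvl p a ω (1 / (Dw p i ω : ℝ))).card : ℝ) = if s i then m i else 0) ∧
      (((lvl p b ω (1 / (Dw p i ω : ℝ))).card : ℝ) = if s i then 0 else m i) := by
    intro i hi
    have h1 := (newton_odd hL hp hω).2 i hi
    rw [ClassOdd_lvl_union h] at h1
    have h2 : Dw p i ω ∣ (lvl p a ω (1 / (Dw p i ω : ℝ))).card :=
      dvd_card_lvl hL.hpM hω a (Dw p i ω) (ClassOdd_Dw_pos hp i)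
    by_cases h0 : (lvl p a ω (1 / (Dw p i ω : ℝ))).card = 0
    · have hs : s i = false := by
        simp only [hs_def, decide_eq_false_iff_not, not_not]
        exact h0
      have h3 : (lvl p b ω (1 / (Dw p i ω : ℝ))).card = Dw p i ω := by omega
      rw [hs, h0, h3]
      simp [hm_def]
    · have hs : s i = true := by
        simp only [hs_def, decide_eq_true_eq]
        exact h0
      have hle := Nat.le_of_dvd (Nat.pos_of_ne_zero h0) h2
      have h3 : (lvl p a ω (1 / (Dw p i ω : ℝ))).card = Dw p i ω := by omega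
      have h4 : (lvl p b ω (1 / (Dw p i ω : ℝ))).card = 0 := by omega
      rw [hs, h3, h4]
      simp [hm_def]
  have hU : ((cls p a ω).card : ℝ) = combU e m s := by
    have := ClassOdd_sum hL h hp hω a (Or.inl rfl) (fun _ => (1 : ℝ))
    simp only [Finset.sum_const, nsmul_eq_mul, mul_one] at this
    rw [this]
    unfold combU
    exact Finset.sum_congr rfl fun i hi => (hcard i hi).1
  have hW : W p a b ω = combV p e m s := by
    unfold W
    rw [ClassOdd_sum hL h hp hω a (Or.inl rfl), ← ClassOdd_aux e m s]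
    refine Finset.sum_congr rfl fun i hi => ?_
    have h1 : ∀ x ∈ lvl p a ω (1 / (Dw p i ω : ℝ)), ∑ y ∈ cls p b ω, v p (x - y) =
        ∑ k ∈ Finset.Icc 1 e, ∑ y ∈ lvl p b ω (1 / (Dw p k ω : ℝ)), v p (x - y) := by
      intro x hx
      exact ClassOdd_sum hL h hp hω b (Or.inr rfl) _
    rw [Finset.sum_congr rfl h1, Finset.sum_comm]
    refine Finset.sum_congr rfl fun k hk => ?_
    have hi1 : 1 ≤ i := (Finset.mem_Icc.1 hi).1
    have hk1 : 1 ≤ k := (Finset.mem_Icc.1 hk).1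
    have hc1 := (hcard i hi).1
    have hc2 := (hcard k hk).2
    by_cases hik : i = k
    · subst hik
      rw [if_pos rfl]
      cases hsi : s i
      · rw [hsi] at hc1
        have : (lvl p a ω (1 / (Dw p i ω : ℝ))).card = 0 := by
          simpa using hc1
        rw [Finset.card_eq_zero] at this
        rw [this, Finset.sum_empty]
      · rw [hsi] at hc2
        have : (lvl p b ω (1 / (Dw p i ω : ℝ))).card = 0 := by
          simpa using hc2
        rw [Finset.card_eq_zero] at this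
        rw [this]
        simp
    · rw [if_neg hik, ← hc1, ← hc2]
      have h2 : ∀ x ∈ lvl p a ω (1 / (Dw p i ω : ℝ)), ∀ y ∈ lvl p b ω (1 / (Dw p k ω : ℝ)),
          v p (x - y) = 1 / (D p (max i k) : ℝ) := by
        intro x hx y hy
        rw [mem_lvl] at hx hy
        rcases lt_or_gt_of_ne hik with h3 | h3
        · rw [max_eq_right h3.le]
          exact ClassOdd_vsub hp hi1 h3 hx.2 hy.2
        · rw [max_eq_left h3.le, v_sub_comm]
          exact ClassOdd_vsub hp hk1 h3 hy.2 hx.2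
      rw [Finset.sum_congr rfl fun x hx => Finset.sum_congr rfl fun y hy => h2 x hx y hy]
      simp only [Finset.sum_const, nsmul_eq_mul]
      ring
  refine ⟨?_, ?_, ?_⟩
  · rw [hW, hU]
    exact comb1 hp2 hm he
  · intro j
    rw [hW, hU]
    exact comb2 hp2 hm he j
  · rw [hW]
    rw [ClassOdd_sum hL h hp hω a (Or.inl rfl)]
    have hroot : ∀ i, ∀ x ∈ lvl p a ω (1 / (Dw p i ω : ℝ)), x ∈ rts (PadicAlgCl p) (g N) ∧
        ‖x - ω‖ < 1 ∧ 1 / (D p i : ℝ) ≤ v p (x - ω) := by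
      intro i x hx
      rw [mem_lvl] at hx
      have h1 : (1 : ℝ) ≤ (Dw p i ω : ℝ) := by exact_mod_cast ClassOdd_Dw_pos hp i
      refine ⟨(mem_rts_g h).2 (Or.inl hx.1), ?_, ?_⟩
      · apply norm_lt_one_of_v_pos
        rw [hx.2]
        positivity
      · rw [hx.2]
        exact one_div_le_one_div_of_le (by linarith) (hm i).2
    by_cases he1 : e = 1
    · subst he1
      have hz : ∀ x ∈ lvl p a ω (1 / (Dw p 1 ω : ℝ)), 0 ≤ v p (x ^ (n / p) - 1) := fun x hx =>
        zval_nonneg (hroot 1 x hx).1 hL.hN _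
      have hge : 0 ≤ ∑ i ∈ Finset.Icc 1 1, ∑ x ∈ lvl p a ω (1 / (Dw p i ω : ℝ)),
          v p (x ^ (n / p) - 1) := by
        simp only [Finset.Icc_self, Finset.sum_singleton]
        exact Finset.sum_nonneg hz
      refine le_trans (comb1 hp2 hm he) (le_trans (le_of_eq ?_) hge)
      simp
    · have he2 : 2 ≤ e := by omega
      refine le_trans (comb3 hp2 hm he) ?_
      obtain ⟨e', rfl⟩ : ∃ e', e = e' + 1 := ⟨e - 1, by omega⟩
      rw [Finset.sum_Icc_succ_top (by omega : 1 ≤ e' + 1)]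
      simp only [Nat.add_sub_cancel]
      apply add_le_add
      · unfold combU
        rw [Finset.mul_sum]
        refine Finset.sum_le_sum fun i hi => ?_
        have hi' := Finset.mem_Icc.1 hi
        rw [← (hcard i (Finset.mem_Icc.2 ⟨hi'.1, by omega⟩)).1]
        have : ∀ x ∈ lvl p a ω (1 / (Dw p i ω : ℝ)), ((e' + 1 : ℕ) : ℝ) - 1 ≤ v p (x ^ (n / p) - 1) :=
          fun x hx => zval_low hL (hroot i x hx).1 hω (hroot i x hx).2.1 hi'.1 (by omega)
            (hroot i x hx).2.2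
        have h5 := Finset.card_nsmul_le_sum _ _ _ this
        rw [nsmul_eq_mul] at h5
        linarith
      · have h6 := (hcard (e' + 1) (Finset.mem_Icc.2 ⟨by omega, le_rfl⟩)).1
        have : ∀ x ∈ lvl p a ω (1 / (Dw p (e' + 1) ω : ℝ)), 1 / ((p : ℝ) - 1) ≤ v p (x ^ (n / p) - 1) :=
          fun x hx => zval_top hL (hroot _ x hx).1 hω (hroot _ x hx).2.1 he2 (hroot _ x hx).2.2
        have h5 := Finset.card_nsmul_le_sum _ _ _ this
        rw [nsmul_eq_mul, h6] at h5
        refine le_trans (le_of_eq ?_) h5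
        split_ifs <;> ring

end Pool.Agent.IRR
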