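import Pool.Agent.IRR.NewtonTwo
import Pool.Agent.IRR.Orbit
import Pool.Agent.IRR.Zval
import Pool.Agent.IRR.Comb

/-!
# IRR.ClassTwo: the class inequalities for `p = 2` (diff 3)

As `IRR.ClassOdd`, except for the group `G = lvl 2 (g N) ω (1/2)`, which plays the role of the types `1` and `2`
(`D 2 1 = D 2 2 = 2`).  `#(G ∩ a)` is even (`dvd_card_lvl` with `D = 2`).
* `e = 1`: `#G ∈ {2, 0}`, `cls (g N) = G` is on one side, `W = 0`; take `m_1 = #G`, `s_1`.
* `e ≥ 2`, `ω = 1`: `#G = 2`, on one side: `m_1 = 0`, `m_2 = 2`, `s_1 = s_2`.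
* `e ≥ 2`, `ω ≠ 1`: `#G = 4`, `#(G ∩ a) ∈ {0, 2, 4}`: `m_1 = m_2 = 2`, `(s_1,s_2) = (F,F), (T,F), (T,T)`.
  In the middle case `G ∩ a = {x, x'}` with `v(x-x') ≥ 1` (`pair_close`); `v_der`: `∑_{y≠x} v(x-y) = e`
  (`v(x-1) = 0` as `ω ≠ 1`), the roots of type `i ≥ 3` contribute `D_i · 1/D_i = 1` each, i.e. `e-2`
  in total, (all other terms are `≥ 0`), so `∑_{y ∈ G∩b} v(x-y) ≤ 2 - 1 = 1` for both `x`: the cross energy inside `G` is
  `≤ 2 = m_1 m_2 / D_2`.
* types `i ≥ 3`: `m_i = D 2 i`, `s_i` as in the odd case; `v(x-y) = 1/D_{max}` for different types.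
So `#cls a = combU e m s`, `W ≤ combV 2 e m s`, and conclude by `comb1`, `comb2`, `comb3`;
`x ∈ G`: `v(x^(n/2) - 1) ≥ e - 1` (`e ≥ 2`: `zval_low` with `i = 1`; this is also `≥ 1/(p-1) = 1`).
-/

namespace Pool.Agent.IRR

open Polynomial

variable {N n e M : ℕ} {ω : PadicAlgCl 2} {a b : ℤ[X]}

/-! ### sizes -/

theorem ClassTwo_D {i : ℕ} (hi : 2 ≤ i) : D 2 i = 2 ^ (i - 1) := by
  unfold D
  rw [if_neg (by omega)]
  simp

theorem ClassTwo_D_ge {i : ℕ} (hi : 3 ≤ i) : 4 ≤ D 2 i := by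
  rw [ClassTwo_D (by omega)]
  calc 4 = 2 ^ 2 := by norm_num
    _ ≤ 2 ^ (i - 1) := Nat.pow_le_pow_right (by norm_num) (by omega)

theorem ClassTwo_D_lt {i k : ℕ} (hi : 3 ≤ i) (hik : i < k) : D 2 i < D 2 k := by
  rw [ClassTwo_D (by omega), ClassTwo_D (by omega)]
  exact Nat.pow_lt_pow_right (by norm_num) (by omega)

theorem ClassTwo_inv_lt {i k : ℕ} (hi : 3 ≤ i) (hik : i < k) :
    (1 : ℝ) / (D 2 k : ℝ) < 1 / (D 2 i : ℝ) := by
  have h1 := ClassTwo_D_ge hi
  have h2 := ClassTwo_D_lt hi hik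
  apply one_div_lt_one_div_of_lt
  · exact_mod_cast (by omega : 0 < D 2 i)
  · exact_mod_cast h2

theorem ClassTwo_inv_lt_half {i : ℕ} (hi : 3 ≤ i) : (1 : ℝ) / (D 2 i : ℝ) < 1 / 2 := by
  have h1 := ClassTwo_D_ge hi
  apply one_div_lt_one_div_of_lt (by norm_num)
  exact_mod_cast (by omega : 2 < D 2 i)

/-! ### decomposition of a class -/

/-- a part `c` of `g`: its roots are roots of `g` -/
theorem ClassTwo_sum_cls (hL : Loc 2 N n e M) (hω : ω ^ M = 1) (c : ℤ[X])
    (hc : ∀ x, x ∈ rts (PadicAlgCl 2) c → x ∈ rts (PadicAlgCl 2) (g N))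
    (H : PadicAlgCl 2 → ℝ) :
    ∑ x ∈ cls 2 c ω, H x = ∑ x ∈ lvl 2 c ω (1 / 2), H x +
      ∑ i ∈ Finset.Icc 3 e, ∑ x ∈ lvl 2 c ω (1 / (D 2 i : ℝ)), H x := by
  classical
  have hnt := newton_two hL hω
  have hpos : ∀ i ∈ Finset.Icc 3 e, (0 : ℝ) < 1 / (D 2 i : ℝ) := by
    intro i hi
    have := ClassTwo_D_ge (Finset.mem_Icc.1 hi).1
    have : (0 : ℝ) < D 2 i := by exact_mod_cast (by omega : 0 < D 2 i)
    positivity
  have hcls : cls 2 c ω = lvl 2 c ω (1 / 2) ∪
      (Finset.Icc 3 e).biUnion (fun i => lvl 2 c ω (1 / (D 2 i : ℝ))) := by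
    ext x
    simp only [Finset.mem_union, Finset.mem_biUnion]
    constructor
    · intro hx
      obtain ⟨hx1, hx2⟩ := mem_cls.1 hx
      rcases hnt.1 x (mem_cls.2 ⟨hc x hx1, hx2⟩) with h | ⟨i, hi, h⟩
      · exact Or.inl (mem_lvl.2 ⟨hx1, h⟩)
      · exact Or.inr ⟨i, hi, mem_lvl.2 ⟨hx1, h⟩⟩
    · rintro (h | ⟨i, hi, h⟩)
      · obtain ⟨h1, h2⟩ := mem_lvl.1 h
        exact mem_cls.2 ⟨h1, norm_lt_one_of_v_pos (by rw [h2]; norm_num)⟩
      · obtain ⟨h1, h2⟩ := mem_lvl.1 h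
        exact mem_cls.2 ⟨h1, norm_lt_one_of_v_pos (by rw [h2]; exact hpos i hi)⟩
  rw [hcls, Finset.sum_union, Finset.sum_biUnion]
  · intro i hi k hk hik
    rw [Function.onFun, Finset.disjoint_left]
    intro x hx hx'
    have h1 := (mem_lvl.1 hx).2
    have h2 := (mem_lvl.1 hx').2
    have hi' := (Finset.mem_Icc.1 hi).1
    have hk' := (Finset.mem_Icc.1 hk).1
    rcases lt_or_gt_of_ne hik with h | h
    · have := ClassTwo_inv_lt hi' h
      rw [h1] at h2
      linarith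
    · have := ClassTwo_inv_lt hk' h
      rw [h1] at h2
      linarith
  · rw [Finset.disjoint_left]
    intro x hx hx'
    obtain ⟨i, hi, hx''⟩ := Finset.mem_biUnion.1 hx'
    have h1 := (mem_lvl.1 hx).2
    have h2 := (mem_lvl.1 hx'').2
    have := ClassTwo_inv_lt_half (Finset.mem_Icc.1 hi).1
    rw [h1] at h2
    linarith

theorem ClassTwo_v_sub {x y : PadicAlgCl 2} {c c' : ℝ} (hc : 0 < c) (hcc : c < c')
    (hx : v 2 (x - ω) = c) (hy : v 2 (y - ω) = c') : v 2 (x - y) = c ∧ v 2 (y - x) = c := by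
  have hx0 : x - ω ≠ 0 := ne_zero_of_v_pos (by rw [hx]; exact hc)
  have h := (v_sub_eq_left (y := y - ω) hx0 (Or.inr (by rw [hx, hy]; exact hcc))).1
  have h2 : x - y = (x - ω) - (y - ω) := by ring
  have h3 : v 2 (x - y) = c := by rw [h2, h, hx]
  exact ⟨h3, by rw [v_sub_comm, h3]⟩

theorem ClassTwo_card_split (h : Factn N a b) (c : ℝ) :
    (lvl 2 (g N) ω c).card = (lvl 2 a ω c).card + (lvl 2 b ω c).card := by
  classical
  have hdisj : Disjoint (lvl 2 a ω c) (lvl 2 b ω c) := by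
    rw [Finset.disjoint_left]
    intro x hx hx'
    exact not_mem_both h (mem_lvl.1 hx).1 (mem_lvl.1 hx').1
  rw [← Finset.card_union_of_disjoint hdisj]
  congr 1
  ext x
  simp only [Finset.mem_union, mem_lvl, mem_rts_g h]
  tauto

theorem ClassTwo_type (hL : Loc 2 N n e M) (h : Factn N a b) (hω : ω ^ M = 1) {i : ℕ}
    (hi : i ∈ Finset.Icc 3 e) :
    ((lvl 2 a ω (1 / (D 2 i : ℝ))).card = 0 ∧ (lvl 2 b ω (1 / (D 2 i : ℝ))).card = D 2 i) ∨
    ((lvl 2 a ω (1 / (D 2 i : ℝ))).card = D 2 i ∧ (lvl 2 b ω (1 / (D 2 i : ℝ))).card = 0) := by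
  have h1 := (newton_two hL hω).2.2.2 i hi
  have h2 := ClassTwo_card_split (ω := ω) h (1 / (D 2 i : ℝ))
  have hM : ¬ 2 ∣ M := hL.hpM
  have h4 := ClassTwo_D_ge (Finset.mem_Icc.1 hi).1
  have h3 : D 2 i ∣ (lvl 2 a ω (1 / (D 2 i : ℝ))).card := dvd_card_lvl hM hω a (D 2 i) (by omega)
  rw [h1] at h2
  obtain ⟨t, ht⟩ := h3
  have ht1 : t = 0 ∨ t = 1 := by
    have : D 2 i * t ≤ D 2 i := by omega
    have : t ≤ 1 := by
      by_contra hh
      push Not at hh
      have : D 2 i * 2 ≤ D 2 i * t := Nat.mul_le_mul_left _ hh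
      omega
    omega
  rcases ht1 with rfl | rfl
  · left
    rw [mul_zero] at ht
    omega
  · right
    rw [mul_one] at ht
    omega

/-! ### sums over types -/

theorem ClassTwo_sum_split {e : ℕ} (he : 2 ≤ e) (G : ℕ → ℝ) :
    ∑ i ∈ Finset.Icc 1 e, G i = G 1 + G 2 + ∑ i ∈ Finset.Icc 3 e, G i := by
  induction e, he using Nat.le_induction with
  | base =>
    have h1 : Finset.Icc 1 2 = {1, 2} := by decide
    have h2 : Finset.Icc 3 2 = (∅ : Finset ℕ) := by decide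
    rw [h1, h2]
    simp
  | succ k hk ih =>
    rw [Finset.sum_Icc_succ_top (by omega), Finset.sum_Icc_succ_top (by omega), ih]
    ring

theorem ClassTwo_double (X : ℕ → ℕ → ℝ) (e : ℕ) :
    ∑ i ∈ Finset.Icc 3 e, ∑ k ∈ Finset.Icc 3 e, X i k =
      ∑ i ∈ Finset.Icc 3 e, X i i +
      ∑ i ∈ Finset.Icc 3 e, ∑ k ∈ Finset.Ioc i e, (X i k + X k i) := by
  induction e with
  | zero => simp
  | succ e ih =>
    rcases Nat.lt_or_ge e 2 with h | h
    · have : Finset.Icc 3 (e + 1) = (∅ : Finset ℕ) := Finset.Icc_eq_empty (by omega)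
      rw [this]
      simp
    · rw [Finset.sum_Icc_succ_top (by omega), Finset.sum_Icc_succ_top (by omega),
        Finset.sum_Icc_succ_top (by omega), Finset.sum_Icc_succ_top (by omega)]
      have h1 : ∀ i ∈ Finset.Icc 3 e, ∑ k ∈ Finset.Icc 3 (e + 1), X i k =
          ∑ k ∈ Finset.Icc 3 e, X i k + X i (e + 1) := by
        intro i _
        rw [Finset.sum_Icc_succ_top (by omega)]
      have h2 : ∀ i ∈ Finset.Icc 3 e, ∑ k ∈ Finset.Ioc i (e + 1), (X i k + X k i) =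
          ∑ k ∈ Finset.Ioc i e, (X i k + X k i) + (X i (e + 1) + X (e + 1) i) := by
        intro i hi
        rw [Finset.sum_Ioc_succ_top (Finset.mem_Icc.1 hi).2]
      rw [Finset.sum_congr rfl h1, Finset.sum_congr rfl h2, Finset.sum_add_distrib,
        Finset.sum_add_distrib, ih, Finset.Ioc_self, Finset.sum_empty, Finset.sum_add_distrib]
      ring

/-- `combV` through the sizes of the two sides -/
theorem ClassTwo_combV {e : ℕ} (he : 2 ≤ e) (m : ℕ → ℝ) (s : ℕ → Bool) (α β : ℕ → ℝ)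
    (hα : ∀ i, α i = if s i then m i else 0) (hβ : ∀ i, β i = if s i then 0 else m i) :
    combV 2 e m s = (α 1 * β 2 + β 1 * α 2) / 2 +
      ∑ k ∈ Finset.Icc 3 e, ((α 1 + α 2) * β k + (β 1 + β 2) * α k) / (D 2 k : ℝ) +
      ∑ i ∈ Finset.Icc 3 e, ∑ k ∈ Finset.Ioc i e, (α i * β k + β i * α k) / (D 2 k : ℝ) := by
  have hterm : ∀ i k : ℕ, (if s i = s k then 0 else m i * m k / (D 2 k : ℝ)) =
      (α i * β k + β i * α k) / (D 2 k : ℝ) := by
    intro i k
    rw [hα, hβ, hα, hβ]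
    cases h1 : s i <;> cases h2 : s k <;> simp
  unfold combV
  simp only [hterm]
  rw [ClassTwo_sum_split he]
  have h1 : Finset.Ioc 1 e = Finset.Icc 2 e := by ext; simp; omega
  have h2 : Finset.Ioc 2 e = Finset.Icc 3 e := by ext; simp; omega
  have h3 : ∑ k ∈ Finset.Icc 2 e, (α 1 * β k + β 1 * α k) / (D 2 k : ℝ) =
      (α 1 * β 2 + β 1 * α 2) / (D 2 2 : ℝ) +
        ∑ k ∈ Finset.Icc 3 e, (α 1 * β k + β 1 * α k) / (D 2 k : ℝ) := by
    have h4 : Finset.Icc 2 e = insert 2 (Finset.Icc 3 e) := by ext; simp; omega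
    rw [h4, Finset.sum_insert (by simp)]
  rw [h1, h2, h3]
  have h5 : (D 2 2 : ℝ) = 2 := by
    rw [ClassTwo_D le_rfl]
    norm_num
  rw [h5]
  have h6 : ∑ k ∈ Finset.Icc 3 e, ((α 1 + α 2) * β k + (β 1 + β 2) * α k) / (D 2 k : ℝ) =
      ∑ k ∈ Finset.Icc 3 e, (α 1 * β k + β 1 * α k) / (D 2 k : ℝ) +
      ∑ k ∈ Finset.Icc 3 e, (α 2 * β k + β 2 * α k) / (D 2 k : ℝ) := by
    rw [← Finset.sum_add_distrib]
    apply Finset.sum_congr rfl
    intro k _
    ring
  rw [h6]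
  ring

/-! ### the group `v(x - ω) = 1/2` -/

theorem ClassTwo_sum_ab (h : Factn N a b) (c : ℝ) (H : PadicAlgCl 2 → ℝ) :
    ∑ x ∈ lvl 2 (g N) ω c, H x = ∑ x ∈ lvl 2 a ω c, H x + ∑ x ∈ lvl 2 b ω c, H x := by
  classical
  have hdisj : Disjoint (lvl 2 a ω c) (lvl 2 b ω c) := by
    rw [Finset.disjoint_left]
    intro x hx hx'
    exact not_mem_both h (mem_lvl.1 hx).1 (mem_lvl.1 hx').1
  rw [← Finset.sum_union hdisj]
  apply Finset.sum_congr _ (fun _ _ => rfl)
  ext x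
  simp only [Finset.mem_union, mem_lvl, mem_rts_g h]
  tauto

theorem ClassTwo_v_diff_nonneg (h : Factn N a b) {x y : PadicAlgCl 2}
    (hx : x ∈ rts (PadicAlgCl 2) (g N)) (hy : y ∈ rts (PadicAlgCl 2) (g N)) :
    0 ≤ v 2 (x - y) := by
  have hm : (g N).Monic := g_monic N (by have := h.hN; omega)
  apply v_nonneg
  have h1 := norm_rts_le_one hm hx
  have h2 := norm_rts_le_one hm hy
  have h3 := (PadicAlgCl.isNonarchimedean 2) x (-y)
  rw [← sub_eq_add_neg, norm_neg] at h3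
  exact h3.trans (max_le h1 h2)

theorem ClassTwo_unit (hM : M ≠ 0) (hω : ω ^ M = 1) {x : PadicAlgCl 2} (hx : 0 < v 2 (x - ω)) :
    ‖x‖ = 1 := by
  have h1 := norm_mu hM hω
  have hω0 : ω ≠ 0 := by
    rintro rfl
    simp at h1
  have h2 := v_add_eq_left (x := ω) (y := x - ω) hω0 (Or.inr (by rw [v_eq_zero h1]; exact hx))
  have h3 : ω + (x - ω) = x := by ring
  rw [h3, v_eq_zero h1] at h2
  rw [norm_eq h2.2, h2.1]
  simp

theorem ClassTwo_v_one (hM2 : ¬ 2 ∣ M) (hω : ω ^ M = 1) (h1 : ω ≠ 1) {x : PadicAlgCl 2}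
    (hx : 0 < v 2 (x - ω)) : v 2 (x - 1) = 0 := by
  have h2 : ‖ω - 1‖ = 1 := mu_sep hM2 hω (one_pow M) h1
  have h3 : ω - 1 ≠ 0 := sub_ne_zero.2 h1
  have h4 := v_add_eq_left (x := ω - 1) (y := x - ω) h3 (Or.inr (by rw [v_eq_zero h2]; exact hx))
  have h5 : ω - 1 + (x - ω) = x - 1 := by ring
  rw [h5, v_eq_zero h2] at h4
  exact h4.1

/-- in the middle case, the cross energy at one root is at most one -/
theorem ClassTwo_cross (hL : Loc 2 N n e M) (h : Factn N a b) (hω : ω ^ M = 1) (he : 2 ≤ e)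
    (h1 : ω ≠ 1) (hc : (lvl 2 a ω (1 / 2)).card = 2) {x : PadicAlgCl 2}
    (hx : x ∈ lvl 2 a ω (1 / 2)) : ∑ y ∈ lvl 2 b ω (1 / 2), v 2 (x - y) ≤ 1 := by
  classical
  have hM0 : M ≠ 0 := by
    rintro rfl
    exact hL.hpM (dvd_zero 2)
  obtain ⟨hxa, hxv⟩ := mem_lvl.1 hx
  have hxg : x ∈ rts (PadicAlgCl 2) (g N) := (mem_rts_g h).2 (Or.inl hxa)
  have hxv0 : 0 < v 2 (x - ω) := by rw [hxv]; norm_num
  have hder := v_der hL hxg (ClassTwo_unit hM0 hω hxv0)
  rw [ClassTwo_v_one hL.hpM hω h1 hxv0, sub_zero] at hder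
  have hxx : v 2 (x - x) = 0 := by rw [sub_self, v_zero]
  have hsub : ∑ y ∈ cls 2 (g N) ω, v 2 (x - y) ≤
      ∑ y ∈ (rts (PadicAlgCl 2) (g N)).erase x, v 2 (x - y) := by
    have hxc : x ∈ cls 2 (g N) ω := mem_cls.2 ⟨hxg, norm_lt_one_of_v_pos hxv0⟩
    rw [← Finset.add_sum_erase _ _ hxc, hxx, zero_add]
    apply Finset.sum_le_sum_of_subset_of_nonneg
    · intro y hy
      obtain ⟨hy1, hy2⟩ := Finset.mem_erase.1 hy
      exact Finset.mem_erase.2 ⟨hy1, (mem_cls.1 hy2).1⟩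
    · intro y hy _
      exact ClassTwo_v_diff_nonneg h hxg (Finset.mem_erase.1 hy).2
  rw [hder, ClassTwo_sum_cls hL hω (g N) (fun x hx => hx), ClassTwo_sum_ab h] at hsub
  have htypes : ∑ i ∈ Finset.Icc 3 e, ∑ y ∈ lvl 2 (g N) ω (1 / (D 2 i : ℝ)), v 2 (x - y) =
      (e : ℝ) - 2 := by
    have : ∀ i ∈ Finset.Icc 3 e, ∑ y ∈ lvl 2 (g N) ω (1 / (D 2 i : ℝ)), v 2 (x - y) = 1 := by
      intro i hi
      have hi3 := (Finset.mem_Icc.1 hi).1
      have hD := ClassTwo_D_ge hi3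
      have hD0 : (0 : ℝ) < D 2 i := by exact_mod_cast (by omega : 0 < D 2 i)
      have : ∀ y ∈ lvl 2 (g N) ω (1 / (D 2 i : ℝ)), v 2 (x - y) = 1 / (D 2 i : ℝ) := by
        intro y hy
        exact (ClassTwo_v_sub (by positivity) (ClassTwo_inv_lt_half hi3) (mem_lvl.1 hy).2 hxv).2
      rw [Finset.sum_congr rfl this, Finset.sum_const, (newton_two hL hω).2.2.2 i hi, nsmul_eq_mul]
      field_simp
    rw [Finset.sum_congr rfl this, Finset.sum_const, Nat.card_Icc, nsmul_eq_mul, mul_one,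
      Nat.cast_sub (by omega)]
    push_cast
    ring
  rw [htypes] at hsub
  have hpair : 1 ≤ ∑ y ∈ lvl 2 a ω (1 / 2), v 2 (x - y) := by
    obtain ⟨z, hz⟩ : ∃ z, (lvl 2 a ω (1 / 2)).erase x = {z} := by
      apply Finset.card_eq_one.1
      rw [Finset.card_erase_of_mem hx, hc]
    have hz' : z ∈ (lvl 2 a ω (1 / 2)).erase x := by rw [hz]; simp
    obtain ⟨hz1, hz2⟩ := Finset.mem_erase.1 hz'
    rw [← Finset.add_sum_erase _ _ hx, hxx, zero_add, hz, Finset.sum_singleton]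
    exact pair_close hL.hpM hω a hc hx hz2 hz1.symm
  linarith

/-- the group splits as two virtual types -/
theorem ClassTwo_group (hL : Loc 2 N n e M) (h : Factn N a b) (hω : ω ^ M = 1) :
    ∃ (m1 m2 : ℝ) (s1 s2 : Bool), (0 ≤ m1 ∧ m1 ≤ 2) ∧ (0 ≤ m2 ∧ m2 ≤ 2) ∧
      ((if s1 then m1 else 0) + (if s2 then m2 else 0) = ((lvl 2 a ω (1 / 2)).card : ℝ)) ∧
      ((if s1 then 0 else m1) + (if s2 then 0 else m2) = ((lvl 2 b ω (1 / 2)).card : ℝ)) ∧
      (∑ x ∈ lvl 2 a ω (1 / 2), ∑ y ∈ lvl 2 b ω (1 / 2), v 2 (x - y) ≤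
        ((if s1 then m1 else 0) * (if s2 then 0 else m2) +
          (if s1 then 0 else m1) * (if s2 then m2 else 0)) / 2) ∧
      (e = 1 → m2 = 0) := by
  have hcard := ClassTwo_card_split (ω := ω) h (1 / 2)
  have hnt := newton_two hL hω
  have heven : 2 ∣ (lvl 2 a ω (1 / 2)).card := by
    have := dvd_card_lvl (p := 2) hL.hpM hω a 2 (by norm_num)
    simpa using this
  have hempty_a : (lvl 2 a ω (1 / 2)).card = 0 →
      ∑ x ∈ lvl 2 a ω (1 / 2), ∑ y ∈ lvl 2 b ω (1 / 2), v 2 (x - y) = 0 := by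
    intro h0
    rw [Finset.card_eq_zero.1 h0, Finset.sum_empty]
  have hempty_b : (lvl 2 b ω (1 / 2)).card = 0 →
      ∑ x ∈ lvl 2 a ω (1 / 2), ∑ y ∈ lvl 2 b ω (1 / 2), v 2 (x - y) = 0 := by
    intro h0
    rw [Finset.card_eq_zero.1 h0]
    simp
  have he1 := hL.he
  by_cases h1 : ω = 1
  · by_cases he : e = 1
    · have hg := hnt.2.2.1 h1
      rw [if_pos he] at hg
      rw [hg] at hcard
      refine ⟨0, 0, true, true, by norm_num, by norm_num, ?_, ?_, ?_, fun _ => rfl⟩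
      · have : (lvl 2 a ω (1 / 2)).card = 0 := by omega
        rw [this]; simp
      · have : (lvl 2 b ω (1 / 2)).card = 0 := by omega
        rw [this]; simp
      · rw [hempty_a (by omega)]; simp
    · have hg := hnt.2.2.1 h1
      rw [if_neg he] at hg
      rw [hg] at hcard
      have hcases : (lvl 2 a ω (1 / 2)).card = 0 ∨ (lvl 2 a ω (1 / 2)).card = 2 := by omega
      rcases hcases with h0 | h0
      · refine ⟨0, 2, false, false, by norm_num, by norm_num, ?_, ?_, ?_, fun hh => absurd hh he⟩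
        · rw [h0]; simp
        · have : (lvl 2 b ω (1 / 2)).card = 2 := by omega
          rw [this]; simp
        · rw [hempty_a h0]; simp
      · have hb : (lvl 2 b ω (1 / 2)).card = 0 := by omega
        refine ⟨0, 2, true, true, by norm_num, by norm_num, ?_, ?_, ?_, fun hh => absurd hh he⟩
        · rw [h0]; simp
        · rw [hb]; simp
        · rw [hempty_b hb]; simp
  · by_cases he : e = 1
    · have hg := hnt.2.1 h1
      rw [if_pos he] at hg
      rw [hg] at hcard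
      have hcases : (lvl 2 a ω (1 / 2)).card = 0 ∨ (lvl 2 a ω (1 / 2)).card = 2 := by omega
      rcases hcases with h0 | h0
      · refine ⟨2, 0, false, false, by norm_num, by norm_num, ?_, ?_, ?_, fun _ => rfl⟩
        · rw [h0]; simp
        · have : (lvl 2 b ω (1 / 2)).card = 2 := by omega
          rw [this]; simp
        · rw [hempty_a h0]; simp
      · have hb : (lvl 2 b ω (1 / 2)).card = 0 := by omega
        refine ⟨2, 0, true, true, by norm_num, by norm_num, ?_, ?_, ?_, fun _ => rfl⟩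
        · rw [h0]; simp
        · rw [hb]; simp
        · rw [hempty_b hb]; simp
    · have hg := hnt.2.1 h1
      rw [if_neg he] at hg
      rw [hg] at hcard
      have hcases : (lvl 2 a ω (1 / 2)).card = 0 ∨ (lvl 2 a ω (1 / 2)).card = 2 ∨
          (lvl 2 a ω (1 / 2)).card = 4 := by omega
      rcases hcases with h0 | h0 | h0
      · refine ⟨2, 2, false, false, by norm_num, by norm_num, ?_, ?_, ?_, fun hh => absurd hh he⟩
        · rw [h0]; simp
        · have : (lvl 2 b ω (1 / 2)).card = 4 := by omega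
          rw [this]; norm_num
        · rw [hempty_a h0]; simp
      · have hb : (lvl 2 b ω (1 / 2)).card = 2 := by omega
        refine ⟨2, 2, true, false, by norm_num, by norm_num, ?_, ?_, ?_, fun hh => absurd hh he⟩
        · rw [h0]; simp
        · rw [hb]; simp
        · have : ∀ x ∈ lvl 2 a ω (1 / 2), ∑ y ∈ lvl 2 b ω (1 / 2), v 2 (x - y) ≤ 1 :=
            fun x hx => ClassTwo_cross hL h hω (by omega) h1 h0 hx
          have h2 := Finset.sum_le_sum this
          rw [Finset.sum_const, h0] at h2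
          norm_num at h2 ⊢
          exact h2
      · have hb : (lvl 2 b ω (1 / 2)).card = 0 := by omega
        refine ⟨2, 2, true, true, by norm_num, by norm_num, ?_, ?_, ?_, fun hh => absurd hh he⟩
        · rw [h0]; norm_num
        · rw [hb]; simp
        · rw [hempty_b hb]; simp

/-! ### assembly -/

theorem ClassTwo_main (hL : Loc 2 N n e M) (h : Factn N a b) (hω : ω ^ M = 1) :
    ∃ (m : ℕ → ℝ) (s : ℕ → Bool), (∀ i, 0 ≤ m i ∧ m i ≤ D 2 i) ∧
      ((cls 2 a ω).card : ℝ) = combU e m s ∧ W 2 a b ω ≤ combV 2 e m s ∧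
      (2 ≤ e → ((e : ℝ) - 1) * combU (e - 1) m s + (if s e then m e else 0) ≤
        ∑ x ∈ cls 2 a ω, v 2 (x ^ (n / 2) - 1)) := by
  classical
  obtain ⟨m1, m2, s1, s2, hm1, hm2, hga, hgb, hCG, hm20⟩ := ClassTwo_group hL h hω
  have he1 := hL.he
  set ta : ℕ → ℝ := fun i => ((lvl 2 a ω (1 / (D 2 i : ℝ))).card : ℝ) with hta
  set tb : ℕ → ℝ := fun i => ((lvl 2 b ω (1 / (D 2 i : ℝ))).card : ℝ) with htb
  set ga : ℝ := ((lvl 2 a ω (1 / 2)).card : ℝ) with hgadef
  set gb : ℝ := ((lvl 2 b ω (1 / 2)).card : ℝ) with hgbdef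
  set m : ℕ → ℝ := fun i => if i = 1 then m1 else if i = 2 then m2 else
    if 3 ≤ i ∧ i ≤ e then (D 2 i : ℝ) else 0 with hm
  set s : ℕ → Bool := fun i => if i = 1 then s1 else if i = 2 then s2 else
    decide ((lvl 2 a ω (1 / (D 2 i : ℝ))).card = D 2 i) with hs
  set α : ℕ → ℝ := fun i => if s i then m i else 0 with hα
  set β : ℕ → ℝ := fun i => if s i then 0 else m i with hβ
  have hα1 : α 1 = if s1 then m1 else 0 := by simp [hα, hs, hm]
  have hα2 : α 2 = if s2 then m2 else 0 := by simp [hα, hs, hm]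
  have hβ1 : β 1 = if s1 then 0 else m1 := by simp [hβ, hs, hm]
  have hβ2 : β 2 = if s2 then 0 else m2 := by simp [hβ, hs, hm]
  rw [← hα1, ← hα2] at hga
  rw [← hβ1, ← hβ2] at hgb
  rw [← hα1, ← hα2, ← hβ1, ← hβ2] at hCG
  -- types
  have hti : ∀ i ∈ Finset.Icc 3 e, α i = ta i ∧ β i = tb i ∧ ta i * tb i = 0 := by
    intro i hi
    have hi' := Finset.mem_Icc.1 hi
    have hD := ClassTwo_D_ge hi'.1
    have hmi : m i = D 2 i := by
      simp only [hm]
      rw [if_neg (by omega), if_neg (by omega), if_pos hi']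
    have hsi : s i = decide ((lvl 2 a ω (1 / (D 2 i : ℝ))).card = D 2 i) := by
      simp only [hs]
      rw [if_neg (by omega), if_neg (by omega)]
    have hta' : ta i = ((lvl 2 a ω (1 / (D 2 i : ℝ))).card : ℝ) := rfl
    have htb' : tb i = ((lvl 2 b ω (1 / (D 2 i : ℝ))).card : ℝ) := rfl
    rcases ClassTwo_type hL h hω hi with ⟨h1, h2⟩ | ⟨h1, h2⟩
    · have hs0 : s i = false := by
        rw [hsi, h1]
        exact decide_eq_false (by omega)
      rw [h1, Nat.cast_zero] at hta'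
      rw [h2] at htb'
      have hα0 : α i = 0 := by simp [hα, hs0]
      have hβ0 : β i = D 2 i := by rw [← hmi]; simp [hβ, hs0]
      refine ⟨by rw [hα0, hta'], by rw [hβ0, htb'], by rw [hta', zero_mul]⟩
    · have hs0 : s i = true := by
        rw [hsi, h1]
        exact decide_eq_true rfl
      rw [h1] at hta'
      rw [h2, Nat.cast_zero] at htb'
      have hα0 : α i = D 2 i := by rw [← hmi]; simp [hα, hs0]
      have hβ0 : β i = 0 := by simp [hβ, hs0]
      refine ⟨by rw [hα0, hta'], by rw [hβ0, htb'], by rw [htb', mul_zero]⟩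
  have hDm : ∀ i, 0 ≤ m i ∧ m i ≤ D 2 i := by
    intro i
    simp only [hm]
    split_ifs with h1 h2 h3
    · subst h1
      refine ⟨hm1.1, ?_⟩
      have : D 2 1 = 2 := rfl
      rw [this]; exact_mod_cast hm1.2
    · subst h2
      refine ⟨hm2.1, ?_⟩
      have : D 2 2 = 2 := rfl
      rw [this]; exact_mod_cast hm2.2
    · exact ⟨by positivity, le_rfl⟩
    · exact ⟨le_rfl, by positivity⟩
  have hae : ∀ x, x ∈ rts (PadicAlgCl 2) a → x ∈ rts (PadicAlgCl 2) (g N) :=
    fun x hx => (mem_rts_g h).2 (Or.inl hx)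
  have hbe : ∀ x, x ∈ rts (PadicAlgCl 2) b → x ∈ rts (PadicAlgCl 2) (g N) :=
    fun x hx => (mem_rts_g h).2 (Or.inr hx)
  -- cardinality
  have hcard : ((cls 2 a ω).card : ℝ) = ga + ∑ i ∈ Finset.Icc 3 e, ta i := by
    have h1 := ClassTwo_sum_cls hL hω a hae (fun _ => 1)
    simp only [Finset.sum_const, nsmul_eq_mul, mul_one] at h1
    exact h1
  have hcU : ((cls 2 a ω).card : ℝ) = combU e m s := by
    rw [hcard]
    unfold combU
    change _ = ∑ i ∈ Finset.Icc 1 e, α i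
    rcases Nat.lt_or_ge e 2 with he | he
    · have he' : e = 1 := by omega
      have h3 : Finset.Icc 3 e = (∅ : Finset ℕ) := Finset.Icc_eq_empty (by omega)
      have h4 : Finset.Icc 1 e = {1} := by rw [he']; rfl
      have h5 : α 2 = 0 := by
        rw [hα2, hm20 he']; simp
      rw [h3, h4, Finset.sum_empty, Finset.sum_singleton, add_zero, ← hga, h5, add_zero]
    · rw [ClassTwo_sum_split he, ← hga]
      congr 1
      exact Finset.sum_congr rfl fun i hi => (hti i hi).1.symm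
  -- the inner sums
  have hinner1 : ∀ x ∈ lvl 2 a ω (1 / 2), ∑ y ∈ cls 2 b ω, v 2 (x - y) =
      ∑ y ∈ lvl 2 b ω (1 / 2), v 2 (x - y) + ∑ k ∈ Finset.Icc 3 e, tb k / (D 2 k : ℝ) := by
    intro x hx
    rw [ClassTwo_sum_cls hL hω b hbe]
    congr 1
    apply Finset.sum_congr rfl
    intro k hk
    have hk3 := (Finset.mem_Icc.1 hk).1
    have hD := ClassTwo_D_ge hk3
    have hD0 : (0 : ℝ) < D 2 k := by exact_mod_cast (by omega : 0 < D 2 k)
    have : ∀ y ∈ lvl 2 b ω (1 / (D 2 k : ℝ)), v 2 (x - y) = 1 / (D 2 k : ℝ) := fun y hy =>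
      (ClassTwo_v_sub (by positivity) (ClassTwo_inv_lt_half hk3) (mem_lvl.1 hy).2
        (mem_lvl.1 hx).2).2
    rw [Finset.sum_congr rfl this, Finset.sum_const, nsmul_eq_mul]
    simp only [htb]
    ring
  set c : ℕ → ℕ → ℝ := fun i k => if i = k then 0 else 1 / (D 2 (max i k) : ℝ) with hc
  have hinner2 : ∀ i ∈ Finset.Icc 3 e, ∀ x ∈ lvl 2 a ω (1 / (D 2 i : ℝ)),
      ∑ y ∈ cls 2 b ω, v 2 (x - y) =
      gb / (D 2 i : ℝ) + ∑ k ∈ Finset.Icc 3 e, tb k * c i k := by
    intro i hi x hx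
    have hi3 := (Finset.mem_Icc.1 hi).1
    have hDi := ClassTwo_D_ge hi3
    have hDi0 : (0 : ℝ) < D 2 i := by exact_mod_cast (by omega : 0 < D 2 i)
    rw [ClassTwo_sum_cls hL hω b hbe]
    congr 1
    · have : ∀ y ∈ lvl 2 b ω (1 / 2), v 2 (x - y) = 1 / (D 2 i : ℝ) := fun y hy =>
        (ClassTwo_v_sub (by positivity) (ClassTwo_inv_lt_half hi3) (mem_lvl.1 hx).2
          (mem_lvl.1 hy).2).1
      rw [Finset.sum_congr rfl this, Finset.sum_const, nsmul_eq_mul]
      simp only [hgbdef]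
      ring
    · apply Finset.sum_congr rfl
      intro k hk
      have hk3 := (Finset.mem_Icc.1 hk).1
      have hDk := ClassTwo_D_ge hk3
      have hDk0 : (0 : ℝ) < D 2 k := by exact_mod_cast (by omega : 0 < D 2 k)
      rcases lt_trichotomy i k with hik | hik | hik
      · have : ∀ y ∈ lvl 2 b ω (1 / (D 2 k : ℝ)), v 2 (x - y) = 1 / (D 2 k : ℝ) := fun y hy =>
          (ClassTwo_v_sub (by positivity) (ClassTwo_inv_lt hi3 hik) (mem_lvl.1 hy).2
            (mem_lvl.1 hx).2).2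
        rw [Finset.sum_congr rfl this, Finset.sum_const, nsmul_eq_mul]
        simp only [htb, hc]
        rw [if_neg (by omega), max_eq_right hik.le]
      · subst hik
        have h0 := (hti i hi).2.2
        have hne : ta i ≠ 0 := by
          simp only [hta]
          have : 0 < (lvl 2 a ω (1 / (D 2 i : ℝ))).card := Finset.card_pos.2 ⟨x, hx⟩
          exact_mod_cast this.ne'
        have hb0 : tb i = 0 := by
          rcases mul_eq_zero.1 h0 with h | h
          · exact absurd h hne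
          · exact h
        have hemp : lvl 2 b ω (1 / (D 2 i : ℝ)) = ∅ := by
          apply Finset.card_eq_zero.1
          simp only [htb] at hb0
          exact_mod_cast hb0
        rw [hemp, Finset.sum_empty, hb0, zero_mul]
      · have : ∀ y ∈ lvl 2 b ω (1 / (D 2 k : ℝ)), v 2 (x - y) = 1 / (D 2 i : ℝ) := fun y hy =>
          (ClassTwo_v_sub (by positivity) (ClassTwo_inv_lt hk3 hik) (mem_lvl.1 hx).2
            (mem_lvl.1 hy).2).1
        rw [Finset.sum_congr rfl this, Finset.sum_const, nsmul_eq_mul]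
        simp only [htb, hc]
        rw [if_neg (by omega), max_eq_left hik.le]
  set CG : ℝ := ∑ x ∈ lvl 2 a ω (1 / 2), ∑ y ∈ lvl 2 b ω (1 / 2), v 2 (x - y) with hCGdef
  have hW : W 2 a b ω = CG + ga * (∑ k ∈ Finset.Icc 3 e, tb k / (D 2 k : ℝ)) +
      ∑ i ∈ Finset.Icc 3 e, ta i * (gb / (D 2 i : ℝ) + ∑ k ∈ Finset.Icc 3 e, tb k * c i k) := by
    unfold W
    rw [ClassTwo_sum_cls hL hω a hae, Finset.sum_congr rfl hinner1, Finset.sum_add_distrib,
      Finset.sum_const, nsmul_eq_mul]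
    congr 1
    apply Finset.sum_congr rfl
    intro i hi
    rw [Finset.sum_congr rfl (hinner2 i hi), Finset.sum_const, nsmul_eq_mul]
  have hWV : W 2 a b ω ≤ combV 2 e m s := by
    rcases Nat.lt_or_ge e 2 with he | he
    · have he' : e = 1 := by omega
      have h3 : Finset.Icc 3 e = (∅ : Finset ℕ) := Finset.Icc_eq_empty (by omega)
      have h5 : α 2 = 0 := by
        rw [hα2, hm20 he']; simp
      have h6 : β 2 = 0 := by
        rw [hβ2, hm20 he']; simp
      rw [hW, h3]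
      simp only [Finset.sum_empty, mul_zero, add_zero]
      rw [h5, h6] at hCG
      have h7 : combV 2 e m s = 0 := by
        unfold combV
        rw [he']
        simp
      rw [h7]
      linarith
    · rw [hW, ClassTwo_combV he m s α β (fun _ => rfl) (fun _ => rfl)]
      have hX := ClassTwo_double (fun i k => ta i * tb k * c i k) e
      have hXd : ∑ i ∈ Finset.Icc 3 e, ta i * tb i * c i i = 0 := by
        apply Finset.sum_eq_zero
        intro i hi
        rw [(hti i hi).2.2, zero_mul]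
      have hXo : ∑ i ∈ Finset.Icc 3 e, ∑ k ∈ Finset.Ioc i e,
          (ta i * tb k * c i k + ta k * tb i * c k i) =
          ∑ i ∈ Finset.Icc 3 e, ∑ k ∈ Finset.Ioc i e, (α i * β k + β i * α k) / (D 2 k : ℝ) := by
        apply Finset.sum_congr rfl
        intro i hi
        apply Finset.sum_congr rfl
        intro k hk
        have hi' := Finset.mem_Icc.1 hi
        have hk' := Finset.mem_Ioc.1 hk
        have hki : k ∈ Finset.Icc 3 e := Finset.mem_Icc.2 ⟨by omega, hk'.2⟩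
        rw [(hti i hi).1, (hti i hi).2.1, (hti k hki).1, (hti k hki).2.1]
        simp only [hc]
        rw [if_neg (by omega), if_neg (by omega), max_eq_right hk'.1.le, max_eq_left hk'.1.le]
        ring
      have hS1 : ∑ i ∈ Finset.Icc 3 e,
          ta i * (gb / (D 2 i : ℝ) + ∑ k ∈ Finset.Icc 3 e, tb k * c i k) =
          ∑ i ∈ Finset.Icc 3 e, gb * ta i / (D 2 i : ℝ) +
          ∑ i ∈ Finset.Icc 3 e, ∑ k ∈ Finset.Icc 3 e, ta i * tb k * c i k := by
        rw [← Finset.sum_add_distrib]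
        apply Finset.sum_congr rfl
        intro i _
        rw [mul_add, Finset.mul_sum]
        congr 1
        · ring
        · apply Finset.sum_congr rfl
          intro k _
          ring
      have hS2 : ∑ k ∈ Finset.Icc 3 e, ((α 1 + α 2) * β k + (β 1 + β 2) * α k) / (D 2 k : ℝ) =
          ga * (∑ k ∈ Finset.Icc 3 e, tb k / (D 2 k : ℝ)) +
          ∑ k ∈ Finset.Icc 3 e, gb * ta k / (D 2 k : ℝ) := by
        rw [Finset.mul_sum, ← Finset.sum_add_distrib]
        apply Finset.sum_congr rfl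
        intro k hk
        rw [hga, hgb, (hti k hk).1, (hti k hk).2.1]
        ring
      rw [hS1, hX, hXd, hXo, hS2]
      linarith
  refine ⟨m, s, hDm, hcU, hWV, ?_⟩
  intro he
  have hZG : ((e : ℝ) - 1) * ga ≤ ∑ x ∈ lvl 2 a ω (1 / 2), v 2 (x ^ (n / 2) - 1) := by
    have h1 : ∀ x ∈ lvl 2 a ω (1 / 2), (e : ℝ) - 1 ≤ v 2 (x ^ (n / 2) - 1) := by
      intro x hx
      obtain ⟨hx1, hx2⟩ := mem_lvl.1 hx
      have hD1 : D 2 1 = 2 := rfl
      apply zval_low hL (hae x hx1) hω (norm_lt_one_of_v_pos (by rw [hx2]; norm_num))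
        (i := 1) le_rfl (by omega)
      rw [hx2, hD1]
      norm_num
    have h2 := Finset.sum_le_sum h1
    rw [Finset.sum_const, nsmul_eq_mul] at h2
    linarith
  have hZlow : ∀ i ∈ Finset.Icc 3 (e - 1), ((e : ℝ) - 1) * ta i ≤
      ∑ x ∈ lvl 2 a ω (1 / (D 2 i : ℝ)), v 2 (x ^ (n / 2) - 1) := by
    intro i hi
    have hi' := Finset.mem_Icc.1 hi
    have hD := ClassTwo_D_ge hi'.1
    have hD0 : (0 : ℝ) < D 2 i := by exact_mod_cast (by omega : 0 < D 2 i)
    have h1 : ∀ x ∈ lvl 2 a ω (1 / (D 2 i : ℝ)), (e : ℝ) - 1 ≤ v 2 (x ^ (n / 2) - 1) := by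
      intro x hx
      obtain ⟨hx1, hx2⟩ := mem_lvl.1 hx
      apply zval_low hL (hae x hx1) hω (norm_lt_one_of_v_pos (by rw [hx2]; positivity))
        (i := i) (by omega) (by omega)
      rw [hx2]
    have h2 := Finset.sum_le_sum h1
    rw [Finset.sum_const, nsmul_eq_mul] at h2
    simp only [hta]
    linarith
  have hZtop : ta e ≤ ∑ x ∈ lvl 2 a ω (1 / (D 2 e : ℝ)), v 2 (x ^ (n / 2) - 1) := by
    have h1 : ∀ x ∈ lvl 2 a ω (1 / (D 2 e : ℝ)), (1 : ℝ) ≤ v 2 (x ^ (n / 2) - 1) := by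
      intro x hx
      obtain ⟨hx1, hx2⟩ := mem_lvl.1 hx
      have hD0 : (0 : ℝ) < D 2 e := by
        rw [ClassTwo_D he]
        positivity
      have h3 := zval_top hL (hae x hx1) hω (norm_lt_one_of_v_pos (by rw [hx2]; positivity)) he
        (by rw [hx2])
      norm_num at h3
      exact h3
    have h2 := Finset.sum_le_sum h1
    rw [Finset.sum_const, nsmul_eq_mul] at h2
    simp only [hta]
    linarith
  rw [ClassTwo_sum_cls hL hω a hae]
  rcases Nat.lt_or_ge e 3 with he3 | he3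
  · have he' : e = 2 := by omega
    have h3 : Finset.Icc 3 e = (∅ : Finset ℕ) := Finset.Icc_eq_empty (by omega)
    have h4 : combU (e - 1) m s = α 1 := by
      unfold combU
      change ∑ i ∈ Finset.Icc 1 (e - 1), α i = α 1
      have : Finset.Icc 1 (e - 1) = {1} := by rw [he']; rfl
      rw [this, Finset.sum_singleton]
    have h5 : (if s e then m e else 0) = α 2 := by rw [he']
    rw [h3, Finset.sum_empty, add_zero, h4, h5]
    have h6 : (e : ℝ) = 2 := by rw [he']; norm_num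
    rw [h6] at hZG ⊢
    rw [← hga] at hZG
    linarith
  · have h4 : combU (e - 1) m s = ga + ∑ i ∈ Finset.Icc 3 (e - 1), ta i := by
      unfold combU
      change ∑ i ∈ Finset.Icc 1 (e - 1), α i = _
      rw [ClassTwo_sum_split (by omega), hga]
      congr 1
      apply Finset.sum_congr rfl
      intro i hi
      have hi' := Finset.mem_Icc.1 hi
      exact (hti i (Finset.mem_Icc.2 ⟨hi'.1, by omega⟩)).1
    have h5 : (if s e then m e else 0) = ta e :=
      (hti e (Finset.mem_Icc.2 ⟨he3, le_rfl⟩)).1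
    obtain ⟨e', rfl⟩ : ∃ e', e = e' + 1 := ⟨e - 1, by omega⟩
    rw [h4, h5, Finset.sum_Icc_succ_top (by omega)]
    have h6 := Finset.sum_le_sum hZlow
    rw [← Finset.mul_sum] at h6
    simp only [Nat.add_sub_cancel] at h6 ⊢
    rw [mul_add]
    linarith

theorem class_two (hL : Loc 2 N n e M) (h : Factn N a b) (hω : ω ^ M = 1) :
    W 2 a b ω ≤ ((e : ℝ) - 1) * (cls 2 a ω).card ∧
    (∀ j : ℕ, W 2 a b ω ≤ j * (cls 2 a ω).card
      + (2 : ℝ) ^ (e + 1) / (((2 : ℝ) ^ 2 - 1) * (2 : ℝ) ^ j)) ∧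
    W 2 a b ω ≤ ∑ x ∈ cls 2 a ω, v 2 (x ^ (n / 2) - 1) := by
  obtain ⟨m, s, hm, hU, hV, hZ⟩ := ClassTwo_main hL h hω
  have h1 := comb1 (p := 2) (s := s) le_rfl hm hL.he
  have h2 := fun j => comb2 (p := 2) (s := s) le_rfl hm hL.he j
  have h3 := comb3 (p := 2) (s := s) le_rfl hm hL.he
  refine ⟨?_, ?_, ?_⟩
  · rw [hU]; exact hV.trans h1
  · intro j
    rw [hU]
    have := h2 j
    push_cast at this
    exact hV.trans this
  · rcases Nat.lt_or_ge e 2 with he | he
    · have he' : e = 1 := by have := hL.he; omega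
      have h4 : W 2 a b ω ≤ 0 := by
        refine hV.trans (h1.trans (le_of_eq ?_))
        rw [he']
        norm_num
      refine h4.trans (Finset.sum_nonneg ?_)
      intro x hx
      exact zval_nonneg ((mem_rts_g h).2 (Or.inl (mem_cls.1 hx).1)) hL.hN _
    · refine hV.trans (le_trans ?_ (hZ he))
      refine h3.trans (le_of_eq ?_)
      congr 1
      norm_num

end Pool.Agent.IRR
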