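import Pool.Agent.IRR.Rel

/-!
# IRR.Rts: roots of the factors in an algebraically closed field of characteristic 0 (diff 2)

All roots of `g N` are simple by `root_der` (`g'(x) ≠ 0`), so `a`, `b` have simple roots and no
common root; `a.map`, `b.map` split.
-/

namespace Pool.Agent.IRR

open Polynomial

variable {K : Type*} [Field K] [CharZero K]

theorem Rts_map_ne {a : ℤ[X]} (ha : a ≠ 0) : a.map (Int.castRingHom K) ≠ 0 := by
  rw [Ne, Polynomial.map_eq_zero_iff (by intro x y h; simpa using h)]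
  exact ha

theorem mem_rts {a : ℤ[X]} (ha : a ≠ 0) {x : K} : x ∈ rts K a ↔ ev a x = 0 := by
  classical
  unfold rts ev
  rw [Multiset.mem_toFinset, mem_roots (Rts_map_ne ha), IsRoot.def]

variable {N : ℕ} {a b : ℤ[X]}

theorem Factn.symm (h : Factn N a b) : Factn N b a :=
  ⟨h.hN, h.hb, h.ha, by rw [mul_comm]; exact h.hab, h.db, h.da⟩

theorem Factn.deg (h : Factn N a b) : a.natDegree + b.natDegree = N - 2 := by
  have h2 := h.hN
  rw [← g_natDegree N (by omega), ← h.hab, h.ha.natDegree_mul h.hb]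

theorem mem_rts_g (h : Factn N a b) {x : K} : x ∈ rts K (g N) ↔ x ∈ rts K a ∨ x ∈ rts K b := by
  have h2 := h.hN
  rw [mem_rts (g_monic N (by omega)).ne_zero, mem_rts h.ha.ne_zero, mem_rts h.hb.ne_zero,
    ← h.hab, ev_mul, mul_eq_zero]

theorem Rts_der_ne (hN : 2 ≤ N) {x : K} (hx : ev (g N) x = 0) :
    ev (derivative (g N)) x ≠ 0 := by
  intro h0
  have h1 := root_der hN hx
  rw [h0, zero_mul] at h1
  have h2 : (N : K) ≠ 0 := by
    have : N ≠ 0 := by omega
    exact_mod_cast this
  have h3 : (N : K) - 1 ≠ 0 := by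
    have h4 : ((N - 1 : ℕ) : K) ≠ 0 := by
      have : N - 1 ≠ 0 := by omega
      exact_mod_cast this
    rw [Nat.cast_sub (by omega)] at h4
    simpa using h4
  exact mul_ne_zero h2 h3 h1.symm

theorem Rts_ev_der_mul (a b : ℤ[X]) (x : K) :
    ev (derivative (a * b)) x = ev (derivative a) x * ev b x + ev a x * ev (derivative b) x := by
  rw [derivative_mul, ev_add, ev_mul, ev_mul]

theorem not_mem_both (h : Factn N a b) {x : K} (hx : x ∈ rts K a) : x ∉ rts K b := by
  have h2 := h.hN
  intro hy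
  have hg : x ∈ rts K (g N) := (mem_rts_g h).2 (Or.inl hx)
  rw [mem_rts (g_monic N (by omega)).ne_zero] at hg
  rw [mem_rts h.ha.ne_zero] at hx
  rw [mem_rts h.hb.ne_zero] at hy
  apply Rts_der_ne (by omega) hg
  rw [← h.hab, Rts_ev_der_mul, hx, hy]
  ring

theorem Rts_nodup_of_der {a : ℤ[X]} (ha : a ≠ 0)
    (h : ∀ x : K, ev a x = 0 → ev (derivative a) x ≠ 0) :
    ((a.map (Int.castRingHom K)).roots).Nodup := by
  classical
  rw [Multiset.nodup_iff_count_le_one]
  intro x
  rw [count_roots]
  by_contra hc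
  push Not at hc
  have h0 := Rts_map_ne (K := K) ha
  have := (one_lt_rootMultiplicity_iff_isRoot h0 (t := x)).1 hc
  rw [IsRoot.def, IsRoot.def] at this
  apply h x this.1
  unfold ev
  rw [← derivative_map]
  exact this.2

variable [IsAlgClosed K]

theorem roots_nodup (h : Factn N a b) : ((a.map (Int.castRingHom K)).roots).Nodup := by
  have h2 := h.hN
  apply Rts_nodup_of_der h.ha.ne_zero
  intro x hx hd
  have hg : ev (g N) x = 0 := by rw [← h.hab, ev_mul, hx, zero_mul]
  apply Rts_der_ne (by omega) hg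
  rw [← h.hab, Rts_ev_der_mul, hx, hd]
  ring

theorem Rts_card_of_nodup {a : ℤ[X]} (ha : a.Monic)
    (h : ((a.map (Int.castRingHom K)).roots).Nodup) : (rts K a).card = a.natDegree := by
  classical
  unfold rts
  rw [Multiset.toFinset_card_of_nodup (by convert h)]
  rw [splits_iff_card_roots.1 (IsAlgClosed.splits _), ha.natDegree_map]

theorem card_rts (h : Factn N a b) : (rts K a).card = a.natDegree :=
  Rts_card_of_nodup h.ha (roots_nodup h)

theorem Rts_g_nodup (hN : 2 ≤ N) : (((g N).map (Int.castRingHom K)).roots).Nodup :=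
  Rts_nodup_of_der (g_monic N hN).ne_zero (fun _ hx => Rts_der_ne hN hx)

theorem card_rts_g (hN : 2 ≤ N) : (rts K (g N)).card = N - 2 := by
  rw [Rts_card_of_nodup (g_monic N hN) (Rts_g_nodup hN), g_natDegree N hN]

theorem Rts_map_eq_prod {a : ℤ[X]} (ha : a.Monic)
    (h : ((a.map (Int.castRingHom K)).roots).Nodup) :
    a.map (Int.castRingHom K) = ∏ y ∈ rts K a, (X - C y) := by
  classical
  have hm : (a.map (Int.castRingHom K)).Monic := ha.map _
  have h1 := (IsAlgClosed.splits (a.map (Int.castRingHom K))).eq_prod_roots_of_monic hm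
  conv_lhs => rw [h1]
  unfold rts
  rw [Finset.prod_multiset_map_count]
  apply Finset.prod_congr rfl
  intro y hy
  rw [Multiset.count_eq_one_of_mem h (Multiset.mem_toFinset.1 hy), pow_one]

theorem Rts_ev_eq_prod {a : ℤ[X]} (ha : a.Monic)
    (h : ((a.map (Int.castRingHom K)).roots).Nodup) (x : K) :
    ev a x = ∏ y ∈ rts K a, (x - y) := by
  unfold ev
  rw [Rts_map_eq_prod ha h, eval_prod]
  simp

theorem ev_eq_prod (h : Factn N a b) (x : K) : ev a x = ∏ y ∈ rts K a, (x - y) :=
  Rts_ev_eq_prod h.ha (roots_nodup h) x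

theorem sum_rts_g {A : Type*} [AddCommMonoid A] (h : Factn N a b) (G : K → A) :
    ∑ x ∈ rts K (g N), G x = (∑ x ∈ rts K a, G x) + ∑ x ∈ rts K b, G x := by
  classical
  rw [← Finset.sum_union]
  · apply Finset.sum_congr _ (fun _ _ => rfl)
    ext x
    rw [Finset.mem_union]
    exact mem_rts_g h
  · rw [Finset.disjoint_left]
    intro x hx
    exact not_mem_both h hx

/-- `g'(x)` is the product of the differences with all other roots. -/
theorem der_eq_prod_g [DecidableEq K] (hN : 2 ≤ N) {x : K} (hx : x ∈ rts K (g N)) :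
    ev (derivative (g N)) x = ∏ y ∈ (rts K (g N)).erase x, (x - y) := by
  unfold ev
  rw [← derivative_map, Rts_map_eq_prod (g_monic N hN) (Rts_g_nodup hN)]
  rw [← Finset.mul_prod_erase _ _ hx, derivative_mul, eval_add, eval_mul, eval_mul]
  simp [eval_prod]

theorem Rts_rts_g_eq [DecidableEq K] (h : Factn N a b) : rts K (g N) = rts K a ∪ rts K b := by
  ext x
  rw [Finset.mem_union]
  exact mem_rts_g h

/-- the same, split according to the factorisation -/
theorem der_eq_prod [DecidableEq K] (h : Factn N a b) {x : K} (hx : x ∈ rts K a) :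
    ev (derivative (g N)) x = (∏ y ∈ (rts K a).erase x, (x - y)) * ∏ y ∈ rts K b, (x - y) := by
  have h2 := h.hN
  rw [der_eq_prod_g (by omega) ((mem_rts_g h).2 (Or.inl hx)), Rts_rts_g_eq h]
  rw [Finset.erase_union_distrib, Finset.erase_eq_of_notMem (not_mem_both h hx)]
  rw [Finset.prod_union]
  rw [Finset.disjoint_left]
  intro y hy
  exact not_mem_both h (Finset.mem_of_mem_erase hy)

end Pool.Agent.IRR
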