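import Pool.Agent.IRR.Mu
import Pool.Agent.IRR.Rts

/-!
# IRR.Coeff: the expansion `F = f(X + ω)`, `ω^M = 1` (diff 2-3)

`F_0 = f(ω) = ω^N - Nω + N - 1`, `F_1 = N(ω^(N-1) - 1)`, `F_k = C(N,k) ω^(N-k)` (`k ≥ 2`).
`n = N`: `ω^N = 1`, `F_0 = N(1-ω)`, `F_1 = N(ω^(-1) - 1)`.
`n = N-1`: `ω^(N-1) = 1`, `F_0 = (N-1)(1-ω)`, `F_1 = 0`.
`‖1-ω‖ = 1` for `ω ≠ 1`.
`v_p C(N,k) ≥ e - t`, `p^t ≤ k`: for `n = N` from `k C(N,k) = N C(N-1,k-1)`; for `n = N-1` from
`C(N,k) = C(n,k) + C(n,k-1)` (`k ≥ 2`), `v_p C(n,k) ≥ e - v_p k`.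
`v_p C(N,p^i) = e - i` for `1 ≤ i ≤ e`: `v_p C(p^e M, p^i) = e - i` exactly (Kummer, or
`p^i C(n,p^i) = n C(n-1,p^i-1)` and `p ∤ C(n-1,p^i-1)`), and for `n = N-1` the other term
`C(n,p^i-1)` has `v ≥ e - v_p(p^i - 1) = e > e - i`.
`v_p C(N,2) = e` for `p` odd.
Roots: `f = (X-1)^2 g`, so the roots of `F` are the `x - ω`, `x` root of `g`, and `1 - ω` twice.
-/

namespace Pool.Agent.IRR

open Polynomial

variable {p : ℕ} [Fact p.Prime] {N n e M : ℕ} {ω : PadicAlgCl p}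

theorem Coeff_F_eq (ω : PadicAlgCl p) : F p N ω =
    (X + C ω) ^ N - C (N : PadicAlgCl p) * (X + C ω) + C ((N : PadicAlgCl p) - 1) := by
  simp only [F, f, Polynomial.map_add, Polynomial.map_sub, Polynomial.map_mul, Polynomial.map_pow,
    Polynomial.map_X, Polynomial.map_C, add_comp, sub_comp, mul_comp, pow_comp, X_comp, C_comp]
  simp

theorem Coeff_F_zero (ω : PadicAlgCl p) :
    (F p N ω).coeff 0 = ω ^ N - N * ω + (N - 1) := by
  rw [Coeff_F_eq, coeff_add, coeff_sub, coeff_X_add_C_pow, coeff_C_mul, coeff_C_zero]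
  simp

theorem Coeff_F_one (ω : PadicAlgCl p) :
    (F p N ω).coeff 1 = N * (ω ^ (N - 1) - 1) := by
  rw [Coeff_F_eq, coeff_add, coeff_sub, coeff_X_add_C_pow, coeff_C_mul, coeff_C]
  simp
  ring

theorem Coeff_F_ge (ω : PadicAlgCl p) {k : ℕ} (hk : 2 ≤ k) :
    (F p N ω).coeff k = ω ^ (N - k) * (N.choose k : PadicAlgCl p) := by
  rw [Coeff_F_eq, coeff_add, coeff_sub, coeff_X_add_C_pow, coeff_C_mul, coeff_C, coeff_add,
    coeff_X, coeff_C]
  simp [show k ≠ 0 by omega, show ¬ (1 = k) by omega]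

theorem F_ne_zero (hN : 4 ≤ N) (ω : PadicAlgCl p) : F p N ω ≠ 0 := by
  intro h
  have h1 := Coeff_F_ge (N := N) ω (k := N) (by omega)
  rw [h] at h1
  simp at h1

theorem Coeff_M_pos (hL : Loc p N n e M) : M ≠ 0 := by
  intro h
  exact hL.hpM (h ▸ dvd_zero p)

theorem Coeff_norm_n (hL : Loc p N n e M) : ‖(n : PadicAlgCl p)‖ = (p : ℝ) ^ (-(e : ℝ)) := by
  have hp : p.Prime := Fact.out
  have hM := Coeff_M_pos hL
  have hn0 : n ≠ 0 := by rw [hL.hM]; exact mul_ne_zero (pow_ne_zero _ hp.ne_zero) hM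
  rw [norm_eq (Nat.cast_ne_zero.2 hn0), v_natCast hn0]
  congr 2
  rw [hL.hM, padicValNat.mul (pow_ne_zero _ hp.ne_zero) hM, padicValNat.prime_pow,
    padicValNat.eq_zero_of_not_dvd hL.hpM, add_zero]

theorem Coeff_pow_n (hL : Loc p N n e M) (hω : ω ^ M = 1) : ω ^ n = 1 := by
  rw [hL.hM, mul_comm, pow_mul, hω, one_pow]

theorem Coeff_norm_omega (hL : Loc p N n e M) (hω : ω ^ M = 1) : ‖ω‖ = 1 :=
  norm_mu (Coeff_M_pos hL) hω

theorem Coeff_F_zero' (hL : Loc p N n e M) (hω : ω ^ M = 1) :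
    (F p N ω).coeff 0 = n * (1 - ω) := by
  have h1 := Coeff_pow_n hL hω
  have hN := hL.hN
  rw [Coeff_F_zero]
  rcases hL.hn with h | h
  · rw [← h, h1]; ring
  · obtain ⟨m, rfl⟩ : ∃ m, N = m + 1 := ⟨N - 1, by omega⟩
    simp only [Nat.add_sub_cancel] at h
    rw [pow_succ, ← h, h1]; push_cast; ring

theorem norm_F_zero (hL : Loc p N n e M) (hω : ω ^ M = 1) (h1 : ω ≠ 1) :
    ‖(F p N ω).coeff 0‖ = (p : ℝ) ^ (-(e : ℝ)) := by
  rw [Coeff_F_zero' hL hω, norm_mul, Coeff_norm_n hL,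
    mu_sep hL.hpM (one_pow M) hω (Ne.symm h1), mul_one]

theorem F_one_zero (hN : 4 ≤ N) :
    (F p N 1).coeff 0 = 0 ∧ (F p N 1).coeff 1 = 0 := by
  rw [Coeff_F_zero, Coeff_F_one]
  constructor
  · simp
  · simp

theorem Coeff_norm_sub_le {x y : PadicAlgCl p} (hx : ‖x‖ ≤ 1) (hy : ‖y‖ ≤ 1) : ‖x - y‖ ≤ 1 := by
  by_contra h
  push Not at h
  have hne : x - y ≠ 0 := by
    intro h0; rw [h0, norm_zero] at h; linarith
  rw [sub_eq_add_neg] at hne h
  have h1 := v_add_ge (p := p) (x := x) (y := -y) 0 (Or.inr (v_nonneg hx))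
    (Or.inr (by rw [v_neg]; exact v_nonneg hy)) hne
  have h2 : v p (x + -y) < 0 := by
    rw [v, neg_lt_zero]
    exact Real.logb_pos (by exact_mod_cast (Fact.out : p.Prime).one_lt) h
  linarith

/-- `‖k‖ ≥ p^(-log_p k)` -/
theorem Coeff_norm_nat_ge {k : ℕ} (hk : 1 ≤ k) :
    (p : ℝ) ^ (-(Nat.log p k : ℝ)) ≤ ‖(k : PadicAlgCl p)‖ := by
  have hp : p.Prime := Fact.out
  have hp1 : (1 : ℝ) ≤ p := by exact_mod_cast hp.one_lt.le
  rw [norm_eq (Nat.cast_ne_zero.2 (by omega)), v_natCast (by omega)]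
  refine Real.rpow_le_rpow_of_exponent_le hp1 ?_
  have : padicValNat p k ≤ Nat.log p k := padicValNat_le_nat_log k
  have : (padicValNat p k : ℝ) ≤ Nat.log p k := by exact_mod_cast this
  linarith

theorem Coeff_mul_choose {k : ℕ} (hk : 1 ≤ k) (hn : 1 ≤ n) :
    (k : PadicAlgCl p) * (n.choose k : PadicAlgCl p) =
      n * ((n - 1).choose (k - 1) : PadicAlgCl p) := by
  obtain ⟨m, rfl⟩ : ∃ m, n = m + 1 := ⟨n - 1, by omega⟩
  obtain ⟨j, rfl⟩ : ∃ j, k = j + 1 := ⟨k - 1, by omega⟩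
  have h := Nat.add_one_mul_choose_eq m j
  simp only [Nat.add_sub_cancel]
  have h2 : (((m + 1) * m.choose j : ℕ) : PadicAlgCl p) =
      (((m + 1).choose (j + 1) * (j + 1) : ℕ) : PadicAlgCl p) := by rw [h]
  push_cast at h2 ⊢
  rw [h2]; ring

theorem Coeff_n_pos (hL : Loc p N n e M) : 1 ≤ n := by
  have := hL.hN
  rcases hL.hn with h | h <;> omega

/-- `‖C(n,k)‖ ≤ p^(log_p k - e)` -/
theorem Coeff_norm_choose (hL : Loc p N n e M) {k : ℕ} (hk : 1 ≤ k) :
    ‖(n.choose k : PadicAlgCl p)‖ ≤ (p : ℝ) ^ ((Nat.log p k : ℝ) - e) := by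
  have hp : p.Prime := Fact.out
  have hp0 : (0 : ℝ) < p := by exact_mod_cast hp.pos
  have h1 := congrArg norm (Coeff_mul_choose (p := p) (n := n) hk (Coeff_n_pos hL))
  rw [norm_mul, norm_mul, Coeff_norm_n hL] at h1
  have h2 : ‖(k : PadicAlgCl p)‖ * ‖(n.choose k : PadicAlgCl p)‖ ≤ (p : ℝ) ^ (-(e : ℝ)) := by
    rw [h1]
    exact mul_le_of_le_one_right (Real.rpow_nonneg hp0.le _) (norm_natCast_le _)
  have h3 := Coeff_norm_nat_ge (p := p) hk
  have h4 : (p : ℝ) ^ (-(Nat.log p k : ℝ)) * ‖(n.choose k : PadicAlgCl p)‖ ≤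
      (p : ℝ) ^ (-(e : ℝ)) :=
    (mul_le_mul_of_nonneg_right h3 (norm_nonneg _)).trans h2
  have h5 : (0 : ℝ) < (p : ℝ) ^ (-(Nat.log p k : ℝ)) := Real.rpow_pos_of_pos hp0 _
  have h6 : (p : ℝ) ^ (-(e : ℝ)) =
      (p : ℝ) ^ (-(Nat.log p k : ℝ)) * (p : ℝ) ^ ((Nat.log p k : ℝ) - e) := by
    rw [← Real.rpow_add hp0]; congr 1; ring
  rw [h6] at h4
  exact le_of_mul_le_mul_left h4 h5

theorem Coeff_norm_add_le {x y : PadicAlgCl p} {c : ℝ} (hx : ‖x‖ ≤ c) (hy : ‖y‖ ≤ c) :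
    ‖x + y‖ ≤ c :=
  (PadicAlgCl.isNonarchimedean p x y).trans (max_le hx hy)

theorem Coeff_norm_choose_N (hL : Loc p N n e M) {k : ℕ} (hk : 2 ≤ k) :
    ‖(N.choose k : PadicAlgCl p)‖ ≤ (p : ℝ) ^ ((Nat.log p k : ℝ) - e) := by
  have hp : p.Prime := Fact.out
  have hN := hL.hN
  rcases hL.hn with h | h
  · rw [← h]; exact Coeff_norm_choose hL (by omega)
  · have h1 : N.choose k = n.choose (k - 1) + n.choose k := by
      obtain ⟨j, rfl⟩ : ∃ j, k = j + 1 := ⟨k - 1, by omega⟩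
      obtain ⟨m, rfl⟩ : ∃ m, N = m + 1 := ⟨N - 1, by omega⟩
      rw [h]; simp only [Nat.add_sub_cancel]; exact Nat.choose_succ_succ _ _
    rw [h1]; push_cast
    refine Coeff_norm_add_le ?_ (Coeff_norm_choose hL (by omega))
    refine (Coeff_norm_choose hL (by omega)).trans ?_
    refine Real.rpow_le_rpow_of_exponent_le (by exact_mod_cast hp.one_lt.le) ?_
    have : Nat.log p (k - 1) ≤ Nat.log p k := Nat.log_mono_right (Nat.sub_le _ _)
    have : (Nat.log p (k - 1) : ℝ) ≤ Nat.log p k := by exact_mod_cast this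
    linarith

/-- `v(F_k) ≥ e - log_p k` for `k ≥ 1` -/
theorem norm_F_le (hL : Loc p N n e M) (hω : ω ^ M = 1) {k : ℕ} (hk : 1 ≤ k) :
    ‖(F p N ω).coeff k‖ ≤ (p : ℝ) ^ ((Nat.log p k : ℝ) - e) := by
  have hp : p.Prime := Fact.out
  have hp0 : (0 : ℝ) < p := by exact_mod_cast hp.pos
  have hω1 := Coeff_norm_omega hL hω
  rcases Nat.lt_or_ge 1 k with h2 | h2
  · rw [Coeff_F_ge ω h2, norm_mul, norm_pow, hω1, one_pow, one_mul]
    exact Coeff_norm_choose_N hL h2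
  · have hk1 : k = 1 := by omega
    subst hk1
    rw [Coeff_F_one]
    simp only [Nat.log_one_right, Nat.cast_zero, zero_sub]
    rcases hL.hn with h | h
    · rw [← h, norm_mul, Coeff_norm_n hL]
      refine mul_le_of_le_one_right (Real.rpow_nonneg hp0.le _) ?_
      refine Coeff_norm_sub_le ?_ (by rw [norm_one])
      rw [norm_pow, hω1, one_pow]
    · rw [← h, Coeff_pow_n hL hω, sub_self, mul_zero, norm_zero]
      exact Real.rpow_nonneg hp0.le _

theorem norm_F_le_one (hL : Loc p N n e M) (hω : ω ^ M = 1) (k : ℕ) :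
    ‖(F p N ω).coeff k‖ ≤ 1 := by
  have hω1 := Coeff_norm_omega hL hω
  rcases Nat.lt_or_ge 1 k with h2 | h2
  · rw [Coeff_F_ge ω h2, norm_mul, norm_pow, hω1, one_pow, one_mul]
    exact norm_natCast_le _
  · interval_cases k
    · rw [Coeff_F_zero' hL hω, norm_mul]
      refine mul_le_one₀ (norm_natCast_le _) (norm_nonneg _) ?_
      exact Coeff_norm_sub_le (by rw [norm_one]) hω1.le
    · rw [Coeff_F_one, norm_mul]
      refine mul_le_one₀ (norm_natCast_le _) (norm_nonneg _) ?_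
      refine Coeff_norm_sub_le ?_ (by rw [norm_one])
      rw [norm_pow, hω1, one_pow]

theorem Coeff_nat_lt (hL : Loc p N n e M) : p ^ e ≤ n := by
  have hM := Coeff_M_pos hL
  rw [hL.hM]
  exact Nat.le_mul_of_pos_right _ (Nat.pos_of_ne_zero hM)

/-- `‖n - j‖ = ‖j‖` for `0 < j < p^e` -/
theorem Coeff_norm_sub (hL : Loc p N n e M) {j : ℕ} (hj : 1 ≤ j) (hje : j < p ^ e) :
    ‖((n - j : ℕ) : PadicAlgCl p)‖ = ‖(j : PadicAlgCl p)‖ := by
  have hp : p.Prime := Fact.out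
  have hle := Coeff_nat_lt hL
  have hj0 : (j : PadicAlgCl p) ≠ 0 := Nat.cast_ne_zero.2 (by omega)
  have hn0 : (n : PadicAlgCl p) ≠ 0 := Nat.cast_ne_zero.2 (by omega)
  have hvj : v p (j : PadicAlgCl p) < v p (n : PadicAlgCl p) := by
    rw [v_natCast (by omega), v_natCast (by omega)]
    have h1 : padicValNat p n = e := by
      rw [hL.hM, padicValNat.mul (pow_ne_zero _ hp.ne_zero) (Coeff_M_pos hL),
        padicValNat.prime_pow, padicValNat.eq_zero_of_not_dvd hL.hpM, add_zero]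
    have h2 : padicValNat p j < e := by
      by_contra hcon
      push Not at hcon
      have := (padicValNat_dvd_iff_le (p := p) (a := j) (n := e) (by omega)).2 hcon
      exact absurd (Nat.le_of_dvd (by omega) this) (by omega)
    rw [h1]; exact_mod_cast h2
  obtain ⟨h1, h2⟩ := v_sub_eq_left (p := p) hj0 (Or.inr hvj)
  rw [Nat.cast_sub (by omega), ← norm_neg, neg_sub, norm_eq h2, h1, ← norm_eq hj0]

theorem Coeff_norm_choose_pred (hL : Loc p N n e M) {j : ℕ} (hje : j < p ^ e) :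
    ‖((n - 1).choose j : PadicAlgCl p)‖ = 1 := by
  have hle := Coeff_nat_lt hL
  induction j with
  | zero => simp
  | succ j ih =>
    have h1 := ih (by omega)
    -- (n-1).choose (j+1) * (j+1) = (n-1).choose j * (n-1-j)
    have h2 := Nat.choose_succ_right_eq (n - 1) j
    have h3 : ‖(((n - 1).choose (j + 1) * (j + 1) : ℕ) : PadicAlgCl p)‖ =
        ‖(((n - 1).choose j * (n - 1 - j) : ℕ) : PadicAlgCl p)‖ := by rw [h2]
    rw [Nat.cast_mul, Nat.cast_mul, norm_mul, norm_mul, h1, one_mul,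
      show n - 1 - j = n - (j + 1) by omega, Coeff_norm_sub hL (by omega) hje] at h3
    have h4 : ‖((j + 1 : ℕ) : PadicAlgCl p)‖ ≠ 0 :=
      norm_ne_zero_iff.2 (Nat.cast_ne_zero.2 (by omega))
    exact mul_right_cancel₀ h4 (by rw [h3, one_mul])

theorem Coeff_norm_choose_pow (hL : Loc p N n e M) {i : ℕ} (hie : i ≤ e) :
    ‖(n.choose (p ^ i) : PadicAlgCl p)‖ = (p : ℝ) ^ ((i : ℝ) - e) := by
  have hp : p.Prime := Fact.out
  have hp0 : (0 : ℝ) < p := by exact_mod_cast hp.pos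
  have hpi : 1 ≤ p ^ i := Nat.one_le_pow _ _ hp.pos
  have hle : p ^ i ≤ p ^ e := Nat.pow_le_pow_right hp.pos hie
  have h1 := congrArg norm (Coeff_mul_choose (p := p) (n := n) hpi (Coeff_n_pos hL))
  rw [norm_mul, norm_mul, Coeff_norm_n hL, Coeff_norm_choose_pred hL (by omega), mul_one] at h1
  have h2 : ‖((p ^ i : ℕ) : PadicAlgCl p)‖ = (p : ℝ) ^ (-(i : ℝ)) := by
    rw [norm_eq (Nat.cast_ne_zero.2 (by omega)), v_natCast (by omega), padicValNat.prime_pow]
  rw [h2] at h1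
  have h3 : (0 : ℝ) < (p : ℝ) ^ (-(i : ℝ)) := Real.rpow_pos_of_pos hp0 _
  refine mul_left_cancel₀ h3.ne' ?_
  rw [h1, ← Real.rpow_add hp0]; congr 1; ring

theorem norm_F_pow (hL : Loc p N n e M) (hω : ω ^ M = 1) {i : ℕ} (hi : 1 ≤ i) (hie : i ≤ e) :
    ‖(F p N ω).coeff (p ^ i)‖ = (p : ℝ) ^ ((i : ℝ) - e) := by
  have hp : p.Prime := Fact.out
  have hp0 : (0 : ℝ) < p := by exact_mod_cast hp.pos
  have hp1 : (1 : ℝ) < p := by exact_mod_cast hp.one_lt
  have hN := hL.hN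
  have hω1 := Coeff_norm_omega hL hω
  have hpi : p ≤ p ^ i := Nat.le_self_pow (by omega) p
  have hpi2 : 2 ≤ p ^ i := hp.two_le.trans hpi
  rw [Coeff_F_ge ω hpi2, norm_mul, norm_pow, hω1, one_pow, one_mul]
  rcases hL.hn with h | h
  · rw [← h]; exact Coeff_norm_choose_pow hL hie
  · have h1 : N.choose (p ^ i) = n.choose (p ^ i) + n.choose (p ^ i - 1) := by
      obtain ⟨j, hj⟩ : ∃ j, p ^ i = j + 1 := ⟨p ^ i - 1, by omega⟩
      obtain ⟨m, rfl⟩ : ∃ m, N = m + 1 := ⟨N - 1, by omega⟩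
      rw [h, hj]; simp only [Nat.add_sub_cancel]; rw [Nat.choose_succ_succ, add_comm]
    have h2 : ‖(n.choose (p ^ i - 1) : PadicAlgCl p)‖ ≤ (p : ℝ) ^ (-(e : ℝ)) := by
      have h3 := congrArg norm (Coeff_mul_choose (p := p) (n := n) (k := p ^ i - 1) (by omega)
        (Coeff_n_pos hL))
      have h4 : ‖((p ^ i - 1 : ℕ) : PadicAlgCl p)‖ = 1 := by
        refine norm_natCast_eq_one fun hd => ?_
        have h5 : p ∣ p ^ i := dvd_pow_self p (by omega)
        have h6 : p ∣ 1 := by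
          have := (Nat.dvd_sub h5 hd)
          rwa [show p ^ i - (p ^ i - 1) = 1 by omega] at this
        exact hp.one_lt.ne' (Nat.dvd_one.1 h6)
      rw [norm_mul, norm_mul, h4, one_mul, Coeff_norm_n hL] at h3
      rw [h3]
      exact mul_le_of_le_one_right (Real.rpow_nonneg hp0.le _) (norm_natCast_le _)
    have h3 := Coeff_norm_choose_pow (p := p) hL hie
    have h4 : (p : ℝ) ^ (-(e : ℝ)) < (p : ℝ) ^ ((i : ℝ) - e) := by
      refine Real.rpow_lt_rpow_of_exponent_lt hp1 ?_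
      have : (1 : ℝ) ≤ i := by exact_mod_cast hi
      linarith
    rw [h1, Nat.cast_add, ← h3]
    have hx0 : (n.choose (p ^ i) : PadicAlgCl p) ≠ 0 := by
      rw [← norm_pos_iff, h3]; exact Real.rpow_pos_of_pos hp0 _
    have hy : (n.choose (p ^ i - 1) : PadicAlgCl p) = 0 ∨
        v p (n.choose (p ^ i) : PadicAlgCl p) < v p (n.choose (p ^ i - 1) : PadicAlgCl p) := by
      by_cases h0 : (n.choose (p ^ i - 1) : PadicAlgCl p) = 0
      · exact Or.inl h0
      · right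
        rw [v_lt_iff hx0 h0, h3]
        exact lt_of_le_of_lt h2 h4
    obtain ⟨h5, h6⟩ := v_add_eq_left (p := p) hx0 hy
    rw [norm_eq h6, h5, ← norm_eq hx0]

theorem norm_F_two (hL : Loc p N n e M) (hp : p ≠ 2) :
    ‖(F p N 1).coeff 2‖ = (p : ℝ) ^ (-(e : ℝ)) := by
  have hpp : p.Prime := Fact.out
  have hN := hL.hN
  rw [Coeff_F_ge 1 le_rfl, one_pow, one_mul]
  have h1 := congrArg norm (Coeff_mul_choose (p := p) (n := N) (k := 2) (by omega) (by omega))
  have h2 : ‖((2 : ℕ) : PadicAlgCl p)‖ = 1 := by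
    refine norm_natCast_eq_one fun hd => ?_
    exact hp ((Nat.prime_dvd_prime_iff_eq hpp Nat.prime_two).1 hd)
  rw [norm_mul, norm_mul, h2, one_mul] at h1
  simp only [Nat.add_one_sub_one, Nat.choose_one_right] at h1
  rw [h1]
  have hdvd : p ∣ n := by
    rw [hL.hM]; exact Dvd.dvd.mul_right (dvd_pow_self p (by have := hL.he; omega)) _
  rcases hL.hn with h | h
  · have h3 : ‖((N - 1 : ℕ) : PadicAlgCl p)‖ = 1 := by
      refine norm_natCast_eq_one fun hd => ?_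
      rw [h] at hdvd
      have h6 : p ∣ 1 := by
        have := (Nat.dvd_sub hdvd hd)
        rwa [show N - (N - 1) = 1 by omega] at this
      exact hpp.one_lt.ne' (Nat.dvd_one.1 h6)
    rw [h3, mul_one, ← h, Coeff_norm_n hL]
  · have h3 : ‖(N : PadicAlgCl p)‖ = 1 := by
      refine norm_natCast_eq_one fun hd => ?_
      rw [h] at hdvd
      have h6 : p ∣ 1 := by
        have := (Nat.dvd_sub hd hdvd)
        rwa [show N - (N - 1) = 1 by omega] at this
      exact hpp.one_lt.ne' (Nat.dvd_one.1 h6)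
    rw [h3, one_mul, ← h, Coeff_norm_n hL]

theorem Coeff_roots (hN : 4 ≤ N) :
    ((f N).map (Int.castRingHom (PadicAlgCl p))).roots =
      {1} + {1} + (rts (PadicAlgCl p) (g N)).val := by
  classical
  have hf : (f N).map (Int.castRingHom (PadicAlgCl p)) =
      (X - C 1) * ((X - C 1) * (g N).map (Int.castRingHom (PadicAlgCl p))) := by
    rw [← f_eq N (by omega)]
    simp only [Polynomial.map_mul, Polynomial.map_pow, Polynomial.map_sub, Polynomial.map_X,
      Polynomial.map_one, C_1]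
    ring
  have hg : (g N).map (Int.castRingHom (PadicAlgCl p)) ≠ 0 :=
    ((g_monic N (by omega)).map _).ne_zero
  have hx : (X - C (1 : PadicAlgCl p)) ≠ 0 := X_sub_C_ne_zero 1
  rw [hf, roots_mul (mul_ne_zero hx (mul_ne_zero hx hg)), roots_mul (mul_ne_zero hx hg),
    roots_X_sub_C, ← add_assoc]
  congr 1
  have hnd : ((g N).map (Int.castRingHom (PadicAlgCl p))).roots.Nodup := by
    rw [← Multiset.toFinset_card_eq_card_iff_nodup]
    have h1 := card_rts_g (K := PadicAlgCl p) (N := N) (by omega)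
    have h2 : ((g N).map (Int.castRingHom (PadicAlgCl p))).roots.card = N - 2 := by
      rw [← (IsAlgClosed.splits _).natDegree_eq_card_roots,
        (g_monic N (by omega)).natDegree_map, g_natDegree N (by omega)]
    rw [h2, ← h1, rts]
  rw [rts, Multiset.toFinset_val, hnd.dedup]

/-- the roots of `F` -/
theorem F_countP (hN : 4 ≤ N) (ω : PadicAlgCl p) (Q : PadicAlgCl p → Prop) [DecidablePred Q] :
    (F p N ω).roots.countP Q =
      ((rts (PadicAlgCl p) (g N)).filter (fun x => Q (x - ω))).card + if Q (1 - ω) then 2 else 0 := by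
  classical
  have h1 : (F p N ω).roots =
      ((f N).map (Int.castRingHom (PadicAlgCl p))).roots.map (fun x => x - ω) := by
    have := roots_comp_C_mul_X_add_C ((f N).map (Int.castRingHom (PadicAlgCl p))) 1 ω isUnit_one
    simpa [F] using this
  rw [h1, Multiset.countP_map, Coeff_roots hN, Multiset.filter_add, Multiset.card_add,
    Multiset.filter_add, Multiset.card_add]
  have h2 : Multiset.card (Multiset.filter (fun x => Q (x - ω))
      (rts (PadicAlgCl p) (g N)).val) =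
      ((rts (PadicAlgCl p) (g N)).filter (fun x => Q (x - ω))).card := rfl
  rw [h2, add_comm]
  congr 1
  by_cases hQ : Q (1 - ω)
  · simp [Multiset.filter_singleton, hQ]
  · simp [Multiset.filter_singleton, hQ]

end Pool.Agent.IRR
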