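import Pool.Agent.IRR.SumClasses
import Pool.Agent.IRR.Classes
import Pool.Agent.IRR.ArchEnergy
import Pool.Agent.IRR.ArchT3

/-!
# IRR.Combine: a factorisation gives a bad profile (diff 2)

`d = deg a ≤ deg b`, `V p = v_p(Res(a,b))`.  For `p ∣ N(N-1)` take `n ∈ {N, N-1}` with `p ∣ n`,
`n = p^e M`; `e = v_p(N(N-1))` (the other factor is prime to `p`): `Loc p N n e M`.
`t1`, `t2` (`n ≤ N`) from `local_bounds`; `t3`: `V p log2 p ≤ v_p(R) log2 p ≤ log2 |R|`,
`R = Res(a, X^(n/p)-1)` (`p^(v_p R) ∣ R`, `R ≠ 0`), and `arch_t3` with `n/p ≤ N/p`.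
`energy`: `log2|Res| = ∑_{p ∣ N(N-1)} V p log2 p` because `V p = 0` for the other primes (`away`),
and `arch_energy`.  `dlow`: `two_pow_le`.
-/

namespace Pool.Agent.IRR

open Polynomial

variable {N : ℕ} {a b : ℤ[X]}

theorem Combine_aux {p n n' : ℕ} [Fact p.Prime] (hn : n ≠ 0) (hn' : n' ≠ 0) (hco : Nat.Coprime n n')
    (hp : p ∣ n) : 1 ≤ padicValNat p (n * n') ∧
      ∃ M, n = p ^ (padicValNat p (n * n')) * M ∧ ¬ p ∣ M := by
  have hpp : p.Prime := Fact.out
  have hp' : ¬ p ∣ n' := by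
    intro h2
    have h3 := Nat.dvd_gcd hp h2
    rw [hco] at h3
    exact hpp.one_lt.ne' (Nat.dvd_one.1 h3)
  obtain ⟨e, M, hM, hnM⟩ := Nat.exists_eq_pow_mul_and_not_dvd hn p hpp.one_lt.ne'
  have hM0 : M ≠ 0 := by
    rintro rfl
    exact hM (dvd_zero p)
  have hval : padicValNat p (n * n') = e := by
    rw [padicValNat.mul hn hn', padicValNat.eq_zero_of_not_dvd hp', add_zero, hnM,
      padicValNat.mul (pow_ne_zero _ hpp.ne_zero) hM0, padicValNat.prime_pow,
      padicValNat.eq_zero_of_not_dvd hM, add_zero]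
  refine ⟨?_, M, ?_, hM⟩
  · rw [hval]
    rcases Nat.eq_zero_or_pos e with h0 | h0
    · rw [h0, pow_zero, one_mul] at hnM
      rw [hnM] at hp
      exact absurd hp hM
    · exact h0
  · rw [hval]
    exact hnM

theorem Combine_loc {p : ℕ} [Fact p.Prime] (hN : 4 ≤ N) (hp : p ∣ N * (N - 1)) :
    ∃ n M : ℕ, Loc p N n (padicValNat p (N * (N - 1))) M := by
  have hpp : p.Prime := Fact.out
  have hco : Nat.Coprime N (N - 1) := by
    have h1 : N = (N - 1) + 1 := by omega
    have h2 : Nat.Coprime ((N - 1) + 1) (N - 1) := by simp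
    rwa [← h1] at h2
  rcases (Nat.Prime.dvd_mul hpp).1 hp with h | h
  · obtain ⟨h1, M, h2, h3⟩ := Combine_aux (n := N) (n' := N - 1) (by omega) (by omega) hco h
    exact ⟨N, M, ⟨hN, Or.inl rfl, h1, h2, h3⟩⟩
  · obtain ⟨h1, M, h2, h3⟩ := Combine_aux (n := N - 1) (n' := N) (by omega) (by omega) hco.symm h
    rw [mul_comm (N - 1) N] at h1 h2
    exact ⟨N - 1, M, ⟨hN, Or.inr rfl, h1, h2, h3⟩⟩

/-- `log2 m` as a sum over a set of primes containing the prime factors -/
theorem Combine_log (m : ℕ) (hm : m ≠ 0) (S : Finset ℕ) (hS : ∀ p ∈ S, p.Prime)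
    (hmS : m.primeFactors ⊆ S) :
    Real.logb 2 (m : ℝ) = ∑ p ∈ S, (padicValNat p m : ℝ) * Real.logb 2 p := by
  have h1 : m = ∏ p ∈ S, p ^ (padicValNat p m) := by
    conv_lhs => rw [← Nat.prod_factorization_pow_eq_self hm]
    rw [Finsupp.prod_of_support_subset _ (s := S) (by simpa using hmS) _ (by simp)]
    apply Finset.prod_congr rfl
    intro p hp
    rw [Nat.factorization_def m (hS p hp)]
  have h2 : (m : ℝ) = ∏ p ∈ S, (p : ℝ) ^ (padicValNat p m) := by
    conv_lhs => rw [h1]
    push_cast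
    rfl
  rw [h2, Real.logb_prod]
  · apply Finset.sum_congr rfl
    intro p _
    rw [Real.logb_pow]
  · intro p hp
    exact pow_ne_zero _ (Nat.cast_ne_zero.2 (hS p hp).ne_zero)

/-- `v_p(z) log2 p ≤ log2 |z|` -/
theorem Combine_val (p : ℕ) (hp : p.Prime) (z : ℤ) (hz : z ≠ 0) :
    (padicValInt p z : ℝ) * Real.logb 2 p ≤ Real.logb 2 |(z : ℝ)| := by
  have hfact : Fact p.Prime := ⟨hp⟩
  have h1 : p ^ (padicValInt p z) ∣ z.natAbs := pow_padicValNat_dvd
  have h2 : p ^ (padicValInt p z) ≤ z.natAbs := Nat.le_of_dvd (Int.natAbs_pos.2 hz) h1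
  have h3 : ((p : ℝ) ^ (padicValInt p z)) ≤ |(z : ℝ)| := by
    have : ((z.natAbs : ℕ) : ℝ) = |(z : ℝ)| := by
      rw [Nat.cast_natAbs]
      push_cast
      rfl
    rw [← this]
    exact_mod_cast h2
  rw [← Real.logb_pow]
  exact Real.logb_le_logb_of_le (by norm_num) (pow_pos (by exact_mod_cast hp.pos) _) h3

theorem bad_of_factn (h : Factn N a b) (hab : a.natDegree ≤ b.natDegree) :
    Bad N a.natDegree (fun p => padicValInt p (resultant a b)) := by
  have hN := h.hN
  have hNR : (4 : ℝ) ≤ (N : ℝ) := by exact_mod_cast hN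
  refine ⟨h.da, ?_, two_pow_le h, ?_, ?_, ?_, ?_⟩
  · have := h.deg
    omega
  · intro p hp hpN
    have hfact : Fact p.Prime := ⟨hp⟩
    obtain ⟨n, M, hL⟩ := Combine_loc hN hpN
    have hR : resultant a (X ^ (n / p) - 1) ≠ 0 := by
      refine (arch_t3 h (n / p) ?_).1
      have hpn : p ∣ n := by
        rw [hL.hM]
        exact Dvd.dvd.mul_right (dvd_pow_self p (by have := hL.he; omega)) M
      have hn0 : 0 < n := by
        have h1 := hL.hN
        rcases hL.hn with h2 | h2 <;> omega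
      exact (Nat.one_le_div_iff hp.pos).2 (Nat.le_of_dvd hn0 hpn)
    have h1 := (local_bounds hL h hR).1
    have he := hL.he
    have h2 : ((padicValInt p (resultant a b) : ℕ) : ℝ) ≤
        (((padicValNat p (N * (N - 1)) - 1) * a.natDegree : ℕ) : ℝ) := by
      rw [Nat.cast_mul, Nat.cast_sub he]
      exact_mod_cast h1
    exact_mod_cast h2
  · intro p hp hpN j
    have hfact : Fact p.Prime := ⟨hp⟩
    obtain ⟨n, M, hL⟩ := Combine_loc hN hpN
    have hR : resultant a (X ^ (n / p) - 1) ≠ 0 := by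
      refine (arch_t3 h (n / p) ?_).1
      have hpn : p ∣ n := by
        rw [hL.hM]
        exact Dvd.dvd.mul_right (dvd_pow_self p (by have := hL.he; omega)) M
      have hn0 : 0 < n := by
        have h1 := hL.hN
        rcases hL.hn with h2 | h2 <;> omega
      exact (Nat.one_le_div_iff hp.pos).2 (Nat.le_of_dvd hn0 hpn)
    have h1 := (local_bounds hL h hR).2.1 j
    refine h1.trans ?_
    have hp2 : (2 : ℝ) ≤ (p : ℝ) := by exact_mod_cast hp.two_le
    have hnN : (n : ℝ) ≤ (N : ℝ) := by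
      have h1 := hL.hN
      have : n ≤ N := by rcases hL.hn with h2 | h2 <;> omega
      exact_mod_cast this
    have hden : 0 < ((p : ℝ) ^ 2 - 1) * (p : ℝ) ^ j := by
      apply mul_pos
      · nlinarith
      · exact pow_pos (by linarith) j
    have h3 : (n : ℝ) * p / (((p : ℝ) ^ 2 - 1) * (p : ℝ) ^ j) ≤
        (N : ℝ) * p / (((p : ℝ) ^ 2 - 1) * (p : ℝ) ^ j) := by
      apply div_le_div_of_nonneg_right _ hden.le
      exact mul_le_mul_of_nonneg_right hnN (by linarith)
    linarith
  · intro p hp hpN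
    have hfact : Fact p.Prime := ⟨hp⟩
    obtain ⟨n, M, hL⟩ := Combine_loc hN hpN
    have hR1 : 1 ≤ n / p := by
      have hpn : p ∣ n := by
        rw [hL.hM]
        exact Dvd.dvd.mul_right (dvd_pow_self p (by have := hL.he; omega)) M
      have hn0 : 0 < n := by
        have h1 := hL.hN
        rcases hL.hn with h2 | h2 <;> omega
      exact (Nat.one_le_div_iff hp.pos).2 (Nat.le_of_dvd hn0 hpn)
    obtain ⟨hR, hT⟩ := arch_t3 h (n / p) hR1
    have h1 := (local_bounds hL h hR).2.2
    have h2 := Combine_val p hp _ hR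
    have hlp : 0 ≤ Real.logb 2 (p : ℝ) :=
      Real.logb_nonneg (by norm_num) (by exact_mod_cast hp.one_lt.le)
    have h3 : ((padicValInt p (resultant a b) : ℕ) : ℝ) * Real.logb 2 p ≤
        ((padicValInt p (resultant a (X ^ (n / p) - 1)) : ℕ) : ℝ) * Real.logb 2 p :=
      mul_le_mul_of_nonneg_right (by exact_mod_cast h1) hlp
    refine (h3.trans (h2.trans hT)).trans ?_
    apply mul_le_mul_of_nonneg_left _ (Nat.cast_nonneg _)
    have hp0 : (0 : ℝ) < (p : ℝ) := by exact_mod_cast hp.pos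
    have hnp : ((n / p : ℕ) : ℝ) ≤ (N : ℝ) / p := by
      refine Nat.cast_div_le.trans ?_
      apply div_le_div_of_nonneg_right _ hp0.le
      have h1 := hL.hN
      have : n ≤ N := by rcases hL.hn with h2 | h2 <;> omega
      exact_mod_cast this
    have hlN : 0 ≤ Real.logb 2 (2 * N : ℝ) := Real.logb_nonneg (by norm_num) (by linarith)
    have hN1 : 0 < (N : ℝ) - 1 := by linarith
    have h4 : ((n / p : ℕ) : ℝ) * Real.logb 2 (2 * N) / (N - 1) ≤
        (N : ℝ) * Real.logb 2 (2 * N) / (p * (N - 1)) := by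
      have h5 : (N : ℝ) * Real.logb 2 (2 * N) / (p * (N - 1)) =
          (N : ℝ) / p * Real.logb 2 (2 * N) / (N - 1) := by
        field_simp
      rw [h5]
      apply div_le_div_of_nonneg_right _ hN1.le
      exact mul_le_mul_of_nonneg_right hnp hlN
    linarith
  · refine (arch_energy h).trans (le_of_eq ?_)
    have hres := res_ne_zero h
    have h1 : |((resultant a b : ℤ) : ℝ)| = (((resultant a b).natAbs : ℕ) : ℝ) := by
      rw [Nat.cast_natAbs]
      push_cast
      rfl
    rw [h1]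
    apply Combine_log _ (Int.natAbs_ne_zero.2 hres) _
    · intro p hp
      exact Nat.prime_of_mem_primeFactors hp
    · intro p hp
      have hpp := Nat.prime_of_mem_primeFactors hp
      have hfact : Fact p.Prime := ⟨hpp⟩
      rw [Nat.mem_primeFactors]
      refine ⟨hpp, ?_, ?_⟩
      · by_contra hcon
        have h2 := away hcon h
        have h3 : p ∣ (resultant a b).natAbs := Nat.dvd_of_mem_primeFactors hp
        have h4 := one_le_padicValNat_of_dvd (Int.natAbs_ne_zero.2 hres) h3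
        have h5 : padicValNat p (resultant a b).natAbs = 0 := h2
        omega
      · have : 0 < N * (N - 1) := Nat.mul_pos (by omega) (by omega)
        omega

end Pool.Agent.IRR
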