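import Mathlib

/-!
# IRR: irreducibility of `1 + 2X + ... + n X^(n-1)`; common definitions

`N = n + 1`;  `g N = X^(N-2) + 2 X^(N-3) + ... + (N-1)` (reverse of `P n`), `(X-1)^2 * g N = f N`.
-/

namespace Pool.Agent.IRR

open Polynomial

noncomputable section

/-- `P n = 1 + 2X + ... + n X^(n-1)` -/
def P (n : ℕ) : ℤ[X] := ∑ k ∈ Finset.range n, C ((k : ℤ) + 1) * X ^ k

/-- `g N = (N-1) + (N-2) X + ... + X^(N-2)` -/
def g (N : ℕ) : ℤ[X] := ∑ k ∈ Finset.range (N - 1), C ((N : ℤ) - 1 - k) * X ^ k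

/-- `f N = X^N - N X + (N-1)` -/
def f (N : ℕ) : ℤ[X] := X ^ N - C (N : ℤ) * X + C ((N : ℤ) - 1)

/-- the finite set of roots in a field `K` of an integer polynomial -/
def rts (K : Type*) [Field K] (a : ℤ[X]) : Finset K := by
  classical exact ((a.map (Int.castRingHom K)).roots).toFinset

/-- evaluation of an integer polynomial in a field -/
def ev {K : Type*} [Field K] (h : ℤ[X]) (x : K) : K := (h.map (Int.castRingHom K)).eval x

/-- the additive `p`-adic valuation on `PadicAlgCl p` (junk value `0` at `0`). -/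
def v (p : ℕ) [Fact p.Prime] (x : PadicAlgCl p) : ℝ := - Real.logb p ‖x‖

/-- sizes of the types: `D p 1 = p`, `D p i = p^(i-1) (p-1)` for `i ≠ 1`. -/
def D (p i : ℕ) : ℕ := if i = 1 then p else p ^ (i - 1) * (p - 1)

/-- A factorisation of `g N` into monic nonconstant integer polynomials. -/
structure Factn (N : ℕ) (a b : ℤ[X]) : Prop where
  hN : 4 ≤ N
  ha : a.Monic
  hb : b.Monic
  hab : a * b = g N
  da : 1 ≤ a.natDegree
  db : 1 ≤ b.natDegree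

/-- `p^e` exactly divides `n ∈ {N, N - 1}`, `n = p^e M`. -/
structure Loc (p N n e M : ℕ) : Prop where
  hN : 4 ≤ N
  hn : n = N ∨ n = N - 1
  he : 1 ≤ e
  hM : n = p ^ e * M
  hpM : ¬ p ∣ M

open Classical in
/-- the roots of `a` in the open unit disc around `ω` -/
def cls (p : ℕ) [Fact p.Prime] (a : ℤ[X]) (ω : PadicAlgCl p) : Finset (PadicAlgCl p) :=
  (rts (PadicAlgCl p) a).filter (fun x => ‖x - ω‖ < 1)

open Classical in
/-- the roots `x` of `a` with `v (x - ω) = c` -/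
def lvl (p : ℕ) [Fact p.Prime] (a : ℤ[X]) (ω : PadicAlgCl p) (c : ℝ) : Finset (PadicAlgCl p) :=
  (rts (PadicAlgCl p) a).filter (fun x => v p (x - ω) = c)

theorem mem_cls {p : ℕ} [Fact p.Prime] {a : ℤ[X]} {ω x : PadicAlgCl p} :
    x ∈ cls p a ω ↔ x ∈ rts (PadicAlgCl p) a ∧ ‖x - ω‖ < 1 := by
  classical
  simp [cls]

theorem mem_lvl {p : ℕ} [Fact p.Prime] {a : ℤ[X]} {ω x : PadicAlgCl p} {c : ℝ} :
    x ∈ lvl p a ω c ↔ x ∈ rts (PadicAlgCl p) a ∧ v p (x - ω) = c := by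
  classical
  simp [lvl]

open Classical in
/-- size of the type `i` in the class of `ω`, `p` odd -/
def Dw (p i : ℕ) [Fact p.Prime] (ω : PadicAlgCl p) : ℕ := if i = 1 ∧ ω = 1 then p - 2 else D p i

/-- cross energy of the class of `ω` -/
def W (p : ℕ) [Fact p.Prime] (a b : ℤ[X]) (ω : PadicAlgCl p) : ℝ :=
  ∑ x ∈ cls p a ω, ∑ y ∈ cls p b ω, v p (x - y)

/-- `f N` expanded at `ω` -/
def F (p N : ℕ) [Fact p.Prime] (ω : PadicAlgCl p) : (PadicAlgCl p)[X] :=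
  ((f N).map (Int.castRingHom (PadicAlgCl p))).comp (X + C ω)

/-- abstract cross energy -/
def combV (p e : ℕ) (m : ℕ → ℝ) (s : ℕ → Bool) : ℝ :=
  ∑ i ∈ Finset.Icc 1 e, ∑ k ∈ Finset.Ioc i e, if s i = s k then 0 else m i * m k / (D p k : ℝ)

/-- abstract size of the `true` side -/
def combU (e : ℕ) (m : ℕ → ℝ) (s : ℕ → Bool) : ℝ :=
  ∑ i ∈ Finset.Icc 1 e, if s i then m i else 0

/-- The numerical profile that a factorisation would produce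
(`d = deg a`, `V p = v_p (Res (a,b))`). -/
structure Bad (N d : ℕ) (V : ℕ → ℕ) : Prop where
  d1 : 1 ≤ d
  d2 : 2 * d + 2 ≤ N
  dlow : 2 ^ (N - 1) ≤ (2 * N) ^ d
  t1 : ∀ p, p.Prime → p ∣ N * (N - 1) → V p ≤ (padicValNat p (N * (N - 1)) - 1) * d
  t2 : ∀ p, p.Prime → p ∣ N * (N - 1) → ∀ j : ℕ,
    (V p : ℝ) ≤ j * d + N * p / (((p : ℝ) ^ 2 - 1) * (p : ℝ) ^ j)
  t3 : ∀ p, p.Prime → p ∣ N * (N - 1) →
    (V p : ℝ) * Real.logb 2 p ≤ d * (1 + N * Real.logb 2 (2 * N) / (p * (N - 1)))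
  energy : d * Real.logb 2 (N * (N - 1)) - Real.logb 2 (N * (N - 1) / 2) - d * Real.logb 2 d
      - (d : ℝ) ^ 2 * Real.logb 2 (2 * N) / (N - 1)
    ≤ ∑ p ∈ (N * (N - 1)).primeFactors, (V p : ℝ) * Real.logb 2 p

/-- The same after division by `d` and passing to `κ = log2 (2N)`, `δ = d / N`
(`w p = V p log2 p / d`), valid for `N ≥ 8192`. -/
structure Prof (κ δ : ℝ) (S : Finset ℕ) (e : ℕ → ℕ) (w : ℕ → ℝ) : Prop where
  hκ : 14 ≤ κ
  hδ0 : 0 < δ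
  hδ1 : δ ≤ 1 / 2
  hδ2 : 1 / (κ + 1 / 550) ≤ δ
  prime : ∀ p ∈ S, p.Prime
  e_pos : ∀ p ∈ S, 1 ≤ e p
  w0 : ∀ p ∈ S, 0 ≤ w p
  w1 : ∀ p ∈ S, w p ≤ ((e p : ℝ) - 1) * Real.logb 2 p
  w2 : ∀ p ∈ S, ∀ j : ℕ,
    w p ≤ j * Real.logb 2 p + p * Real.logb 2 p / (δ * (((p : ℝ) ^ 2 - 1) * (p : ℝ) ^ j))
  w3 : ∀ p ∈ S, w p ≤ 1 + (κ + 1 / 550) / p
  el : ∑ p ∈ S, (e p : ℝ) * Real.logb 2 p ≤ 2 * (κ - 1)
  energy : ∀ lam : ℝ, 0 ≤ lam → lam ≤ 1 →
    (1 - 2 * lam) * (κ - 1) - Real.logb 2 δ - δ * κ - 1 / 20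
      ≤ ∑ p ∈ S, (w p - lam * ((e p : ℝ) * Real.logb 2 p))

end

end Pool.Agent.IRR
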