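import Pool.Agent.IRR.Val

/-!
# IRR.DomIdx: a dominant coefficient counts roots (diff 2-3)

Let `G ≠ 0`, `‖G_l‖ r^l ≤ ‖G_k‖ r^k` for all `l`.  `G` splits.
* `#{‖y‖ < r} ≤ k`.  Write `G = A B`, `A = ∏_{‖y‖<r} (X - y)` of degree `m`, `B` the rest.  With the
  Gauss norm `|P|_r = max ‖P_l‖ r^l` (multiplicative: `Polynomial.gaussNorm_mul`, or directly):
  `‖A_i‖ r^i < r^m = |A|_r` for `i < m`, `‖B_j‖ r^j ≤ ‖B_0‖ = |B|_r`.  If `k < m`, every term
  `A_i B_j` (`i + j = k`) has `‖A_i B_j‖ r^k < |A|_r |B|_r = ‖G_m‖ r^m` (in `G_m` the term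
  `A_m B_0` strictly dominates), contradiction.
* `k ≤ #{‖y‖ ≤ r}`: the same with `A = ∏_{‖y‖≤r}`, where now `‖A_i‖ r^i ≤ r^m` and
  `‖B_j‖ r^j < ‖B_0‖` for `j ≥ 1`.
Proof below: first and last maximal index, by induction on the roots.
-/

namespace Pool.Agent.IRR

open Polynomial

variable {p : ℕ} [Fact p.Prime]

def DomIdx_A (P : (PadicAlgCl p)[X]) (r : ℝ) (m : ℕ) : Prop :=
  ∃ M : ℝ, 0 < M ∧ (∀ l, ‖P.coeff l‖ * r ^ l ≤ M) ∧ ‖P.coeff m‖ * r ^ m = M ∧
    ∀ l, l < m → ‖P.coeff l‖ * r ^ l < M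

def DomIdx_B (P : (PadicAlgCl p)[X]) (r : ℝ) (m : ℕ) : Prop :=
  ∃ M : ℝ, 0 < M ∧ (∀ l, ‖P.coeff l‖ * r ^ l ≤ M) ∧ ‖P.coeff m‖ * r ^ m = M ∧
    ∀ l, m < l → ‖P.coeff l‖ * r ^ l < M

/-- bound of the coefficients of `P * (X - C y)` -/
theorem DomIdx_le (P : (PadicAlgCl p)[X]) (y : PadicAlgCl p) {r : ℝ} (hr : 0 < r) (l : ℕ) :
    ‖(P * (X - C y)).coeff l‖ * r ^ l ≤
      max (if l = 0 then 0 else r * (‖P.coeff (l - 1)‖ * r ^ (l - 1)))
        (‖y‖ * (‖P.coeff l‖ * r ^ l)) := by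
  rcases l with _ | l
  · have : (P * (X - C y)).coeff 0 = - (P.coeff 0 * y) := by
      simp [mul_coeff_zero]
    rw [this, norm_neg, norm_mul]
    apply le_max_of_le_right
    apply le_of_eq
    ring
  · rw [coeff_mul_X_sub_C]
    have h : ‖P.coeff l - P.coeff (l + 1) * y‖ ≤ max ‖P.coeff l‖ ‖P.coeff (l + 1) * y‖ := by
      have h' := IsUltrametricDist.norm_add_le_max (P.coeff l) (-(P.coeff (l + 1) * y))
      rw [norm_neg, ← sub_eq_add_neg] at h'
      exact h'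
    have hp : 0 < r ^ (l + 1) := by positivity
    calc ‖P.coeff l - P.coeff (l + 1) * y‖ * r ^ (l + 1)
        ≤ max ‖P.coeff l‖ ‖P.coeff (l + 1) * y‖ * r ^ (l + 1) := by gcongr
      _ = max (‖P.coeff l‖ * r ^ (l + 1)) (‖P.coeff (l + 1) * y‖ * r ^ (l + 1)) := by
          rw [max_mul_of_nonneg _ _ hp.le]
      _ = _ := by
          rw [norm_mul]
          simp only [Nat.add_eq_zero_iff, one_ne_zero, and_false, if_false, Nat.add_sub_cancel]
          congr 1 <;> ring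

theorem DomIdx_eq_left (P : (PadicAlgCl p)[X]) (y : PadicAlgCl p) {r : ℝ} (hr : 0 < r) (l : ℕ)
    (h : ‖y‖ * (‖P.coeff (l + 1)‖ * r ^ (l + 1)) < r * (‖P.coeff l‖ * r ^ l)) :
    ‖(P * (X - C y)).coeff (l + 1)‖ * r ^ (l + 1) = r * (‖P.coeff l‖ * r ^ l) := by
  rw [coeff_mul_X_sub_C]
  have hp : 0 < r ^ (l + 1) := by positivity
  have h1 : ‖P.coeff (l + 1) * y‖ < ‖P.coeff l‖ := by
    rw [norm_mul]
    have : ‖P.coeff (l + 1)‖ * ‖y‖ * r ^ (l + 1) < ‖P.coeff l‖ * r ^ (l + 1) := by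
      calc _ = ‖y‖ * (‖P.coeff (l + 1)‖ * r ^ (l + 1)) := by ring
        _ < r * (‖P.coeff l‖ * r ^ l) := h
        _ = _ := by ring
    exact lt_of_mul_lt_mul_right this hp.le
  have h2 : ‖P.coeff l - P.coeff (l + 1) * y‖ = ‖P.coeff l‖ := by
    rw [sub_eq_add_neg]
    have h3 := IsUltrametricDist.norm_add_eq_max_of_norm_ne_norm (x := P.coeff l)
      (y := -(P.coeff (l + 1) * y)) (by rw [norm_neg]; exact h1.ne')
    rw [h3, norm_neg, max_eq_left h1.le]
  rw [h2]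
  ring

theorem DomIdx_eq_right (P : (PadicAlgCl p)[X]) (y : PadicAlgCl p) {r : ℝ} (hr : 0 < r) (l : ℕ)
    (h : l ≠ 0 → r * (‖P.coeff (l - 1)‖ * r ^ (l - 1)) < ‖y‖ * (‖P.coeff l‖ * r ^ l)) :
    ‖(P * (X - C y)).coeff l‖ * r ^ l = ‖y‖ * (‖P.coeff l‖ * r ^ l) := by
  rcases l with _ | l
  · have : (P * (X - C y)).coeff 0 = - (P.coeff 0 * y) := by
      simp [mul_coeff_zero]
    rw [this, norm_neg, norm_mul]
    ring
  · have h := h (by omega)
    rw [Nat.add_sub_cancel] at h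
    rw [coeff_mul_X_sub_C]
    have hp : 0 < r ^ (l + 1) := by positivity
    have h1 : ‖P.coeff l‖ < ‖P.coeff (l + 1) * y‖ := by
      rw [norm_mul]
      have : ‖P.coeff l‖ * r ^ (l + 1) < ‖P.coeff (l + 1)‖ * ‖y‖ * r ^ (l + 1) := by
        calc _ = r * (‖P.coeff l‖ * r ^ l) := by ring
          _ < _ := h
          _ = _ := by ring
      exact lt_of_mul_lt_mul_right this hp.le
    have h2 : ‖P.coeff l - P.coeff (l + 1) * y‖ = ‖P.coeff (l + 1) * y‖ := by
      rw [sub_eq_add_neg]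
      have h3 := IsUltrametricDist.norm_add_eq_max_of_norm_ne_norm (x := P.coeff l)
        (y := -(P.coeff (l + 1) * y)) (by rw [norm_neg]; exact h1.ne)
      rw [h3, norm_neg, max_eq_right h1.le]
    rw [h2, norm_mul]
    ring

theorem DomIdx_A_lt {P : (PadicAlgCl p)[X]} {y : PadicAlgCl p} {r : ℝ} (hr : 0 < r) {m : ℕ}
    (hP : DomIdx_A P r m) (hy : ‖y‖ < r) : DomIdx_A (P * (X - C y)) r (m + 1) := by
  obtain ⟨M, hM, h1, h2, h3⟩ := hP
  have hyM : ‖y‖ * M < r * M := by gcongr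
  refine ⟨r * M, by positivity, ?_, ?_, ?_⟩
  · intro l
    refine (DomIdx_le P y hr l).trans (max_le ?_ ?_)
    · split_ifs
      · positivity
      · exact mul_le_mul_of_nonneg_left (h1 _) hr.le
    · calc ‖y‖ * (‖P.coeff l‖ * r ^ l) ≤ ‖y‖ * M :=
            mul_le_mul_of_nonneg_left (h1 _) (norm_nonneg _)
        _ ≤ r * M := hyM.le
  · rw [DomIdx_eq_left P y hr m, h2]
    rw [h2]
    exact (mul_le_mul_of_nonneg_left (h1 _) (norm_nonneg _)).trans_lt hyM
  · intro l hl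
    refine (DomIdx_le P y hr l).trans_lt (max_lt ?_ ?_)
    · split_ifs with h0
      · positivity
      · exact mul_lt_mul_of_pos_left (h3 _ (by omega)) hr
    · exact (mul_le_mul_of_nonneg_left (h1 _) (norm_nonneg _)).trans_lt hyM

theorem DomIdx_A_ge {P : (PadicAlgCl p)[X]} {y : PadicAlgCl p} {r : ℝ} (hr : 0 < r) {m : ℕ}
    (hP : DomIdx_A P r m) (hy : r ≤ ‖y‖) : DomIdx_A (P * (X - C y)) r m := by
  obtain ⟨M, hM, h1, h2, h3⟩ := hP
  have hy0 : 0 < ‖y‖ := hr.trans_le hy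
  have hyM : r * M ≤ ‖y‖ * M := by gcongr
  refine ⟨‖y‖ * M, by positivity, ?_, ?_, ?_⟩
  · intro l
    refine (DomIdx_le P y hr l).trans (max_le ?_ ?_)
    · split_ifs
      · positivity
      · exact (mul_le_mul_of_nonneg_left (h1 _) hr.le).trans hyM
    · exact mul_le_mul_of_nonneg_left (h1 _) (norm_nonneg _)
  · rw [DomIdx_eq_right P y hr m, h2]
    intro h0
    rw [h2]
    exact (mul_lt_mul_of_pos_left (h3 _ (by omega)) hr).trans_le hyM
  · intro l hl
    refine (DomIdx_le P y hr l).trans_lt (max_lt ?_ ?_)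
    · split_ifs with h0
      · positivity
      · exact (mul_lt_mul_of_pos_left (h3 _ (by omega)) hr).trans_le hyM
    · exact mul_lt_mul_of_pos_left (h3 _ hl) hy0

theorem DomIdx_B_le {P : (PadicAlgCl p)[X]} {y : PadicAlgCl p} {r : ℝ} (hr : 0 < r) {m : ℕ}
    (hP : DomIdx_B P r m) (hy : ‖y‖ ≤ r) : DomIdx_B (P * (X - C y)) r (m + 1) := by
  obtain ⟨M, hM, h1, h2, h3⟩ := hP
  have hyM : ‖y‖ * M ≤ r * M := by gcongr
  have key : ∀ l, m < l → ‖y‖ * (‖P.coeff l‖ * r ^ l) < r * M := by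
    intro l hl
    rcases (norm_nonneg y).eq_or_lt with h0 | h0
    · rw [← h0, zero_mul]
      positivity
    · exact (mul_lt_mul_of_pos_left (h3 _ hl) h0).trans_le hyM
  refine ⟨r * M, by positivity, ?_, ?_, ?_⟩
  · intro l
    refine (DomIdx_le P y hr l).trans (max_le ?_ ?_)
    · split_ifs
      · positivity
      · exact mul_le_mul_of_nonneg_left (h1 _) hr.le
    · exact (mul_le_mul_of_nonneg_left (h1 _) (norm_nonneg _)).trans hyM
  · rw [DomIdx_eq_left P y hr m, h2]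
    rw [h2]
    exact key _ (by omega)
  · intro l hl
    refine (DomIdx_le P y hr l).trans_lt (max_lt ?_ ?_)
    · split_ifs with h0
      · positivity
      · exact mul_lt_mul_of_pos_left (h3 _ (by omega)) hr
    · exact key _ (by omega)

theorem DomIdx_B_gt {P : (PadicAlgCl p)[X]} {y : PadicAlgCl p} {r : ℝ} (hr : 0 < r) {m : ℕ}
    (hP : DomIdx_B P r m) (hy : r < ‖y‖) : DomIdx_B (P * (X - C y)) r m := by
  obtain ⟨M, hM, h1, h2, h3⟩ := hP
  have hy0 : 0 < ‖y‖ := hr.trans hy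
  have hyM : r * M < ‖y‖ * M := by gcongr
  refine ⟨‖y‖ * M, by positivity, ?_, ?_, ?_⟩
  · intro l
    refine (DomIdx_le P y hr l).trans (max_le ?_ ?_)
    · split_ifs
      · positivity
      · exact (mul_le_mul_of_nonneg_left (h1 _) hr.le).trans hyM.le
    · exact mul_le_mul_of_nonneg_left (h1 _) (norm_nonneg _)
  · rw [DomIdx_eq_right P y hr m, h2]
    intro h0
    rw [h2]
    exact (mul_le_mul_of_nonneg_left (h1 _) hr.le).trans_lt hyM
  · intro l hl
    refine (DomIdx_le P y hr l).trans_lt (max_lt ?_ ?_)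
    · split_ifs with h0
      · positivity
      · exact (mul_le_mul_of_nonneg_left (h1 _) hr.le).trans_lt hyM
    · exact mul_lt_mul_of_pos_left (h3 _ hl) hy0

theorem DomIdx_A_prod {c : PadicAlgCl p} (hc : c ≠ 0) {r : ℝ} (hr : 0 < r)
    (s : Multiset (PadicAlgCl p)) :
    DomIdx_A (C c * (s.map (fun a => X - C a)).prod) r (s.countP (fun y => ‖y‖ < r)) := by
  induction s using Multiset.induction_on with
  | empty =>
    refine ⟨‖c‖, norm_pos_iff.mpr hc, ?_, ?_, ?_⟩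
    · intro l
      simp only [Multiset.map_zero, Multiset.prod_zero, mul_one, coeff_C]
      split_ifs with h
      · simp [h]
      · simp
    · simp
    · intro l hl
      simp at hl
  | cons a s ih =>
    rw [Multiset.map_cons, Multiset.prod_cons, mul_comm (X - C a), ← mul_assoc]
    by_cases h : ‖a‖ < r
    · rw [Multiset.countP_cons_of_pos (p := fun y : PadicAlgCl p => ‖y‖ < r) s h]
      exact DomIdx_A_lt hr ih h
    · rw [Multiset.countP_cons_of_neg (p := fun y : PadicAlgCl p => ‖y‖ < r) s h]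
      exact DomIdx_A_ge hr ih (not_lt.mp h)

theorem DomIdx_B_prod {c : PadicAlgCl p} (hc : c ≠ 0) {r : ℝ} (hr : 0 < r)
    (s : Multiset (PadicAlgCl p)) :
    DomIdx_B (C c * (s.map (fun a => X - C a)).prod) r (s.countP (fun y => ‖y‖ ≤ r)) := by
  induction s using Multiset.induction_on with
  | empty =>
    refine ⟨‖c‖, norm_pos_iff.mpr hc, ?_, ?_, ?_⟩
    · intro l
      simp only [Multiset.map_zero, Multiset.prod_zero, mul_one, coeff_C]
      split_ifs with h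
      · simp [h]
      · simp
    · simp
    · intro l hl
      simp only [Multiset.countP_zero] at hl
      simp only [Multiset.map_zero, Multiset.prod_zero, mul_one, coeff_C]
      rw [if_neg (by omega)]
      simpa using hc
  | cons a s ih =>
    rw [Multiset.map_cons, Multiset.prod_cons, mul_comm (X - C a), ← mul_assoc]
    by_cases h : ‖a‖ ≤ r
    · rw [Multiset.countP_cons_of_pos (p := fun y : PadicAlgCl p => ‖y‖ ≤ r) s h]
      exact DomIdx_B_le hr ih h
    · rw [Multiset.countP_cons_of_neg (p := fun y : PadicAlgCl p => ‖y‖ ≤ r) s h]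
      exact DomIdx_B_gt hr ih (not_le.mp h)

theorem dom_idx (G : (PadicAlgCl p)[X]) (hG : G ≠ 0) {r : ℝ} (hr : 0 < r) (k : ℕ)
    (hk : ∀ l, ‖G.coeff l‖ * r ^ l ≤ ‖G.coeff k‖ * r ^ k) :
    G.roots.countP (fun y => ‖y‖ < r) ≤ k ∧ k ≤ G.roots.countP (fun y => ‖y‖ ≤ r) := by
  have hs := (IsAlgClosed.splits G).eq_prod_roots
  have hlc : G.leadingCoeff ≠ 0 := leadingCoeff_ne_zero.mpr hG
  constructor
  · obtain ⟨M, hM, h1, h2, h3⟩ := DomIdx_A_prod hlc hr G.roots
    rw [← hs] at h1 h2 h3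
    by_contra hcon
    push Not at hcon
    have h4 := h3 k hcon
    have h5 := hk (G.roots.countP (fun y => ‖y‖ < r))
    rw [h2] at h5
    linarith
  · obtain ⟨M, hM, h1, h2, h3⟩ := DomIdx_B_prod hlc hr G.roots
    rw [← hs] at h1 h2 h3
    by_contra hcon
    push Not at hcon
    have h4 := h3 k hcon
    have h5 := hk (G.roots.countP (fun y => ‖y‖ ≤ r))
    rw [h2] at h5
    linarith

end Pool.Agent.IRR
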