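import Pool.Agent.IRR.Basic

/-!
# IRR.Exist: a reducible `P n` gives a factorisation of `g (n+1)` (diff 2)

`P n` has constant coefficient `1`, hence is primitive; by Gauss' lemma
(`Polynomial.IsPrimitive.Int.irreducible_iff_irreducible_map_cast`) it is reducible over `ℤ`,
`P n = u v` with non-units `u, v` (`P n` is not a unit as `n ≥ 3`), both of positive degree because a constant factor
divides the constant coefficient `1`.  `u(0) v(0) = 1`.  Take reverses (`reverse_mul_of_domain`):
`g (n+1) = reverse (P n) = reverse u * reverse v`, degrees are unchanged since `u(0), v(0) ≠ 0`,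
the leading coefficients are `u(0), v(0) = ±1`; multiply both by this sign and order by degree.
-/

namespace Pool.Agent.IRR

open Polynomial

theorem Exist_P_coeff (n k : ℕ) : (P n).coeff k = if k < n then (k : ℤ) + 1 else 0 := by
  unfold P
  rw [finsetSum_coeff]
  simp only [coeff_C_mul, coeff_X_pow, mul_ite, mul_one, mul_zero]
  rw [Finset.sum_ite_eq]
  simp

theorem Exist_g_coeff (N k : ℕ) :
    (g N).coeff k = if k < N - 1 then (N : ℤ) - 1 - k else 0 := by
  unfold g
  rw [finsetSum_coeff]
  simp only [coeff_C_mul, coeff_X_pow, mul_ite, mul_one, mul_zero]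
  rw [Finset.sum_ite_eq]
  simp

theorem Exist_P_natDegree (n : ℕ) (hn : 1 ≤ n) : (P n).natDegree = n - 1 := by
  apply natDegree_eq_of_le_of_coeff_ne_zero
  · rw [natDegree_le_iff_coeff_eq_zero]
    intro k hk
    rw [Exist_P_coeff, if_neg (by omega)]
  · rw [Exist_P_coeff, if_pos (by omega)]
    positivity

theorem P_reverse (n : ℕ) (hn : 1 ≤ n) : (P n).reverse = g (n + 1) := by
  ext k
  rw [coeff_reverse, Exist_P_natDegree n hn, Exist_P_coeff, Exist_g_coeff]
  by_cases hk : k ≤ n - 1
  · rw [revAt_le hk, if_pos (by omega), if_pos (by omega)]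
    have : ((n - 1 - k : ℕ) : ℤ) = (n : ℤ) - 1 - k := by omega
    rw [this]; push_cast; ring
  · rw [revAt_eq_self_of_lt (by omega), if_neg (by omega), if_neg (by omega)]

theorem Exist_unit_of_C_dvd (n : ℕ) (hn : 1 ≤ n) (r : ℤ) (h : C r ∣ P n) : IsUnit r := by
  rw [C_dvd_iff_dvd_coeff] at h
  have h0 := h 0
  rw [Exist_P_coeff, if_pos (by omega)] at h0
  apply isUnit_of_dvd_one
  simpa using h0

theorem Exist_factor (u v : ℤ[X]) (n : ℕ) (hn : 3 ≤ n) (h : P n = u * v)
    (hu : ¬ IsUnit u) : 1 ≤ u.natDegree := by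
  by_contra hd
  have hd0 : u.natDegree = 0 := by omega
  rw [eq_C_of_natDegree_eq_zero hd0] at hu
  apply hu
  apply IsUnit.map
  apply Exist_unit_of_C_dvd n (by omega)
  rw [← eq_C_of_natDegree_eq_zero hd0, h]
  exact Dvd.intro v rfl

theorem Exist_monic (u : ℤ[X]) (c : ℤ) (hc : c * u.coeff 0 = 1) :
    (C c * u.reverse).Monic ∧ (C c * u.reverse).natDegree = u.natDegree := by
  have hc0 : c ≠ 0 := by rintro rfl; simp at hc
  have hu0 : u.coeff 0 ≠ 0 := by intro h0; rw [h0] at hc; simp at hc
  have ht : u.natTrailingDegree = 0 := natTrailingDegree_eq_zero.2 (Or.inr hu0)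
  constructor
  · rw [Monic, leadingCoeff_mul, leadingCoeff_C, reverse_leadingCoeff, trailingCoeff, ht, hc]
  · rw [natDegree_C_mul hc0, reverse_natDegree, ht]; simp

theorem exists_factn (n : ℕ) (hn : 3 ≤ n)
    (h : ¬ Irreducible ((P n).map (Int.castRingHom ℚ))) :
    ∃ a b : ℤ[X], Factn (n + 1) a b ∧ a.natDegree ≤ b.natDegree := by
  have hprim : (P n).IsPrimitive := by
    intro r hr
    exact Exist_unit_of_C_dvd n (by omega) r hr
  have hirr : ¬ Irreducible (P n) := fun h1 =>
    h ((IsPrimitive.Int.irreducible_iff_irreducible_map_cast hprim).1 h1)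
  have hnu : ¬ IsUnit (P n) := by
    intro hu
    have := natDegree_eq_zero_of_isUnit hu
    rw [Exist_P_natDegree n (by omega)] at this
    omega
  rw [irreducible_iff] at hirr
  push Not at hirr
  obtain ⟨u, v, huv, hu, hv⟩ := hirr hnu
  have du := Exist_factor u v n hn huv hu
  have dv := Exist_factor v u n hn (by rw [huv, mul_comm]) hv
  have hc : u.coeff 0 * v.coeff 0 = 1 := by
    rw [← mul_coeff_zero, ← huv, Exist_P_coeff, if_pos (by omega)]; simp
  have hmul : (C (v.coeff 0) * u.reverse) * (C (u.coeff 0) * v.reverse) = g (n + 1) := by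
    rw [← P_reverse n (by omega), huv, reverse_mul_of_domain]
    have : C (v.coeff 0) * C (u.coeff 0) = (1 : ℤ[X]) := by
      rw [← C_mul, mul_comm, hc, C_1]
    calc (C (v.coeff 0) * u.reverse) * (C (u.coeff 0) * v.reverse)
        = (C (v.coeff 0) * C (u.coeff 0)) * (u.reverse * v.reverse) := by ring
      _ = u.reverse * v.reverse := by rw [this, one_mul]
  obtain ⟨ma, da⟩ := Exist_monic u (v.coeff 0) (by rw [mul_comm]; exact hc)
  obtain ⟨mb, db⟩ := Exist_monic v (u.coeff 0) hc
  rcases le_total u.natDegree v.natDegree with hle | hle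
  · refine ⟨_, _, ⟨by omega, ma, mb, hmul, by rw [da]; exact du, by rw [db]; exact dv⟩, ?_⟩
    rw [da, db]; exact hle
  · refine ⟨_, _, ⟨by omega, mb, ma, ?_, by rw [db]; exact dv, by rw [da]; exact du⟩, ?_⟩
    · rw [mul_comm]; exact hmul
    · rw [da, db]; exact hle

end Pool.Agent.IRR
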