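import Pool.Agent.IRR.Defs

/-!
# IRR.Flow: concavity (diff 1-2)

`G t = t L - C - t log2 t - t² q - (α t + β)` is concave on `t > 0` (`-t log t` is, `q ≥ 0`), so it is
positive on `[d1, d2]` if it is positive at `d1` and `d2`.
-/

namespace Pool.Agent.IRR

theorem flow_pos {L C q α β d1 d2 t : ℝ} (hq : 0 ≤ q) (h1 : 0 < d1) (h1t : d1 ≤ t) (ht2 : t ≤ d2)
    (hd1 : α * d1 + β < d1 * L - C - d1 * Real.logb 2 d1 - d1 ^ 2 * q)
    (hd2 : α * d2 + β < d2 * L - C - d2 * Real.logb 2 d2 - d2 ^ 2 * q) :
    α * t + β < t * L - C - t * Real.logb 2 t - t ^ 2 * q := by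
  rcases eq_or_lt_of_le (h1t.trans ht2) with h12 | h12
  · have ht : t = d1 := le_antisymm (by rw [h12]; exact ht2) h1t
    rw [ht]
    exact hd1
  · have hD : 0 < d2 - d1 := sub_pos.2 h12
    obtain ⟨a, b, ha, hb, hab, hta⟩ : ∃ a b : ℝ, 0 ≤ a ∧ 0 ≤ b ∧ a + b = 1 ∧
        t = a * d1 + b * d2 := by
      refine ⟨(d2 - t) / (d2 - d1), (t - d1) / (d2 - d1), div_nonneg (by linarith) hD.le,
        div_nonneg (by linarith) hD.le, ?_, ?_⟩
      · field_simp
        ring
      · field_simp
        ring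
    have hl2 : 0 < Real.log 2 := Real.log_pos one_lt_two
    have hconv := Real.convexOn_mul_log.2 (show d1 ∈ Set.Ici (0 : ℝ) from h1.le)
      (show d2 ∈ Set.Ici (0 : ℝ) from (h1.trans h12).le) ha hb hab
    simp only [smul_eq_mul] at hconv
    rw [← hta] at hconv
    have hlogb : t * Real.logb 2 t ≤ a * (d1 * Real.logb 2 d1) + b * (d2 * Real.logb 2 d2) := by
      have e : ∀ x : ℝ, x * Real.logb 2 x = x * Real.log x / Real.log 2 := fun x => by
        rw [Real.logb, mul_div_assoc]
      rw [e, e, e, ← mul_div_assoc, ← mul_div_assoc, ← add_div]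
      exact div_le_div_of_nonneg_right hconv hl2.le
    have hsq : t ^ 2 ≤ a * d1 ^ 2 + b * d2 ^ 2 := by
      have hb' : b = 1 - a := by linarith
      have h : a * d1 ^ 2 + b * d2 ^ 2 - t ^ 2 = a * b * (d1 - d2) ^ 2 := by
        rw [hta, hb']
        ring
      have : 0 ≤ a * b * (d1 - d2) ^ 2 := by positivity
      linarith
    have hsq' : t ^ 2 * q ≤ (a * d1 ^ 2 + b * d2 ^ 2) * q := mul_le_mul_of_nonneg_right hsq hq
    set A := d1 * L - C - d1 * Real.logb 2 d1 - d1 ^ 2 * q - (α * d1 + β) with hA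
    set B := d2 * L - C - d2 * Real.logb 2 d2 - d2 ^ 2 * q - (α * d2 + β) with hB
    have hA0 : 0 < A := by rw [hA]; linarith
    have hB0 : 0 < B := by rw [hB]; linarith
    have hpos : 0 < a * A + b * B := by
      rcases eq_or_lt_of_le ha with h0 | h0
      · rw [← h0]
        have : b = 1 := by linarith
        rw [this]
        linarith
      · have := mul_pos h0 hA0
        have := mul_nonneg hb hB0.le
        linarith
    have hkey : a * A + b * B ≤
        t * L - C - t * Real.logb 2 t - t ^ 2 * q - (α * t + β) := by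
      have hC : C = a * C + b * C := by rw [← add_mul, hab, one_mul]
      have hβ : β = a * β + b * β := by rw [← add_mul, hab, one_mul]
      have e : a * A + b * B = (a * d1 + b * d2) * L - (a * C + b * C)
          - (a * (d1 * Real.logb 2 d1) + b * (d2 * Real.logb 2 d2))
          - (a * d1 ^ 2 + b * d2 ^ 2) * q - (α * (a * d1 + b * d2) + (a * β + b * β)) := by
        rw [hA, hB]
        ring
      rw [e, ← hta, ← hC, ← hβ]
      linarith
    linarith

end Pool.Agent.IRR
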