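import Pool.Agent.IRR.Defs

/-!
# IRR.LargeA: no profile with `κ ≥ 2^15` and `δ ≥ 1/8` (diff 2)

`w_p ≤ 0` if `e_p = 1`.  If `e_p ≥ 2`: `w2` with `j = 0`: `w_p ≤ (1/δ) p l_p/(p²-1)`, `l_p = log2 p`.  For `p ≥ 13`:
`p/(p²-1) ≤ 13/168`, `p l_p/(p²-1) ≤ (13/336) e_p l_p`.  For `p < 13` each `p l_p/(p²-1)` is
`≤ 3`, there are at most `13` of them.  So `∑ w_p ≤ (1/δ)(39 + (13/336)·2(κ-1))` (`el`), while `energy` with `λ = 0` gives
`∑ w_p ≥ (1-δ)κ - 1 - log2 δ - 1/20 ≥ (1-δ)κ - .05`.  With `1/δ ≤ 8`, `δ ≤ 1/2`: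
`δ(1-δ) ≥ 7/64` on `[1/8,1/2]`, so
`δ((1-δ)κ - .05) ≥ (7/64)κ - .05 > 39 + .0774 κ` as `7/64 = .109` and `κ ≥ 2^15`: contradiction.
-/

namespace Pool.Agent.IRR

theorem large_a {κ δ : ℝ} {S : Finset ℕ} {e : ℕ → ℕ} {w : ℕ → ℝ} (hP : Prof κ δ S e w)
    (hκ : 2 ^ 15 ≤ κ) (hδ : 1 / 8 ≤ δ) : False := by
  have hδ0 := hP.hδ0
  have hδ1 := hP.hδ1
  -- pointwise bound
  have hpt : ∀ p ∈ S, δ * w p ≤ (if p < 13 then (3:ℝ) else 0)
      + 13 / 336 * ((e p : ℝ) * Real.logb 2 p) := by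
    intro p hp
    have hpp := hP.prime p hp
    have hp2 : (2:ℝ) ≤ p := by exact_mod_cast hpp.two_le
    have hl1 : 1 ≤ Real.logb 2 p := by
      rw [Real.le_logb_iff_rpow_le (by norm_num) (by linarith)]
      simpa using hp2
    have he1 : (1:ℝ) ≤ e p := by exact_mod_cast hP.e_pos p hp
    have hel : 0 ≤ (e p : ℝ) * Real.logb 2 p := by positivity
    rcases Nat.lt_or_ge (e p) 2 with he | he
    · have hee : e p = 1 := by
        have := hP.e_pos p hp
        omega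
      have h1 := hP.w1 p hp
      rw [hee] at h1
      have h1' : w p ≤ 0 := by simpa using h1
      have h2 : δ * w p ≤ 0 := mul_nonpos_of_nonneg_of_nonpos hδ0.le h1'
      have h3 : (0:ℝ) ≤ (if p < 13 then (3:ℝ) else 0) := by split_ifs <;> norm_num
      nlinarith
    · have h2 := hP.w2 p hp 0
      have hsq : (0:ℝ) < (p:ℝ) ^ 2 - 1 := by nlinarith
      have h3 : w p ≤ p * Real.logb 2 p / (δ * ((p:ℝ) ^ 2 - 1)) := by simpa using h2
      have h4 : δ * w p ≤ p * Real.logb 2 p / ((p:ℝ) ^ 2 - 1) := by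
        have h5 : δ * w p ≤ δ * (p * Real.logb 2 p / (δ * ((p:ℝ) ^ 2 - 1))) :=
          mul_le_mul_of_nonneg_left h3 hδ0.le
        have h6 : δ * (p * Real.logb 2 p / (δ * ((p:ℝ) ^ 2 - 1)))
            = p * Real.logb 2 p / ((p:ℝ) ^ 2 - 1) := by
          field_simp
        rw [h6] at h5
        exact h5
      have he2 : (2:ℝ) ≤ e p := by exact_mod_cast he
      by_cases h13 : p < 13
      · rw [if_pos h13]
        have hp13 : (p:ℝ) ≤ 16 := by
          have : p ≤ 16 := by omega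
          exact_mod_cast this
        have hl4 : Real.logb 2 p ≤ 4 := by
          rw [Real.logb_le_iff_le_rpow (by norm_num) (by linarith)]
          have : (2:ℝ) ^ (4:ℝ) = 16 := by
            rw [show (4:ℝ) = ((4:ℕ):ℝ) by norm_num, Real.rpow_natCast]
            norm_num
          rw [this]
          exact hp13
        have h7 : p * Real.logb 2 p / ((p:ℝ) ^ 2 - 1) ≤ 3 := by
          rw [div_le_iff₀ hsq]
          nlinarith
        linarith [mul_nonneg (by norm_num : (0:ℝ) ≤ 13 / 336) hel]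
      · rw [if_neg h13]
        have hp13 : (13:ℝ) ≤ p := by
          have : 13 ≤ p := by omega
          exact_mod_cast this
        have h7 : p * Real.logb 2 p / ((p:ℝ) ^ 2 - 1) ≤ 13 / 168 * Real.logb 2 p := by
          rw [div_le_iff₀ hsq]
          have h8 : (p:ℝ) ≤ 13 / 168 * ((p:ℝ) ^ 2 - 1) := by nlinarith
          nlinarith
        have h9 : 13 / 168 * Real.logb 2 p ≤ 13 / 336 * ((e p : ℝ) * Real.logb 2 p) := by
          nlinarith
        linarith
  have hsum : δ * ∑ p ∈ S, w p ≤ 39 + 13 / 336 * (2 * (κ - 1)) := by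
    rw [Finset.mul_sum]
    refine (Finset.sum_le_sum hpt).trans ?_
    rw [Finset.sum_add_distrib, ← Finset.mul_sum]
    have h1 : ∑ p ∈ S, (if p < 13 then (3:ℝ) else 0) ≤ 39 := by
      rw [← Finset.sum_filter, Finset.sum_const, nsmul_eq_mul]
      have hc : (S.filter (fun p => p < 13)).card ≤ 13 := by
        have hsub : S.filter (fun p => p < 13) ⊆ Finset.range 13 := by
          intro q hq
          rw [Finset.mem_filter] at hq
          exact Finset.mem_range.2 hq.2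
        simpa using Finset.card_le_card hsub
      have hc' : ((S.filter (fun p => p < 13)).card : ℝ) ≤ 13 := by exact_mod_cast hc
      linarith
    have h2 := hP.el
    linarith
  have hen := hP.energy 0 le_rfl zero_le_one
  have hen' : κ - 1 - Real.logb 2 δ - δ * κ - 1 / 20 ≤ ∑ p ∈ S, w p := by
    simpa using hen
  have hlog : Real.logb 2 δ ≤ -1 := by
    rw [Real.logb_le_iff_le_rpow (by norm_num) hδ0]
    have : (2:ℝ) ^ (-1:ℝ) = 1 / 2 := by
      rw [Real.rpow_neg_one]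
      norm_num
    rw [this]
    exact hδ1
  have hlow : κ - δ * κ - 1 / 20 ≤ ∑ p ∈ S, w p := by linarith
  have h1 : δ * (κ - δ * κ - 1 / 20) ≤ δ * ∑ p ∈ S, w p :=
    mul_le_mul_of_nonneg_left hlow hδ0.le
  have h2 : 7 / 64 ≤ δ * (1 - δ) := by nlinarith
  have h3 : δ * (κ - δ * κ - 1 / 20) = δ * (1 - δ) * κ - δ / 20 := by ring
  have hκ0 : (0:ℝ) ≤ κ := le_trans (by norm_num) hκ
  have h4 : 7 / 64 * κ ≤ δ * (1 - δ) * κ := mul_le_mul_of_nonneg_right h2 hκ0
  norm_num at hκ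
  linarith

end Pool.Agent.IRR
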