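import Pool.Agent.IRR.PrimeCount

/-!
# IRR.LargeB: no profile with `κ ≥ 2^15` and `δ < 1/8` (diff 3)

`c = log2(1/δ) ≥ 3`, `x = log2 κ ≥ 15`, `l_p = log2 p`, `λ = 1/4`; bound `∑ (w_p - ¼ e_p l_p)`.
`w_p ≤ 0` if `e_p = 1`, so assume `e_p ≥ 2`.
(1) `w_p ≤ c + 1/2`: `w2` with `j` = the largest natural number such that `p^j (1 + 1/p) ≤ 1/δ`
   (`1/δ ≥ 2`); with `T = 1/(δ p^j)`, `1 + 1/p ≤ T < p + 1`:
   `w_p ≤ j l_p + l_p T p/(p²-1) = c + l_p (T p/(p²-1) - log_p T)`, the bracket is convex in `T`, and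
   equal at both ends `T = 1 + 1/p`, `T = p + 1`: `≤ l_p/(p-1) - log2(1+1/p) ≤ 1/2`
   (for `p = 2` it is `1 - log2(3/2) = .415`, `p = 3`: `.378`; in general `l_p/(p-1) ≤ 1/2` for `p ≥ 7`:
   `log2 p ≤ (p-1)/2`; check `5`: `.58 - .263 = .318`).
   A weaker constant than `1/2` is fine as long as (3) holds.
(2) `y = 3κ/x`.  For `p ≥ y`: `w_p ≤ 1 + (κ+1/550)/p ≤ 1 + x/3 + 1/550 ≤ ½ log2 y ≤ ½ l_p ≤ ¼ e_p l_p`
   since `log2 y = x + log2 3 - log2 x` and `x/6 ≥ 1.002 - .792 + ½ log2 x` for `x ≥ 15`.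
   For `p < y`: put `b = c + 1/2`.  If `(e_p-1) l_p ≤ b`: `w_p - ¼ e_p l_p ≤ ¾ (e_p-1) l_p - ¼ l_p ≤ ¾ b - ¼ l_p`;
   otherwise `w_p - ¼ e_p l_p ≤ b - ¼ (b + l_p)`, the same.  So `≤ ¾ b - x/8` for `√κ ≤ p < y`, and
   `≤ ¾ b = (¾ b - x/8) + x/8` for `p < √κ` (`x/8 = ¼ log2 √κ`).
(3) Sum (`card_primes_lt`): `∑ (w_p - ¼ e_p l_p) ≤ (¾ b - x/8)^+ (48 + (8/35) y) + (x/8) (48 + (8/35) √κ)`,
   and by `energy` with `λ = 1/4` it is `≥ ½(κ-1) + c - δκ - 1/20`.
   * `δ < 1/256`: `c ≤ log2(κ + 1/550) ≤ x + .001`: `b ≤ x + .501`, `¾ b - x/8 ≤ .625 x + .376`,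
     `(.625 x + .376)(8/35)(3κ/x) ≤ κ(.4286 + .0172)`; `48 (.625 x + .376) ≤ .0143 κ`,
     `(x/8)(48 + (8/35)√κ) ≤ .0052 κ` (at `κ = 2^15`; the quotients by `κ` decrease): total `≤ .466 κ`;
     but the lower bound is `≥ κ(1/2 - 1/256) - 1 ≥ .495 κ`.
   * `1/256 ≤ δ < 1/8`: `c ≤ 8`, `¾ b - x/8 ≤ 6.375 - 1.875 = 4.5`, `4.5 (8/35)(3κ/x) ≤ .206 κ`,
     `4.5·48 ≤ .0067 κ`, last term `≤ .0052 κ`: `≤ .22 κ`; the lower bound is `≥ κ(1/2 - 1/8) - 1 ≥ .37 κ`.
-/

namespace Pool.Agent.IRR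

theorem LargeB_sq_le (p : ℕ) (hp : 7 ≤ p) : p ^ 2 ≤ 2 ^ (p - 1) := by
  induction p, hp using Nat.le_induction with
  | base => norm_num
  | succ n hn ih =>
    have h1 : 2 ^ (n + 1 - 1) = 2 * 2 ^ (n - 1) := by
      rw [← pow_succ']
      congr 1
      omega
    rw [h1]
    nlinarith

theorem LargeB_key (p : ℕ) (hp : p.Prime) :
    Real.log p / ((p : ℝ) - 1) - Real.log (1 + 1 / (p : ℝ)) ≤ Real.log 2 / 2 := by
  have h2 := hp.two_le
  have hl2 : 0 < Real.log 2 := Real.log_pos (by norm_num)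
  by_cases h7 : 7 ≤ p
  · have h := LargeB_sq_le p h7
    have h' : (p : ℝ) ^ 2 ≤ 2 ^ (p - 1) := by exact_mod_cast h
    have hpos : (7 : ℝ) ≤ p := by exact_mod_cast h7
    have hl : 2 * Real.log p ≤ ((p : ℝ) - 1) * Real.log 2 := by
      have h3 := Real.log_le_log (by positivity) h'
      rw [Real.log_pow, Real.log_pow, Nat.cast_sub (by omega)] at h3
      push_cast at h3
      linarith
    have h4 : Real.log p / ((p : ℝ) - 1) ≤ Real.log 2 / 2 := by
      rw [div_le_iff₀ (by linarith)]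
      linarith
    have h5 : 0 ≤ Real.log (1 + 1 / (p : ℝ)) := by
      apply Real.log_nonneg
      have : 0 < 1 / (p : ℝ) := by positivity
      linarith
    linarith
  · push Not at h7
    interval_cases p
    · have h : Real.log 2 ≤ Real.log ((3 / 2) ^ 2) := Real.log_le_log (by norm_num) (by norm_num)
      rw [Real.log_pow] at h
      push_cast at h ⊢
      norm_num at h ⊢
      linarith
    · have h : Real.log 3 ≤ Real.log (2 * (4 / 3) ^ 2) := Real.log_le_log (by norm_num) (by norm_num)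
      rw [Real.log_mul (by norm_num) (by norm_num), Real.log_pow] at h
      push_cast at h ⊢
      norm_num at h ⊢
      linarith
    · exact absurd hp (by norm_num)
    · have h : Real.log 5 ≤ Real.log (2 ^ 2 * (6 / 5) ^ 4) :=
        Real.log_le_log (by norm_num) (by norm_num)
      rw [Real.log_mul (by norm_num) (by norm_num), Real.log_pow, Real.log_pow] at h
      push_cast at h ⊢
      norm_num at h ⊢
      linarith
    · exact absurd hp (by norm_num)

theorem LargeB_T (p : ℕ) (hp : p.Prime) (T : ℝ) (h1 : 1 + 1 / (p : ℝ) ≤ T) (h2 : T ≤ p + 1) :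
    (p : ℝ) * Real.log p / ((p : ℝ) ^ 2 - 1) * T - Real.log T ≤ Real.log 2 / 2 := by
  have hp2 : (2 : ℝ) ≤ p := by exact_mod_cast hp.two_le
  have hp0 : (0 : ℝ) < p := by linarith
  have hsq : (0 : ℝ) < (p : ℝ) ^ 2 - 1 := by nlinarith
  have hA : (0 : ℝ) < 1 + 1 / (p : ℝ) := by positivity
  have hB : (0 : ℝ) < (p : ℝ) + 1 := by positivity
  have ha0 : (0 : ℝ) ≤ ((p : ℝ) + 1 - T) * (p : ℝ) / ((p : ℝ) ^ 2 - 1) :=
    div_nonneg (mul_nonneg (by linarith) hp0.le) hsq.le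
  have hb0 : (0 : ℝ) ≤ (T - (1 + 1 / (p : ℝ))) * (p : ℝ) / ((p : ℝ) ^ 2 - 1) :=
    div_nonneg (mul_nonneg (by linarith) hp0.le) hsq.le
  have hab : ((p : ℝ) + 1 - T) * (p : ℝ) / ((p : ℝ) ^ 2 - 1)
      + (T - (1 + 1 / (p : ℝ))) * (p : ℝ) / ((p : ℝ) ^ 2 - 1) = 1 := by
    field_simp
    ring
  have hc := strictConcaveOn_log_Ioi.concaveOn.2 (Set.mem_Ioi.2 hA) (Set.mem_Ioi.2 hB)
    ha0 hb0 hab
  have e1 : (((p : ℝ) + 1 - T) * p / ((p : ℝ) ^ 2 - 1)) • (1 + 1 / (p : ℝ))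
      + ((T - (1 + 1 / (p : ℝ))) * p / ((p : ℝ) ^ 2 - 1)) • ((p : ℝ) + 1) = T := by
    simp only [smul_eq_mul]
    field_simp
    ring
  rw [e1] at hc
  simp only [smul_eq_mul] at hc
  have e2 : Real.log ((p : ℝ) + 1) = Real.log p + Real.log (1 + 1 / (p : ℝ)) := by
    rw [← Real.log_mul hp0.ne' hA.ne']
    congr 1
    field_simp
  rw [e2] at hc
  have hk := LargeB_key p hp
  set L := Real.log p
  set A := Real.log (1 + 1 / (p : ℝ))
  have e3 : ((p : ℝ) + 1 - T) * p / ((p : ℝ) ^ 2 - 1) * A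
      + (T - (1 + 1 / (p : ℝ))) * p / ((p : ℝ) ^ 2 - 1) * (L + A)
      = A + (p : ℝ) * L / ((p : ℝ) ^ 2 - 1) * T - L / ((p : ℝ) - 1) := by
    have hm : (p : ℝ) - 1 ≠ 0 := by linarith
    have hsq' : ((p : ℝ) ^ 2 - 1) = ((p : ℝ) - 1) * ((p : ℝ) + 1) := by ring
    rw [hsq']
    field_simp
    ring
  rw [e3] at hc
  linarith

theorem w_le {κ δ : ℝ} {S : Finset ℕ} {e : ℕ → ℕ} {w : ℕ → ℝ} (hP : Prof κ δ S e w)
    {p : ℕ} (hp : p ∈ S) : w p ≤ Real.logb 2 (1 / δ) + 1 / 2 := by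
  have hpr := hP.prime p hp
  have hp2 : (2 : ℝ) ≤ p := by exact_mod_cast hpr.two_le
  have hp0 : (0 : ℝ) < p := by linarith
  have hδ0 := hP.hδ0
  have hδ1 := hP.hδ1
  have hl2 : 0 < Real.log 2 := Real.log_pos (by norm_num)
  have hsq : (0 : ℝ) < (p : ℝ) ^ 2 - 1 := by nlinarith
  have hA : (0 : ℝ) < 1 + 1 / (p : ℝ) := by positivity
  have hr2 : 2 ≤ 1 / δ := by
    rw [le_div_iff₀ hδ0]
    linarith
  have hA2 : 1 + 1 / (p : ℝ) ≤ 2 := by
    have : 1 / (p : ℝ) ≤ 1 / 2 := one_div_le_one_div_of_le (by norm_num) hp2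
    linarith
  obtain ⟨j, hj1, hj2⟩ := exists_nat_pow_near (x := (1 / δ) / (1 + 1 / (p : ℝ))) (y := (p : ℝ))
    (by rw [le_div_iff₀ hA]; linarith) (by linarith)
  have hpj : (0 : ℝ) < (p : ℝ) ^ j := by positivity
  rw [le_div_iff₀ hA] at hj1
  rw [div_lt_iff₀ hA] at hj2
  set T : ℝ := (1 / δ) / (p : ℝ) ^ j with hT
  have hT1 : 1 + 1 / (p : ℝ) ≤ T := by
    rw [hT, le_div_iff₀ hpj]
    linarith
  have hT2 : T ≤ p + 1 := by
    rw [hT, div_le_iff₀ hpj]
    have : (p : ℝ) ^ (j + 1) * (1 + 1 / (p : ℝ)) = ((p : ℝ) + 1) * (p : ℝ) ^ j := by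
      rw [pow_succ]
      field_simp
    linarith
  have hTpos : 0 < T := by linarith
  have h3 := LargeB_T p hpr T hT1 hT2
  have h4 := hP.w2 p hp j
  have e1 : (1 / δ) = T * (p : ℝ) ^ j := by
    rw [hT]
    field_simp
  have e2 : Real.logb 2 (1 / δ) = (Real.log T + j * Real.log p) / Real.log 2 := by
    rw [Real.logb, e1, Real.log_mul hTpos.ne' hpj.ne', Real.log_pow]
  have e3 : (p : ℝ) * Real.logb 2 p / (δ * (((p : ℝ) ^ 2 - 1) * (p : ℝ) ^ j))
      = ((p : ℝ) * Real.log p / ((p : ℝ) ^ 2 - 1) * T) / Real.log 2 := by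
    rw [hT, Real.logb]
    field_simp
  rw [e2]
  rw [e3] at h4
  have e4 : (j : ℝ) * Real.logb 2 p = (j * Real.log p) / Real.log 2 := by
    rw [Real.logb]
    ring
  rw [e4] at h4
  have h5 : ((p : ℝ) * Real.log p / ((p : ℝ) ^ 2 - 1) * T) / Real.log 2
      ≤ (Real.log T + Real.log 2 / 2) / Real.log 2 := by
    apply div_le_div_of_nonneg_right _ hl2.le
    linarith
  have h6 : (Real.log T + Real.log 2 / 2) / Real.log 2 = Real.log T / Real.log 2 + 1 / 2 := by
    field_simp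
  rw [h6] at h5
  rw [add_div]
  linarith

theorem LargeB_logb_le {x : ℝ} (k : ℕ) (hx : 2 ^ k ≤ x) :
    Real.logb 2 x ≤ k + (x / 2 ^ k - 1) * 1.4427 := by
  have h2k : (0 : ℝ) < 2 ^ k := by positivity
  have hx0 : 0 < x := by linarith
  have h1 : Real.log (x / 2 ^ k) ≤ x / 2 ^ k - 1 := Real.log_le_sub_one_of_pos (by positivity)
  rw [Real.log_div hx0.ne' h2k.ne', Real.log_pow] at h1
  have hlog := Real.log_two_gt_d9
  have hl2 : 0 < Real.log 2 := by linarith
  have h3 : 0 ≤ x / 2 ^ k - 1 := by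
    rw [sub_nonneg, le_div_iff₀ h2k]
    linarith
  rw [Real.logb, div_le_iff₀ hl2]
  have h4 : (x / 2 ^ k - 1) * 1 ≤ (x / 2 ^ k - 1) * (1.4427 * Real.log 2) := by
    apply mul_le_mul_of_nonneg_left _ h3
    nlinarith
  nlinarith

theorem large_b {κ δ : ℝ} {S : Finset ℕ} {e : ℕ → ℕ} {w : ℕ → ℝ} (hP : Prof κ δ S e w)
    (hκ : 2 ^ 15 ≤ κ) (hδ : δ < 1 / 8) : False := by
  classical
  have hκ' : (32768 : ℝ) ≤ κ := by
    have : (2 : ℝ) ^ 15 = 32768 := by norm_num
    linarith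
  have hκ0 : 0 < κ := by linarith
  have hδ0 := hP.hδ0
  obtain ⟨x, hx⟩ : ∃ x, x = Real.logb 2 κ := ⟨_, rfl⟩
  obtain ⟨c, hc⟩ : ∃ c, c = Real.logb 2 (1 / δ) := ⟨_, rfl⟩
  have hl2 : 0 < Real.log 2 := Real.log_pos (by norm_num)
  have hx15 : 15 ≤ x := by
    rw [hx, Real.le_logb_iff_rpow_le (by norm_num) hκ0]
    have : (2 : ℝ) ^ (15 : ℝ) = 32768 := by
      rw [show (15 : ℝ) = ((15 : ℕ) : ℝ) by norm_num, Real.rpow_natCast]
      norm_num
    linarith
  have hcδ : Real.logb 2 δ = -c := by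
    rw [hc, one_div, Real.logb_inv]
    ring
  have hc3 : 3 ≤ c := by
    rw [hc, Real.le_logb_iff_rpow_le (by norm_num) (by positivity)]
    have : (2 : ℝ) ^ (3 : ℝ) = 8 := by
      rw [show (3 : ℝ) = ((3 : ℕ) : ℝ) by norm_num, Real.rpow_natCast]
      norm_num
    rw [this, le_div_iff₀ hδ0]
    linarith
  -- square root
  obtain ⟨s, hs⟩ : ∃ s, s = Real.sqrt κ := ⟨_, rfl⟩
  have hs2 : s ^ 2 = κ := by rw [hs, Real.sq_sqrt hκ0.le]
  have hs0 : 0 ≤ s := by rw [hs]; exact Real.sqrt_nonneg _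
  have hs181 : 181 ≤ s := by
    by_contra hh
    push Not at hh
    nlinarith
  have hxs : x = 2 * Real.logb 2 s := by
    rw [hx, ← hs2, Real.logb_pow]
    norm_num
  have hxle : x ≤ 0.084 * s := by
    have h1 := LargeB_logb_le (x := s) 7 (by norm_num; linarith)
    rw [hxs]
    norm_num at h1
    linarith
  obtain ⟨y, hy⟩ : ∃ y, y = 3 * κ / x := ⟨_, rfl⟩
  have hx0 : 0 < x := by linarith
  have hy0 : 0 < y := by rw [hy]; positivity
  obtain ⟨b, hb⟩ : ∃ b, b = c + 1 / 2 := ⟨_, rfl⟩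
  obtain ⟨P, hPdef⟩ : ∃ P, P = max (3 / 4 * b - x / 8) 0 := ⟨_, rfl⟩
  have hP0 : 0 ≤ P := by rw [hPdef]; exact le_max_right _ _
  have hP1 : 3 / 4 * b - x / 8 ≤ P := by rw [hPdef]; exact le_max_left _ _
  -- pointwise bound
  have hpt : ∀ p ∈ S, w p - 1 / 4 * ((e p : ℝ) * Real.logb 2 p)
      ≤ (if (p : ℝ) < y then P else 0) + (if (p : ℝ) < s then x / 8 else 0) := by
    intro p hp
    have hpr := hP.prime p hp
    have hp2 : (2 : ℝ) ≤ p := by exact_mod_cast hpr.two_le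
    have hp0 : (0 : ℝ) < p := by linarith
    have hl0 : 0 ≤ Real.logb 2 p := Real.logb_nonneg (by norm_num) (by linarith)
    have hw1 := hP.w1 p hp
    have hwl := w_le hP hp
    rw [← hc] at hwl
    have hepos : (1 : ℝ) ≤ e p := by exact_mod_cast hP.e_pos p hp
    have hx8 : 0 ≤ (if (p : ℝ) < s then x / 8 else 0) := by
      split_ifs
      · positivity
      · exact le_refl _
    by_cases hpy : (p : ℝ) < y
    · rw [if_pos hpy]
      have hA : w p - 1 / 4 * ((e p : ℝ) * Real.logb 2 p) ≤ 3 / 4 * b - 1 / 4 * Real.logb 2 p := by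
        by_cases hcase : ((e p : ℝ) - 1) * Real.logb 2 p ≤ b
        · nlinarith
        · push Not at hcase
          rw [← hb] at hwl
          nlinarith
      by_cases hps : (p : ℝ) < s
      · rw [if_pos hps]
        linarith
      · rw [if_neg hps]
        push Not at hps
        have h5 : Real.logb 2 s ≤ Real.logb 2 p :=
          Real.logb_le_logb_of_le (by norm_num) (by linarith) hps
        linarith
    · rw [if_neg hpy, zero_add]
      push Not at hpy
      refine le_trans ?_ hx8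
      by_cases he2 : e p = 1
      · rw [he2] at hw1 ⊢
        norm_num at hw1 ⊢
        linarith
      · have he2' : (2 : ℝ) ≤ e p := by
          have h1 := hP.e_pos p hp
          exact_mod_cast (by omega : 2 ≤ e p)
        have hw3 := hP.w3 p hp
        have h6 : (κ + 1 / 550) / p ≤ x / 3 + 1 / 550 := by
          rw [div_le_iff₀ hp0]
          have h7 : 3 * κ ≤ p * x := by
            rw [hy, div_le_iff₀ hx0] at hpy
            linarith
          nlinarith
        have h8 : Real.logb 2 y ≤ Real.logb 2 p :=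
          Real.logb_le_logb_of_le (by norm_num) hy0 hpy
        have h9 : Real.logb 2 y = Real.logb 2 3 + x - Real.logb 2 x := by
          rw [hy, Real.logb_div (by positivity) hx0.ne', Real.logb_mul (by norm_num) hκ0.ne', ← hx]
        have h10 : 3 / 2 ≤ Real.logb 2 3 := by
          have h11 : Real.logb 2 (2 ^ 3) ≤ Real.logb 2 (3 ^ 2) :=
            Real.logb_le_logb_of_le (by norm_num) (by norm_num) (by norm_num)
          rw [Real.logb_pow, Real.logb_pow, Real.logb_self_eq_one (by norm_num)] at h11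
          push_cast at h11
          linarith
        have h12 := LargeB_logb_le (x := x) 3 (by norm_num; linarith)
        norm_num at h12
        have h13 : 1 + (x / 3 + 1 / 550) ≤ 1 / 2 * Real.logb 2 p := by
          rw [h9] at h8
          linarith
        nlinarith
  have hsum := Finset.sum_le_sum hpt
  rw [Finset.sum_add_distrib, Finset.sum_ite, Finset.sum_ite] at hsum
  simp only [Finset.sum_const, nsmul_eq_mul, mul_zero, add_zero] at hsum
  have hcy := card_primes_lt S hP.prime y hy0.le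
  have hcs := card_primes_lt S hP.prime s hs0
  have hen := hP.energy (1 / 4) (by norm_num) (by norm_num)
  rw [hcδ] at hen
  have hb1 : ((S.filter (fun p : ℕ => (p : ℝ) < y)).card : ℝ) * P ≤ (48 + 8 / 35 * y) * P := by
    apply mul_le_mul_of_nonneg_right _ hP0
    convert hcy
  have hb2 : ((S.filter (fun p : ℕ => (p : ℝ) < s)).card : ℝ) * (x / 8)
      ≤ (48 + 8 / 35 * s) * (x / 8) := by
    apply mul_le_mul_of_nonneg_right _ (by positivity)
    convert hcs
  have htot : (1 - 2 * (1 / 4)) * (κ - 1) - -c - δ * κ - 1 / 20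
      ≤ (48 + 8 / 35 * y) * P + (48 + 8 / 35 * s) * (x / 8) := by
    linarith
  have hxs2 : x * s ≤ 0.084 * κ := by nlinarith
  have hyx : y * x = 3 * κ := by rw [hy]; field_simp
  have hyle : y ≤ κ / 5 := by
    rw [hy, div_le_iff₀ hx0]
    nlinarith
  have hsκ : s * 181 ≤ κ := by nlinarith
  by_cases h256 : δ < 1 / 256
  · -- c ≤ x + 0.001
    have hc8 : 8 ≤ c := by
      rw [hc, Real.le_logb_iff_rpow_le (by norm_num) (by positivity)]
      have : (2 : ℝ) ^ (8 : ℝ) = 256 := by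
        rw [show (8 : ℝ) = ((8 : ℕ) : ℝ) by norm_num, Real.rpow_natCast]
        norm_num
      rw [this, le_div_iff₀ hδ0]
      linarith
    have hcx : c ≤ x + 0.001 := by
      have h1 := hP.hδ2
      have h2 : 1 / δ ≤ κ + 1 / 550 := by
        rw [div_le_iff₀ (by linarith)] at h1
        rw [div_le_iff₀ hδ0]
        linarith
      have h3 : c ≤ Real.logb 2 (κ + 1 / 550) := by
        rw [hc]
        exact Real.logb_le_logb_of_le (by norm_num) (by positivity) h2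
      have h4 : Real.logb 2 (κ + 1 / 550) ≤ x + 0.001 := by
        rw [hx, Real.logb, Real.logb, div_add' _ _ _ hl2.ne']
        apply div_le_div_of_nonneg_right _ hl2.le
        have h5 : Real.log ((κ + 1 / 550) / κ) ≤ (κ + 1 / 550) / κ - 1 :=
          Real.log_le_sub_one_of_pos (by positivity)
        rw [Real.log_div (by linarith) hκ0.ne'] at h5
        have h6 : (κ + 1 / 550) / κ - 1 ≤ 0.0001 := by
          rw [sub_le_iff_le_add, div_le_iff₀ hκ0]
          nlinarith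
        have h7 := Real.log_two_gt_d9
        linarith
      linarith
    have hPle : P ≤ 0.625 * x + 0.376 := by
      rw [hPdef]
      apply max_le
      · linarith
      · linarith
    have h1 : (48 + 8 / 35 * y) * P ≤ (48 + 8 / 35 * y) * (0.625 * x + 0.376) :=
      mul_le_mul_of_nonneg_left hPle (by positivity)
    have h2 : (48 + 8 / 35 * y) * (0.625 * x + 0.376)
        = 30 * x + 18.048 + 8 / 35 * 0.625 * (y * x) + 8 / 35 * 0.376 * y := by ring
    rw [h2, hyx] at h1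
    have h3 : δ * κ ≤ 1 / 256 * κ := by nlinarith
    nlinarith
  · push Not at h256
    have hc8 : c ≤ 8 := by
      rw [hc, Real.logb_le_iff_le_rpow (by norm_num) (by positivity)]
      have : (2 : ℝ) ^ (8 : ℝ) = 256 := by
        rw [show (8 : ℝ) = ((8 : ℕ) : ℝ) by norm_num, Real.rpow_natCast]
        norm_num
      rw [this, div_le_iff₀ hδ0]
      linarith
    have hPle : P ≤ 4.5 := by
      rw [hPdef]
      apply max_le
      · linarith
      · norm_num
    have h1 : (48 + 8 / 35 * y) * P ≤ (48 + 8 / 35 * y) * 4.5 :=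
      mul_le_mul_of_nonneg_left hPle (by positivity)
    have h3 : δ * κ ≤ 1 / 8 * κ := by nlinarith
    nlinarith

end Pool.Agent.IRR
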