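import Pool.Agent.IRR.MidC

/-!
# IRR.Mid: no profile with `κ ≤ 2^15` (diff 1-2)

`mid_run`, `box_sound` and the definitions of `tableOK`, `rowOK`: find the row with
`K/1024 ≤ κ ≤ K'/1024` (the first `K` is `14336 = 14·1024`, the last `K'` is `33556480 ≥ 2^25`, see `midTable_last`),
`κ + 1/550 ≤ (K'+2)/1024`; `δ ≥ 1/(κ+1/550) ≥ 1024/(K'+2) ≥ A/10^6` for the initial `A`, (`A ≥ 1`: check, or use that the
boxes of the table have `B ≥ 1` and treat `A = 0` by `decide`: the initial `A`'s are all `≥ 1`),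
`δ ≤ 1/2`; then find the box.  An inductive lemma for `rowOK` and one for `tableOK`; the side conditions (`1 ≤ B ≤ 10^6`,
`1 ≤ A`) on the table by `decide`.
-/

set_option maxRecDepth 100000

namespace Pool.Agent.IRR

/-- side conditions for a table -/
def Mid_good (t : List (ℕ × List (ℕ × ℕ))) : Bool :=
  t.all (fun r => and (Nat.ble r.1 33556480)
    (r.2.all (fun b => and (Nat.ble 1 b.1) (Nat.ble b.1 1000000))))

theorem Mid_good_run : Mid_good midTable = true := by decide +kernel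

theorem Mid_row {κ δ : ℝ} {S : Finset ℕ} {e : ℕ → ℕ} {w : ℕ → ℝ} (hP : Prof κ δ S e w)
    {Ka Kb : ℕ} (hKa : (Ka : ℝ) / 1024 ≤ κ) (hKb : κ + 1 / 550 ≤ (Kb : ℝ) / 1024)
    (row : List (ℕ × ℕ)) : ∀ (A : ℕ), 1 ≤ A → (A : ℝ) / 1000000 < δ →
    (∀ b ∈ row, 1 ≤ b.1 ∧ b.1 ≤ 1000000) → rowOK primeTable Ka Kb A row = true → False := by
  induction row with
  | nil =>
    intro A hA hδ _ h
    rw [rowOK] at h
    have h1 : 500000 ≤ A := Nat.le_of_ble_eq_true h
    have h2 : (500000 : ℝ) ≤ A := by exact_mod_cast h1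
    have h3 := hP.hδ1
    linarith
  | cons b t ih =>
    intro A hA hδ hb h
    obtain ⟨B, lam⟩ := b
    rw [rowOK, Bool.and_eq_true] at h
    have hB := hb (B, lam) (List.mem_cons_self ..)
    by_cases hc : δ ≤ (B : ℝ) / 1000000
    · exact box_sound hP hKa hKb hA hB.1 hB.2 hδ.le hc h.1
    · exact ih B hB.1 (not_le.mp hc) (fun b hb' => hb b (List.mem_cons_of_mem _ hb')) h.2

theorem Mid_table {κ δ : ℝ} {S : Finset ℕ} {e : ℕ → ℕ} {w : ℕ → ℝ} (hP : Prof κ δ S e w)
    (t : List (ℕ × List (ℕ × ℕ))) : ∀ (K : ℕ), (K : ℝ) / 1024 ≤ κ →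
    (∃ r ∈ t, κ ≤ (r.1 : ℝ) / 1024) → Mid_good t = true →
    tableOK primeTable K t = true → False := by
  induction t with
  | nil =>
    rintro K _ ⟨r, hr, _⟩
    exact absurd hr (List.not_mem_nil)
  | cons r t ih =>
    intro K hK hr hg h
    obtain ⟨K', row⟩ := r
    rw [tableOK, Bool.and_eq_true] at h
    rw [Mid_good, List.all_cons, Bool.and_eq_true, Bool.and_eq_true] at hg
    obtain ⟨⟨hg1, hg2⟩, hg3⟩ := hg
    by_cases hc : κ ≤ (K' : ℝ) / 1024
    · have hK' : K' ≤ 33556480 := Nat.le_of_ble_eq_true hg1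
      have hκ := hP.hκ
      have hrow : ∀ b ∈ row, 1 ≤ b.1 ∧ b.1 ≤ 1000000 := by
        intro b hb
        have := (List.all_eq_true.mp hg2) b hb
        rw [Bool.and_eq_true] at this
        exact ⟨Nat.le_of_ble_eq_true this.1, Nat.le_of_ble_eq_true this.2⟩
      refine Mid_row hP hK (Kb := K' + 2) ?_ row _ ?_ ?_ hrow h.1
      · push_cast
        rw [add_div]
        have : (1 : ℝ) / 550 ≤ 2 / 1024 := by norm_num
        linarith
      · rw [Nat.one_le_div_iff (by positivity)]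
        omega
      · have hκpos : (0 : ℝ) < κ + 1 / 550 := by linarith
        have h1 : 1 / (κ + 1 / 550) ≤ δ := hP.hδ2
        have hKpos : (0 : ℝ) < (K' : ℝ) + 2 := by positivity
        have h2 : (1024 : ℝ) / ((K' : ℝ) + 2) ≤ 1 / (κ + 1 / 550) := by
          rw [div_le_div_iff₀ hKpos hκpos]
          have : (1 : ℝ) / 550 ≤ 2 / 1024 := by norm_num
          have h5 : κ * 1024 ≤ K' := by
            rw [le_div_iff₀ (by norm_num)] at hc
            exact hc
          nlinarith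
        have h3 : (((8191 * 1000000 * 1024 / (8192 * (K' + 2)) : ℕ)) : ℝ)
            ≤ (8191 * 1000000 * 1024 : ℝ) / (8192 * ((K' : ℝ) + 2)) := by
          have := @Nat.cast_div_le ℝ _ _ _ (8191 * 1000000 * 1024) (8192 * (K' + 2))
          push_cast at this
          norm_num at this ⊢
          exact this
        have h4 : (8191 * 1000000 * 1024 : ℝ) / (8192 * ((K' : ℝ) + 2))
            = (8191 / 8192 * 1000000) * (1024 / ((K' : ℝ) + 2)) := by
          field_simp
        have h5 : (0 : ℝ) < 1024 / ((K' : ℝ) + 2) := by positivity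
        rw [div_lt_iff₀ (by norm_num)]
        rw [h4] at h3
        nlinarith
    · refine ih K' (not_le.mp hc).le ?_ hg3 h.2
      obtain ⟨r, hr, hr2⟩ := hr
      rcases List.mem_cons.mp hr with rfl | hr
      · exact absurd hr2 hc
      · exact ⟨r, hr, hr2⟩

theorem mid {κ δ : ℝ} {S : Finset ℕ} {e : ℕ → ℕ} {w : ℕ → ℝ} (hP : Prof κ δ S e w)
    (hκ : κ ≤ 2 ^ 15) : False := by
  have hlast := midTable_last
  rw [Option.map_eq_some_iff] at hlast
  obtain ⟨r, hr, hr2⟩ := hlast
  refine Mid_table hP midTable 14336 ?_ ⟨r, List.mem_of_getLast? hr, ?_⟩ Mid_good_run mid_run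
  · have := hP.hκ
    norm_num
    linarith
  · rw [hr2]
    refine hκ.trans ?_
    norm_num

end Pool.Agent.IRR
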