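import Pool.Agent.IRR.Defs

/-!
# IRR.ProfOf: from `Bad` to `Prof` (diff 2)

`N ≥ 8192`, `κ = log2(2N) ≥ 14`, `δ = d/N`, `S = primeFactors (N(N-1))`, `e p = v_p(N(N-1))`,
`w p = V p log2 p / d`.  `dlow` gives `N - 1 ≤ d κ`.  `κ/(N-1) ≤ 14/8191 < 1/550` (`κ/(N-1)` is decreasing in `N`:
e.g. `log2 (2N) ≤ 14 + (N-8192)/(8192 ln 2)`), `κ N/(N-1) = κ + κ/(N-1) ≤ κ + 1/550`, so
`δ ≥ (N-1)/(N κ) ≥ 1/(κ + 1/550)`.  `w3` from `t3`: `1 + N κ/(p(N-1))`.  `w2` from `t2` times `log2 p / d`.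
`el`: `∑ e_p log2 p = log2(N(N-1)) ≤ 2 log2 N = 2(κ-1)`.
`energy`: with `Lg = log2(N(N-1)) = ∑ e_p log2 p`, divide `Bad.energy` by `d`:
`∑ w_p ≥ Lg - (Lg-1)/d - log2 d - dκ/(N-1)`, `log2 d = log2 δ + κ - 1`,
`dκ/(N-1) = δκ + δκ/(N-1)`, so
`∑ (w_p - λ e_p log2 p) ≥ (1-λ) Lg - (κ-1) - log2 δ - δκ - (Lg-1)/d - δκ/(N-1)`, and `Lg ≥ 2(κ-1) - 2/(N-1)`.
The error is `(Lg-1)/d + δκ/(N-1) + (1-λ) 2/(N-1) ≤ (2κ-3)κ/(N-1) + κ/(2(N-1)) + 2/(N-1) ≤ 1/20`
(at `N = 8192` it is `≤ .0438`; decreasing in `N`).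
-/

namespace Pool.Agent.IRR

theorem ProfOf_logb_le {x : ℝ} (hx : 0 < x) : Real.logb 2 x ≤ 3 * (Real.sqrt x - 1) ∨
    Real.sqrt x < 1 := by
  rcases le_or_gt 1 (Real.sqrt x) with h | h
  · left
    have hs : 0 < Real.sqrt x := Real.sqrt_pos.2 hx
    have h1 : Real.log x = 2 * Real.log (Real.sqrt x) := by
      rw [Real.log_sqrt hx.le]
      ring
    have h2 : Real.log (Real.sqrt x) ≤ Real.sqrt x - 1 := Real.log_le_sub_one_of_pos hs
    have hl2 := Real.log_two_gt_d9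
    have hl2' : 0 < Real.log 2 := by linarith
    rw [Real.logb, h1, div_le_iff₀ hl2']
    nlinarith
  · right
    exact h

theorem prof_of_bad {N d : ℕ} {V : ℕ → ℕ} (hN : 8192 ≤ N) (h : Bad N d V) :
    Prof (Real.logb 2 (2 * N)) ((d : ℝ) / N) (N * (N - 1)).primeFactors
      (fun p => padicValNat p (N * (N - 1))) (fun p => (V p : ℝ) * Real.logb 2 p / d) := by
  have hNR : (8192:ℝ) ≤ N := by exact_mod_cast hN
  have hN0 : (0:ℝ) < N := by linarith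
  have hN1 : (0:ℝ) < (N:ℝ) - 1 := by linarith
  have hd1 : (1:ℝ) ≤ d := by exact_mod_cast h.d1
  have hd0 : (0:ℝ) < d := by linarith
  have hd2 : 2 * (d:ℝ) + 2 ≤ N := by exact_mod_cast h.d2
  set κ : ℝ := Real.logb 2 (2 * N) with hκdef
  have hκN : Real.logb 2 N = κ - 1 := by
    rw [hκdef, Real.logb_mul (by norm_num) hN0.ne', Real.logb_self_eq_one (by norm_num)]
    ring
  -- u
  obtain ⟨u, hu1, hu2, hu3⟩ : ∃ u : ℝ, 1 ≤ u ∧ (N:ℝ) = 8192 * u ^ 2 ∧ κ ≤ 11 + 3 * u := by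
    have hx : (0:ℝ) < (N:ℝ) / 8192 := by positivity
    have hx1 : (1:ℝ) ≤ (N:ℝ) / 8192 := by
      rw [le_div_iff₀ (by norm_num)]
      linarith
    refine ⟨Real.sqrt ((N:ℝ) / 8192), ?_, ?_, ?_⟩
    · rw [Real.one_le_sqrt]
      exact hx1
    · rw [Real.sq_sqrt hx.le]
      field_simp
    · have h1 : κ = 14 + Real.logb 2 ((N:ℝ) / 8192) := by
        have h3 : (2:ℝ) * N = 2 ^ (14:ℕ) * ((N:ℝ) / 8192) := by
          norm_num
          ring
        rw [hκdef, h3, Real.logb_mul (by norm_num) hx.ne', Real.logb_pow,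
          Real.logb_self_eq_one (by norm_num)]
        norm_num
      rcases ProfOf_logb_le hx with h2 | h2
      · rw [h1]
        linarith
      · have h3 : (1:ℝ) ≤ Real.sqrt ((N:ℝ) / 8192) := by
          rw [Real.one_le_sqrt]
          exact hx1
        linarith
  have hκ14 : 14 ≤ κ := by
    rw [hκdef, Real.le_logb_iff_rpow_le (by norm_num) (by positivity)]
    rw [show (14:ℝ) = ((14:ℕ):ℝ) by norm_num, Real.rpow_natCast]
    norm_num
    linarith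
  have hκ0 : 0 < κ := by linarith
  -- κ/(N-1) ≤ 1/550
  have hκ550 : κ / ((N:ℝ) - 1) ≤ 1 / 550 := by
    rw [div_le_div_iff₀ hN1 (by norm_num), hu2]
    nlinarith
  have hNκ : (N:ℝ) * κ / ((N:ℝ) - 1) ≤ κ + 1 / 550 := by
    have : (N:ℝ) * κ / ((N:ℝ) - 1) = κ + κ / ((N:ℝ) - 1) := by
      field_simp
      ring
    rw [this]
    linarith
  have herr : ((2 * κ - 3) * κ + κ / 2 + 2) / ((N:ℝ) - 1) ≤ 1 / 20 := by
    rw [div_le_div_iff₀ hN1 (by norm_num), hu2]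
    nlinarith
  -- N - 1 ≤ d κ
  have hdκ : (N:ℝ) - 1 ≤ d * κ := by
    have h1 : ((2:ℝ) ^ (N - 1)) ≤ (2 * (N:ℝ)) ^ d := by exact_mod_cast h.dlow
    have h2 : Real.logb 2 ((2:ℝ) ^ (N - 1)) ≤ Real.logb 2 ((2 * (N:ℝ)) ^ d) :=
      Real.logb_le_logb_of_le (by norm_num) (by positivity) h1
    rw [Real.logb_pow, Real.logb_pow, Real.logb_self_eq_one (by norm_num), mul_one] at h2
    rw [Nat.cast_sub (by omega)] at h2
    simpa using h2
  have hinvd : 1 / (d:ℝ) ≤ κ / ((N:ℝ) - 1) := by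
    rw [div_le_div_iff₀ hd0 hN1]
    linarith
  have hδ0 : 0 < (d:ℝ) / N := by positivity
  have hδhalf : (d:ℝ) / N ≤ 1 / 2 := by
    rw [div_le_div_iff₀ hN0 (by norm_num)]
    linarith
  have hlp : ∀ p ∈ (N * (N - 1)).primeFactors, 0 ≤ Real.logb 2 p := by
    intro p hp
    have hpp := Nat.prime_of_mem_primeFactors hp
    exact Real.logb_nonneg (by norm_num) (by exact_mod_cast hpp.one_le)
  have hpos : N * (N - 1) ≠ 0 := by
    have : N - 1 ≠ 0 := by omega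
    have h0 : N ≠ 0 := by omega
    exact mul_ne_zero h0 this
  have hcast : ((N * (N - 1) : ℕ) : ℝ) = (N:ℝ) * ((N:ℝ) - 1) := by
    rw [Nat.cast_mul, Nat.cast_sub (by omega)]
    norm_num
  -- sum of e_p log2 p
  have hLgsum : ∑ p ∈ (N * (N - 1)).primeFactors,
      (padicValNat p (N * (N - 1)) : ℝ) * Real.logb 2 p = Real.logb 2 ((N:ℝ) * ((N:ℝ) - 1)) := by
    rw [Real.logb, ← hcast, Real.log_nat_eq_sum_factorization, Finsupp.sum,
      Nat.support_factorization, Finset.sum_div]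
    refine Finset.sum_congr rfl ?_
    intro p hp
    have hpp := Nat.prime_of_mem_primeFactors hp
    rw [Nat.factorization_def _ hpp, Real.logb]
    ring
  have hLgexp : Real.logb 2 ((N:ℝ) * ((N:ℝ) - 1)) = κ - 1 + Real.logb 2 ((N:ℝ) - 1) := by
    rw [Real.logb_mul hN0.ne' hN1.ne', hκN]
  have hLgle : Real.logb 2 ((N:ℝ) * ((N:ℝ) - 1)) ≤ 2 * (κ - 1) := by
    have h1 : Real.logb 2 ((N:ℝ) - 1) ≤ Real.logb 2 N :=
      Real.logb_le_logb_of_le (by norm_num) hN1 (by linarith)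
    rw [hLgexp]
    linarith
  have hLgge : 2 * (κ - 1) - 2 / ((N:ℝ) - 1) ≤ Real.logb 2 ((N:ℝ) * ((N:ℝ) - 1)) := by
    rw [hLgexp]
    have h1 : κ - 1 - 2 / ((N:ℝ) - 1) ≤ Real.logb 2 ((N:ℝ) - 1) := by
      rw [← hκN]
      have h2 : Real.logb 2 (N:ℝ) - Real.logb 2 ((N:ℝ) - 1)
          = Real.log ((N:ℝ) / ((N:ℝ) - 1)) / Real.log 2 := by
        rw [Real.log_div hN0.ne' hN1.ne', Real.logb, Real.logb]
        ring
      have h3 : Real.log ((N:ℝ) / ((N:ℝ) - 1)) ≤ (N:ℝ) / ((N:ℝ) - 1) - 1 :=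
        Real.log_le_sub_one_of_pos (by positivity)
      have h4 : (N:ℝ) / ((N:ℝ) - 1) - 1 = 1 / ((N:ℝ) - 1) := by
        field_simp
        ring
      have hl2 := Real.log_two_gt_d9
      have hl2' : 0 < Real.log 2 := by linarith
      have h5 : Real.log ((N:ℝ) / ((N:ℝ) - 1)) / Real.log 2 ≤ 2 / ((N:ℝ) - 1) := by
        rw [div_le_iff₀ hl2']
        rw [h4] at h3
        have h6 : (0:ℝ) < 1 / ((N:ℝ) - 1) := by positivity
        have h7 : 2 / ((N:ℝ) - 1) * Real.log 2 = 1 / ((N:ℝ) - 1) * (2 * Real.log 2) := by ring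
        rw [h7]
        nlinarith
      linarith
    linarith
  refine ⟨hκ14, hδ0, hδhalf, ?_, ?_, ?_, ?_, ?_, ?_, ?_, ?_, ?_⟩
  · -- hδ2
    have h1 : 0 < κ + 1 / 550 := by linarith
    rw [div_le_div_iff₀ h1 hN0]
    have h2 : (N:ℝ) * κ ≤ (κ + 1 / 550) * ((N:ℝ) - 1) := by
      rwa [div_le_iff₀ hN1] at hNκ
    have h3 : (N:ℝ) * κ ≤ (κ + 1 / 550) * (d * κ) :=
      h2.trans (mul_le_mul_of_nonneg_left hdκ h1.le)
    have h4 : (N:ℝ) * κ ≤ (d * (κ + 1 / 550)) * κ := by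
      calc (N:ℝ) * κ ≤ (κ + 1 / 550) * (d * κ) := h3
        _ = (d * (κ + 1 / 550)) * κ := by ring
    have h5 := le_of_mul_le_mul_right h4 hκ0
    linarith
  · -- prime
    intro p hp
    exact Nat.prime_of_mem_primeFactors hp
  · -- e_pos
    intro p hp
    have hpp := Nat.prime_of_mem_primeFactors hp
    have hdvd := Nat.dvd_of_mem_primeFactors hp
    have : Fact p.Prime := ⟨hpp⟩
    exact one_le_padicValNat_of_dvd hpos hdvd
  · -- w0
    intro p hp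
    have := hlp p hp
    positivity
  · -- w1
    intro p hp
    have hpp := Nat.prime_of_mem_primeFactors hp
    have hdvd := Nat.dvd_of_mem_primeFactors hp
    have : Fact p.Prime := ⟨hpp⟩
    have he : 1 ≤ padicValNat p (N * (N - 1)) := one_le_padicValNat_of_dvd hpos hdvd
    have h1 : (V p : ℝ) ≤ ((padicValNat p (N * (N - 1)) : ℝ) - 1) * d := by
      have h2 := h.t1 p hpp hdvd
      have h3 : (V p : ℝ) ≤ (((padicValNat p (N * (N - 1)) - 1) * d : ℕ) : ℝ) := by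
        exact_mod_cast h2
      rw [Nat.cast_mul, Nat.cast_sub he] at h3
      simpa using h3
    have hl := hlp p hp
    show (V p : ℝ) * Real.logb 2 p / d ≤ ((padicValNat p (N * (N - 1)) : ℝ) - 1) * Real.logb 2 p
    rw [div_le_iff₀ hd0]
    nlinarith [mul_le_mul_of_nonneg_right h1 hl]
  · -- w2
    intro p hp j
    have hpp := Nat.prime_of_mem_primeFactors hp
    have hdvd := Nat.dvd_of_mem_primeFactors hp
    have hl := hlp p hp
    have h2 := h.t2 p hpp hdvd j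
    have hp2 : (2:ℝ) ≤ p := by exact_mod_cast hpp.two_le
    have hsq : (0:ℝ) < (p:ℝ) ^ 2 - 1 := by nlinarith
    have hpj : (0:ℝ) < (p:ℝ) ^ j := by positivity
    show (V p : ℝ) * Real.logb 2 p / d ≤ j * Real.logb 2 p
      + p * Real.logb 2 p / ((d:ℝ) / N * (((p : ℝ) ^ 2 - 1) * (p : ℝ) ^ j))
    have h3 : (V p : ℝ) * Real.logb 2 p / d
        ≤ (j * d + N * p / (((p : ℝ) ^ 2 - 1) * (p : ℝ) ^ j)) * Real.logb 2 p / d := by
      apply div_le_div_of_nonneg_right _ hd0.le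
      exact mul_le_mul_of_nonneg_right h2 hl
    refine h3.trans (le_of_eq ?_)
    field_simp
  · -- w3
    intro p hp
    have hpp := Nat.prime_of_mem_primeFactors hp
    have hdvd := Nat.dvd_of_mem_primeFactors hp
    have h2 := h.t3 p hpp hdvd
    have hp2 : (2:ℝ) ≤ p := by exact_mod_cast hpp.two_le
    have hp0 : (0:ℝ) < p := by linarith
    show (V p : ℝ) * Real.logb 2 p / d ≤ 1 + (κ + 1 / 550) / p
    rw [div_le_iff₀ hd0]
    refine h2.trans ?_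
    have h3 : (N:ℝ) * Real.logb 2 (2 * N) / (p * (N - 1)) = (N:ℝ) * κ / ((N:ℝ) - 1) / p := by
      rw [← hκdef]
      field_simp
    rw [h3]
    have h4 : (N:ℝ) * κ / ((N:ℝ) - 1) / p ≤ (κ + 1 / 550) / p :=
      div_le_div_of_nonneg_right hNκ hp0.le
    have h5 : (1 + (κ + 1 / 550) / p) * d = d * (1 + (κ + 1 / 550) / p) := by ring
    rw [h5]
    apply mul_le_mul_of_nonneg_left _ hd0.le
    linarith
  · -- el
    show ∑ p ∈ (N * (N - 1)).primeFactors,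
      ((padicValNat p (N * (N - 1)) : ℕ) : ℝ) * Real.logb 2 p ≤ 2 * (κ - 1)
    rw [hLgsum]
    exact hLgle
  · -- energy
    intro lam hl0 hl1
    show (1 - 2 * lam) * (κ - 1) - Real.logb 2 ((d:ℝ) / N) - (d:ℝ) / N * κ - 1 / 20
      ≤ ∑ p ∈ (N * (N - 1)).primeFactors, ((V p : ℝ) * Real.logb 2 p / d
        - lam * (((padicValNat p (N * (N - 1)) : ℕ) : ℝ) * Real.logb 2 p))
    rw [Finset.sum_sub_distrib, ← Finset.mul_sum, hLgsum, ← Finset.sum_div]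
    set Lg : ℝ := Real.logb 2 ((N:ℝ) * ((N:ℝ) - 1)) with hLgdef
    have hen := h.energy
    have hhalf : Real.logb 2 ((N:ℝ) * ((N:ℝ) - 1) / 2) = Lg - 1 := by
      rw [Real.logb_div (by positivity) (by norm_num), Real.logb_self_eq_one (by norm_num)]
    rw [hhalf, ← hLgdef, ← hκdef] at hen
    have h1 : (d * Lg - (Lg - 1) - d * Real.logb 2 d - (d:ℝ) ^ 2 * κ / ((N:ℝ) - 1)) / d
        ≤ (∑ p ∈ (N * (N - 1)).primeFactors, (V p : ℝ) * Real.logb 2 p) / d :=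
      div_le_div_of_nonneg_right hen hd0.le
    have h2 : (d * Lg - (Lg - 1) - d * Real.logb 2 d - (d:ℝ) ^ 2 * κ / ((N:ℝ) - 1)) / d
        = Lg - (Lg - 1) * (1 / d) - Real.logb 2 d - d * κ / ((N:ℝ) - 1) := by
      field_simp
    have h3 : Real.logb 2 ((d:ℝ) / N) = Real.logb 2 d - (κ - 1) := by
      rw [Real.logb_div hd0.ne' hN0.ne', hκN]
    have h4 : d * κ / ((N:ℝ) - 1) = (d:ℝ) / N * κ + (d:ℝ) / N * (κ / ((N:ℝ) - 1)) := by
      field_simp
      ring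
    rw [h3]
    rw [h2, h4] at h1
    -- errors
    have hLg1 : 0 ≤ Lg - 1 := by
      have : 2 / ((N:ℝ) - 1) ≤ 1 := by
        rw [div_le_iff₀ hN1]
        linarith
      linarith
    have e1 : (Lg - 1) * (1 / d) ≤ (2 * κ - 3) * (κ / ((N:ℝ) - 1)) := by
      have ha : Lg - 1 ≤ 2 * κ - 3 := by linarith
      exact mul_le_mul ha hinvd (by positivity) (by linarith)
    have hκN1 : 0 ≤ κ / ((N:ℝ) - 1) := by positivity
    have e2 : (d:ℝ) / N * (κ / ((N:ℝ) - 1)) ≤ 1 / 2 * (κ / ((N:ℝ) - 1)) :=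
      mul_le_mul_of_nonneg_right hδhalf hκN1
    have e3 : (1 - lam) * (2 * (κ - 1) - 2 / ((N:ℝ) - 1)) ≤ (1 - lam) * Lg :=
      mul_le_mul_of_nonneg_left hLgge (by linarith)
    have e4 : (1 - lam) * (2 / ((N:ℝ) - 1)) ≤ 2 / ((N:ℝ) - 1) := by
      have : 0 < 2 / ((N:ℝ) - 1) := by positivity
      nlinarith
    have e5 : (2 * κ - 3) * (κ / ((N:ℝ) - 1)) + 1 / 2 * (κ / ((N:ℝ) - 1)) + 2 / ((N:ℝ) - 1)
        ≤ 1 / 20 := by
      refine le_trans (le_of_eq ?_) herr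
      field_simp
    nlinarith

end Pool.Agent.IRR
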