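import Pool.Agent.IRR.NumDefs

/-! # IRR: kernel run of the small range, part 1 (generated) -/

set_option maxRecDepth 100000

namespace Pool.Agent.IRR

theorem c32 : rangeOK 6 2048 = true := by decide +kernel
theorem c33 : rangeOK 6 2112 = true := by decide +kernel
theorem c34 : rangeOK 6 2176 = true := by decide +kernel
theorem c35 : rangeOK 6 2240 = true := by decide +kernel
theorem c36 : rangeOK 6 2304 = true := by decide +kernel
theorem c37 : rangeOK 6 2368 = true := by decide +kernel
theorem c38 : rangeOK 6 2432 = true := by decide +kernel
theorem c39 : rangeOK 6 2496 = true := by decide +kernel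
theorem c40 : rangeOK 6 2560 = true := by decide +kernel
theorem c41 : rangeOK 6 2624 = true := by decide +kernel
theorem c42 : rangeOK 6 2688 = true := by decide +kernel
theorem c43 : rangeOK 6 2752 = true := by decide +kernel
theorem c44 : rangeOK 6 2816 = true := by decide +kernel
theorem c45 : rangeOK 6 2880 = true := by decide +kernel
theorem c46 : rangeOK 6 2944 = true := by decide +kernel
theorem c47 : rangeOK 6 3008 = true := by decide +kernel
theorem c48 : rangeOK 6 3072 = true := by decide +kernel
theorem c49 : rangeOK 6 3136 = true := by decide +kernel
theorem c50 : rangeOK 6 3200 = true := by decide +kernel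
theorem c51 : rangeOK 6 3264 = true := by decide +kernel
theorem c52 : rangeOK 6 3328 = true := by decide +kernel
theorem c53 : rangeOK 6 3392 = true := by decide +kernel
theorem c54 : rangeOK 6 3456 = true := by decide +kernel
theorem c55 : rangeOK 6 3520 = true := by decide +kernel
theorem c56 : rangeOK 6 3584 = true := by decide +kernel
theorem c57 : rangeOK 6 3648 = true := by decide +kernel
theorem c58 : rangeOK 6 3712 = true := by decide +kernel
theorem c59 : rangeOK 6 3776 = true := by decide +kernel
theorem c60 : rangeOK 6 3840 = true := by decide +kernel
theorem c61 : rangeOK 6 3904 = true := by decide +kernel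
theorem c62 : rangeOK 6 3968 = true := by decide +kernel
theorem c63 : rangeOK 6 4032 = true := by decide +kernel

end Pool.Agent.IRR
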