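import Pool.Agent.IRR.NumDefs

/-! # IRR: kernel run of the small range, part 2 (generated) -/

set_option maxRecDepth 100000

namespace Pool.Agent.IRR

theorem c64 : rangeOK 6 4096 = true := by decide +kernel
theorem c65 : rangeOK 6 4160 = true := by decide +kernel
theorem c66 : rangeOK 6 4224 = true := by decide +kernel
theorem c67 : rangeOK 6 4288 = true := by decide +kernel
theorem c68 : rangeOK 6 4352 = true := by decide +kernel
theorem c69 : rangeOK 6 4416 = true := by decide +kernel
theorem c70 : rangeOK 6 4480 = true := by decide +kernel
theorem c71 : rangeOK 6 4544 = true := by decide +kernel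
theorem c72 : rangeOK 6 4608 = true := by decide +kernel
theorem c73 : rangeOK 6 4672 = true := by decide +kernel
theorem c74 : rangeOK 6 4736 = true := by decide +kernel
theorem c75 : rangeOK 6 4800 = true := by decide +kernel
theorem c76 : rangeOK 6 4864 = true := by decide +kernel
theorem c77 : rangeOK 6 4928 = true := by decide +kernel
theorem c78 : rangeOK 6 4992 = true := by decide +kernel
theorem c79 : rangeOK 6 5056 = true := by decide +kernel
theorem c80 : rangeOK 6 5120 = true := by decide +kernel
theorem c81 : rangeOK 6 5184 = true := by decide +kernel
theorem c82 : rangeOK 6 5248 = true := by decide +kernel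
theorem c83 : rangeOK 6 5312 = true := by decide +kernel
theorem c84 : rangeOK 6 5376 = true := by decide +kernel
theorem c85 : rangeOK 6 5440 = true := by decide +kernel
theorem c86 : rangeOK 6 5504 = true := by decide +kernel
theorem c87 : rangeOK 6 5568 = true := by decide +kernel
theorem c88 : rangeOK 6 5632 = true := by decide +kernel
theorem c89 : rangeOK 6 5696 = true := by decide +kernel
theorem c90 : rangeOK 6 5760 = true := by decide +kernel
theorem c91 : rangeOK 6 5824 = true := by decide +kernel
theorem c92 : rangeOK 6 5888 = true := by decide +kernel
theorem c93 : rangeOK 6 5952 = true := by decide +kernel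
theorem c94 : rangeOK 6 6016 = true := by decide +kernel
theorem c95 : rangeOK 6 6080 = true := by decide +kernel

end Pool.Agent.IRR
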