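import Pool.Agent.IRR.NumDefs

/-! # IRR: kernel run of the small range, part 3 (generated) -/

set_option maxRecDepth 100000

namespace Pool.Agent.IRR

theorem c96 : rangeOK 6 6144 = true := by decide +kernel
theorem c97 : rangeOK 6 6208 = true := by decide +kernel
theorem c98 : rangeOK 6 6272 = true := by decide +kernel
theorem c99 : rangeOK 6 6336 = true := by decide +kernel
theorem c100 : rangeOK 6 6400 = true := by decide +kernel
theorem c101 : rangeOK 6 6464 = true := by decide +kernel
theorem c102 : rangeOK 6 6528 = true := by decide +kernel
theorem c103 : rangeOK 6 6592 = true := by decide +kernel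
theorem c104 : rangeOK 6 6656 = true := by decide +kernel
theorem c105 : rangeOK 6 6720 = true := by decide +kernel
theorem c106 : rangeOK 6 6784 = true := by decide +kernel
theorem c107 : rangeOK 6 6848 = true := by decide +kernel
theorem c108 : rangeOK 6 6912 = true := by decide +kernel
theorem c109 : rangeOK 6 6976 = true := by decide +kernel
theorem c110 : rangeOK 6 7040 = true := by decide +kernel
theorem c111 : rangeOK 6 7104 = true := by decide +kernel
theorem c112 : rangeOK 6 7168 = true := by decide +kernel
theorem c113 : rangeOK 6 7232 = true := by decide +kernel
theorem c114 : rangeOK 6 7296 = true := by decide +kernel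
theorem c115 : rangeOK 6 7360 = true := by decide +kernel
theorem c116 : rangeOK 6 7424 = true := by decide +kernel
theorem c117 : rangeOK 6 7488 = true := by decide +kernel
theorem c118 : rangeOK 6 7552 = true := by decide +kernel
theorem c119 : rangeOK 6 7616 = true := by decide +kernel
theorem c120 : rangeOK 6 7680 = true := by decide +kernel
theorem c121 : rangeOK 6 7744 = true := by decide +kernel
theorem c122 : rangeOK 6 7808 = true := by decide +kernel
theorem c123 : rangeOK 6 7872 = true := by decide +kernel
theorem c124 : rangeOK 6 7936 = true := by decide +kernel
theorem c125 : rangeOK 6 8000 = true := by decide +kernel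
theorem c126 : rangeOK 6 8064 = true := by decide +kernel
theorem c127 : rangeOK 6 8128 = true := by decide +kernel

end Pool.Agent.IRR
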