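import Pool.Agent.IRR.SmallRun0
import Pool.Agent.IRR.SmallRun1
import Pool.Agent.IRR.SmallRun2
import Pool.Agent.IRR.SmallRun3

/-! # IRR: kernel run of the small range -/

namespace Pool.Agent.IRR

theorem small_run (i : ℕ) (hi : i < 128) : rangeOK 6 (64 * i) = true := by
  interval_cases i
  · exact c0
  · exact c1
  · exact c2
  · exact c3
  · exact c4
  · exact c5
  · exact c6
  · exact c7
  · exact c8
  · exact c9
  · exact c10
  · exact c11
  · exact c12
  · exact c13
  · exact c14
  · exact c15
  · exact c16
  · exact c17
  · exact c18
  · exact c19
  · exact c20
  · exact c21
  · exact c22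
  · exact c23
  · exact c24
  · exact c25
  · exact c26
  · exact c27
  · exact c28
  · exact c29
  · exact c30
  · exact c31
  · exact c32
  · exact c33
  · exact c34
  · exact c35
  · exact c36
  · exact c37
  · exact c38
  · exact c39
  · exact c40
  · exact c41
  · exact c42
  · exact c43
  · exact c44
  · exact c45
  · exact c46
  · exact c47
  · exact c48
  · exact c49
  · exact c50
  · exact c51
  · exact c52
  · exact c53
  · exact c54
  · exact c55
  · exact c56
  · exact c57
  · exact c58
  · exact c59
  · exact c60
  · exact c61
  · exact c62
  · exact c63
  · exact c64
  · exact c65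
  · exact c66
  · exact c67
  · exact c68
  · exact c69
  · exact c70
  · exact c71
  · exact c72
  · exact c73
  · exact c74
  · exact c75
  · exact c76
  · exact c77
  · exact c78
  · exact c79
  · exact c80
  · exact c81
  · exact c82
  · exact c83
  · exact c84
  · exact c85
  · exact c86
  · exact c87
  · exact c88
  · exact c89
  · exact c90
  · exact c91
  · exact c92
  · exact c93
  · exact c94
  · exact c95
  · exact c96
  · exact c97
  · exact c98
  · exact c99
  · exact c100
  · exact c101
  · exact c102
  · exact c103
  · exact c104
  · exact c105
  · exact c106
  · exact c107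
  · exact c108
  · exact c109
  · exact c110
  · exact c111
  · exact c112
  · exact c113
  · exact c114
  · exact c115
  · exact c116
  · exact c117
  · exact c118
  · exact c119
  · exact c120
  · exact c121
  · exact c122
  · exact c123
  · exact c124
  · exact c125
  · exact c126
  · exact c127

end Pool.Agent.IRR
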