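import Pool.Agent.IRR.Approx
import Pool.Agent.IRR.Flow
import Pool.Agent.IRR.SmallRun

/-!
# IRR.Small: no bad profile for `5 ≤ N < 8192`, `N ≠ 8, 9, 10, 25` (diff 3)

Units `1/1024`.  `a = lo N + 1`, `b = lo (N-1) + 1`; `log2(2N) ≤ (1024 + a)/1024`.  `small_run` and the
definition of `rangeOK` give `okN N = true`.
* `d ≥ dmin`: from `Bad.dlow`, `N - 1 ≤ d log2(2N)`; `d ≤ dmax = (N-2)/2`.
* For `p` with `p² ∤ N(N-1)`, `V p = 0` (`t1`); if `p² ∣ N(N-1)` then `p² ∣ N` or `p² ∣ N-1`,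
  `p ≤ 90`, and `(p, lo p + 1, e)` is in `sqs (N(N-1)) smallPrimes []`, `e = v_p(N(N-1)) ≤ 12`.
* For every code `c` there are reals `α, β ≥ 0` (depending on `N,a,p,h,e,c`) with
  `1024 V p log2 p ≤ α d + β` for the actual `d` and `α t + β ≤ bd N a p h e c t` for all naturals `t`:
  `c = 0`: `α = (e-1) h`; `c = 1`: `α = 1024 + N (1024+a)/((N-1)p)` (`t3`); `c = j+2`: `α = j h`,
  `β = N p h/((p²-1)p^j)` (`t2`).
* `flowOK N a b t s`: `s < 1024 (t log2(N(N-1)) - log2(N(N-1)/2) - t log2 t - t² log2(2N)/(N-1))`.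
* `pieceGo` true on `[d1, d2]` (any codes) and `flow_pos` exclude all `d ∈ [d1, d2]`; `pieces` is a
  covering of `[dmin, dmax]` by such pieces.
-/

namespace Pool.Agent.IRR

theorem Small_range (k : ℕ) : ∀ s : ℕ, rangeOK k s = true → ∀ N, s ≤ N → N < s + 2 ^ k →
    5 ≤ N → N ≠ 8 → N ≠ 9 → N ≠ 10 → N ≠ 25 → okN N = true := by
  induction k with
  | zero =>
    intro s h N h1 h2 h5 h8 h9 h10 h25
    have hs : N = s := by simp at h2; omega
    subst hs
    simp only [rangeOK, Bool.or_eq_true, Nat.blt_eq, Nat.beq_eq] at h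
    rcases h with (h | h | h) | h
    · omega
    · omega
    · omega
    · exact h
  | succ k ih =>
    intro s h N h1 h2 h5 h8 h9 h10 h25
    simp only [rangeOK, force_eq, Bool.and_eq_true] at h
    by_cases hN : N < s + 2 ^ k
    · exact ih s h.1 N h1 hN h5 h8 h9 h10 h25
    · refine ih _ h.2 N ?_ ?_ h5 h8 h9 h10 h25
      · show s + 2 ^ k ≤ N
        omega
      · show N < s + 2 ^ k + 2 ^ k
        rw [pow_succ] at h2
        omega

theorem Small_code {N d : ℕ} {V : ℕ → ℕ} (hN : 5 ≤ N) (hN2 : N < 8192) (hB : Bad N d V)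
    (p h e c : ℕ) (hp : p.Prime) (hpN : p ∣ N * (N - 1)) (hp90 : p < 90) (hh : h = lo p + 1)
    (he : e = padicValNat p (N * (N - 1))) :
    ∃ α β : ℝ, 1024 * ((V p : ℝ) * Real.logb 2 p) ≤ α * d + β ∧
      ∀ t : ℕ, α * t + β ≤ (bd N (lo N + 1) p h e c t : ℕ) := by
  have hp2 := hp.two_le
  have hlp := lo_spec (n := p) hp.pos (by omega)
  have hlN := lo_spec (n := N) (by omega) (by omega)
  have hlog0 : 0 ≤ Real.logb 2 p := Real.logb_nonneg (by norm_num) (by exact_mod_cast hp.one_le)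
  have hV0 : (0 : ℝ) ≤ V p := Nat.cast_nonneg _
  have hhR : 1024 * Real.logb 2 p ≤ (h : ℝ) := by
    rw [hh]; push_cast; exact hlp.2.le
  have hNpos : (0 : ℝ) < N := by exact_mod_cast (by omega : 0 < N)
  have hN1pos : (0 : ℝ) < (N : ℝ) - 1 := by
    have : (5 : ℝ) ≤ N := by exact_mod_cast hN
    linarith
  have hppos : (0 : ℝ) < p := by exact_mod_cast hp.pos
  have hlog2N : 1024 * Real.logb 2 (2 * N) ≤ 1024 + ((lo N + 1 : ℕ) : ℝ) := by
    rw [Real.logb_mul (by norm_num) hNpos.ne', Real.logb_self_eq_one (by norm_num)]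
    push_cast
    linarith [hlN.2]
  have hN1cast : ((N - 1 : ℕ) : ℝ) = (N : ℝ) - 1 := by
    rw [Nat.cast_sub (by omega)]; simp
  match c with
  | 0 =>
    refine ⟨((e - 1 : ℕ) : ℝ) * h, 0, ?_, ?_⟩
    · have h1 := hB.t1 p hp hpN
      rw [← he] at h1
      have h1' : (V p : ℝ) ≤ ((e - 1 : ℕ) : ℝ) * d := by exact_mod_cast h1
      calc 1024 * ((V p : ℝ) * Real.logb 2 p) = (V p : ℝ) * (1024 * Real.logb 2 p) := by ring
        _ ≤ (V p : ℝ) * h := mul_le_mul_of_nonneg_left hhR hV0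
        _ ≤ (((e - 1 : ℕ) : ℝ) * d) * h := mul_le_mul_of_nonneg_right h1' (Nat.cast_nonneg _)
        _ = _ := by ring
    · intro t
      simp only [bd]
      push_cast
      apply le_of_eq
      ring
  | 1 =>
    refine ⟨1024 + N * (1024 + ((lo N + 1 : ℕ) : ℝ)) / (((N : ℝ) - 1) * p), 0, ?_, ?_⟩
    · have h3 := hB.t3 p hp hpN
      have hd0 : (0 : ℝ) ≤ d := Nat.cast_nonneg _
      have h4 : N * (1024 * Real.logb 2 (2 * N)) / (((N : ℝ) - 1) * p) ≤
          N * (1024 + ((lo N + 1 : ℕ) : ℝ)) / (((N : ℝ) - 1) * p) := by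
        apply div_le_div_of_nonneg_right _ (by positivity)
        exact mul_le_mul_of_nonneg_left hlog2N hNpos.le
      calc 1024 * ((V p : ℝ) * Real.logb 2 p)
          ≤ 1024 * (d * (1 + N * Real.logb 2 (2 * N) / (p * (N - 1)))) := by linarith
        _ = (1024 + N * (1024 * Real.logb 2 (2 * N)) / (((N : ℝ) - 1) * p)) * d := by
            field_simp
        _ ≤ (1024 + N * (1024 + ((lo N + 1 : ℕ) : ℝ)) / (((N : ℝ) - 1) * p)) * d :=
            mul_le_mul_of_nonneg_right (by linarith) hd0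
        _ = _ := by ring
    · intro t
      simp only [bd]
      have h5 := cdiv_ge (t * N * (1024 + (lo N + 1))) ((N - 1) * p)
        (Nat.mul_pos (by omega) hp.pos)
      push_cast at h5
      rw [hN1cast] at h5
      push_cast
      have h6 : (1024 + (N : ℝ) * (1024 + ((lo N : ℝ) + 1)) / (((N : ℝ) - 1) * p)) * t + 0
          = t * 1024 + t * N * (1024 + ((lo N : ℝ) + 1)) / (((N : ℝ) - 1) * p) := by ring
      rw [h6]
      linarith
  | j + 2 =>
    have hden : (0 : ℝ) < ((p : ℝ) ^ 2 - 1) * (p : ℝ) ^ j := by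
      have : (2 : ℝ) ≤ p := by exact_mod_cast hp2
      have h7 : (0 : ℝ) < (p : ℝ) ^ 2 - 1 := by nlinarith
      positivity
    refine ⟨(j : ℝ) * h, (N : ℝ) * p * h / (((p : ℝ) ^ 2 - 1) * (p : ℝ) ^ j), ?_, ?_⟩
    · have h2 := hB.t2 p hp hpN j
      calc 1024 * ((V p : ℝ) * Real.logb 2 p) = (V p : ℝ) * (1024 * Real.logb 2 p) := by ring
        _ ≤ (V p : ℝ) * h := mul_le_mul_of_nonneg_left hhR hV0
        _ ≤ (j * d + N * p / (((p : ℝ) ^ 2 - 1) * (p : ℝ) ^ j)) * h :=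
            mul_le_mul_of_nonneg_right h2 (Nat.cast_nonneg _)
        _ = _ := by ring
    · intro t
      simp only [bd]
      have hpp : 1 ≤ p * p := Nat.mul_pos hp.pos hp.pos
      have h5 := cdiv_ge (N * p * h) ((p * p - 1) * Nat.pow p j)
        (Nat.mul_pos (by nlinarith [hp2, Nat.sub_add_cancel hpp]) (Nat.pow_pos hp.pos))
      have h8 : (((p * p - 1) * Nat.pow p j : ℕ) : ℝ) = ((p : ℝ) ^ 2 - 1) * (p : ℝ) ^ j := by
        show (((p * p - 1) * p ^ j : ℕ) : ℝ) = _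
        rw [Nat.cast_mul, Nat.cast_sub hpp, Nat.cast_pow]
        push_cast
        ring
      rw [h8] at h5
      push_cast at h5 ⊢
      have h9 : (j : ℝ) * h * t = j * t * h := by ring
      linarith

theorem Small_go {N d : ℕ} {V : ℕ → ℕ} (hN : 5 ≤ N) (hN2 : N < 8192) (hB : Bad N d V)
    (b dm d1 d2 : ℕ) (all1 : Bool) : ∀ (l : List (ℕ × ℕ × ℕ)) (s1 s2 : ℕ),
    (∀ x ∈ l, x.1.Prime ∧ x.1 ∣ N * (N - 1) ∧ x.1 < 90 ∧ x.2.1 = lo x.1 + 1 ∧
      x.2.2 = padicValNat x.1 (N * (N - 1))) →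
    pieceGo N (lo N + 1) b dm d1 d2 all1 l s1 s2 = true →
    ∃ α β : ℝ, ∃ S1 S2 : ℕ, flowOK N (lo N + 1) b d1 S1 = true ∧
      flowOK N (lo N + 1) b d2 S2 = true ∧
      (l.map (fun x => 1024 * ((V x.1 : ℝ) * Real.logb 2 (x.1 : ℕ)))).sum ≤ α * d + β ∧
      (s1 : ℝ) + (α * d1 + β) ≤ S1 ∧ (s2 : ℝ) + (α * d2 + β) ≤ S2 := by
  intro l
  induction l with
  | nil =>
    intro s1 s2 _ h
    simp only [pieceGo, Bool.and_eq_true] at h
    exact ⟨0, 0, s1, s2, h.1, h.2, by simp, by simp, by simp⟩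
  | cons x l ih =>
    obtain ⟨p, h, e⟩ := x
    intro s1 s2 hx hgo
    simp only [pieceGo, force_eq] at hgo
    obtain ⟨α', β', S1, S2, hf1, hf2, hsum, hs1, hs2⟩ :=
      ih _ _ (fun x hx' => hx x (List.mem_cons_of_mem _ hx')) hgo
    obtain ⟨hp, hpN, hp90, hh, he⟩ := hx (p, h, e) List.mem_cons_self
    simp only at hp hpN hp90 hh he
    obtain ⟨α, β, h1, h2⟩ := Small_code hN hN2 hB p h e
      (code all1 N (lo N + 1) p h e dm) hp hpN hp90 hh he
    refine ⟨α + α', β + β', S1, S2, hf1, hf2, ?_, ?_, ?_⟩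
    · rw [List.map_cons, List.sum_cons]
      simp only
      linarith
    · have h3 := h2 d1
      rw [Nat.cast_add] at hs1
      linarith
    · have h3 := h2 d2
      rw [Nat.cast_add] at hs2
      linarith

theorem Small_flow {N t S : ℕ} (hN : 5 ≤ N) (hN2 : N < 8192) (ht : 1 ≤ t) (ht2 : t < 8192)
    (h : flowOK N (lo N + 1) (lo (N - 1) + 1) t S = true) :
    (S : ℝ) < 1024 * (t * Real.logb 2 (N * (N - 1)) - Real.logb 2 (N * (N - 1) / 2)
      - t * Real.logb 2 t - (t : ℝ) ^ 2 * (Real.logb 2 (2 * N) / (N - 1))) := by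
  have hlN := lo_spec (n := N) (by omega) (by omega)
  have hlN1 := lo_spec (n := N - 1) (by omega) (by omega)
  have hlt := lo_spec (n := t) (by omega) (by omega)
  have hNpos : (0 : ℝ) < N := by exact_mod_cast (by omega : 0 < N)
  have hN1pos : (0 : ℝ) < (N : ℝ) - 1 := by
    have : (5 : ℝ) ≤ N := by exact_mod_cast hN
    linarith
  have hN1cast : ((N - 1 : ℕ) : ℝ) = (N : ℝ) - 1 := by
    rw [Nat.cast_sub (by omega)]; simp
  have hlog2N : 1024 * Real.logb 2 (2 * N) ≤ 1024 + ((lo N : ℝ) + 1) := by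
    rw [Real.logb_mul (by norm_num) hNpos.ne', Real.logb_self_eq_one (by norm_num)]
    linarith [hlN.2]
  have hLsplit : Real.logb 2 (N * (N - 1)) = Real.logb 2 N + Real.logb 2 ((N : ℝ) - 1) :=
    Real.logb_mul hNpos.ne' hN1pos.ne'
  have hC : Real.logb 2 (N * (N - 1) / 2) = Real.logb 2 (N * (N - 1)) - 1 := by
    rw [Real.logb_div (mul_pos hNpos hN1pos).ne' (by norm_num), Real.logb_self_eq_one (by norm_num)]
  rw [hN1cast] at hlN1
  have hL : (lo N : ℝ) + lo (N - 1) ≤ 1024 * Real.logb 2 (N * (N - 1)) := by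
    rw [hLsplit]
    linarith [hlN.1, hlN1.1]
  have htR : (1 : ℝ) ≤ t := by exact_mod_cast ht
  have h1 : ((t : ℝ) - 1) * ((lo N : ℝ) + lo (N - 1)) ≤
      ((t : ℝ) - 1) * (1024 * Real.logb 2 (N * (N - 1))) :=
    mul_le_mul_of_nonneg_left hL (by linarith)
  have h2 : (t : ℝ) * (1024 * Real.logb 2 t) ≤ t * (lo t + 1) :=
    mul_le_mul_of_nonneg_left hlt.2.le (by linarith)
  have h3 := cdiv_ge (t * t * (1024 + (lo N + 1))) (N - 1) (by omega)
  rw [hN1cast] at h3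
  have h4 : (t : ℝ) ^ 2 * (1024 * Real.logb 2 (2 * N)) / (N - 1) ≤
      ((t * t * (1024 + (lo N + 1)) : ℕ) : ℝ) / (N - 1) := by
    apply div_le_div_of_nonneg_right _ hN1pos.le
    push_cast
    have := mul_le_mul_of_nonneg_left hlog2N (by positivity : (0 : ℝ) ≤ (t : ℝ) ^ 2)
    linarith
  simp only [flowOK, Nat.blt_eq] at h
  have hR : ((S + (lo N + 1 + (lo (N - 1) + 1)) + cdiv (t * t * (1024 + (lo N + 1))) (N - 1)
      + t * (lo t + 1) + 2 * t : ℕ) : ℝ) < ((t * (lo N + 1 + (lo (N - 1) + 1)) + 1024 : ℕ) : ℝ) := by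
    exact_mod_cast h
  push_cast at hR h3 h4
  rw [hC]
  have h5 : (t : ℝ) ^ 2 * (1024 * Real.logb 2 (2 * N)) / (N - 1)
      = 1024 * ((t : ℝ) ^ 2 * (Real.logb 2 (2 * N) / (N - 1))) := by ring
  rw [h5] at h4
  nlinarith [h1, h2, h3, h4, hR]

theorem Small_list {N : ℕ} (hN : 5 ≤ N) (hN2 : N < 8192) :
    ∀ x ∈ sqs (N * (N - 1)) smallPrimes [], x.1.Prime ∧ x.1 ∣ N * (N - 1) ∧ x.1 < 90 ∧
      x.2.1 = lo x.1 + 1 ∧ x.2.2 = padicValNat x.1 (N * (N - 1)) := by
  intro x hx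
  obtain ⟨p, h, e⟩ := x
  have hNN : 0 < N * (N - 1) := Nat.mul_pos (by omega) (by omega)
  rw [mem_sqs hNN] at hx
  obtain ⟨h1, h2, h3⟩ := hx
  obtain ⟨hp, hp90, hh⟩ := smallPrimes_spec _ h1
  simp only at hp hp90 hh
  refine ⟨hp, dvd_trans (dvd_pow_self p (by norm_num)) h2, hp90, hh, ?_⟩
  simp only
  rw [h3]
  apply vpf_eq hp hNN
  have : Fact p.Prime := ⟨hp⟩
  rw [padicValNat.mul (by omega) (by omega)]
  have hcop : Nat.Coprime N (N - 1) := by
    have h4 : N = (N - 1) + 1 := by omega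
    conv_lhs => rw [h4]
    simp
  have hb : ∀ k, k ≠ 0 → k < 8192 → padicValNat p k ≤ 12 := by
    intro k hk hk2
    by_contra hcon
    push Not at hcon
    have h5 : p ^ 13 ∣ k := (padicValNat_dvd_iff_le hk).2 hcon
    have h6 := Nat.le_of_dvd (Nat.pos_of_ne_zero hk) h5
    have h7 : 2 ^ 13 ≤ p ^ 13 := Nat.pow_le_pow_left hp.two_le 13
    norm_num at h7
    omega
  have h5 : padicValNat p N = 0 ∨ padicValNat p (N - 1) = 0 := by
    by_contra hcon
    push Not at hcon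
    have h6 : p ∣ N := dvd_of_one_le_padicValNat (by omega)
    have h7 : p ∣ N - 1 := dvd_of_one_le_padicValNat (by omega)
    exact hp.one_lt.ne' (Nat.dvd_one.1 (hcop ▸ Nat.dvd_gcd h6 h7))
  have := hb N (by omega) hN2
  have := hb (N - 1) (by omega) (by omega)
  omega

theorem Small_sum {N d : ℕ} {V : ℕ → ℕ} (hN : 5 ≤ N) (hN2 : N < 8192) (hB : Bad N d V) :
    1024 * ∑ p ∈ (N * (N - 1)).primeFactors, (V p : ℝ) * Real.logb 2 p ≤
      ((sqs (N * (N - 1)) smallPrimes []).map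
        (fun x => 1024 * ((V x.1 : ℝ) * Real.logb 2 (x.1 : ℕ)))).sum := by
  classical
  have hNN : 0 < N * (N - 1) := Nat.mul_pos (by omega) (by omega)
  set l := sqs (N * (N - 1)) smallPrimes [] with hl
  have hnd : (l.map Prod.fst).Nodup := nodup_sqs _
  set F : ℕ → ℝ := fun p => 1024 * ((V p : ℝ) * Real.logb 2 p) with hF
  have h1 : (l.map (fun x => 1024 * ((V x.1 : ℝ) * Real.logb 2 (x.1 : ℕ)))).sum
      = ∑ p ∈ (l.map Prod.fst).toFinset, F p := by
    rw [List.sum_toFinset F hnd, List.map_map]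
    rfl
  rw [h1, Finset.mul_sum]
  have h2 : ∑ p ∈ (N * (N - 1)).primeFactors, F p =
      ∑ p ∈ (N * (N - 1)).primeFactors.filter (fun p => F p ≠ 0), F p :=
    (Finset.sum_filter_ne_zero _).symm
  show ∑ p ∈ (N * (N - 1)).primeFactors, F p ≤ _
  rw [h2]
  apply Finset.sum_le_sum_of_subset_of_nonneg
  · intro p hp
    rw [Finset.mem_filter] at hp
    obtain ⟨hp1, hp2⟩ := hp
    have hpp : p.Prime := Nat.prime_of_mem_primeFactors hp1
    have hpd : p ∣ N * (N - 1) := Nat.dvd_of_mem_primeFactors hp1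
    have : Fact p.Prime := ⟨hpp⟩
    have h3 : 2 ≤ padicValNat p (N * (N - 1)) := by
      by_contra hcon
      have h4 := hB.t1 p hpp hpd
      have h5 : padicValNat p (N * (N - 1)) - 1 = 0 := by omega
      rw [h5, zero_mul] at h4
      have h6 : V p = 0 := by omega
      apply hp2
      simp [hF, h6]
    have h4 : p ^ 2 ∣ N * (N - 1) := (padicValNat_dvd_iff_le hNN.ne').2 h3
    have hcop : Nat.Coprime N (N - 1) := by
      have h4 : N = (N - 1) + 1 := by omega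
      conv_lhs => rw [h4]
      simp
    have h5 : p ^ 2 ∣ N ∨ p ^ 2 ∣ N - 1 := by
      have hpw : IsPrimePow (p ^ 2) := (Nat.Prime.isPrimePow hpp).pow two_ne_zero
      exact (Nat.Coprime.isPrimePow_dvd_mul hcop hpw).1 h4
    have h6 : p ^ 2 < 8192 := by
      rcases h5 with h5 | h5
      · exact lt_of_le_of_lt (Nat.le_of_dvd (by omega) h5) hN2
      · have := Nat.le_of_dvd (by omega) h5
        omega
    have h7 : p ≤ 90 := by nlinarith
    rw [List.mem_toFinset, List.mem_map]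
    refine ⟨(p, lo p + 1, vpf 14 p (N * (N - 1))), ?_, rfl⟩
    rw [hl, mem_sqs hNN]
    exact ⟨smallPrimes_complete p hpp h7, h4, rfl⟩
  · intro p hp _
    rw [List.mem_toFinset, List.mem_map] at hp
    obtain ⟨x, hx, rfl⟩ := hp
    have hp := (Small_list hN hN2 x hx).1
    have : 0 ≤ Real.logb 2 (x.1 : ℕ) := Real.logb_nonneg (by norm_num) (by exact_mod_cast hp.one_le)
    show 0 ≤ 1024 * ((V x.1 : ℝ) * Real.logb 2 (x.1 : ℕ))
    positivity

theorem Small_piece {N d : ℕ} {V : ℕ → ℕ} (hN : 5 ≤ N) (hN2 : N < 8192) (hB : Bad N d V)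
    {dm d1 d2 : ℕ} {all1 : Bool} (h1 : 1 ≤ d1) (h1d : d1 ≤ d) (hd2 : d ≤ d2) (hd3 : d2 < 8192)
    (h : pieceGo N (lo N + 1) (lo (N - 1) + 1) dm d1 d2 all1
      (sqs (N * (N - 1)) smallPrimes []) 0 0 = true) : False := by
  obtain ⟨α, β, S1, S2, hf1, hf2, hsum, hs1, hs2⟩ :=
    Small_go hN hN2 hB (lo (N - 1) + 1) dm d1 d2 all1 _ 0 0 (Small_list hN hN2) h
  have hS := le_trans (Small_sum hN hN2 hB) hsum
  have hNpos : (0 : ℝ) < N := by exact_mod_cast (by omega : 0 < N)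
  have hN1pos : (0 : ℝ) < (N : ℝ) - 1 := by
    have : (5 : ℝ) ≤ N := by exact_mod_cast hN
    linarith
  have hF1 := Small_flow hN hN2 h1 (by omega) hf1
  have hF2 := Small_flow hN hN2 (by omega) hd3 hf2
  have hq : 0 ≤ Real.logb 2 (2 * N) / ((N : ℝ) - 1) := by
    apply div_nonneg _ hN1pos.le
    apply Real.logb_nonneg (by norm_num)
    have : (5 : ℝ) ≤ N := by exact_mod_cast hN
    linarith
  have hflow := flow_pos (L := Real.logb 2 (N * (N - 1))) (C := Real.logb 2 (N * (N - 1) / 2))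
    (q := Real.logb 2 (2 * N) / ((N : ℝ) - 1)) (α := α / 1024) (β := β / 1024)
    (d1 := (d1 : ℝ)) (d2 := (d2 : ℝ)) (t := (d : ℝ)) hq (by exact_mod_cast h1)
    (by exact_mod_cast h1d) (by exact_mod_cast hd2)
    (by push_cast at hs1; linarith) (by push_cast at hs2; linarith)
  have hen := hB.energy
  have h2 : (d : ℝ) ^ 2 * Real.logb 2 (2 * N) / (N - 1) =
      (d : ℝ) ^ 2 * (Real.logb 2 (2 * N) / (N - 1)) := by ring
  rw [h2] at hen
  linarith

theorem Small_pieces {N d : ℕ} {V : ℕ → ℕ} (hN : 5 ≤ N) (hN2 : N < 8192) (hB : Bad N d V)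
    (k : ℕ) : ∀ d1 d2 : ℕ, 1 ≤ d1 → d1 ≤ d → d ≤ d2 → d2 < 8192 →
    pieces N (lo N + 1) (lo (N - 1) + 1) (sqs (N * (N - 1)) smallPrimes []) k d1 d2 = true →
    False := by
  induction k with
  | zero =>
    intro d1 d2 _ _ _ _ h
    simp [pieces] at h
  | succ k ih =>
    intro d1 d2 h1 h2 h3 h4 h
    simp only [pieces, force_eq, Bool.or_eq_true, Bool.and_eq_true, Nat.blt_eq] at h
    rcases h with h | ⟨h5, h6, h7⟩
    · exact Small_piece hN hN2 hB h1 h2 h3 h4 h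
    · by_cases h8 : d ≤ (2 * d1 + d2) / 3
      · exact ih d1 _ h1 h2 h8 (by omega) h6
      · exact ih _ d2 (by omega) (by omega) h3 h4 h7

theorem small {N d : ℕ} {V : ℕ → ℕ} (hN : 5 ≤ N) (hN2 : N < 8192) (h8 : N ≠ 8) (h9 : N ≠ 9)
    (h10 : N ≠ 10) (h25 : N ≠ 25) : ¬ Bad N d V := by
  intro hB
  have hok : okN N = true := by
    refine Small_range 6 (64 * (N / 64)) (small_run (N / 64) ?_) N ?_ ?_ hN h8 h9 h10 h25
    · omega
    · omega
    · norm_num
      omega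
  have hd1 := hB.d1
  have hd2 := hB.d2
  have hNpos : (0 : ℝ) < N := by exact_mod_cast (by omega : 0 < N)
  have hlN := lo_spec (n := N) (by omega) (by omega)
  have hmin : (N - 1) * 1024 ≤ d * (1024 + (lo N + 1)) := by
    have h1 := hB.dlow
    have h2 : (2 : ℝ) ^ (N - 1) ≤ (2 * N) ^ d := by exact_mod_cast h1
    have h3 := Real.logb_le_logb_of_le (b := 2) (by norm_num) (by positivity) h2
    rw [Real.logb_pow, Real.logb_pow, Real.logb_self_eq_one (by norm_num),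
      Real.logb_mul (by norm_num) hNpos.ne', Real.logb_self_eq_one (by norm_num)] at h3
    have hd0 : (0 : ℝ) ≤ d := Nat.cast_nonneg _
    have h4 : (d : ℝ) * (1024 * Real.logb 2 N) ≤ d * (lo N + 1) :=
      mul_le_mul_of_nonneg_left hlN.2.le hd0
    have h5 : (((N - 1) * 1024 : ℕ) : ℝ) ≤ ((d * (1024 + (lo N + 1)) : ℕ) : ℝ) := by
      rw [Nat.cast_mul]
      push_cast
      linarith
    exact_mod_cast h5
  have hcd : cdiv ((N - 1) * 1024) (1024 + (lo N + 1)) ≤ d := by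
    unfold cdiv
    rw [Nat.div_le_iff_le_mul (by omega)]
    omega
  have hdm : max 1 (cdiv ((N - 1) * 1024) (1024 + (lo N + 1))) ≤ d := max_le hd1 hcd
  have hdM : d ≤ (N - 2) / 2 := by omega
  simp only [okN, force_eq, Bool.or_eq_true, Nat.blt_eq] at hok
  rcases hok with h | h | h
  · omega
  · exact Small_piece hN hN2 hB (le_max_left _ _) hdm hdM (by omega) h
  · exact Small_pieces hN hN2 hB 8 _ _ (le_max_left _ _) hdm hdM (by omega) h

end Pool.Agent.IRR
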