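import Pool.Agent.IRR.ArchRoots

/-!
# IRR.Special: `N = 4, 8, 9, 10, 25` (diff 2)

`a(0) b(0) = N-1`, `|a(0)|, |b(0)| ≥ 2` (`two_le_eval_zero` for `h` and `h.symm`), and
`a_0 b_1 + a_1 b_0 = N-2` (`g_coeff_one`) so `a(0)`, `b(0)` are coprime; so `N-1` is not a prime power:
excludes `4, 8, 9, 10`.  `N = 25`: `{|a(0)|,|b(0)|} = {3, 8}`; modulo `5`,
`(X-1)^2 g = X^25 - 25 X + 24 = X^25 - 1 = (X-1)^25`, so `g = (X-1)^23`, `a = (X-1)^deg a` mod `5`
(unique factorisation in `ZMod 5[X]`, `a` monic), `a(0) = ±1` mod `5`, but `±3` is not.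
-/

namespace Pool.Agent.IRR

open Polynomial

variable {N : ℕ} {a b : ℤ[X]}

lemma Special_mul (h : Factn N a b) : a.coeff 0 * b.coeff 0 = (N : ℤ) - 1 := by
  have := h.hN
  rw [← mul_coeff_zero, h.hab, g_coeff_zero N (by omega)]

lemma Special_one (h : Factn N a b) : a.coeff 0 * b.coeff 1 + a.coeff 1 * b.coeff 0 = (N : ℤ) - 2 := by
  have := h.hN
  rw [← mul_coeff_one, h.hab, g_coeff_one N (by omega)]

lemma Special_cop (h : Factn N a b) (q : ℤ) (h1 : q ∣ a.coeff 0) (h2 : q ∣ b.coeff 0) : q ∣ 1 := by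
  have e1 : q ∣ (N : ℤ) - 1 := by
    rw [← Special_mul h]; exact Dvd.dvd.mul_right h1 _
  have e2 : q ∣ (N : ℤ) - 2 := by
    rw [← Special_one h]; exact dvd_add (Dvd.dvd.mul_right h1 _) (Dvd.dvd.mul_left h2 _)
  have e3 := dvd_sub e1 e2
  have e4 : ((N : ℤ) - 1) - ((N : ℤ) - 2) = 1 := by ring
  rwa [e4] at e3

lemma Special_a (h : Factn N a b) : 2 ≤ |a.coeff 0| := by
  rw [coeff_zero_eq_eval_zero]; exact two_le_eval_zero h

lemma Special_nat (h : Factn N a b) : (a.coeff 0).natAbs * (b.coeff 0).natAbs = N - 1 ∧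
    2 ≤ (a.coeff 0).natAbs ∧ 2 ≤ (b.coeff 0).natAbs ∧
    (a.coeff 0).natAbs.Coprime (b.coeff 0).natAbs := by
  have hN := h.hN
  refine ⟨?_, ?_, ?_, ?_⟩
  · rw [← Int.natAbs_mul, Special_mul h]
    omega
  · have := Special_a h
    rw [Int.abs_eq_natAbs] at this
    exact_mod_cast this
  · have := Special_a h.symm
    rw [Int.abs_eq_natAbs] at this
    exact_mod_cast this
  · rw [Nat.coprime_iff_gcd_eq_one]
    have h1 := Special_cop h ((a.coeff 0).natAbs.gcd (b.coeff 0).natAbs : ℕ)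
      (Int.natCast_dvd.2 (Nat.gcd_dvd_left _ _)) (Int.natCast_dvd.2 (Nat.gcd_dvd_right _ _))
    exact Nat.dvd_one.1 (by exact_mod_cast h1)

lemma Special_25 (h : Factn 25 a b) : (5 : ℤ) ∣ a.coeff 0 ^ 2 - 1 := by
  have : Fact (Nat.Prime 5) := ⟨by norm_num⟩
  set φ := Int.castRingHom (ZMod 5) with hφ
  have hf := congrArg (fun q : ℤ[X] => q.map φ) (f_eq 25 (by norm_num))
  rw [← h.hab] at hf
  have e1 : (f 25).map φ = (X - 1 : (ZMod 5)[X]) ^ 25 := by
    have e2 : (X - 1 : (ZMod 5)[X]) ^ 5 ^ 2 = X ^ 5 ^ 2 - 1 ^ 5 ^ 2 :=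
      sub_pow_char_pow (R := (ZMod 5)[X]) (p := 5) X 1 2
    rw [one_pow] at e2
    have e3 : (25 : ℕ) = 5 ^ 2 := by norm_num
    have h25 : φ ((25 : ℕ) : ℤ) = 0 := by
      rw [hφ, eq_intCast]
      exact (ZMod.intCast_zmod_eq_zero_iff_dvd _ 5).2 (by norm_num)
    have h24 : φ (((25 : ℕ) : ℤ) - 1) = -1 := by
      rw [map_sub, h25, map_one, zero_sub]
    rw [f]
    simp only [Polynomial.map_add, Polynomial.map_sub, Polynomial.map_mul, Polynomial.map_pow,
      map_X, map_C]
    rw [h25, h24]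
    simp only [map_neg, map_one, map_zero, zero_mul, sub_zero]
    rw [e3, e2]
    ring
  simp only [Polynomial.map_mul, Polynomial.map_pow, Polynomial.map_sub, map_X,
    Polynomial.map_one] at hf
  rw [e1] at hf
  have hdvd : a.map φ ∣ (X - 1 : (ZMod 5)[X]) ^ 25 := by
    rw [← hf]
    exact Dvd.dvd.mul_left (dvd_mul_right _ _) _
  have hprime : Prime (X - 1 : (ZMod 5)[X]) := by
    have := Polynomial.prime_X_sub_C (1 : ZMod 5)
    rwa [map_one] at this
  obtain ⟨i, _, hi⟩ := (dvd_prime_pow hprime 25).1 hdvd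
  have hm1 : (a.map φ).Monic := h.ha.map φ
  have hm2 : ((X - 1 : (ZMod 5)[X]) ^ i).Monic := by
    have := (Polynomial.monic_X_sub_C (1 : ZMod 5)).pow i
    rwa [map_one] at this
  have heq := eq_of_monic_of_associated hm1 hm2 hi
  have h0 := congrArg (fun q : (ZMod 5)[X] => q.coeff 0) heq
  simp only [coeff_map] at h0
  rw [coeff_zero_eq_eval_zero ((X - 1) ^ i)] at h0
  simp only [eval_pow, eval_sub, eval_X, eval_one, zero_sub] at h0
  have h1 : ((a.coeff 0 ^ 2 - 1 : ℤ) : ZMod 5) = 0 := by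
    push_cast
    have : ((a.coeff 0 : ℤ) : ZMod 5) = (-1) ^ i := h0
    rw [this, ← pow_mul, mul_comm, pow_mul]
    simp
  exact (ZMod.intCast_zmod_eq_zero_iff_dvd _ 5).1 h1

theorem special (h : Factn N a b) : N ≠ 4 ∧ N ≠ 8 ∧ N ≠ 9 ∧ N ≠ 10 ∧ N ≠ 25 := by
  obtain ⟨h1, h2, h3, h4⟩ := Special_nat h
  set A := (a.coeff 0).natAbs with hA
  set B := (b.coeff 0).natAbs with hB
  have hAle : A * 2 ≤ N - 1 := by rw [← h1]; exact Nat.mul_le_mul_left _ h3
  refine ⟨?_, ?_, ?_, ?_, ?_⟩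
  · rintro rfl
    omega
  · rintro rfl
    have : A ≤ 3 := by omega
    interval_cases A <;> omega
  · rintro rfl
    have : A ≤ 4 := by omega
    interval_cases A
    · have : B = 4 := by omega
      rw [this] at h4
      revert h4; decide
    · omega
    · have : B = 2 := by omega
      rw [this] at h4
      revert h4; decide
  · rintro rfl
    have : A ≤ 4 := by omega
    interval_cases A
    · omega
    · have : B = 3 := by omega
      rw [this] at h4
      revert h4; decide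
    · omega
  · rintro rfl
    have h5 := Special_25 h
    have h6 : (a.coeff 0) ^ 2 = (A : ℤ) ^ 2 := by
      rw [hA]; simp
    rw [h6] at h5
    have : A ≤ 12 := by omega
    clear_value A B
    interval_cases A
    · revert h5; decide
    · revert h5; decide
    · have : B = 6 := by omega
      rw [this] at h4
      revert h4; decide
    · omega
    · have : B = 4 := by omega
      rw [this] at h4
      revert h4; decide
    · omega
    · revert h5; decide
    · omega
    · omega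
    · omega
    · revert h5; decide

end Pool.Agent.IRR
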