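import Pool.Agent.IRR.Exist
import Pool.Agent.IRR.Combine
import Pool.Agent.IRR.Special
import Pool.Agent.IRR.Small
import Pool.Agent.IRR.ProfOf
import Pool.Agent.IRR.Mid
import Pool.Agent.IRR.LargeA
import Pool.Agent.IRR.LargeB

/-!
# IRR.Main: assembly
-/

namespace Pool.Agent.IRR

open Polynomial

theorem not_factn {N : ℕ} {a b : ℤ[X]} (h : Factn N a b) (hab : a.natDegree ≤ b.natDegree) :
    False := by
  have hs := special h
  have hB := bad_of_factn h hab
  have hN := h.hN
  by_cases h1 : N < 8192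
  · exact small (by omega) h1 hs.2.1 hs.2.2.1 hs.2.2.2.1 hs.2.2.2.2 hB
  · have hP := prof_of_bad (by omega) hB
    by_cases h2 : Real.logb 2 (2 * N) ≤ 2 ^ 15
    · exact mid hP h2
    · push_neg at h2
      by_cases h3 : (1 : ℝ) / 8 ≤ (a.natDegree : ℝ) / N
      · exact large_a hP h2.le h3
      · push_neg at h3
        exact large_b hP h2.le h3

theorem irreducible_P {n : ℕ} (hn : 3 ≤ n) : Irreducible ((P n).map (Int.castRingHom ℚ)) := by
  by_contra h
  obtain ⟨a, b, hF, hab⟩ := exists_factn n hn h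
  exact not_factn hF hab

end Pool.Agent.IRR
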