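import Pool.Agent.IRR.NumDefs

/-!
# IRR.MidA: soundness of `bval` and `rho` (diff 2)

Real inequalities.  Units `1/1024` for logs, `b`, `h`; `l = 1024 log2 p`, `h - 1 ≤ l ≤ h` (`h ≥ 1`).
* `bval_sound`: induction on the fuel in `bmin`: if `x ≤ b` and `x ≤ j l + p l 10^6/((p²-1) p^j A)` for all `j`,
  then `x ≤ bmin ...` (`pj = p^j`, `A ≥ 1`).
* `rho_sound`: for every `e' ≥ e ≥ 1`: `100 min((e'-1) l, b) - lam e' l ≤ rho h b lam k e r`, and `r ≤ rho ...`.
  If `b ≤ (e-1)(h-1)` then for `e' ≥ e` the left side is `≤ 100 b - lam e' l`, decreasing.  Note that natural subtraction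
  is used in `rho` (`0` if negative; so the values are `≥` the real ones).
-/

namespace Pool.Agent.IRR

theorem MidA_cdiv_ge (a b : ℕ) (hb : 0 < b) : (a : ℝ) / b ≤ cdiv a b := by
  have h1 : a ≤ b * cdiv a b := by
    have h2 := Nat.lt_mul_div_succ (a + b - 1) hb
    have h3 : b * ((a + b - 1) / b + 1) = b * cdiv a b + b := by
      unfold cdiv
      ring
    rw [h3] at h2
    omega
  rw [div_le_iff₀ (by exact_mod_cast hb)]
  have h4 : (a : ℝ) ≤ ((b * cdiv a b : ℕ) : ℝ) := by exact_mod_cast h1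
  rw [Nat.cast_mul] at h4
  linarith

theorem MidA_bmin {p h A : ℕ} {x l : ℝ} (hp : 2 ≤ p) (hA : 1 ≤ A) (hl : l ≤ h)
    (hx : ∀ j : ℕ, x ≤ j * l + p * l * 1000000 / (((p : ℝ) ^ 2 - 1) * (p : ℝ) ^ j * A)) :
    ∀ (k j b : ℕ), x ≤ b → x ≤ bmin p h A k j (p ^ j) b := by
  intro k
  induction k with
  | zero =>
    intro j b hb
    exact hb
  | succ k ih =>
    intro j b hb
    rw [bmin, force_eq, force_eq]
    cases hc : Nat.ble b (j * h) with
    | true => exact hb
    | false =>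
      show x ≤ bmin p h A k (j + 1) (p ^ j * p) _
      rw [← pow_succ]
      apply ih
      rw [Nat.cast_min]
      apply le_min hb
      refine (hx j).trans ?_
      rw [Nat.cast_add, Nat.cast_mul]
      have hpp : 4 ≤ p * p := Nat.mul_le_mul hp hp
      have hpos : 0 < (p * p - 1) * p ^ j * A := by
        apply Nat.mul_pos (Nat.mul_pos (by omega) (pow_pos (by omega) j)) (by omega)
      have h1 := MidA_cdiv_ge (p * h * 1000000) ((p * p - 1) * p ^ j * A) hpos
      refine add_le_add ?_ (le_trans ?_ h1)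
      · exact mul_le_mul_of_nonneg_left hl (Nat.cast_nonneg j)
      · have h2 : (((p * p - 1) * p ^ j * A : ℕ) : ℝ) = ((p : ℝ) ^ 2 - 1) * (p : ℝ) ^ j * A := by
          rw [Nat.cast_mul, Nat.cast_mul, Nat.cast_sub (by omega), Nat.cast_mul, Nat.cast_pow,
            Nat.cast_one, pow_two]
        rw [h2]
        have h3 : (0 : ℝ) < ((p : ℝ) ^ 2 - 1) * (p : ℝ) ^ j * A := by
          rw [← h2]
          exact_mod_cast hpos
        apply div_le_div_of_nonneg_right _ h3.le
        push_cast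
        apply mul_le_mul_of_nonneg_right _ (by norm_num)
        exact mul_le_mul_of_nonneg_left hl (Nat.cast_nonneg p)

theorem bval_sound {p h Kb A : ℕ} {x l : ℝ} (hp : 2 ≤ p) (hA : 1 ≤ A) (hl0 : 0 ≤ l)
    (hl : l ≤ h) (hx0 : x ≤ 1024 + (Kb : ℝ) / p)
    (hx : ∀ j : ℕ, x ≤ j * l + p * l * 1000000 / (((p : ℝ) ^ 2 - 1) * (p : ℝ) ^ j * A)) :
    x ≤ bval p h Kb A := by
  have h1 := MidA_bmin hp hA hl hx 40 0 (1024 + cdiv Kb p) (by
    have := MidA_cdiv_ge Kb p (by omega)
    push_cast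
    linarith)
  rw [pow_zero] at h1
  exact h1

theorem MidA_step {h b lam e : ℕ} {l : ℝ} (hl : l ≤ h) (hl1 : (h : ℝ) - 1 ≤ l) (hh : 1 ≤ h)
    (he : 1 ≤ e) :
    100 * min (((e : ℝ) - 1) * l) b - lam * e * l ≤
      ((100 * min ((e - 1) * h) b - lam * e * (h - 1) : ℕ) : ℝ) := by
  have h1 : ((100 * min ((e - 1) * h) b : ℕ) : ℝ) ≤
      ((100 * min ((e - 1) * h) b - lam * e * (h - 1) : ℕ) : ℝ) + ((lam * e * (h - 1) : ℕ) : ℝ) := by
    exact_mod_cast (le_tsub_add : 100 * min ((e - 1) * h) b ≤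
      100 * min ((e - 1) * h) b - lam * e * (h - 1) + lam * e * (h - 1))
  have h2 : ((lam * e * (h - 1) : ℕ) : ℝ) ≤ lam * e * l := by
    push_cast [Nat.cast_sub hh]
    apply mul_le_mul_of_nonneg_left hl1
    positivity
  have h3 : 100 * min (((e : ℝ) - 1) * l) b ≤ ((100 * min ((e - 1) * h) b : ℕ) : ℝ) := by
    push_cast [Nat.cast_sub he]
    apply mul_le_mul_of_nonneg_left _ (by norm_num)
    apply min_le_min_right
    apply mul_le_mul_of_nonneg_left hl
    have : (1 : ℝ) ≤ e := by exact_mod_cast he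
    linarith
  linarith

theorem rho_sound {h b lam k e r : ℕ} {l : ℝ} (hl : l ≤ h) (hl1 : (h : ℝ) - 1 ≤ l) (hh : 1 ≤ h)
    (he : 1 ≤ e) {e' : ℕ} (he' : e ≤ e') :
    100 * min (((e' : ℝ) - 1) * l) b - lam * e' * l ≤ rho h b lam k e r ∧
      (r : ℝ) ≤ rho h b lam k e r := by
  have hh' : (1 : ℝ) ≤ h := by exact_mod_cast hh
  have hl0 : 0 ≤ l := by linarith
  have hb1 : ∀ e' : ℕ, 100 * min (((e' : ℝ) - 1) * l) b ≤ 100 * b := fun e' =>
    mul_le_mul_of_nonneg_left (min_le_right _ _) (by norm_num)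
  induction k generalizing e r e' with
  | zero =>
    rw [rho, Nat.cast_max]
    refine ⟨le_max_of_le_right ?_, le_max_left _ _⟩
    have h1 : (0 : ℝ) ≤ lam * e' * l := by positivity
    have h2 := hb1 e'
    push_cast
    linarith
  | succ k ih =>
    rw [rho, force_eq]
    set r' := max r (100 * min ((e - 1) * h) b - lam * e * (h - 1)) with hr'
    have hr1 : (r : ℝ) ≤ r' := by exact_mod_cast le_max_left _ _
    have hr2 : ((100 * min ((e - 1) * h) b - lam * e * (h - 1) : ℕ) : ℝ) ≤ r' := by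
      exact_mod_cast le_max_right _ _
    have h0 := MidA_step (b := b) (lam := lam) hl hl1 hh he
    cases hc : Nat.ble b ((e - 1) * (h - 1)) with
    | true =>
      show _ ≤ (r' : ℝ) ∧ _ ≤ (r' : ℝ)
      refine ⟨?_, hr1⟩
      have hb : b ≤ (e - 1) * (h - 1) := Nat.le_of_ble_eq_true hc
      have he1 : (1 : ℝ) ≤ e := by exact_mod_cast he
      have hb2 : (b : ℝ) ≤ ((e : ℝ) - 1) * l := by
        have h3 : (b : ℝ) ≤ (((e - 1) * (h - 1) : ℕ) : ℝ) := by exact_mod_cast hb
        push_cast [Nat.cast_sub hh, Nat.cast_sub he] at h3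
        refine h3.trans ?_
        apply mul_le_mul_of_nonneg_left hl1
        linarith
      rw [min_eq_right hb2] at h0
      have h4 : (lam : ℝ) * e * l ≤ lam * e' * l := by
        apply mul_le_mul_of_nonneg_right _ hl0
        apply mul_le_mul_of_nonneg_left _ (Nat.cast_nonneg lam)
        exact_mod_cast he'
      have h5 := hb1 e'
      linarith
    | false =>
      show _ ≤ ((rho h b lam k (e + 1) r' : ℕ) : ℝ) ∧ _ ≤ ((rho h b lam k (e + 1) r' : ℕ) : ℝ)
      have h6 := (ih (e := e + 1) (r := r') (by omega) (e' := e + 1) le_rfl).2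
      refine ⟨?_, hr1.trans h6⟩
      rcases Nat.eq_or_lt_of_le he' with h7 | h7
      · subst h7
        linarith
      · exact (ih (e := e + 1) (r := r') (by omega) (e' := e') h7).1

end Pool.Agent.IRR
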