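import Pool.Agent.IRR.MidRun
import Pool.Agent.IRR.Approx

/-!
# IRR.MidB: facts on the prime table (diff 2)

From `gaps_run`, `head_run`, `logs_run`, `last_run`, `primeTable_length`.  `gapsOK Q a t`: `t` is strictly increasing,
starts above `a`, and all `m > a` not in `t` and below the last entry have `gcd(m, Q89) > 1`;
if moreover `m > 89` then `m` is composite (`m` has a prime factor `≤ 89`).
For primes `≤ 89` use `head_run`.
-/

set_option maxRecDepth 100000

namespace Pool.Agent.IRR

theorem MidB_logsOK : ∀ t : List (ℕ × ℕ), logsOK t = true → ∀ x ∈ t, x.2 = lo x.1 + 1 := by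
  intro t
  induction t with
  | nil => intro _ x hx; simp at hx
  | cons y t ih =>
    obtain ⟨p, h⟩ := y
    intro h0 x hx
    rw [logsOK, Bool.and_eq_true, Nat.beq_eq] at h0
    rw [List.mem_cons] at hx
    rcases hx with rfl | hx
    · exact h0.1.symm
    · exact ih h0.2 x hx

theorem MidB_bounds : ∀ x ∈ primeTable, 2 ≤ x.1 ∧ x.1 < 8000 := by decide +kernel

theorem table_log (x : ℕ × ℕ) (hx : x ∈ primeTable) : 2 ≤ x.1 ∧ x.1 < 8000 ∧ x.2 = lo x.1 + 1 := by
  refine ⟨(MidB_bounds x hx).1, (MidB_bounds x hx).2, ?_⟩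
  obtain ⟨i, hi, hix⟩ := List.mem_iff_getElem.mp hx
  have hi' : i < 992 := by
    have := primeTable_length
    omega
  have h1 := logs_run (i / 64) (by omega)
  apply MidB_logsOK _ h1
  rw [List.mem_iff_getElem]
  have hlen : i % 64 < ((primeTable.drop (64 * (i / 64))).take 64).length := by
    rw [List.length_take, List.length_drop, primeTable_length]
    omega
  refine ⟨i % 64, hlen, ?_⟩
  rw [List.getElem_take, List.getElem_drop]
  rw [← hix]
  congr 1
  omega

theorem table_sorted : (primeTable.map Prod.fst).Pairwise (· < ·) := by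
  have h : (primeTable.map Prod.fst).IsChain (· < ·) := by decide +kernel
  exact List.isChain_iff_pairwise.mp h

theorem MidB_comp (Q : ℕ) : ∀ k m : ℕ, compOK Q k m = true → ∀ j, m ≤ j → j < m + k →
    1 < Nat.gcd j Q := by
  intro k
  induction k with
  | zero => intro m _ j h1 h2; omega
  | succ k ih =>
    intro m h j h1 h2
    rw [compOK, Bool.and_eq_true, force_eq, Nat.blt_eq] at h
    rcases Nat.eq_or_lt_of_le h1 with rfl | h3
    · exact h.1
    · exact ih (m + 1) h.2 j h3 (by omega)

theorem MidB_Q89 {q : ℕ} (hq : q.Prime) (h : q ∣ Q89) : q ≤ 89 := by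
  unfold Q89 at h
  simp only [hq.dvd_mul] at h
  rcases h with ((((((((((((((((((((((h | h) | h) | h) | h) | h) | h) | h) | h) | h) | h) | h) | h) |
    h) | h) | h) | h) | h) | h) | h) | h) | h) | h) | h <;>
  exact (Nat.le_of_dvd (by norm_num) h).trans (by norm_num)

theorem MidB_gaps : ∀ (t : List (ℕ × ℕ)) (a : ℕ), gapsOK Q89 a t = true → 89 ≤ a → ∀ q : ℕ,
    q.Prime → a < q → (∃ x ∈ t, q ≤ x.1) → ∃ x ∈ t, x.1 = q := by
  intro t
  induction t with
  | nil =>
    intro a _ _ q _ _ h
    obtain ⟨x, hx, _⟩ := h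
    simp at hx
  | cons y t ih =>
    obtain ⟨p, h⟩ := y
    intro a h0 ha q hq haq hx
    rw [gapsOK, Bool.and_eq_true, Bool.and_eq_true, Nat.blt_eq] at h0
    obtain ⟨⟨h1, h2⟩, h3⟩ := h0
    rcases lt_trichotomy q p with hlt | rfl | hgt
    · exfalso
      have h4 := MidB_comp Q89 _ _ h2 q haq (by omega)
      have h5 : q ∣ Q89 := by
        by_contra hcon
        have := (Nat.Prime.coprime_iff_not_dvd hq).mpr hcon
        rw [Nat.Coprime] at this
        omega
      have := MidB_Q89 hq h5
      omega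
    · exact ⟨(q, h), List.mem_cons_self, rfl⟩
    · obtain ⟨x, hx1, hx2⟩ := hx
      rw [List.mem_cons] at hx1
      rcases hx1 with rfl | hx1
      · exact absurd hgt (not_lt.mpr hx2)
      · obtain ⟨z, hz, hzq⟩ := ih p h3 (by omega) q hq hgt ⟨x, hx1, hx2⟩
        exact ⟨z, List.mem_cons_of_mem _ hz, hzq⟩

theorem table_complete (q : ℕ) (hq : q.Prime) (h : q ≤ 7853) : (q, lo q + 1) ∈ primeTable := by
  by_cases h89 : q ≤ 89
  · have key : ∀ q < 90, q.Prime → (q, lo q + 1) ∈ primeTable := by decide +kernel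
    exact key q (by omega) hq
  · have hlast : ((7853, 13250) : ℕ × ℕ) ∈ primeTable.drop 24 := by decide +kernel
    obtain ⟨x, hx, hxq⟩ := MidB_gaps _ 89 gaps_run le_rfl q hq (by omega) ⟨_, hlast, h⟩
    have hx' : x ∈ primeTable := List.mem_of_mem_drop hx
    have hl := (table_log x hx').2.2
    rw [hxq] at hl
    have : x = (q, lo q + 1) := Prod.ext hxq hl
    rw [← this]
    exact hx'

end Pool.Agent.IRR
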