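import Pool.Agent.IRR.MidA
import Pool.Agent.IRR.MidB

/-!
# IRR.MidC: soundness of `boxOK` (diff 3)

Assume `Prof κ δ S e w`, `Ka/1024 ≤ κ`, `κ + 1/550 ≤ Kb/1024`, `A/10^6 ≤ δ ≤ B/10^6`, `1 ≤ A`, `1 ≤ B ≤ 10^6`, and
`boxOK primeTable Ka Kb A B lam = true`.  Let `λ = lam/100`, `l_p = log2 p`.
Claim `∑_{p∈S} (w_p - λ e_p l_p) ≤ R/102400`, where `R` is the accumulated sum of `rho` over the table entries before
the cut-off: for `p ∈ S` in the table before the cut-off, `1024 w_p ≤ bval p h Kb A` (`w2`, `w3`, `bval_sound`; `δ ≥ A/10^6`) and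
`w_p ≤ (e_p-1) l_p` (so `e_p = 1` gives `w_p - λ e_p l_p ≤ 0`; for `e_p ≥ 2` use `rho_sound`).
For `p ∈ S` not before the cut-off (`p ≥` the cut-off prime `p0`, since the table is
sorted and complete, `MidB`; `p` may be beyond the table): `100 (1024 p0 + Kb) ≤ 2 lam lo(p0) p0` gives
`1 + (κ+1/550)/p ≤ 2 λ l_p` for `p = p0` and then for `p ≥ p0` (left side decreasing, right side increasing), so
`w_p ≤ 2 λ l_p ≤ λ e_p l_p` if `e_p ≥ 2`, and `w_p ≤ 0` if `e_p = 1`.
Then `Prof.energy` for `λ` (`λ ≤ 1/2` by the first test): `(1-2λ)(κ-1) - log2 δ - δκ - 1/20 ≤ R/102400`;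
the left side is `≥` the value with `κ = Ka/1024`, `δ = B/10^6` (coefficient of `κ`: `1 - 2λ - δ ≥ 0`), and
`T` in `boxOK` is `102400·10^6` times a lower bound for it (`lo`), `boxOK` says `R·10^6 < T`.
(If the natural subtraction in `T` is truncated, `T = 0` and the test fails.)
-/

namespace Pool.Agent.IRR

theorem MidC_split (Kb A lam T : ℕ) : ∀ (tbl : List (ℕ × ℕ)) (acc : ℕ),
    rhoSum Kb A lam T tbl acc = true → ∃ (pre : List (ℕ × ℕ)) (p0 h0 : ℕ) (post : List (ℕ × ℕ)),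
      tbl = pre ++ (p0, h0) :: post ∧
      100 * (1024 * p0 + Kb) ≤ 2 * lam * (h0 - 1) * p0 ∧
      (acc + (pre.map (fun x => rho x.2 (bval x.1 x.2 Kb A) lam 60 2 0)).sum) * 1000000 < T := by
  intro tbl
  induction tbl with
  | nil =>
    intro acc h
    exact absurd h (by rw [rhoSum]; exact Bool.false_ne_true)
  | cons x t ih =>
    intro acc h
    obtain ⟨p, hh⟩ := x
    rw [rhoSum] at h
    cases hc : Nat.ble (100 * (1024 * p + Kb)) (2 * lam * (hh - 1) * p) with
    | true =>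
      rw [hc] at h
      refine ⟨[], p, hh, t, rfl, Nat.le_of_ble_eq_true hc, ?_⟩
      rw [List.map_nil, List.sum_nil, add_zero]
      exact Nat.le_of_ble_eq_true h
    | false =>
      rw [hc, force_eq, force_eq] at h
      obtain ⟨pre, p0, h0, post, rfl, h1, h2⟩ := ih _ h
      refine ⟨(p, hh) :: pre, p0, h0, post, rfl, h1, ?_⟩
      rw [List.map_cons, List.sum_cons, ← add_assoc]
      exact h2

/-- one prime before the cut-off -/
theorem MidC_pre {κ δ : ℝ} {S : Finset ℕ} {e : ℕ → ℕ} {w : ℕ → ℝ} (hP : Prof κ δ S e w)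
    {Kb A lam : ℕ} (hKb : κ + 1 / 550 ≤ (Kb : ℝ) / 1024)
    (hA : 1 ≤ A) (hδA : (A : ℝ) / 1000000 ≤ δ) {p : ℕ} (hp : p ∈ S) (hp2 : p < 8000) :
    100 * (1024 * w p) - lam * e p * (1024 * Real.logb 2 p) ≤
      rho (lo p + 1) (bval p (lo p + 1) Kb A) lam 60 2 0 := by
  have hprime := hP.prime p hp
  have hlo := lo_spec (n := p) hprime.pos (lt_trans hp2 (by norm_num))
  have he := hP.e_pos p hp
  have hw1 := hP.w1 p hp
  set L := Real.logb 2 p with hL
  have hL0 : 0 < L := Real.logb_pos (by norm_num) (by exact_mod_cast hprime.one_lt)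
  have hl : 1024 * L ≤ ((lo p + 1 : ℕ) : ℝ) := by
    push_cast
    exact hlo.2.le
  have hl1 : ((lo p + 1 : ℕ) : ℝ) - 1 ≤ 1024 * L := by
    push_cast
    linarith [hlo.1]
  have hpR : (2 : ℝ) ≤ p := by exact_mod_cast hprime.two_le
  have hAR : (1 : ℝ) ≤ A := by exact_mod_cast hA
  have hδ0 : 0 < δ := hP.hδ0
  rcases Nat.eq_or_lt_of_le he with h1 | h1
  · have hw : w p ≤ 0 := by
      rw [← h1] at hw1
      simpa using hw1
    have h2 : (0 : ℝ) ≤ lam * e p * (1024 * L) := by positivity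
    have h3 : (0 : ℝ) ≤ ((rho (lo p + 1) (bval p (lo p + 1) Kb A) lam 60 2 0 : ℕ) : ℝ) :=
      Nat.cast_nonneg _
    linarith
  · have hb : 1024 * w p ≤ ((bval p (lo p + 1) Kb A : ℕ) : ℝ) := by
      apply bval_sound (l := 1024 * L) hprime.two_le hA (by positivity) hl
      · have h3 := hP.w3 p hp
        have h4 : (κ + 1 / 550) / (p : ℝ) ≤ (Kb : ℝ) / 1024 / p :=
          div_le_div_of_nonneg_right hKb (by linarith)
        have h5 : (Kb : ℝ) / p = 1024 * ((Kb : ℝ) / 1024 / p) := by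
          field_simp
        rw [h5]
        linarith
      · intro j
        have h3 := hP.w2 p hp j
        have hpj : (0 : ℝ) < (p : ℝ) ^ j := by positivity
        have hp2 : (0 : ℝ) < (p : ℝ) ^ 2 - 1 := by nlinarith
        have hc : (0 : ℝ) < ((p : ℝ) ^ 2 - 1) * (p : ℝ) ^ j := mul_pos hp2 hpj
        have h4 : (p : ℝ) * L / (δ * (((p : ℝ) ^ 2 - 1) * (p : ℝ) ^ j)) ≤
            (p : ℝ) * L / ((A : ℝ) / 1000000 * (((p : ℝ) ^ 2 - 1) * (p : ℝ) ^ j)) := by
          apply div_le_div_of_nonneg_left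
          · positivity
          · positivity
          · exact mul_le_mul_of_nonneg_right hδA hc.le
        have h5 : (p : ℝ) * (1024 * L) * 1000000 / (((p : ℝ) ^ 2 - 1) * (p : ℝ) ^ j * A) =
            1024 * ((p : ℝ) * L / ((A : ℝ) / 1000000 * (((p : ℝ) ^ 2 - 1) * (p : ℝ) ^ j))) := by
          field_simp
        rw [h5]
        have h6 : (j : ℝ) * (1024 * L) = 1024 * (j * L) := by ring
        rw [h6]
        linarith
    have hr := (rho_sound (b := bval p (lo p + 1) Kb A) (lam := lam) (k := 60) (r := 0) hl hl1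
      (by omega) (e := 2) (by norm_num) (e' := e p) h1).1
    refine le_trans ?_ hr
    have h7 : 1024 * w p ≤ min (((e p : ℝ) - 1) * (1024 * L)) (bval p (lo p + 1) Kb A : ℕ) := by
      apply le_min _ hb
      have : ((e p : ℝ) - 1) * (1024 * L) = 1024 * (((e p : ℝ) - 1) * L) := by ring
      rw [this]
      linarith
    linarith

/-- one prime after the cut-off -/
theorem MidC_post {κ δ : ℝ} {S : Finset ℕ} {e : ℕ → ℕ} {w : ℕ → ℝ} (hP : Prof κ δ S e w)
    {Kb lam : ℕ} (hKb : κ + 1 / 550 ≤ (Kb : ℝ) / 1024)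
    {p0 : ℕ} (hp0 : 2 ≤ p0) (hp0' : p0 < 8000)
    (hcut : 100 * (1024 * p0 + Kb) ≤ 2 * lam * (lo p0 + 1 - 1) * p0)
    {p : ℕ} (hp : p ∈ S) (hpp : p0 ≤ p) :
    100 * (1024 * w p) - lam * e p * (1024 * Real.logb 2 p) ≤ 0 := by
  have hprime := hP.prime p hp
  have hlo := lo_spec (n := p0) (by omega) (lt_trans hp0' (by norm_num))
  have he := hP.e_pos p hp
  have hw1 := hP.w1 p hp
  have hp0R : (2 : ℝ) ≤ p0 := by exact_mod_cast hp0
  have hppR : (p0 : ℝ) ≤ p := by exact_mod_cast hpp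
  have hL0 : 0 < Real.logb 2 p := Real.logb_pos (by norm_num) (by linarith)
  have hLL : Real.logb 2 p0 ≤ Real.logb 2 p :=
    Real.logb_le_logb_of_le (by norm_num) (by linarith) hppR
  set L := Real.logb 2 p with hL
  rcases Nat.eq_or_lt_of_le he with h1 | h1
  · have hw : w p ≤ 0 := by
      rw [← h1] at hw1
      simpa using hw1
    have h2 : (0 : ℝ) ≤ lam * e p * (1024 * L) := by positivity
    linarith
  · have h3 := hP.w3 p hp
    have h4 : (κ + 1 / 550) / (p : ℝ) ≤ (Kb : ℝ) / 1024 / p0 := by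
      refine (div_le_div_of_nonneg_right hKb (by linarith)).trans ?_
      apply div_le_div_of_nonneg_left (by positivity) (by linarith) hppR
    have hcut' : (100 : ℝ) * (1024 * p0 + Kb) ≤ 2 * lam * (lo p0) * p0 := by
      have : 100 * (1024 * p0 + Kb) ≤ 2 * lam * (lo p0) * p0 := by simpa using hcut
      exact_mod_cast this
    have h5 : (100 : ℝ) * (1024 + Kb / p0) ≤ 2 * lam * lo p0 := by
      have h6 : (100 : ℝ) * (1024 + Kb / p0) = 100 * (1024 * p0 + Kb) / p0 := by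
        field_simp
      rw [h6, div_le_iff₀ (by linarith)]
      exact hcut'
    have h7 : (2 : ℝ) * lam * lo p0 ≤ lam * e p * (1024 * L) := by
      have h8 : (lo p0 : ℝ) ≤ 1024 * L := hlo.1.trans (by linarith)
      have h9 : (2 : ℝ) ≤ e p := by exact_mod_cast h1
      have h10 : (2 : ℝ) * lam * lo p0 ≤ 2 * lam * (1024 * L) :=
        mul_le_mul_of_nonneg_left h8 (by positivity)
      have h11 : (2 : ℝ) * lam * (1024 * L) ≤ lam * e p * (1024 * L) := by
        apply mul_le_mul_of_nonneg_right _ (by positivity)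
        have : (lam : ℝ) * 2 ≤ lam * e p := mul_le_mul_of_nonneg_left h9 (Nat.cast_nonneg _)
        linarith
      linarith
    have h12 : (Kb : ℝ) / 1024 / p0 = (Kb / p0) / 1024 := by
      field_simp
    rw [h12] at h4
    have h13 : 100 * (1024 * w p) ≤ 100 * (1024 + (Kb : ℝ) / p0) := by
      have : 1024 * w p ≤ 1024 + (Kb : ℝ) / p0 := by linarith
      linarith
    linarith

theorem MidC_arith {κ δ lδ lB lM b ka lm loB loM TR R E : ℝ} (hκ : 14 ≤ κ)
    (hKa2 : ((100 - 2 * lm) * 1000000 - 100 * b) * ka ≤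
      ((100 - 2 * lm) * 1000000 - 100 * b) * (1024 * κ))
    (hTsum : R * 1000000 < TR)
    (hTR : TR = ((100 - 2 * lm) * 1000000 - 100 * b) * ka + 100 * loM * 1000000
      - ((100 - 2 * lm) * 1024 * 1000000 + 100 * (loB + 1) * 1000000 + 5 * 1024 * 1000000))
    (hS : 102400 * E ≤ R)
    (hen : (1 - 2 * (lm / 100)) * (κ - 1) - lδ - δ * κ - 1 / 20 ≤ E)
    (hδκ : δ * κ ≤ b / 1000000 * κ) (hlogδ : lδ ≤ lB - lM)
    (hloB : 1024 * lB < loB + 1) (hloM : loM ≤ 1024 * lM) : False := by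
  have h1 : 102400 * 1000000 * ((1 - 2 * (lm / 100)) * (κ - 1) - lδ - δ * κ - 1 / 20) =
      ((100 - 2 * lm) * 1000000) * (1024 * κ) - (100 - 2 * lm) * 1000000 * 1024
      - 102400 * 1000000 * lδ - 102400 * 1000000 * (δ * κ) - 5 * 1024 * 1000000 := by
    ring
  have h2 : (100 * b) * (1024 * κ) = 102400 * 1000000 * (b / 1000000 * κ) := by ring
  have h3 : ((100 - 2 * lm) * 1000000 - 100 * b) * (1024 * κ) =
      ((100 - 2 * lm) * 1000000) * (1024 * κ) - (100 * b) * (1024 * κ) := by ring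
  linarith

theorem MidC_main {κ δ : ℝ} {S : Finset ℕ} {e : ℕ → ℕ} {w : ℕ → ℝ} (hP : Prof κ δ S e w)
    {Ka Kb A B lam : ℕ} (hKa : (Ka : ℝ) / 1024 ≤ κ) (hKb : κ + 1 / 550 ≤ (Kb : ℝ) / 1024)
    (hA : 1 ≤ A) (hB : 1 ≤ B) (hB2 : B ≤ 1000000)
    (hδA : (A : ℝ) / 1000000 ≤ δ) (hδB : δ ≤ (B : ℝ) / 1000000)
    (tbl : List (ℕ × ℕ)) (hlog : ∀ x ∈ tbl, 2 ≤ x.1 ∧ x.1 < 8000 ∧ x.2 = lo x.1 + 1)
    (hsorted : (tbl.map Prod.fst).Pairwise (· < ·))
    (hcomp : ∀ q : ℕ, q.Prime → q ≤ 7853 → (q, lo q + 1) ∈ tbl)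
    (hlast : tbl.getLast? = some (7853, 13250))
    (hbox : boxOK tbl Ka Kb A B lam = true) : False := by
  classical
  rw [boxOK, Bool.and_eq_true, force_eq] at hbox
  have hloM := (lo_spec (n := 1000000) (by norm_num) (by norm_num)).1
  generalize lo 1000000 = LM at hbox hloM
  obtain ⟨hb1, hb2⟩ := hbox
  have hb1' : 100 * B + 2 * lam * 1000000 ≤ 100 * 1000000 := Nat.le_of_ble_eq_true hb1
  obtain ⟨pre, p0, h0, post, htbl, hcut, hT⟩ := MidC_split _ _ _ _ _ _ hb2
  rw [zero_add] at hT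
  -- facts on the table
  have hmem0 : (p0, h0) ∈ tbl := by rw [htbl]; simp
  obtain ⟨hp02, hp08, hh0⟩ := hlog _ hmem0
  simp only at hp02 hp08 hh0
  rw [hh0] at hcut
  rw [htbl, List.map_append, List.map_cons, List.pairwise_append] at hsorted
  obtain ⟨hs1, hs2, hs3⟩ := hsorted
  rw [List.pairwise_cons] at hs2
  have hp0l : p0 ≤ 7853 := by
    rw [htbl, List.getLast?_append_cons] at hlast
    have hm := List.mem_of_getLast? hlast
    rw [List.mem_cons] at hm
    rcases hm with hm | hm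
    · have := congrArg Prod.fst hm
      simp only at this
      omega
    · exact (hs2.1 7853 (List.mem_map.2 ⟨_, hm, rfl⟩)).le
  -- the function
  set F : ℕ → ℕ := fun p => rho (lo p + 1) (bval p (lo p + 1) Kb A) lam 60 2 0 with hF
  have hsum : (pre.map (fun x => rho x.2 (bval x.1 x.2 Kb A) lam 60 2 0)).sum =
      ∑ p ∈ (pre.map Prod.fst).toFinset, F p := by
    rw [List.sum_toFinset F (hs1.imp (fun h => h.ne)), List.map_map]
    congr 1
    apply List.map_congr_left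
    intro x hx
    have h1 := (hlog x (by rw [htbl]; simp [hx])).2.2
    show rho x.2 (bval x.1 x.2 Kb A) lam 60 2 0 = F x.1
    rw [hF, h1]
  rw [hsum] at hT
  set P : Finset ℕ := (pre.map Prod.fst).toFinset with hPdef
  have hPmem : ∀ p ∈ P, p < 8000 := by
    intro p hp
    rw [hPdef, List.mem_toFinset, List.mem_map] at hp
    obtain ⟨x, hx, rfl⟩ := hp
    exact (hlog x (by rw [htbl]; simp [hx])).2.1
  -- termwise bound
  have hterm : ∀ p ∈ S, 100 * (1024 * w p) - lam * e p * (1024 * Real.logb 2 p) ≤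
      if p ∈ P then (F p : ℝ) else 0 := by
    intro p hp
    split_ifs with hpP
    · exact MidC_pre hP hKb hA hδA hp (hPmem p hpP)
    · apply MidC_post hP hKb hp02 hp08 hcut hp
      by_contra hlt
      rw [not_le] at hlt
      have hprime := hP.prime p hp
      have hm := hcomp p hprime (by omega)
      rw [htbl, List.mem_append, List.mem_cons] at hm
      rcases hm with hm | hm | hm
      · apply hpP
        rw [hPdef, List.mem_toFinset, List.mem_map]
        exact ⟨_, hm, rfl⟩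
      · have := congrArg Prod.fst hm
        simp only at this
        omega
      · have := hs2.1 p (List.mem_map.2 ⟨_, hm, rfl⟩)
        omega
  have hS : ∑ p ∈ S, (100 * (1024 * w p) - lam * e p * (1024 * Real.logb 2 p)) ≤
      ((∑ p ∈ P, F p : ℕ) : ℝ) := by
    refine (Finset.sum_le_sum hterm).trans ?_
    rw [← Finset.sum_filter, Nat.cast_sum]
    apply Finset.sum_le_sum_of_subset_of_nonneg
    · intro p hp
      exact (Finset.mem_filter.1 hp).2
    · intro p _ _
      exact Nat.cast_nonneg _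
  -- energy
  have hlam : 2 * lam ≤ 100 := by omega
  have hlamR : (2 : ℝ) * lam ≤ 100 := by exact_mod_cast hlam
  have hlam0 : (0 : ℝ) ≤ (lam : ℝ) / 100 := div_nonneg (Nat.cast_nonneg lam) (by norm_num)
  have hen := hP.energy ((lam : ℝ) / 100) hlam0 (by linarith)
  have hS2 : ∑ p ∈ S, (100 * (1024 * w p) - lam * e p * (1024 * Real.logb 2 p)) =
      102400 * ∑ p ∈ S, (w p - (lam : ℝ) / 100 * ((e p : ℝ) * Real.logb 2 p)) := by
    rw [Finset.mul_sum]
    apply Finset.sum_congr rfl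
    intro p _
    ring
  rw [hS2] at hS
  -- bound for log2 δ
  have hδ0 : 0 < δ := hP.hδ0
  have hBR : (1 : ℝ) ≤ B := by exact_mod_cast hB
  have hlogδ : Real.logb 2 δ ≤ Real.logb 2 B - Real.logb 2 1000000 := by
    rw [← Real.logb_div (by linarith) (by norm_num)]
    exact Real.logb_le_logb_of_le (by norm_num) hδ0 hδB
  have hloB := (lo_spec (n := B) (by omega) (lt_of_le_of_lt hB2 (by norm_num))).2
  have hM : ((1000000 : ℕ) : ℝ) = 1000000 := by norm_num
  rw [hM] at hloM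
  have hκ : 14 ≤ κ := hP.hκ
  have hδκ : δ * κ ≤ (B : ℝ) / 1000000 * κ := mul_le_mul_of_nonneg_right hδB (by linarith)
  -- T
  set T : ℕ := ((100 - 2 * lam) * 1000000 - 100 * B) * Ka + 100 * LM * 1000000
        - ((100 - 2 * lam) * 1024 * 1000000 + 100 * (lo B + 1) * 1000000 + 5 * 1024 * 1000000)
    with hTdef
  have hTlt : (100 - 2 * lam) * 1024 * 1000000 + 100 * (lo B + 1) * 1000000 + 5 * 1024 * 1000000 ≤
      ((100 - 2 * lam) * 1000000 - 100 * B) * Ka + 100 * LM * 1000000 := by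
    by_contra hcon
    rw [not_le] at hcon
    have : T = 0 := by
      rw [hTdef]
      exact Nat.sub_eq_zero_of_le hcon.le
    omega
  have hTR : (T : ℝ) = ((100 - 2 * (lam : ℝ)) * 1000000 - 100 * B) * Ka
      + 100 * LM * 1000000
      - ((100 - 2 * (lam : ℝ)) * 1024 * 1000000 + 100 * (lo B + 1) * 1000000
        + 5 * 1024 * 1000000) := by
    have h1 : 100 * B ≤ (100 - 2 * lam) * 1000000 := by omega
    rw [hTdef, Nat.cast_sub hTlt]
    push_cast [Nat.cast_sub h1, Nat.cast_sub hlam]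
    ring
  have hTsum : (((∑ p ∈ P, F p) * 1000000 : ℕ) : ℝ) < T := by exact_mod_cast hT
  rw [Nat.cast_mul, hM] at hTsum
  have hcoef : (0 : ℝ) ≤ (100 - 2 * (lam : ℝ)) * 1000000 - 100 * B := by
    have : (100 : ℝ) * B + 2 * lam * 1000000 ≤ 100 * 1000000 := by exact_mod_cast hb1'
    linarith
  have hKa2 : ((100 - 2 * (lam : ℝ)) * 1000000 - 100 * B) * Ka ≤
      ((100 - 2 * (lam : ℝ)) * 1000000 - 100 * B) * (1024 * κ) := by
    apply mul_le_mul_of_nonneg_left _ hcoef
    have : (Ka : ℝ) = 1024 * ((Ka : ℝ) / 1024) := by ring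
    rw [this]
    linarith
  exact MidC_arith hκ hKa2 hTsum hTR hS hen hδκ hlogδ hloB hloM

theorem box_sound {κ δ : ℝ} {S : Finset ℕ} {e : ℕ → ℕ} {w : ℕ → ℝ} (hP : Prof κ δ S e w)
    {Ka Kb A B lam : ℕ} (hKa : (Ka : ℝ) / 1024 ≤ κ) (hKb : κ + 1 / 550 ≤ (Kb : ℝ) / 1024)
    (hA : 1 ≤ A) (hB : 1 ≤ B) (hB2 : B ≤ 1000000)
    (hδA : (A : ℝ) / 1000000 ≤ δ) (hδB : δ ≤ (B : ℝ) / 1000000)
    (hbox : boxOK primeTable Ka Kb A B lam = true) : False :=
  MidC_main hP hKa hKb hA hB hB2 hδA hδB primeTable table_log table_sorted table_complete last_run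
    hbox

end Pool.Agent.IRR
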