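import Pool.Agent.IRR.MidData

/-! # IRR: kernel run of the middle range and of the checks of the prime table -/

set_option maxRecDepth 100000

namespace Pool.Agent.IRR

/-- product of the primes below 90 -/
def Q89 : ℕ := 2*3*5*7*11*13*17*19*23*29*31*37*41*43*47*53*59*61*67*71*73*79*83*89

theorem mid_run : tableOK primeTable 14336 midTable = true := by decide +kernel

theorem gaps_run : gapsOK Q89 89 (primeTable.drop 24) = true := by decide +kernel

theorem head_run : (primeTable.take 24).map Prod.fst =
    [2, 3, 5, 7, 11, 13, 17, 19, 23, 29, 31, 37, 41, 43, 47, 53, 59, 61, 67, 71, 73, 79, 83, 89] := by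
  decide +kernel

theorem last_run : primeTable.getLast? = some (7853, 13250) := by decide +kernel

theorem midTable_last : midTable.getLast?.map Prod.fst = some 33556480 := by decide +kernel

theorem l0 : logsOK ((primeTable.drop 0).take 64) = true := by decide +kernel
theorem l1 : logsOK ((primeTable.drop 64).take 64) = true := by decide +kernel
theorem l2 : logsOK ((primeTable.drop 128).take 64) = true := by decide +kernel
theorem l3 : logsOK ((primeTable.drop 192).take 64) = true := by decide +kernel
theorem l4 : logsOK ((primeTable.drop 256).take 64) = true := by decide +kernel
theorem l5 : logsOK ((primeTable.drop 320).take 64) = true := by decide +kernel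
theorem l6 : logsOK ((primeTable.drop 384).take 64) = true := by decide +kernel
theorem l7 : logsOK ((primeTable.drop 448).take 64) = true := by decide +kernel
theorem l8 : logsOK ((primeTable.drop 512).take 64) = true := by decide +kernel
theorem l9 : logsOK ((primeTable.drop 576).take 64) = true := by decide +kernel
theorem l10 : logsOK ((primeTable.drop 640).take 64) = true := by decide +kernel
theorem l11 : logsOK ((primeTable.drop 704).take 64) = true := by decide +kernel
theorem l12 : logsOK ((primeTable.drop 768).take 64) = true := by decide +kernel
theorem l13 : logsOK ((primeTable.drop 832).take 64) = true := by decide +kernel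
theorem l14 : logsOK ((primeTable.drop 896).take 64) = true := by decide +kernel
theorem l15 : logsOK ((primeTable.drop 960).take 64) = true := by decide +kernel

/-- the logarithms of the table are correct -/
theorem logs_run (i : ℕ) (hi : i < 16) : logsOK ((primeTable.drop (64 * i)).take 64) = true := by
  interval_cases i
  · exact l0
  · exact l1
  · exact l2
  · exact l3
  · exact l4
  · exact l5
  · exact l6
  · exact l7
  · exact l8
  · exact l9
  · exact l10
  · exact l11
  · exact l12
  · exact l13
  · exact l14
  · exact l15

theorem primeTable_length : primeTable.length = 992 := by decide +kernel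

end Pool.Agent.IRR
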