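import Pool.Agent.IRR.Val

/-!
# IRR.Mu: roots of unity of order prime to `p` (diff 1-2)

`∏_{ζ^M=1, ζ≠1} (1 - ζ) = M` (derivative of `X^M - 1` at `1`), all factors have norm `≤ 1` and the
product has norm `1`, so `‖1 - ζ‖ = 1`.
-/

namespace Pool.Agent.IRR

open Polynomial

variable {p : ℕ} [Fact p.Prime] {M : ℕ} {ω ω' : PadicAlgCl p}

theorem norm_mu (hM : M ≠ 0) (hω : ω ^ M = 1) : ‖ω‖ = 1 := by
  have h : ‖ω‖ ^ M = 1 := by rw [← norm_pow, hω, norm_one]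
  exact (pow_eq_one_iff_of_nonneg (norm_nonneg _) hM).mp h

theorem Mu_aux (hM : ¬ p ∣ M) (hω : ω ^ M = 1) (hne : ω ≠ 1) : ‖ω - 1‖ = 1 := by
  have hM0 : M ≠ 0 := by rintro rfl; exact hM (dvd_zero _)
  have hn := norm_mu hM0 hω
  have hle : ‖ω - 1‖ ≤ 1 := by
    have := IsUltrametricDist.norm_add_le_max ω (-1 : PadicAlgCl p)
    rwa [hn, norm_neg, norm_one, max_self, ← sub_eq_add_neg] at this
  have hgeo : ∑ i ∈ Finset.range M, ω ^ i = 0 := by
    have h1 := geom_sum_mul ω M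
    rw [hω, sub_self] at h1
    exact (mul_eq_zero.mp h1).resolve_right (sub_ne_zero.mpr hne)
  have hgs : ∀ i, ‖ω ^ i - 1‖ ≤ ‖ω - 1‖ := by
    intro i
    rw [← geom_sum_mul ω i, norm_mul]
    refine mul_le_of_le_one_left (norm_nonneg _) ?_
    refine IsUltrametricDist.norm_sum_le_of_forall_le_of_nonneg zero_le_one (fun j _ => ?_)
    rw [norm_pow, hn, one_pow]
  have hMs : (M : PadicAlgCl p) = - ∑ i ∈ Finset.range M, (ω ^ i - 1) := by
    rw [Finset.sum_sub_distrib, hgeo]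
    simp
  have h1 : ‖(M : PadicAlgCl p)‖ ≤ ‖ω - 1‖ := by
    rw [hMs, norm_neg]
    exact IsUltrametricDist.norm_sum_le_of_forall_le_of_nonneg (norm_nonneg _) (fun j _ => hgs j)
  rw [norm_natCast_eq_one hM] at h1
  exact le_antisymm hle h1

theorem mu_sep (hM : ¬ p ∣ M) (hω : ω ^ M = 1) (hω' : ω' ^ M = 1) (hne : ω ≠ ω') :
    ‖ω - ω'‖ = 1 := by
  have hM0 : M ≠ 0 := by rintro rfl; exact hM (dvd_zero _)
  have hn' := norm_mu hM0 hω'
  have h0 : ω' ≠ 0 := by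
    intro h
    rw [h, norm_zero] at hn'
    exact zero_ne_one hn'
  have h1 : ω - ω' = (ω / ω' - 1) * ω' := by
    field_simp
  have h2 : ω / ω' ≠ 1 := by
    intro h
    rw [div_eq_one_iff_eq h0] at h
    exact hne h
  have h3 : (ω / ω') ^ M = 1 := by rw [div_pow, hω, hω', div_one]
  rw [h1, norm_mul, hn', mul_one]
  exact Mu_aux hM h3 h2

theorem card_mu (hM : M ≠ 0) : (nthRootsFinset M (1 : PadicAlgCl p)).card = M := by
  have : NeZero (M : PadicAlgCl p) := ⟨by exact_mod_cast hM⟩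
  have : NeZero M := ⟨hM⟩
  obtain ⟨ζ, hζ⟩ := HasEnoughRootsOfUnity.exists_primitiveRoot (PadicAlgCl p) M
  exact hζ.card_nthRootsFinset

end Pool.Agent.IRR
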