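import Pool.Agent.IRR.Coeff
import Pool.Agent.IRR.DomIdx

/-!
# IRR.NewtonOdd: the types of roots in a class, `p` odd (diff 3)

`F = F p N ω`; `u_k := v(F_k)`.  Put `φ(t) = e - t + τ p^t`.  For `k ≥ 1`, `t = Nat.log p k`:
`u_k + τ k ≥ φ(t)` (`norm_F_le`), and `u_{p^i} + τ p^i = φ(i)` for `1 ≤ i ≤ e` (`norm_F_pow`).
Use `dom_idx` with `r_i = p^(-τ_i)`, `τ_i = 1 / Dw p i ω`.
* `i ≥ 2`: `τ_i = 1/(p^(i-1)(p-1))`: `φ(t+1) - φ(t) = -1 + τ p^t (p-1)` is `≤ 0` for `t < i-1`, `= 0` for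
  `t = i-1`, `≥ 0` for `t ≥ i`.  So the indices `p^(i-1)` and `p^i` both dominate (index `0`:
  `u_0 = e ≥ φ(i) = e - i + p/(p-1)`; for `ω = 1`, `F_0 = F_1 = 0`).
* `i = 1`, `ω ≠ 1`: `τ = 1/p`: value `e` at `0` and `p`; `k < p`: `≥ e`; `t ≥ 1`: `e - t + p^(t-1) ≥ e`.
* `i = 1`, `ω = 1`: `τ = 1/(p-2)`: value `e + 2τ` at `2` (`norm_F_two`) and at `p`; `2 ≤ k < p`: `≥ e + 2τ`;
  `t ≥ 1`: `e - t + p^t τ ≥ e + 2 τ` since `(p^t - 2)/(p-2) ≥ t`.
* `r = 1`: the index `p^e` dominates.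
Write `c(<r) = #{y root of F : ‖y‖ < r}` etc. (with multiplicity).  Then `c(<r_i) ≤ p^(i-1)`
(resp. `0` / `2` for `i = 1`), `c(≤r_i) ≥ p^i`, `r_1 < r_2 < ... < r_e < 1`, `c(<1) ≤ p^e`.
Hence `c(≤ r_i) = p^i = c(< r_{i+1})`, `c(≤ r_e) = p^e = c(<1)`.  For `ω = 1` the double root
`y = 0` accounts for `c(<r_1) = 2`.  Finally transport with `F_countP` (`1 - ω` has norm `1` if
`ω ≠ 1` by `mu_sep`, and is `0` if `ω = 1`).
-/

namespace Pool.Agent.IRR

open Polynomial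

variable {p : ℕ} [Fact p.Prime] {N n e M : ℕ} {ω : PadicAlgCl p}

theorem NewtonOdd_dom (hL : Loc p N n e M) (hω : ω ^ M = 1) (τ c : ℝ)
    (h0 : ‖(F p N ω).coeff 0‖ ≤ (p : ℝ) ^ (-c))
    (h1 : ∀ l : ℕ, 1 ≤ l → (F p N ω).coeff l = 0 ∨ c ≤ e - (Nat.log p l : ℝ) + τ * l) (l : ℕ) :
    ‖(F p N ω).coeff l‖ * ((p : ℝ) ^ (-τ)) ^ l ≤ (p : ℝ) ^ (-c) := by
  have hp1 : (1 : ℝ) < p := by exact_mod_cast (Fact.out : p.Prime).one_lt
  have hp0 : (0 : ℝ) < p := by linarith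
  rcases Nat.eq_zero_or_pos l with rfl | hl
  · simpa using h0
  · rcases h1 l hl with hz | hc
    · rw [hz, norm_zero, zero_mul]
      exact (Real.rpow_pos_of_pos hp0 _).le
    · have h2 : ((p : ℝ) ^ (-τ)) ^ l = (p : ℝ) ^ (-(τ * l)) := by
        rw [← Real.rpow_natCast, ← Real.rpow_mul hp0.le]
        congr 1
        ring
      rw [h2]
      calc ‖(F p N ω).coeff l‖ * (p : ℝ) ^ (-(τ * l))
          ≤ (p : ℝ) ^ ((Nat.log p l : ℝ) - e) * (p : ℝ) ^ (-(τ * l)) :=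
            mul_le_mul_of_nonneg_right (norm_F_le hL hω hl) (Real.rpow_pos_of_pos hp0 _).le
        _ = (p : ℝ) ^ (((Nat.log p l : ℝ) - e) + -(τ * l)) := by rw [← Real.rpow_add hp0]
        _ ≤ (p : ℝ) ^ (-c) := by
            apply Real.rpow_le_rpow_of_exponent_le hp1.le
            linarith

theorem NewtonOdd_val (hL : Loc p N n e M) (hω : ω ^ M = 1) (τ : ℝ) {i : ℕ} (hi : 1 ≤ i)
    (hie : i ≤ e) :
    ‖(F p N ω).coeff (p ^ i)‖ * ((p : ℝ) ^ (-τ)) ^ (p ^ i) =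
      (p : ℝ) ^ (-((e : ℝ) - i + τ * (p : ℝ) ^ i)) := by
  have hp1 : (1 : ℝ) < p := by exact_mod_cast (Fact.out : p.Prime).one_lt
  have hp0 : (0 : ℝ) < p := by linarith
  have h2 : ((p : ℝ) ^ (-τ)) ^ (p ^ i) = (p : ℝ) ^ (-(τ * (p : ℝ) ^ i)) := by
    rw [← Real.rpow_natCast, ← Real.rpow_mul hp0.le]
    congr 1
    push_cast
    ring
  rw [h2, norm_F_pow hL hω hi hie, ← Real.rpow_add hp0]
  congr 1
  ring

/-- Bernoulli -/
theorem NewtonOdd_bern (hp1 : (1 : ℝ) < p) (s : ℕ) : 1 + s * ((p : ℝ) - 1) ≤ (p : ℝ) ^ s := by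
  have := one_add_mul_le_pow (a := (p : ℝ) - 1) (by linarith) s
  simpa using this

theorem NewtonOdd_phi (hp1 : (2 : ℝ) ≤ p) {i : ℕ} (hi : 1 ≤ i) (t : ℕ) :
    -(i : ℝ) + p / (p - 1) ≤ -(t : ℝ) + 1 / ((p : ℝ) ^ (i - 1) * (p - 1)) * (p : ℝ) ^ t := by
  have hp0 : (0 : ℝ) < p := by linarith
  have hpm : (0 : ℝ) < (p : ℝ) - 1 := by linarith
  obtain ⟨j, rfl⟩ : ∃ j, i = j + 1 := ⟨i - 1, by omega⟩
  rw [Nat.add_sub_cancel]
  rcases le_or_gt j t with h | h
  · obtain ⟨s, rfl⟩ := Nat.exists_eq_add_of_le h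
    have hb := NewtonOdd_bern (p := p) (by linarith) s
    have h1 : 1 / ((p : ℝ) ^ j * (p - 1)) * (p : ℝ) ^ (j + s) = (p : ℝ) ^ s / (p - 1) := by
      rw [pow_add]
      field_simp
    rw [h1]
    push_cast
    have h2 : (p : ℝ) / (p - 1) - (p : ℝ) ^ s / (p - 1) ≤ 1 - s := by
      rw [← sub_div, div_le_iff₀ hpm]
      nlinarith
    linarith
  · have h1 : 0 ≤ 1 / ((p : ℝ) ^ j * (p - 1)) * (p : ℝ) ^ t := by positivity
    have h2 : (p : ℝ) / (p - 1) ≤ 2 := by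
      rw [div_le_iff₀ hpm]
      linarith
    have h3 : (t : ℝ) + 1 ≤ j := by exact_mod_cast h
    push_cast
    linarith

open Classical in
/-- the number of double roots -/
noncomputable def NewtonOdd_dl (ω : PadicAlgCl p) : ℕ := if ω = 1 then 2 else 0

theorem NewtonOdd_cnt_lt (hL : Loc p N n e M) (hω : ω ^ M = 1) {r : ℝ} (hr : 0 < r)
    (hr1 : r ≤ 1) :
    (F p N ω).roots.countP (fun y => ‖y‖ < r) =
      ((rts (PadicAlgCl p) (g N)).filter (fun x => ‖x - ω‖ < r)).card + NewtonOdd_dl ω := by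
  rw [F_countP hL.hN ω (fun y => ‖y‖ < r)]
  congr 1
  unfold NewtonOdd_dl
  by_cases h : ω = 1
  · subst h
    simp [hr]
  · rw [if_neg h, if_neg]
    rw [mu_sep hL.hpM (one_pow M) hω (Ne.symm h)]
    linarith

theorem NewtonOdd_cnt_le (hL : Loc p N n e M) (hω : ω ^ M = 1) {r : ℝ} (hr : 0 < r)
    (hr1 : r < 1) :
    (F p N ω).roots.countP (fun y => ‖y‖ ≤ r) =
      ((rts (PadicAlgCl p) (g N)).filter (fun x => ‖x - ω‖ ≤ r)).card + NewtonOdd_dl ω := by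
  rw [F_countP hL.hN ω (fun y => ‖y‖ ≤ r)]
  congr 1
  unfold NewtonOdd_dl
  by_cases h : ω = 1
  · subst h
    simp [hr.le]
  · rw [if_neg h, if_neg]
    rw [mu_sep hL.hpM (one_pow M) hω (Ne.symm h)]
    linarith

theorem NewtonOdd_Dw_two (ω : PadicAlgCl p) {i : ℕ} (hi : 2 ≤ i) :
    (Dw p i ω : ℝ) = (p : ℝ) ^ (i - 1) * (p - 1) := by
  have hp1 : 1 ≤ p := (Fact.out : p.Prime).one_lt.le
  unfold Dw D
  rw [if_neg (by rintro ⟨h, _⟩; omega), if_neg (by omega)]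
  push_cast [Nat.cast_sub hp1]
  ring

theorem NewtonOdd_Dw_one (hp : p ≠ 2) (ω : PadicAlgCl p) :
    (Dw p 1 ω : ℝ) = p - NewtonOdd_dl ω := by
  have hp2 : 2 ≤ p := (Fact.out : p.Prime).two_le
  unfold Dw D NewtonOdd_dl
  by_cases h : ω = 1
  · rw [if_pos ⟨rfl, h⟩, if_pos h]
    push_cast [Nat.cast_sub hp2]
    ring
  · rw [if_neg (by rintro ⟨_, h'⟩; exact h h'), if_neg h, if_pos rfl]
    simp

theorem NewtonOdd_dl_le (ω : PadicAlgCl p) : NewtonOdd_dl ω ≤ 2 := by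
  unfold NewtonOdd_dl
  split_ifs <;> omega

theorem NewtonOdd_Dw_pos (hp : p ≠ 2) (ω : PadicAlgCl p) {i : ℕ} (hi : 1 ≤ i) :
    (0 : ℝ) < Dw p i ω := by
  have hp3 : 3 ≤ p := by
    have := (Fact.out : p.Prime).two_le
    omega
  have hp3' : (3 : ℝ) ≤ p := by exact_mod_cast hp3
  rcases Nat.eq_or_lt_of_le hi with rfl | h
  · rw [NewtonOdd_Dw_one hp]
    have : (NewtonOdd_dl ω : ℝ) ≤ 2 := by exact_mod_cast NewtonOdd_dl_le ω
    linarith
  · rw [NewtonOdd_Dw_two ω h]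
    have : (0 : ℝ) < (p : ℝ) - 1 := by linarith
    positivity

theorem NewtonOdd_Dw_lt (hp : p ≠ 2) (ω : PadicAlgCl p) {i : ℕ} (hi : 1 ≤ i) :
    (Dw p i ω : ℝ) < Dw p (i + 1) ω := by
  have hp3 : 3 ≤ p := by
    have := (Fact.out : p.Prime).two_le
    omega
  have hp3' : (3 : ℝ) ≤ p := by exact_mod_cast hp3
  rw [NewtonOdd_Dw_two ω (show 2 ≤ i + 1 by omega), Nat.add_sub_cancel]
  rcases Nat.eq_or_lt_of_le hi with rfl | h
  · rw [NewtonOdd_Dw_one hp]
    have : (0 : ℝ) ≤ NewtonOdd_dl ω := Nat.cast_nonneg _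
    nlinarith
  · rw [NewtonOdd_Dw_two ω h]
    obtain ⟨j, rfl⟩ : ∃ j, i = j + 1 := ⟨i - 1, by omega⟩
    rw [Nat.add_sub_cancel, pow_succ]
    have h1 : (0 : ℝ) < (p : ℝ) ^ j := by positivity
    have h2 : (0 : ℝ) < (p : ℝ) ^ j * (p - 1) := by
      have : (0 : ℝ) < (p : ℝ) - 1 := by linarith
      positivity
    nlinarith

/-- the radius of the level `i` -/
noncomputable def NewtonOdd_r (p : ℕ) [Fact p.Prime] (i : ℕ) (ω : PadicAlgCl p) : ℝ :=
  (p : ℝ) ^ (-(1 / (Dw p i ω : ℝ)))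

theorem NewtonOdd_r_pos (i : ℕ) (ω : PadicAlgCl p) : 0 < NewtonOdd_r p i ω := by
  have hp0 : (0 : ℝ) < p := by exact_mod_cast (Fact.out : p.Prime).pos
  exact Real.rpow_pos_of_pos hp0 _

theorem NewtonOdd_r_lt_one (hp : p ≠ 2) (ω : PadicAlgCl p) {i : ℕ} (hi : 1 ≤ i) :
    NewtonOdd_r p i ω < 1 := by
  have hp1 : (1 : ℝ) < p := by exact_mod_cast (Fact.out : p.Prime).one_lt
  have := NewtonOdd_Dw_pos hp ω hi
  unfold NewtonOdd_r
  apply Real.rpow_lt_one_of_one_lt_of_neg hp1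
  rw [neg_lt_zero]
  positivity

theorem NewtonOdd_r_lt (hp : p ≠ 2) (ω : PadicAlgCl p) {i : ℕ} (hi : 1 ≤ i) :
    NewtonOdd_r p i ω < NewtonOdd_r p (i + 1) ω := by
  have hp1 : (1 : ℝ) < p := by exact_mod_cast (Fact.out : p.Prime).one_lt
  have h1 := NewtonOdd_Dw_pos hp ω hi
  have h2 := NewtonOdd_Dw_lt hp ω hi
  unfold NewtonOdd_r
  apply Real.rpow_lt_rpow_of_exponent_lt hp1
  have := one_div_lt_one_div_of_lt h1 h2
  linarith

/-- the two inequalities of level `i ≥ 2` -/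
theorem NewtonOdd_two (hL : Loc p N n e M) (hp : p ≠ 2) (hω : ω ^ M = 1) {i : ℕ} (hi : 2 ≤ i)
    (hie : i ≤ e) :
    ((rts (PadicAlgCl p) (g N)).filter (fun x => ‖x - ω‖ < NewtonOdd_r p i ω)).card
        + NewtonOdd_dl ω ≤ p ^ (i - 1) ∧
    p ^ i ≤ ((rts (PadicAlgCl p) (g N)).filter (fun x => ‖x - ω‖ ≤ NewtonOdd_r p i ω)).card
        + NewtonOdd_dl ω := by
  have hp2 : (2 : ℝ) ≤ p := by exact_mod_cast (Fact.out : p.Prime).two_le
  have hp1 : (1 : ℝ) < p := by linarith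
  have hp0 : (0 : ℝ) < p := by linarith
  have hpm : (0 : ℝ) < (p : ℝ) - 1 := by linarith
  have hτ : 1 / (Dw p i ω : ℝ) = 1 / ((p : ℝ) ^ (i - 1) * (p - 1)) := by
    rw [NewtonOdd_Dw_two ω hi]
  set τ : ℝ := 1 / (Dw p i ω : ℝ) with hτd
  set c : ℝ := (e : ℝ) - i + p / (p - 1) with hc
  have hτpos : 0 ≤ τ := by
    rw [hτ]
    positivity
  have hce : c ≤ e := by
    have h2 : (p : ℝ) / (p - 1) ≤ 2 := by
      rw [div_le_iff₀ hpm]
      linarith
    have h3 : (2 : ℝ) ≤ i := by exact_mod_cast hi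
    rw [hc]
    linarith
  have h0 : ‖(F p N ω).coeff 0‖ ≤ (p : ℝ) ^ (-c) := by
    by_cases h1 : ω = 1
    · subst h1
      rw [(F_one_zero hL.hN).1, norm_zero]
      exact (Real.rpow_pos_of_pos hp0 _).le
    · rw [norm_F_zero hL hω h1]
      apply Real.rpow_le_rpow_of_exponent_le hp1.le
      linarith
  have hdom := NewtonOdd_dom hL hω τ c h0 (by
    intro l hl
    right
    have h1 := NewtonOdd_phi hp2 (show 1 ≤ i by omega) (Nat.log p l)
    rw [← hτ] at h1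
    have h2 : ((p : ℝ)) ^ (Nat.log p l) ≤ l := by
      exact_mod_cast Nat.pow_log_le_self p (by omega)
    have h3 : τ * (p : ℝ) ^ (Nat.log p l) ≤ τ * l := mul_le_mul_of_nonneg_left h2 hτpos
    rw [hc]
    linarith)
  obtain ⟨j, rfl⟩ : ∃ j, i = j + 1 := ⟨i - 1, by omega⟩
  have hv1 : ‖(F p N ω).coeff (p ^ (j + 1))‖ * ((p : ℝ) ^ (-τ)) ^ (p ^ (j + 1)) =
      (p : ℝ) ^ (-c) := by
    rw [NewtonOdd_val hL hω τ (show 1 ≤ j + 1 by omega) hie]
    congr 2
    rw [hc, hτ, Nat.add_sub_cancel, pow_succ]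
    field_simp
  have hv2 : ‖(F p N ω).coeff (p ^ j)‖ * ((p : ℝ) ^ (-τ)) ^ (p ^ j) = (p : ℝ) ^ (-c) := by
    rw [NewtonOdd_val hL hω τ (show 1 ≤ j by omega) (by omega)]
    congr 2
    rw [hc, hτ, Nat.add_sub_cancel]
    push_cast
    field_simp
    ring
  have hF := F_ne_zero hL.hN ω
  have hrpos := NewtonOdd_r_pos (p := p) (j + 1) ω
  have hrlt := NewtonOdd_r_lt_one hp ω (show 1 ≤ j + 1 by omega)
  have hreq : NewtonOdd_r p (j + 1) ω = (p : ℝ) ^ (-τ) := rfl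
  have d1 := dom_idx (F p N ω) hF hrpos (p ^ j) (by
    intro l
    rw [hreq, hv2]
    exact hdom l)
  have d2 := dom_idx (F p N ω) hF hrpos (p ^ (j + 1)) (by
    intro l
    rw [hreq, hv1]
    exact hdom l)
  rw [Nat.add_sub_cancel]
  rw [← NewtonOdd_cnt_lt hL hω hrpos hrlt.le, ← NewtonOdd_cnt_le hL hω hrpos hrlt]
  exact ⟨d1.1, d2.2⟩

theorem NewtonOdd_one (hL : Loc p N n e M) (hp : p ≠ 2) (hω : ω ^ M = 1) :
    ((rts (PadicAlgCl p) (g N)).filter (fun x => ‖x - ω‖ < NewtonOdd_r p 1 ω)).card = 0 ∧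
    p ≤ ((rts (PadicAlgCl p) (g N)).filter (fun x => ‖x - ω‖ ≤ NewtonOdd_r p 1 ω)).card
        + NewtonOdd_dl ω := by
  have hp3 : 3 ≤ p := by
    have := (Fact.out : p.Prime).two_le
    omega
  have hp3' : (3 : ℝ) ≤ p := by exact_mod_cast hp3
  have hp1 : (1 : ℝ) < p := by linarith
  have hp0 : (0 : ℝ) < p := by linarith
  have hF := F_ne_zero hL.hN ω
  have hrpos := NewtonOdd_r_pos (p := p) 1 ω
  have hrlt := NewtonOdd_r_lt_one hp ω (le_refl 1)
  by_cases h1 : ω = 1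
  · subst h1
    have hdl : NewtonOdd_dl (1 : PadicAlgCl p) = 2 := by
      unfold NewtonOdd_dl
      rw [if_pos rfl]
    have hD : (Dw p 1 (1 : PadicAlgCl p) : ℝ) = p - 2 := by
      rw [NewtonOdd_Dw_one hp, hdl]
      norm_num
    set τ : ℝ := 1 / (Dw p 1 (1 : PadicAlgCl p) : ℝ) with hτ
    have hpm : (0 : ℝ) < (p : ℝ) - 2 := by linarith
    have hτpos : 0 < τ := by
      rw [hτ, hD]
      positivity
    have hτm : τ * (p - 2) = 1 := by
      rw [hτ, hD]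
      field_simp
    set c : ℝ := (e : ℝ) + 2 * τ with hc
    have h0 : ‖(F p N 1).coeff 0‖ ≤ (p : ℝ) ^ (-c) := by
      rw [(F_one_zero hL.hN).1, norm_zero]
      exact (Real.rpow_pos_of_pos hp0 _).le
    have hdom := NewtonOdd_dom hL hω τ c h0 (by
      intro l hl
      rcases Nat.eq_or_lt_of_le hl with rfl | hl2
      · left
        exact (F_one_zero hL.hN).2
      · right
        have hl2' : (2 : ℝ) ≤ l := by exact_mod_cast hl2
        have h2 : ((p : ℝ)) ^ (Nat.log p l) ≤ l := by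
          exact_mod_cast Nat.pow_log_le_self p (by omega)
        rcases Nat.eq_zero_or_pos (Nat.log p l) with ht | ht
        · rw [ht, hc]
          push_cast
          nlinarith
        · have h3 := NewtonOdd_bern hp1 (Nat.log p l)
          have h4 : (1 : ℝ) ≤ Nat.log p l := by exact_mod_cast ht
          have h5 : (Nat.log p l : ℝ) * (p - 2) + 2 ≤ l := by nlinarith
          have h6 : τ * ((Nat.log p l : ℝ) * (p - 2) + 2) ≤ τ * l :=
            mul_le_mul_of_nonneg_left h5 hτpos.le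
          have h7 : τ * ((Nat.log p l : ℝ) * (p - 2) + 2) = Nat.log p l + 2 * τ := by
            have : τ * ((Nat.log p l : ℝ) * (p - 2) + 2) =
              (τ * (p - 2)) * Nat.log p l + 2 * τ := by ring
            rw [this, hτm, one_mul]
          rw [hc]
          linarith)
    have hreq : NewtonOdd_r p 1 (1 : PadicAlgCl p) = (p : ℝ) ^ (-τ) := rfl
    have hv2 : ‖(F p N 1).coeff 2‖ * ((p : ℝ) ^ (-τ)) ^ 2 = (p : ℝ) ^ (-c) := by
      rw [norm_F_two hL hp, ← Real.rpow_natCast, ← Real.rpow_mul hp0.le, ← Real.rpow_add hp0]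
      congr 1
      rw [hc]
      push_cast
      ring
    have hv1 : ‖(F p N 1).coeff (p ^ 1)‖ * ((p : ℝ) ^ (-τ)) ^ (p ^ 1) = (p : ℝ) ^ (-c) := by
      rw [NewtonOdd_val hL hω τ (le_refl 1) hL.he]
      congr 2
      rw [hc, pow_one]
      push_cast
      linarith
    have d1 := dom_idx (F p N 1) hF hrpos 2 (by
      intro l
      rw [hreq, hv2]
      exact hdom l)
    have d2 := dom_idx (F p N 1) hF hrpos (p ^ 1) (by
      intro l
      rw [hreq, hv1]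
      exact hdom l)
    rw [pow_one] at d2
    have e1 := d1.1
    have e2 := d2.2
    rw [NewtonOdd_cnt_lt hL hω hrpos hrlt.le, hdl] at e1
    rw [NewtonOdd_cnt_le hL hω hrpos hrlt] at e2
    exact ⟨by omega, e2⟩
  · have hdl : NewtonOdd_dl ω = 0 := by
      unfold NewtonOdd_dl
      rw [if_neg h1]
    have hD : (Dw p 1 ω : ℝ) = p := by
      rw [NewtonOdd_Dw_one hp, hdl]
      norm_num
    set τ : ℝ := 1 / (Dw p 1 ω : ℝ) with hτ
    have hτpos : 0 < τ := by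
      rw [hτ, hD]
      positivity
    have hτm : τ * p = 1 := by
      rw [hτ, hD]
      field_simp
    set c : ℝ := (e : ℝ) with hc
    have h0 : ‖(F p N ω).coeff 0‖ ≤ (p : ℝ) ^ (-c) := by
      rw [norm_F_zero hL hω h1]
    have hdom := NewtonOdd_dom hL hω τ c h0 (by
      intro l hl
      right
      have h2 : ((p : ℝ)) ^ (Nat.log p l) ≤ l := by
        exact_mod_cast Nat.pow_log_le_self p (by omega)
      rcases Nat.eq_zero_or_pos (Nat.log p l) with ht | ht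
      · rw [ht]
        push_cast
        have : 0 ≤ τ * l := by positivity
        linarith
      · obtain ⟨s, hs⟩ : ∃ s, Nat.log p l = s + 1 := ⟨Nat.log p l - 1, by omega⟩
        rw [hs] at h2 ⊢
        have h3 : (s : ℝ) + 1 ≤ (p : ℝ) ^ s := by
          exact_mod_cast Nat.lt_pow_self (Fact.out : p.Prime).one_lt
        have h6 : τ * (p : ℝ) ^ (s + 1) ≤ τ * l := mul_le_mul_of_nonneg_left h2 hτpos.le
        have h7 : τ * (p : ℝ) ^ (s + 1) = (p : ℝ) ^ s := by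
          rw [pow_succ]
          have : τ * ((p : ℝ) ^ s * p) = (τ * p) * (p : ℝ) ^ s := by ring
          rw [this, hτm, one_mul]
        push_cast
        linarith)
    have hreq : NewtonOdd_r p 1 ω = (p : ℝ) ^ (-τ) := rfl
    have hv0 : ‖(F p N ω).coeff 0‖ * ((p : ℝ) ^ (-τ)) ^ 0 = (p : ℝ) ^ (-c) := by
      rw [pow_zero, mul_one, norm_F_zero hL hω h1]
    have hv1 : ‖(F p N ω).coeff (p ^ 1)‖ * ((p : ℝ) ^ (-τ)) ^ (p ^ 1) = (p : ℝ) ^ (-c) := by
      rw [NewtonOdd_val hL hω τ (le_refl 1) hL.he]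
      congr 2
      rw [pow_one, hτm]
      push_cast
      ring
    have d1 := dom_idx (F p N ω) hF hrpos 0 (by
      intro l
      rw [hreq, hv0]
      exact hdom l)
    have d2 := dom_idx (F p N ω) hF hrpos (p ^ 1) (by
      intro l
      rw [hreq, hv1]
      exact hdom l)
    rw [pow_one] at d2
    have e1 := d1.1
    have e2 := d2.2
    rw [NewtonOdd_cnt_lt hL hω hrpos hrlt.le, hdl] at e1
    rw [NewtonOdd_cnt_le hL hω hrpos hrlt] at e2
    exact ⟨by omega, e2⟩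

theorem NewtonOdd_top (hL : Loc p N n e M) (hω : ω ^ M = 1) :
    ((rts (PadicAlgCl p) (g N)).filter (fun x => ‖x - ω‖ < 1)).card + NewtonOdd_dl ω ≤ p ^ e := by
  have hF := F_ne_zero hL.hN ω
  have d1 := dom_idx (F p N ω) hF one_pos (p ^ e) (by
    intro l
    rw [norm_F_pow hL hω hL.he (le_refl e), sub_self, Real.rpow_zero]
    simpa using norm_F_le_one hL hω l)
  rw [← NewtonOdd_cnt_lt hL hω one_pos (le_refl 1)]
  exact d1.1

/-- the exact counts -/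
theorem NewtonOdd_le (hL : Loc p N n e M) (hp : p ≠ 2) (hω : ω ^ M = 1) {i : ℕ} (hi : 1 ≤ i)
    (hie : i ≤ e) :
    p ^ i ≤ ((rts (PadicAlgCl p) (g N)).filter (fun x => ‖x - ω‖ ≤ NewtonOdd_r p i ω)).card
        + NewtonOdd_dl ω := by
  rcases Nat.eq_or_lt_of_le hi with rfl | h
  · rw [pow_one]
    exact (NewtonOdd_one hL hp hω).2
  · exact (NewtonOdd_two hL hp hω h hie).2

/-- `{‖x - ω‖ < r_(i+1)} = {‖x - ω‖ ≤ r_i}` -/
theorem NewtonOdd_step (hL : Loc p N n e M) (hp : p ≠ 2) (hω : ω ^ M = 1) {i : ℕ} (hi : 1 ≤ i)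
    (hie : i + 1 ≤ e) :
    (rts (PadicAlgCl p) (g N)).filter (fun x => ‖x - ω‖ ≤ NewtonOdd_r p i ω) =
    (rts (PadicAlgCl p) (g N)).filter (fun x => ‖x - ω‖ < NewtonOdd_r p (i + 1) ω) := by
  apply Finset.eq_of_subset_of_card_le
  · intro x hx
    rw [Finset.mem_filter] at hx ⊢
    exact ⟨hx.1, lt_of_le_of_lt hx.2 (NewtonOdd_r_lt hp ω hi)⟩
  · have h1 := NewtonOdd_le hL hp hω hi (by omega)
    have h2 := (NewtonOdd_two hL hp hω (show 2 ≤ i + 1 by omega) hie).1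
    rw [Nat.add_sub_cancel] at h2
    omega

theorem NewtonOdd_last (hL : Loc p N n e M) (hp : p ≠ 2) (hω : ω ^ M = 1) :
    (rts (PadicAlgCl p) (g N)).filter (fun x => ‖x - ω‖ ≤ NewtonOdd_r p e ω) =
    (rts (PadicAlgCl p) (g N)).filter (fun x => ‖x - ω‖ < 1) := by
  apply Finset.eq_of_subset_of_card_le
  · intro x hx
    rw [Finset.mem_filter] at hx ⊢
    exact ⟨hx.1, lt_of_le_of_lt hx.2 (NewtonOdd_r_lt_one hp ω hL.he)⟩
  · have h1 := NewtonOdd_le hL hp hω hL.he (le_refl e)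
    have h2 := NewtonOdd_top hL hω
    omega

theorem NewtonOdd_card_le (hL : Loc p N n e M) (hp : p ≠ 2) (hω : ω ^ M = 1) {i : ℕ} (hi : 1 ≤ i)
    (hie : i ≤ e) :
    ((rts (PadicAlgCl p) (g N)).filter (fun x => ‖x - ω‖ ≤ NewtonOdd_r p i ω)).card
        + NewtonOdd_dl ω = p ^ i := by
  apply le_antisymm _ (NewtonOdd_le hL hp hω hi hie)
  rcases Nat.eq_or_lt_of_le hie with rfl | h
  · rw [NewtonOdd_last hL hp hω]
    exact NewtonOdd_top hL hω
  · rw [NewtonOdd_step hL hp hω hi h]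
    have h2 := (NewtonOdd_two hL hp hω (show 2 ≤ i + 1 by omega) h).1
    rwa [Nat.add_sub_cancel] at h2

theorem NewtonOdd_v_iff (hp : p ≠ 2) {i : ℕ} (hi : 1 ≤ i) (x : PadicAlgCl p) :
    v p (x - ω) = 1 / (Dw p i ω : ℝ) ↔ ‖x - ω‖ = NewtonOdd_r p i ω := by
  have hp1 : (1 : ℝ) < p := by exact_mod_cast (Fact.out : p.Prime).one_lt
  have hp0 : (0 : ℝ) < p := by linarith
  have hD := NewtonOdd_Dw_pos hp ω hi
  unfold v NewtonOdd_r
  constructor
  · intro h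
    have hne : ‖x - ω‖ ≠ 0 := by
      intro h0
      rw [h0, Real.logb_zero, neg_zero] at h
      have : (0 : ℝ) < 1 / (Dw p i ω : ℝ) := by positivity
      linarith
    have hpos : 0 < ‖x - ω‖ := lt_of_le_of_ne (norm_nonneg _) (Ne.symm hne)
    rw [← h, neg_neg, Real.rpow_logb hp0 hp1.ne' hpos]
  · intro h
    rw [h, Real.logb_rpow hp0 hp1.ne', neg_neg]

theorem newton_odd (hL : Loc p N n e M) (hp : p ≠ 2) (hω : ω ^ M = 1) :
    (∀ x ∈ cls p (g N) ω, ∃ i ∈ Finset.Icc 1 e, v p (x - ω) = 1 / (Dw p i ω : ℝ)) ∧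
    (∀ i ∈ Finset.Icc 1 e, (lvl p (g N) ω (1 / (Dw p i ω : ℝ))).card = Dw p i ω) := by
  have key : ∀ j : ℕ, 1 ≤ j → j ≤ e → ∀ x ∈ rts (PadicAlgCl p) (g N),
      ‖x - ω‖ ≤ NewtonOdd_r p j ω → ∃ i ∈ Finset.Icc 1 e, v p (x - ω) = 1 / (Dw p i ω : ℝ) := by
    intro j hj
    induction j, hj using Nat.le_induction with
    | base =>
      intro he x hx hle
      rcases lt_or_eq_of_le hle with hlt | heq
      · exfalso
        have h0 := (NewtonOdd_one hL hp hω).1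
        rw [Finset.card_eq_zero] at h0
        have : x ∈ (rts (PadicAlgCl p) (g N)).filter (fun x => ‖x - ω‖ < NewtonOdd_r p 1 ω) :=
          Finset.mem_filter.2 ⟨hx, hlt⟩
        rw [h0] at this
        exact absurd this (Finset.notMem_empty _)
      · exact ⟨1, Finset.mem_Icc.2 ⟨le_refl 1, he⟩, (NewtonOdd_v_iff hp (le_refl 1) x).2 heq⟩
    | succ j hj ih =>
      intro he x hx hle
      rcases lt_or_eq_of_le hle with hlt | heq
      · have : x ∈ (rts (PadicAlgCl p) (g N)).filter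
            (fun x => ‖x - ω‖ < NewtonOdd_r p (j + 1) ω) := Finset.mem_filter.2 ⟨hx, hlt⟩
        rw [← NewtonOdd_step hL hp hω hj he, Finset.mem_filter] at this
        exact ih (by omega) x hx this.2
      · exact ⟨j + 1, Finset.mem_Icc.2 ⟨by omega, he⟩,
          (NewtonOdd_v_iff hp (show 1 ≤ j + 1 by omega) x).2 heq⟩
  refine ⟨?_, ?_⟩
  · intro x hx
    rw [mem_cls] at hx
    have : x ∈ (rts (PadicAlgCl p) (g N)).filter (fun x => ‖x - ω‖ < 1) :=
      Finset.mem_filter.2 hx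
    rw [← NewtonOdd_last hL hp hω, Finset.mem_filter] at this
    exact key e hL.he (le_refl e) x hx.1 this.2
  · intro i hi
    rw [Finset.mem_Icc] at hi
    classical
    have hset : (rts (PadicAlgCl p) (g N)).filter (fun x => ‖x - ω‖ ≤ NewtonOdd_r p i ω) =
        (rts (PadicAlgCl p) (g N)).filter (fun x => ‖x - ω‖ < NewtonOdd_r p i ω) ∪
          lvl p (g N) ω (1 / (Dw p i ω : ℝ)) := by
      ext x
      rw [Finset.mem_union, Finset.mem_filter, Finset.mem_filter, mem_lvl,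
        NewtonOdd_v_iff hp hi.1]
      constructor
      · rintro ⟨h1, h2⟩
        rcases lt_or_eq_of_le h2 with h | h
        · exact Or.inl ⟨h1, h⟩
        · exact Or.inr ⟨h1, h⟩
      · rintro (⟨h1, h2⟩ | ⟨h1, h2⟩)
        · exact ⟨h1, h2.le⟩
        · exact ⟨h1, h2.le⟩
    have hdis : Disjoint ((rts (PadicAlgCl p) (g N)).filter
        (fun x => ‖x - ω‖ < NewtonOdd_r p i ω)) (lvl p (g N) ω (1 / (Dw p i ω : ℝ))) := by
      rw [Finset.disjoint_left]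
      intro x hx hx'
      rw [Finset.mem_filter] at hx
      rw [mem_lvl, NewtonOdd_v_iff hp hi.1] at hx'
      exact absurd hx'.2 hx.2.ne
    have hcard := NewtonOdd_card_le hL hp hω hi.1 hi.2
    rw [hset, Finset.card_union_of_disjoint hdis] at hcard
    have hDreal : ((lvl p (g N) ω (1 / (Dw p i ω : ℝ))).card : ℝ) = Dw p i ω := by
      rcases Nat.eq_or_lt_of_le hi.1 with rfl | h
      · rw [(NewtonOdd_one hL hp hω).1] at hcard
        rw [NewtonOdd_Dw_one hp]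
        have : ((lvl p (g N) ω (1 / (Dw p 1 ω : ℝ))).card : ℝ) + NewtonOdd_dl ω = p := by
          have h9 : (lvl p (g N) ω (1 / (Dw p 1 ω : ℝ))).card + NewtonOdd_dl ω = p := by
            rw [pow_one] at hcard
            omega
          exact_mod_cast h9
        rw [NewtonOdd_Dw_one hp] at this
        linarith
      · obtain ⟨j, rfl⟩ : ∃ j, i = j + 1 := ⟨i - 1, by omega⟩
        have hj : 1 ≤ j := by omega
        have h3 := NewtonOdd_card_le hL hp hω hj (by omega)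
        rw [NewtonOdd_step hL hp hω hj hi.2] at h3
        have h4 : (lvl p (g N) ω (1 / (Dw p (j + 1) ω : ℝ))).card + p ^ j = p ^ (j + 1) := by
          omega
        have h5 : ((lvl p (g N) ω (1 / (Dw p (j + 1) ω : ℝ))).card : ℝ) + (p : ℝ) ^ j =
            (p : ℝ) ^ (j + 1) := by exact_mod_cast h4
        rw [NewtonOdd_Dw_two ω h, Nat.add_sub_cancel] at *
        rw [pow_succ] at h5
        linarith
    exact_mod_cast hDreal

end Pool.Agent.IRR
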