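import Pool.Agent.IRR.Coeff
import Pool.Agent.IRR.DomIdx

/-!
# IRR.NewtonTwo: the types of roots in a class, `p = 2` (diff 3)

As in `IRR.NewtonOdd` (`φ(t) = e - t + τ 2^t`, `dom_idx`, `c(<r)`, `c(≤r)`).
* `τ = 1/2` (`r = 2^(-1/2)`): all values `u_k + k/2 ≥ e` for `k ≥ 1` with `F_k ≠ 0` except that
  `φ(0) = e + 1/2`, `φ(1) = φ(2) = e`; so for `ω ≠ 1` the indices `0`, `2` and (if `e ≥ 2`) `4`
  dominate; for `ω = 1` (`F_0 = F_1 = 0`) the indices `2` and (if `e ≥ 2`) `4` dominate.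
* `τ = 1/2^(i-1)`, `3 ≤ i ≤ e`: the indices `2^(i-1)`, `2^i` dominate.
* `r = 1`: the index `2^e` dominates.
For `ω = 1` the double root `y = 0` of `F` accounts for two of the roots counted.
-/

namespace Pool.Agent.IRR

open Polynomial

variable {N n e M : ℕ} {ω : PadicAlgCl 2}

/-- the radii -/
private noncomputable def NewtonTwo_r (i : ℕ) : ℝ := (2 : ℝ) ^ (-(1 / (2 : ℝ) ^ (i - 1)))

private theorem NewtonTwo_r_pos (i : ℕ) : 0 < NewtonTwo_r i := by
  unfold NewtonTwo_r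
  positivity

private theorem NewtonTwo_r_lt_one (i : ℕ) : NewtonTwo_r i < 1 := by
  unfold NewtonTwo_r
  refine Real.rpow_lt_one_of_one_lt_of_neg (by norm_num) ?_
  have : (0 : ℝ) < 1 / (2 : ℝ) ^ (i - 1) := by positivity
  linarith

private theorem NewtonTwo_r_lt {i j : ℕ} (hi : 1 ≤ i) (hij : i < j) :
    NewtonTwo_r i < NewtonTwo_r j := by
  unfold NewtonTwo_r
  refine Real.rpow_lt_rpow_of_exponent_lt (by norm_num) ?_
  have : 1 / (2 : ℝ) ^ (j - 1) < 1 / (2 : ℝ) ^ (i - 1) := by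
    refine one_div_lt_one_div_of_lt (by positivity) ?_
    exact pow_lt_pow_right₀ (by norm_num) (by omega)
  linarith

private theorem NewtonTwo_r_pow (i l : ℕ) :
    NewtonTwo_r i ^ l = (2 : ℝ) ^ (-((l : ℝ) / (2 : ℝ) ^ (i - 1))) := by
  unfold NewtonTwo_r
  rw [← Real.rpow_natCast, ← Real.rpow_mul (by norm_num)]
  congr 1
  ring

private theorem NewtonTwo_log (i l : ℕ) (hi : 2 ≤ i) (hl : 1 ≤ l) :
    (Nat.log 2 l : ℝ) - (l : ℝ) / (2 : ℝ) ^ (i - 1) ≤ (i : ℝ) - 2 := by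
  obtain ⟨t, ht⟩ : ∃ t, t = Nat.log 2 l := ⟨_, rfl⟩
  have h1 : 2 ^ t ≤ l := by
    rw [ht]
    exact Nat.pow_log_le_self 2 (by omega)
  have h1' : (2 : ℝ) ^ t ≤ l := by exact_mod_cast h1
  rw [← ht]
  have hq : (0 : ℝ) < (2 : ℝ) ^ (i - 1) := by positivity
  rcases Nat.lt_or_ge t (i - 1) with h | h
  · have h2 : (t : ℝ) + 2 ≤ i := by
      have : t + 2 ≤ i := by omega
      exact_mod_cast this
    have h3 : 0 ≤ (l : ℝ) / (2 : ℝ) ^ (i - 1) := by positivity
    linarith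
  · obtain ⟨m, rfl⟩ := Nat.exists_eq_add_of_le h
    have h2 : (2 : ℝ) ^ m ≤ (l : ℝ) / (2 : ℝ) ^ (i - 1) := by
      rw [le_div_iff₀ hq, mul_comm, ← pow_add]
      exact h1'
    have h3 : (m : ℝ) + 1 ≤ (2 : ℝ) ^ m := by
      have : m + 1 ≤ 2 ^ m := Nat.lt_two_pow_self
      exact_mod_cast this
    have h4 : ((i - 1 + m : ℕ) : ℝ) = (i : ℝ) - 1 + m := by
      push_cast [Nat.cast_sub (by omega : 1 ≤ i)]
      ring
    rw [h4]
    linarith

/-- all terms are at most `2^(i-2-e)` at the radius `r_i` -/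
private theorem NewtonTwo_term (hL : Loc 2 N n e M) (hω : ω ^ M = 1) (i : ℕ) (hi : 2 ≤ i) (l : ℕ) :
    ‖(F 2 N ω).coeff l‖ * NewtonTwo_r i ^ l ≤ (2 : ℝ) ^ ((i : ℝ) - 2 - e) := by
  rcases Nat.eq_zero_or_pos l with h | h
  · subst h
    rw [pow_zero, mul_one]
    by_cases h1 : ω = 1
    · subst h1
      rw [(F_one_zero (p := 2) hL.hN).1, norm_zero]
      positivity
    · have h2 := norm_F_zero hL hω h1
      rw [h2]
      push_cast
      refine Real.rpow_le_rpow_of_exponent_le (by norm_num) ?_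
      have : (2 : ℝ) ≤ i := by exact_mod_cast hi
      linarith
  · have h1 := norm_F_le hL hω h
    push_cast at h1
    rw [NewtonTwo_r_pow]
    calc ‖(F 2 N ω).coeff l‖ * (2 : ℝ) ^ (-((l : ℝ) / (2 : ℝ) ^ (i - 1)))
        ≤ (2 : ℝ) ^ ((Nat.log 2 l : ℝ) - e) * (2 : ℝ) ^ (-((l : ℝ) / (2 : ℝ) ^ (i - 1))) :=
          mul_le_mul_of_nonneg_right h1 (by positivity)
      _ = (2 : ℝ) ^ ((Nat.log 2 l : ℝ) - e + (-((l : ℝ) / (2 : ℝ) ^ (i - 1)))) := by
          rw [← Real.rpow_add (by norm_num)]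
      _ ≤ _ := by
          refine Real.rpow_le_rpow_of_exponent_le (by norm_num) ?_
          have := NewtonTwo_log i l hi h
          linarith

private theorem NewtonTwo_val (hL : Loc 2 N n e M) (hω : ω ^ M = 1) (i j : ℕ) (hj : 1 ≤ j)
    (hje : j ≤ e) : ‖(F 2 N ω).coeff (2 ^ j)‖ * NewtonTwo_r i ^ (2 ^ j) =
      (2 : ℝ) ^ ((j : ℝ) - e - (2 : ℝ) ^ j / (2 : ℝ) ^ (i - 1)) := by
  have h1 := norm_F_pow hL hω hj hje
  push_cast at h1
  rw [h1, NewtonTwo_r_pow, ← Real.rpow_add (by norm_num)]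
  congr 1
  push_cast
  ring

private theorem NewtonTwo_lo (hL : Loc 2 N n e M) (hω : ω ^ M = 1) (i : ℕ) (hi : 2 ≤ i)
    (hie : i ≤ e + 1) :
    (F 2 N ω).roots.countP (fun y => ‖y‖ < NewtonTwo_r i) ≤ 2 ^ (i - 1) ∧
    2 ^ (i - 1) ≤ (F 2 N ω).roots.countP (fun y => ‖y‖ ≤ NewtonTwo_r i) := by
  refine dom_idx (F 2 N ω) (F_ne_zero hL.hN ω) (NewtonTwo_r_pos i) (2 ^ (i - 1)) ?_
  intro l
  rw [NewtonTwo_val hL hω i (i - 1) (by omega) (by omega)]
  refine (NewtonTwo_term hL hω i hi l).trans (le_of_eq ?_)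
  congr 1
  rw [div_self (by positivity)]
  push_cast [Nat.cast_sub (by omega : 1 ≤ i)]
  ring

private theorem NewtonTwo_hi (hL : Loc 2 N n e M) (hω : ω ^ M = 1) (i : ℕ) (hi : 2 ≤ i)
    (hie : i ≤ e) :
    2 ^ i ≤ (F 2 N ω).roots.countP (fun y => ‖y‖ ≤ NewtonTwo_r i) := by
  refine (dom_idx (F 2 N ω) (F_ne_zero hL.hN ω) (NewtonTwo_r_pos i) (2 ^ i) ?_).2
  intro l
  rw [NewtonTwo_val hL hω i i (by omega) hie]
  refine (NewtonTwo_term hL hω i hi l).trans (le_of_eq ?_)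
  congr 1
  have : (2 : ℝ) ^ i / (2 : ℝ) ^ (i - 1) = 2 := by
    rw [div_eq_iff (by positivity), ← pow_succ']
    congr 1
    omega
  rw [this]
  ring

private theorem NewtonTwo_zero (hL : Loc 2 N n e M) (hω : ω ^ M = 1) (h1 : ω ≠ 1) :
    (F 2 N ω).roots.countP (fun y => ‖y‖ < NewtonTwo_r 2) ≤ 0 := by
  refine (dom_idx (F 2 N ω) (F_ne_zero hL.hN ω) (NewtonTwo_r_pos 2) 0 ?_).1
  intro l
  have h2 := norm_F_zero hL hω h1
  push_cast at h2
  rw [pow_zero, mul_one, h2]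
  refine (NewtonTwo_term hL hω 2 le_rfl l).trans (le_of_eq ?_)
  congr 1
  push_cast
  ring

private theorem NewtonTwo_one (hL : Loc 2 N n e M) (hω : ω ^ M = 1) :
    (F 2 N ω).roots.countP (fun y => ‖y‖ < 1) ≤ 2 ^ e := by
  refine (dom_idx (F 2 N ω) (F_ne_zero hL.hN ω) one_pos (2 ^ e) ?_).1
  intro l
  have h1 := norm_F_pow hL hω hL.he le_rfl
  push_cast at h1
  rw [sub_self, Real.rpow_zero] at h1
  rw [one_pow, one_pow, mul_one, mul_one, h1]
  exact norm_F_le_one hL hω l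

private theorem NewtonTwo_norm (hL : Loc 2 N n e M) (hω : ω ^ M = 1) (h1 : ω ≠ 1) :
    ‖1 - ω‖ = 1 :=
  mu_sep hL.hpM (one_pow M) hω (Ne.symm h1)

open Classical in
private theorem NewtonTwo_le (hL : Loc 2 N n e M) (hω : ω ^ M = 1) {r : ℝ} (h0 : 0 < r)
    (hr : r < 1) :
    (F 2 N ω).roots.countP (fun y => ‖y‖ ≤ r) =
      ((rts (PadicAlgCl 2) (g N)).filter (fun x => ‖x - ω‖ ≤ r)).card + if ω = 1 then 2 else 0 := by
  have h := F_countP hL.hN ω (fun y => ‖y‖ ≤ r)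
  have e1 : (if ‖1 - ω‖ ≤ r then 2 else 0) = (if ω = 1 then 2 else 0 : ℕ) := by
    by_cases hw : ω = 1
    · subst hw
      simp [h0.le]
    · rw [NewtonTwo_norm hL hω hw, if_neg (by linarith), if_neg hw]
  rw [← e1]
  convert h using 2

open Classical in
private theorem NewtonTwo_ltc (hL : Loc 2 N n e M) (hω : ω ^ M = 1) {r : ℝ} (h0 : 0 < r)
    (hr : r ≤ 1) :
    (F 2 N ω).roots.countP (fun y => ‖y‖ < r) =
      ((rts (PadicAlgCl 2) (g N)).filter (fun x => ‖x - ω‖ < r)).card + if ω = 1 then 2 else 0 := by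
  have h := F_countP hL.hN ω (fun y => ‖y‖ < r)
  have e1 : (if ‖1 - ω‖ < r then 2 else 0) = (if ω = 1 then 2 else 0 : ℕ) := by
    by_cases hw : ω = 1
    · subst hw
      simp [h0]
    · rw [NewtonTwo_norm hL hω hw, if_neg (by linarith), if_neg hw]
  rw [← e1]
  convert h using 2

open Classical in
/-- card of the finite sets of roots -/
private theorem NewtonTwo_cards (hL : Loc 2 N n e M) (hω : ω ^ M = 1) :
    (((rts (PadicAlgCl 2) (g N)).filter (fun x => ‖x - ω‖ < NewtonTwo_r 2)).card = 0) ∧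
    (((rts (PadicAlgCl 2) (g N)).filter (fun x => ‖x - ω‖ ≤ NewtonTwo_r 2)).card +
      (if ω = 1 then 2 else 0) = if e = 1 then 2 else 4) ∧
    (∀ i, 2 ≤ i → i ≤ e →
      ((rts (PadicAlgCl 2) (g N)).filter (fun x => ‖x - ω‖ ≤ NewtonTwo_r i)).card +
      (if ω = 1 then 2 else 0) = 2 ^ i) ∧
    (∀ i, 3 ≤ i → i ≤ e →
      ((rts (PadicAlgCl 2) (g N)).filter (fun x => ‖x - ω‖ < NewtonTwo_r i)).card +
      (if ω = 1 then 2 else 0) = 2 ^ (i - 1)) ∧
    (((rts (PadicAlgCl 2) (g N)).filter (fun x => ‖x - ω‖ < 1)).card +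
      (if ω = 1 then 2 else 0) = 2 ^ e) := by
  have he := hL.he
  obtain ⟨δ, hδ⟩ : ∃ δ : ℕ, δ = if ω = 1 then 2 else 0 := ⟨_, rfl⟩
  obtain ⟨A, hA⟩ : ∃ A : ℕ → ℕ, A = fun i =>
    ((rts (PadicAlgCl 2) (g N)).filter (fun x => ‖x - ω‖ ≤ NewtonTwo_r i)).card := ⟨_, rfl⟩
  obtain ⟨B, hB⟩ : ∃ B : ℕ → ℕ, B = fun i =>
    ((rts (PadicAlgCl 2) (g N)).filter (fun x => ‖x - ω‖ < NewtonTwo_r i)).card := ⟨_, rfl⟩
  obtain ⟨c1, hc1⟩ : ∃ c1 : ℕ, c1 =
    ((rts (PadicAlgCl 2) (g N)).filter (fun x => ‖x - ω‖ < 1)).card := ⟨_, rfl⟩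
  have a1 : ∀ i, 2 ≤ i → i ≤ e + 1 → B i + δ ≤ 2 ^ (i - 1) ∧ 2 ^ (i - 1) ≤ A i + δ := by
    intro i hi hie
    have h := NewtonTwo_lo hL hω i hi hie
    rw [NewtonTwo_le hL hω (NewtonTwo_r_pos i) (NewtonTwo_r_lt_one i),
      NewtonTwo_ltc hL hω (NewtonTwo_r_pos i) (NewtonTwo_r_lt_one i).le] at h
    rw [hA, hB, hδ]
    exact h
  have a2 : ∀ i, 2 ≤ i → i ≤ e → 2 ^ i ≤ A i + δ := by
    intro i hi hie
    have h := NewtonTwo_hi hL hω i hi hie
    rw [NewtonTwo_le hL hω (NewtonTwo_r_pos i) (NewtonTwo_r_lt_one i)] at h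
    rw [hA, hδ]
    exact h
  have a3 : c1 + δ ≤ 2 ^ e := by
    have h := NewtonTwo_one hL hω
    rw [NewtonTwo_ltc hL hω one_pos le_rfl] at h
    rw [hc1, hδ]
    exact h
  have a4 : B 2 = 0 := by
    by_cases hw : ω = 1
    · have := (a1 2 le_rfl (by omega)).1
      rw [hδ, if_pos hw] at this
      norm_num at this
      exact this
    · have h := NewtonTwo_zero hL hω hw
      rw [NewtonTwo_ltc hL hω (NewtonTwo_r_pos 2) (NewtonTwo_r_lt_one 2).le] at h
      simp only [hB]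
      omega
  have a5 : ∀ i j, 1 ≤ i → i < j → A i ≤ B j := by
    intro i j hi hij
    rw [hA, hB]
    refine Finset.card_le_card ?_
    intro x hx
    rw [Finset.mem_filter] at hx ⊢
    exact ⟨hx.1, lt_of_le_of_lt hx.2 (NewtonTwo_r_lt hi hij)⟩
  have a6 : ∀ i, A i ≤ c1 := by
    intro i
    rw [hA, hc1]
    refine Finset.card_le_card ?_
    intro x hx
    rw [Finset.mem_filter] at hx ⊢
    exact ⟨hx.1, lt_of_le_of_lt hx.2 (NewtonTwo_r_lt_one i)⟩
  have b1 : ∀ i, 2 ≤ i → i ≤ e → A i + δ = 2 ^ i := by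
    intro i hi hie
    have h1 := a2 i hi hie
    have h2 := a5 i (i + 1) (by omega) (by omega)
    have h3 := (a1 (i + 1) (by omega) (by omega)).1
    rw [Nat.add_sub_cancel] at h3
    omega
  have b2 : ∀ i, 3 ≤ i → i ≤ e → B i + δ = 2 ^ (i - 1) := by
    intro i hi hie
    have h1 := b1 (i - 1) (by omega) (by omega)
    have h2 := a5 (i - 1) i (by omega) (by omega)
    have h3 := (a1 i (by omega) (by omega)).1
    omega
  have b3 : A 2 + δ = if e = 1 then 2 else 4 := by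
    by_cases h : e = 1
    · rw [if_pos h]
      have h1 := (a1 2 le_rfl (by omega)).2
      have h2 := a6 2
      rw [h] at a3
      norm_num at h1 a3
      omega
    · rw [if_neg h]
      have := b1 2 le_rfl (by omega)
      simpa using this
  have b4 : c1 + δ = 2 ^ e := by
    by_cases h : e = 1
    · have h2 := a6 2
      rw [if_pos h] at b3
      rw [h] at a3 ⊢
      norm_num at a3 ⊢
      omega
    · have h1 := b1 e (by omega) le_rfl
      have h2 := a6 e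
      omega
  rw [← hδ, ← hc1]
  refine ⟨?_, ?_, ?_, ?_, b4⟩
  · rw [hB] at a4; exact a4
  · rw [hA] at b3; exact b3
  · intro i hi hie
    have := b1 i hi hie
    rw [hA] at this; exact this
  · intro i hi hie
    have := b2 i hi hie
    rw [hB] at this; exact this

private theorem NewtonTwo_v_of_norm {y : PadicAlgCl 2} {i : ℕ} (h : ‖y‖ = NewtonTwo_r i) :
    v 2 y = 1 / (2 : ℝ) ^ (i - 1) := by
  unfold v
  rw [h]
  unfold NewtonTwo_r
  push_cast
  rw [Real.logb_rpow (by norm_num) (by norm_num), neg_neg]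

private theorem NewtonTwo_norm_of_v {y : PadicAlgCl 2} {i : ℕ}
    (h : v 2 y = 1 / (2 : ℝ) ^ (i - 1)) : ‖y‖ = NewtonTwo_r i := by
  have h0 : 0 < v 2 y := by rw [h]; positivity
  have h1 := norm_eq (ne_zero_of_v_pos h0)
  rw [h1, h]
  unfold NewtonTwo_r
  push_cast
  rfl

open Classical in
private theorem NewtonTwo_lvl (i : ℕ) :
    (lvl 2 (g N) ω (1 / (2 : ℝ) ^ (i - 1))).card +
      ((rts (PadicAlgCl 2) (g N)).filter (fun x => ‖x - ω‖ < NewtonTwo_r i)).card =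
      ((rts (PadicAlgCl 2) (g N)).filter (fun x => ‖x - ω‖ ≤ NewtonTwo_r i)).card := by
  rw [← Finset.card_union_of_disjoint]
  · congr 1
    ext x
    rw [Finset.mem_union, mem_lvl, Finset.mem_filter, Finset.mem_filter]
    constructor
    · rintro (⟨h1, h2⟩ | ⟨h1, h2⟩)
      · exact ⟨h1, (NewtonTwo_norm_of_v h2).le⟩
      · exact ⟨h1, h2.le⟩
    · rintro ⟨h1, h2⟩
      rcases h2.lt_or_eq with h | h
      · exact Or.inr ⟨h1, h⟩
      · exact Or.inl ⟨h1, NewtonTwo_v_of_norm h⟩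
  · rw [Finset.disjoint_left]
    intro x hx hx'
    rw [mem_lvl] at hx
    rw [Finset.mem_filter] at hx'
    have := NewtonTwo_norm_of_v hx.2
    linarith [hx'.2]

theorem newton_two (hL : Loc 2 N n e M) (hω : ω ^ M = 1) :
    (∀ x ∈ cls 2 (g N) ω, v 2 (x - ω) = 1 / 2 ∨
      ∃ i ∈ Finset.Icc 3 e, v 2 (x - ω) = 1 / (D 2 i : ℝ)) ∧
    (ω ≠ 1 → (lvl 2 (g N) ω (1 / 2)).card = if e = 1 then 2 else 4) ∧
    (ω = 1 → (lvl 2 (g N) ω (1 / 2)).card = if e = 1 then 0 else 2) ∧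
    (∀ i ∈ Finset.Icc 3 e, (lvl 2 (g N) ω (1 / (D 2 i : ℝ))).card = D 2 i) := by
  classical
  obtain ⟨k1, k2, k3, k4, k5⟩ := NewtonTwo_cards hL hω
  have he := hL.he
  have hD : ∀ i, 3 ≤ i → D 2 i = 2 ^ (i - 1) := by
    intro i hi
    unfold D
    rw [if_neg (by omega)]
    simp
  have l2 := NewtonTwo_lvl (N := N) (ω := ω) 2
  have e2 : (1 / (2 : ℝ) ^ (2 - 1)) = 1 / 2 := by norm_num
  rw [e2, k1, add_zero] at l2
  refine ⟨?_, ?_, ?_, ?_⟩
  · intro x hx
    rw [mem_cls] at hx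
    -- going down
    have key : ∀ j, 2 ≤ j → (j ≤ e ∨ j = 2) → ‖x - ω‖ ≤ NewtonTwo_r j →
        ∃ i, 2 ≤ i ∧ i ≤ j ∧ ‖x - ω‖ = NewtonTwo_r i := by
      intro j hj
      induction j, hj using Nat.le_induction with
      | base =>
        intro _ h
        rcases h.lt_or_eq with h1 | h1
        · exfalso
          rw [Finset.card_eq_zero] at k1
          have : x ∈ ((rts (PadicAlgCl 2) (g N)).filter
              (fun x => ‖x - ω‖ < NewtonTwo_r 2)) := by
            rw [Finset.mem_filter]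
            exact ⟨hx.1, h1⟩
          rw [k1] at this
          simp at this
        · exact ⟨2, le_rfl, le_rfl, h1⟩
      | succ j hj ih =>
        intro hje h
        have hje' : j + 1 ≤ e := by omega
        rcases h.lt_or_eq with h1 | h1
        · have c1 := k4 (j + 1) (by omega) hje'
          have c2 := k3 j hj (by omega)
          rw [Nat.add_sub_cancel] at c1
          have hsub : ((rts (PadicAlgCl 2) (g N)).filter (fun x => ‖x - ω‖ ≤ NewtonTwo_r j)) ⊆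
              ((rts (PadicAlgCl 2) (g N)).filter (fun x => ‖x - ω‖ < NewtonTwo_r (j + 1))) := by
            intro y hy
            rw [Finset.mem_filter] at hy ⊢
            exact ⟨hy.1, lt_of_le_of_lt hy.2 (NewtonTwo_r_lt (by omega) (by omega))⟩
          have heq := Finset.eq_of_subset_of_card_le hsub (by omega)
          have hx' : x ∈ ((rts (PadicAlgCl 2) (g N)).filter
              (fun x => ‖x - ω‖ < NewtonTwo_r (j + 1))) := by
            rw [Finset.mem_filter]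
            exact ⟨hx.1, h1⟩
          rw [← heq, Finset.mem_filter] at hx'
          obtain ⟨i, i1, i2, i3⟩ := ih (Or.inl (by omega)) hx'.2
          exact ⟨i, i1, by omega, i3⟩
        · exact ⟨j + 1, by omega, le_rfl, h1⟩
    have top : ∃ i, 2 ≤ i ∧ (i ≤ e ∨ i = 2) ∧ ‖x - ω‖ = NewtonTwo_r i := by
      have hx1 : x ∈ ((rts (PadicAlgCl 2) (g N)).filter (fun x => ‖x - ω‖ < 1)) := by
        rw [Finset.mem_filter]
        exact hx
      by_cases h1 : e = 1
      · rw [if_pos h1] at k2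
        rw [h1, pow_one] at k5
        have hsub : ((rts (PadicAlgCl 2) (g N)).filter (fun x => ‖x - ω‖ ≤ NewtonTwo_r 2)) ⊆
            ((rts (PadicAlgCl 2) (g N)).filter (fun x => ‖x - ω‖ < 1)) := by
          intro y hy
          rw [Finset.mem_filter] at hy ⊢
          exact ⟨hy.1, lt_of_le_of_lt hy.2 (NewtonTwo_r_lt_one 2)⟩
        have heq := Finset.eq_of_subset_of_card_le hsub (by omega)
        rw [← heq, Finset.mem_filter] at hx1
        obtain ⟨i, i1, i2, i3⟩ := key 2 le_rfl (Or.inr rfl) hx1.2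
        exact ⟨i, i1, Or.inr (by omega), i3⟩
      · have c2 := k3 e (by omega) le_rfl
        have hsub : ((rts (PadicAlgCl 2) (g N)).filter (fun x => ‖x - ω‖ ≤ NewtonTwo_r e)) ⊆
            ((rts (PadicAlgCl 2) (g N)).filter (fun x => ‖x - ω‖ < 1)) := by
          intro y hy
          rw [Finset.mem_filter] at hy ⊢
          exact ⟨hy.1, lt_of_le_of_lt hy.2 (NewtonTwo_r_lt_one e)⟩
        have heq := Finset.eq_of_subset_of_card_le hsub (by omega)
        rw [← heq, Finset.mem_filter] at hx1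
        obtain ⟨i, i1, i2, i3⟩ := key e (by omega) (Or.inl le_rfl) hx1.2
        exact ⟨i, i1, Or.inl i2, i3⟩
    obtain ⟨i, i1, i2, i3⟩ := top
    have hv := NewtonTwo_v_of_norm i3
    rcases Nat.lt_or_ge i 3 with h | h
    · have : i = 2 := by omega
      subst this
      left
      rw [hv]
      norm_num
    · right
      refine ⟨i, Finset.mem_Icc.2 ⟨h, by omega⟩, ?_⟩
      rw [hv, hD i h]
      push_cast
      rfl
  · intro h1
    rw [if_neg h1, add_zero] at k2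
    rw [l2, k2]
  · intro h1
    rw [if_pos h1] at k2
    rw [l2]
    split_ifs at k2 ⊢ <;> omega
  · intro i hi
    rw [Finset.mem_Icc] at hi
    have li := NewtonTwo_lvl (N := N) (ω := ω) i
    have c1 := k3 i (by omega) hi.2
    have c2 := k4 i hi.1 hi.2
    rw [hD i hi.1]
    push_cast
    have e1 : 2 ^ i = 2 ^ (i - 1) * 2 := by
      rw [← pow_succ]
      congr 1
      omega
    omega

end Pool.Agent.IRR
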