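import Pool.Agent.IRR.Defs

/-!
# IRR: executable numerical checkers (no proofs here)

All logarithms are base 2 and in units `1/1024`.
`lo n / 1024 ≤ log2 n < (lo n + 1) / 1024`.
-/

namespace Pool.Agent.IRR

/-- ceiling division -/
def cdiv (a b : ℕ) : ℕ := (a + b - 1) / b

/-- evaluate `x` first (for the kernel), then apply `F` -/
def force {α : Type} (x : ℕ) (F : ℕ → α) : α :=
  match x with
  | 0 => F 0
  | n + 1 => F (n + 1)

theorem force_eq {α : Type} (x : ℕ) (F : ℕ → α) : force x F = F x := by cases x <;> rfl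

/-- binary search for the largest `L' < L + 2^k` with `2^L' ≤ m` -/
def loGo (m : ℕ) : ℕ → ℕ → ℕ
  | 0, L => L
  | k + 1, L =>
    force (L + Nat.pow 2 k) fun L' =>
      cond (Nat.ble 1 (Nat.shiftRight m L')) (loGo m k L') (loGo m k L)

/-- `⌊1024 log2 n⌋` for `0 < n < 2^64` -/
def lo (n : ℕ) : ℕ := force (Nat.pow n 1024) fun m => loGo m 16 0

/-! ## small `N` -/

/-- exponent of `p` in `n`, with fuel -/
def vpf : ℕ → ℕ → ℕ → ℕ
  | 0, _, _ => 0
  | k + 1, p, n => cond (Nat.beq (n % p) 0) (vpf k p (n / p) + 1) 0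

/-- primes `p < 91` with `lo p + 1` -/
def smallPrimes : List (ℕ × ℕ) :=
  [(2, 1025), (3, 1624), (5, 2378), (7, 2875), (11, 3543), (13, 3790), (17, 4186), (19, 4350),
   (23, 4633), (29, 4975), (31, 5074), (37, 5335), (41, 5487), (43, 5557), (47, 5688), (53, 5866),
   (59, 6024), (61, 6074), (67, 6212), (71, 6298), (73, 6339), (79, 6456), (83, 6529), (89, 6632)]

/-- the primes `p` whose square divides `N (N-1)`, as triples `(p, lo p + 1, exponent)`
(`n = N (N-1)`, accumulator `acc`) -/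
def sqs (n : ℕ) : List (ℕ × ℕ) → List (ℕ × ℕ × ℕ) → List (ℕ × ℕ × ℕ)
  | [], acc => acc
  | (p, h) :: l, acc =>
    cond (Nat.beq (n % (p * p)) 0)
      (force (vpf 14 p n) fun e => sqs n l ((p, h, e) :: acc))
      (sqs n l acc)

/-- the affine upper bounds for `1024 * V p * log2 p` : code `0` = T1, code `1` = T3, code `j+2` = T2 with `j`;
`a = lo N + 1`, `h = lo p + 1`, `e` = exponent of `p`. -/
def bd (N a p h e c d : ℕ) : ℕ :=
  match c with
  | 0 => (e - 1) * d * h
  | 1 => d * 1024 + cdiv (d * N * (1024 + a)) ((N - 1) * p)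
  | j + 2 => j * d * h + cdiv (N * p * h) ((p * p - 1) * Nat.pow p j)

/-- best code at `d`, among the codes `< k` and the current best code `c` with value `v` -/
def best (N a p h e d : ℕ) : ℕ → ℕ → ℕ → ℕ
  | 0, c, _ => c
  | k + 1, c, v =>
    force (bd N a p h e k d) fun w => cond (Nat.blt w v) (best N a p h e d k k w) (best N a p h e d k c v)

/-- the code used for the prime `p` -/
def code (all1 : Bool) (N a p h e d : ℕ) : ℕ :=
  cond all1 0 (best N a p h e d (e + 1) 0 ((e - 1) * d * h))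

/-- the energy inequality fails at `d`, if `s` is an upper bound for `1024 ∑ V p log2 p`;
`a = lo N + 1`, `b = lo (N-1) + 1` -/
def flowOK (N a b d s : ℕ) : Bool :=
  Nat.blt (s + (a + b) + cdiv (d * d * (1024 + a)) (N - 1) + d * (lo d + 1) + 2 * d)
    (d * (a + b) + 1024)

/-- check on `[d1, d2]`, with the codes chosen at `dm`, evaluated at `d1` and `d2` -/
def pieceGo (N a b dm d1 d2 : ℕ) (all1 : Bool) : List (ℕ × ℕ × ℕ) → ℕ → ℕ → Bool
  | [], s1, s2 => and (flowOK N a b d1 s1) (flowOK N a b d2 s2)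
  | (p, h, e) :: l, s1, s2 =>
    force (code all1 N a p h e dm) fun c =>
      force (s1 + bd N a p h e c d1) fun s1' =>
        force (s2 + bd N a p h e c d2) fun s2' => pieceGo N a b dm d1 d2 all1 l s1' s2'

/-- bisection until the piece check succeeds -/
def pieces (N a b : ℕ) (sq : List (ℕ × ℕ × ℕ)) : ℕ → ℕ → ℕ → Bool
  | 0, _, _ => false
  | k + 1, d1, d2 =>
    or (pieceGo N a b ((2 * d1 + d2) / 3) d1 d2 false sq 0 0)
      (force ((2 * d1 + d2) / 3) fun m =>
        and (Nat.blt m d2) (and (pieces N a b sq k d1 m) (pieces N a b sq k (m + 1) d2)))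

/-- the complete check for one `N` -/
def okN (N : ℕ) : Bool :=
  force (lo N + 1) fun a =>
  force (lo (N - 1) + 1) fun b =>
  force (max 1 (cdiv ((N - 1) * 1024) (1024 + a))) fun dmin =>
  force ((N - 2) / 2) fun dmax =>
    or (Nat.blt dmax dmin)
      (or (pieceGo N a b dmin dmin dmax true (sqs (N * (N - 1)) smallPrimes []) 0 0)
        (pieces N a b (sqs (N * (N - 1)) smallPrimes []) 8 dmin dmax))

/-- check all `N` in `[s, s + 2^k)` except `N < 5` and `N = 8, 9, 10, 25` -/
def rangeOK : ℕ → ℕ → Bool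
  | 0, N =>
    or (or (Nat.blt N 5) (or (or (Nat.beq N 8) (Nat.beq N 9)) (or (Nat.beq N 10) (Nat.beq N 25))))
      (okN N)
  | k + 1, s => and (rangeOK k s) (force (s + Nat.pow 2 k) fun t => rangeOK k t)

/-! ## middle range -/

/-- upper bound (units 1/1024) for `(V p / d) * log2 p` from T2, T3 when `log2(2N)·N/(N-1) ≤ Kb/1024`
and `d / N ≥ A / 10^6`; `h = lo p + 1`; the recursion is over `j` (fuel). -/
def bmin (p h A : ℕ) : ℕ → ℕ → ℕ → ℕ → ℕ
  | 0, _, _, b => b
  | k + 1, j, pj, b =>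
    cond (Nat.ble b (j * h)) b
      (force (min b (j * h + cdiv (p * h * 1000000) ((p * p - 1) * pj * A))) fun b' =>
        force (pj * p) fun pj' => bmin p h A k (j + 1) pj' b')

/-- bound for one prime -/
def bval (p h Kb A : ℕ) : ℕ := bmin p h A 40 0 1 (1024 + cdiv Kb p)

/-- upper bound for `max_{e' ≥ e} (100 min((e'-1) log p, b) - lam e' log p)^+` and `r`,
recursion over `e` with fuel (`100 b` is returned when the fuel is exhausted). -/
def rho (h b lam : ℕ) : ℕ → ℕ → ℕ → ℕ
  | 0, _, r => max r (100 * b)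
  | k + 1, e, r =>
    force (max r (100 * min ((e - 1) * h) b - lam * e * (h - 1))) fun r' =>
      cond (Nat.ble b ((e - 1) * (h - 1))) r' (rho h b lam k (e + 1) r')

/-- sum of `rho` over the table until the cut-off compared with the budget `T` -/
def rhoSum (Kb A lam T : ℕ) : List (ℕ × ℕ) → ℕ → Bool
  | [], _ => false
  | (p, h) :: t, acc =>
    cond (Nat.ble (100 * (1024 * p + Kb)) (2 * lam * (h - 1) * p))
      (Nat.blt (acc * 1000000) T)
      (force (bval p h Kb A) fun b =>
        force (acc + rho h b lam 60 2 0) fun acc' => rhoSum Kb A lam T t acc')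

/-- box check: `K ≥ Ka/1024`, `K N/(N-1) ≤ Kb/1024`, `A/10^6 ≤ d/N ≤ B/10^6` (`K = log2 (2N)`) -/
def boxOK (tbl : List (ℕ × ℕ)) (Ka Kb A B lam : ℕ) : Bool :=
  and (Nat.ble (100 * B + 2 * lam * 1000000) (100 * 1000000))
    (force (((100 - 2 * lam) * 1000000 - 100 * B) * Ka + 100 * lo 1000000 * 1000000
        - ((100 - 2 * lam) * 1024 * 1000000 + 100 * (lo B + 1) * 1000000 + 5 * 1024 * 1000000))
      fun T => rhoSum Kb A lam T tbl 0)

/-- chain of boxes in `d/N` -/
def rowOK (tbl : List (ℕ × ℕ)) (Ka Kb : ℕ) : ℕ → List (ℕ × ℕ) → Bool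
  | A, [] => Nat.ble 500000 A
  | A, (B, lam) :: t => and (boxOK tbl Ka Kb A B lam) (rowOK tbl Ka Kb B t)

/-- the rows of the table: `(K', boxes)`; a row covers `[K, K']` where `K` is the previous `K'`. -/
def tableOK (tbl : List (ℕ × ℕ)) : ℕ → List (ℕ × List (ℕ × ℕ)) → Bool
  | _, [] => true
  | K, (K', row) :: t =>
    and (rowOK tbl K (K' + 2) (8191 * 1000000 * 1024 / (8192 * (K' + 2))) row)
      (tableOK tbl K' t)

/-! ## checks of the prime table -/

/-- the logarithms are correct -/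
def logsOK : List (ℕ × ℕ) → Bool
  | [] => true
  | (p, h) :: t => and (Nat.beq (lo p + 1) h) (logsOK t)

/-- `m, m+1, …, m+k-1` are not coprime to `Q` -/
def compOK (Q : ℕ) : ℕ → ℕ → Bool
  | 0, _ => true
  | k + 1, m => and (Nat.blt 1 (Nat.gcd m Q)) (force (m + 1) fun m' => compOK Q k m')

/-- the table is increasing, starts above `a`, and all numbers `> a` between its entries are not
coprime to `Q` -/
def gapsOK (Q : ℕ) : ℕ → List (ℕ × ℕ) → Bool
  | _, [] => true
  | a, (p, _) :: t => and (and (Nat.blt a p) (compOK Q (p - a - 1) (a + 1))) (gapsOK Q p t)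

end Pool.Agent.IRR
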