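import Pool.Agent.IRR.Val

/-!
# IRR.PowMap: the maps `u ↦ u^p`, `u ↦ u^M` near `1` (diff 2)

`u = 1 + t`, `s = v t > 0`: `u^p - 1 = p t + ∑_{2≤k<p} C(p,k) t^k + t^p`; the middle terms have
`v ≥ 1 + 2 s > 1 + s`, so `v(u^p - 1) ≥ min(p s, s + 1)`, with equality to `s + 1` if `s + 1 < p s`, i.e.
`s > 1/(p-1)`.  `u^M - 1 = t (M + (multiple of t))`, so `v(u^M - 1) = v t` if `p ∤ M`.
-/

namespace Pool.Agent.IRR

open Polynomial

variable {p : ℕ} [Fact p.Prime] {u : PadicAlgCl p}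

theorem PowMap_expand (u : PadicAlgCl p) (n : ℕ) :
    u ^ n - 1 = ∑ k ∈ Finset.range n, (n.choose (k + 1) : PadicAlgCl p) * (u - 1) ^ (k + 1) := by
  have h : u ^ n = ((u - 1) + 1) ^ n := by ring
  rw [h, add_pow, Finset.sum_range_succ']
  simp only [one_pow, mul_one, pow_zero, Nat.choose_zero_right, Nat.cast_one, one_mul,
    add_sub_cancel_right]
  refine Finset.sum_congr rfl fun k _ => ?_
  ring

theorem PowMap_v_choose {k : ℕ} (hk : 1 ≤ k) (hkp : k < p) :
    v p ((p.choose k : ℕ) : PadicAlgCl p) = 1 := by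
  have hp : p.Prime := Fact.out
  rw [v_natCast (Nat.choose_pos hkp.le).ne']
  have h1 : padicValNat p (p.choose k) = 1 := by
    have h2 : k * p.choose k = p * (p - 1).choose (k - 1) := by
      obtain ⟨q, rfl⟩ : ∃ q, p = q + 1 := ⟨p - 1, by omega⟩
      obtain ⟨j, rfl⟩ : ∃ j, k = j + 1 := ⟨k - 1, by omega⟩
      have := Nat.add_one_mul_choose_eq q j
      simp only [Nat.add_sub_cancel]
      rw [this]; ring
    have hc : ((p - 1).choose (k - 1)) ≠ 0 := (Nat.choose_pos (by omega)).ne'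
    have h3 : ¬ p ∣ (p - 1).choose (k - 1) := by
      intro hd
      have h4 : p ∣ (p - 1).factorial := by
        rw [← Nat.choose_mul_factorial_mul_factorial (n := p - 1) (k := k - 1) (by omega)]
        exact Dvd.dvd.mul_right (Dvd.dvd.mul_right hd _) _
      have := (hp.dvd_factorial).1 h4
      have := hp.one_lt
      omega
    have h5 := congrArg (padicValNat p) h2
    rw [padicValNat.mul (by omega) (Nat.choose_pos hkp.le).ne', padicValNat.mul hp.ne_zero hc,
      padicValNat_self, padicValNat.eq_zero_of_not_dvd (n := k)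
        (fun h => absurd (Nat.le_of_dvd (by omega) h) (by omega)),
      padicValNat.eq_zero_of_not_dvd h3] at h5
    omega
  rw [h1]; simp

theorem PowMap_v_term {k : ℕ} (hk : 1 ≤ k) (hkp : k < p) {t : PadicAlgCl p} (ht : t ≠ 0) :
    v p ((p.choose k : PadicAlgCl p) * t ^ k) = 1 + k * v p t := by
  rw [v_mul (Nat.cast_ne_zero.2 (Nat.choose_pos hkp.le).ne') (pow_ne_zero _ ht),
    PowMap_v_choose hk hkp, v_pow]

theorem PowMap_vpos (hu : ‖u - 1‖ < 1) (hu1 : u ≠ 1) : 0 < v p (u - 1) :=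
  (v_pos_iff (sub_ne_zero.2 hu1)).2 hu

theorem v_pow_p_ge (hu : ‖u - 1‖ < 1) (hu1 : u ^ p ≠ 1) :
    min (p * v p (u - 1)) (v p (u - 1) + 1) ≤ v p (u ^ p - 1) := by
  have hu2 : u ≠ 1 := fun h => hu1 (by rw [h, one_pow])
  have hs := PowMap_vpos hu hu2
  have hne : u ^ p - 1 ≠ 0 := sub_ne_zero.2 hu1
  rw [PowMap_expand] at hne ⊢
  refine v_sum_ge _ _ _ (fun k hk => Or.inr ?_) hne
  have hkp : k < p := Finset.mem_range.1 hk
  rcases Nat.lt_or_ge (k + 1) p with h | h
  · rw [PowMap_v_term (by omega) h (sub_ne_zero.2 hu2)]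
    refine (min_le_right _ _).trans ?_
    push_cast
    nlinarith [mul_nonneg (Nat.cast_nonneg (α := ℝ) k) hs.le]
  · have h2 : k + 1 = p := by omega
    rw [h2, Nat.choose_self, Nat.cast_one, one_mul, v_pow]
    exact min_le_left _ _

theorem v_pow_p_eq (hu : ‖u - 1‖ < 1) (hu1 : u ≠ 1) (hs : 1 / ((p : ℝ) - 1) < v p (u - 1)) :
    v p (u ^ p - 1) = v p (u - 1) + 1 := by
  have hp : p.Prime := Fact.out
  have hp1 : (1 : ℝ) < p := by exact_mod_cast hp.one_lt
  have hp2 : (2 : ℝ) ≤ p := by exact_mod_cast hp.two_le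
  have hs0 := PowMap_vpos hu hu1
  have ht : u - 1 ≠ 0 := sub_ne_zero.2 hu1
  have hs' : v p (u - 1) + 1 < p * v p (u - 1) := by
    rw [div_lt_iff₀ (by linarith)] at hs
    nlinarith
  obtain ⟨q, hq⟩ : ∃ q, p = q + 1 := ⟨p - 1, by have := hp.one_lt; omega⟩
  have hexp : u ^ p - 1 = (p : PadicAlgCl p) * (u - 1) +
      ∑ k ∈ Finset.range (p - 1), (p.choose (k + 2) : PadicAlgCl p) * (u - 1) ^ (k + 2) := by
    rw [PowMap_expand]
    conv_lhs => rw [show Finset.range p = Finset.range ((p - 1) + 1) by congr 1; omega]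
    rw [Finset.sum_range_succ']
    simp only [zero_add, Nat.choose_one_right, pow_one]
    rw [add_comm]
  have hv1 : v p ((p : PadicAlgCl p) * (u - 1)) = v p (u - 1) + 1 := by
    rw [v_mul (Nat.cast_ne_zero.2 hp.ne_zero) ht, v_natCast hp.ne_zero, padicValNat_self]
    push_cast; ring
  rw [hexp, (v_add_eq_left (mul_ne_zero (Nat.cast_ne_zero.2 hp.ne_zero) ht) ?_).1, hv1]
  by_cases h0 : ∑ k ∈ Finset.range (p - 1), (p.choose (k + 2) : PadicAlgCl p) * (u - 1) ^ (k + 2) = 0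
  · exact Or.inl h0
  · right
    rw [hv1]
    have hle : min (p * v p (u - 1)) (1 + 2 * v p (u - 1)) ≤
        v p (∑ k ∈ Finset.range (p - 1), (p.choose (k + 2) : PadicAlgCl p) * (u - 1) ^ (k + 2)) := by
      refine v_sum_ge _ _ _ (fun k hk => Or.inr ?_) h0
      have hkp : k < p - 1 := Finset.mem_range.1 hk
      rcases Nat.lt_or_ge (k + 2) p with h | h
      · rw [PowMap_v_term (by omega) h ht]
        refine (min_le_right _ _).trans ?_
        push_cast
        nlinarith [mul_nonneg (Nat.cast_nonneg (α := ℝ) k) hs0.le]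
      · have h2 : k + 2 = p := by omega
        rw [h2, Nat.choose_self, Nat.cast_one, one_mul, v_pow]
        exact min_le_left _ _
    refine lt_of_lt_of_le ?_ hle
    exact lt_min hs' (by linarith)

theorem v_pow_prime_to (hu : ‖u - 1‖ < 1) (hu1 : u ≠ 1) {M : ℕ} (hM : ¬ p ∣ M) :
    v p (u ^ M - 1) = v p (u - 1) ∧ u ^ M ≠ 1 ∧ ‖u ^ M - 1‖ < 1 := by
  have hs0 := PowMap_vpos hu hu1
  have ht : u - 1 ≠ 0 := sub_ne_zero.2 hu1
  have hM0 : M ≠ 0 := fun h => hM (h ▸ dvd_zero _)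
  have hMc : (M : PadicAlgCl p) ≠ 0 := Nat.cast_ne_zero.2 hM0
  have hexp : u ^ M - 1 = (M : PadicAlgCl p) * (u - 1) +
      ∑ k ∈ Finset.range (M - 1), (M.choose (k + 2) : PadicAlgCl p) * (u - 1) ^ (k + 2) := by
    rw [PowMap_expand]
    conv_lhs => rw [show Finset.range M = Finset.range ((M - 1) + 1) by congr 1; omega]
    rw [Finset.sum_range_succ']
    simp only [zero_add, Nat.choose_one_right, pow_one]
    rw [add_comm]
  have hv1 : v p ((M : PadicAlgCl p) * (u - 1)) = v p (u - 1) := by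
    rw [v_mul hMc ht, v_natCast hM0, padicValNat.eq_zero_of_not_dvd hM]
    simp
  have key : (∑ k ∈ Finset.range (M - 1), (M.choose (k + 2) : PadicAlgCl p) * (u - 1) ^ (k + 2) = 0)
      ∨ v p ((M : PadicAlgCl p) * (u - 1)) <
        v p (∑ k ∈ Finset.range (M - 1), (M.choose (k + 2) : PadicAlgCl p) * (u - 1) ^ (k + 2)) := by
    by_cases h0 : ∑ k ∈ Finset.range (M - 1),
        (M.choose (k + 2) : PadicAlgCl p) * (u - 1) ^ (k + 2) = 0
    · exact Or.inl h0
    · right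
      rw [hv1]
      have hle : 2 * v p (u - 1) ≤
          v p (∑ k ∈ Finset.range (M - 1), (M.choose (k + 2) : PadicAlgCl p) * (u - 1) ^ (k + 2)) := by
        refine v_sum_ge _ _ _ (fun k hk => Or.inr ?_) h0
        have hkp : k < M - 1 := Finset.mem_range.1 hk
        have hc : M.choose (k + 2) ≠ 0 := (Nat.choose_pos (by omega)).ne'
        rw [v_mul (Nat.cast_ne_zero.2 hc) (pow_ne_zero _ ht), v_pow]
        have h1 : 0 ≤ v p ((M.choose (k + 2) : ℕ) : PadicAlgCl p) := v_nonneg (norm_natCast_le _)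
        push_cast
        nlinarith [mul_nonneg (Nat.cast_nonneg (α := ℝ) k) hs0.le]
      linarith
  obtain ⟨h1, h2⟩ := v_add_eq_left (mul_ne_zero hMc ht) key
  rw [← hexp] at h1 h2
  have h3 : v p (u ^ M - 1) = v p (u - 1) := h1.trans hv1
  exact ⟨h3, sub_ne_zero.1 h2, norm_lt_one_of_v_pos (h3 ▸ hs0)⟩

/-- iterating: one step -/
theorem norm_pow_p_sub_one_lt (hu : ‖u - 1‖ < 1) : ‖u ^ p - 1‖ < 1 := by
  have hp : p.Prime := Fact.out
  have hp1 : (1 : ℝ) < p := by exact_mod_cast hp.one_lt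
  by_cases h1 : u ^ p = 1
  · rw [h1, sub_self, norm_zero]; exact one_pos
  · have hu2 : u ≠ 1 := fun h => h1 (by rw [h, one_pow])
    have hs := PowMap_vpos hu hu2
    refine norm_lt_one_of_v_pos (lt_of_lt_of_le ?_ (v_pow_p_ge hu h1))
    exact lt_min (by positivity) (by linarith)

end Pool.Agent.IRR
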