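import Pool.Agent.IRR.Defs

/-!
# IRR.PrimeCount: density of primes (diff 1)

Mathlib `Nat.primeCounting'_add_le` with `a = 210`, `k = 211`: `φ(210) = 48`, `π'(211) = 46`,
`π'(211 + m) ≤ 46 + 48 (m/210 + 1) ≤ 94 + (8/35) m`; with `m = ⌈y⌉ - 211 ≤ y - 210` this is `≤ 46 + (8/35) y`;
for `y ≤ 211` the count is `≤ 46`.
-/

namespace Pool.Agent.IRR

theorem PrimeCount_211 : Nat.primeCounting' 211 = 46 := by
  decide +kernel

theorem PrimeCount_tot : Nat.totient 210 = 48 := by
  decide +kernel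

open Classical in
theorem card_primes_lt (S : Finset ℕ) (hS : ∀ p ∈ S, p.Prime) (y : ℝ) (hy : 0 ≤ y) :
    ((S.filter (fun p : ℕ => (p : ℝ) < y)).card : ℝ) ≤ 48 + 8 / 35 * y := by
  set n := ⌈y⌉₊ with hn
  have h1 : (S.filter (fun p : ℕ => (p : ℝ) < y)).card ≤ Nat.primeCounting' n := by
    rw [Nat.primeCounting', Nat.count_eq_card_filter_range]
    refine Finset.card_le_card ?_
    intro p hp
    obtain ⟨hp1, hp2⟩ := Finset.mem_filter.1 hp
    refine Finset.mem_filter.2 ⟨Finset.mem_range.2 ?_, hS p hp1⟩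
    exact Nat.lt_ceil.2 hp2
  have h1' : ((S.filter (fun p : ℕ => (p : ℝ) < y)).card : ℝ) ≤ (Nat.primeCounting' n : ℝ) := by
    exact_mod_cast h1
  refine h1'.trans ?_
  rcases le_total n 211 with h | h
  · have h2 : Nat.primeCounting' n ≤ 46 := by
      rw [← PrimeCount_211]
      exact Nat.monotone_primeCounting' h
    have h3 : (Nat.primeCounting' n : ℝ) ≤ 46 := by exact_mod_cast h2
    have : 0 ≤ 8 / 35 * y := by positivity
    linarith
  · obtain ⟨m, hm⟩ := Nat.exists_eq_add_of_le h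
    have h2 := Nat.primeCounting'_add_le (a := 210) (k := 211) (by norm_num) (by norm_num) m
    rw [← hm, PrimeCount_211, PrimeCount_tot] at h2
    have h3 : (Nat.primeCounting' n : ℝ) ≤ 46 + 48 * (((m / 210 : ℕ) : ℝ) + 1) := by
      exact_mod_cast h2
    have h4 : ((m / 210 : ℕ) : ℝ) ≤ (m : ℝ) / 210 := by
      have := @Nat.cast_div_le ℝ _ _ _ m 210
      exact_mod_cast this
    have h5 : (n : ℝ) < y + 1 := Nat.ceil_lt_add_one hy
    have h6 : (n : ℝ) = 211 + m := by
      rw [hm]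
      push_cast
      ring
    linarith

end Pool.Agent.IRR
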