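import Pool.Agent.IRR.Basic

/-!
# IRR.Rel: relations satisfied by the roots of `g N` (diff 1)

From `(X-1)^2 g = f`: `x^N = N(x-1)+1`.  `f' = 2(X-1) g + (X-1)^2 g'` gives at a root
`N(x^(N-1) - 1) = (x-1)^2 g'(x)`; and `x(x^(N-1)-1) = x^N - x = (N-1)(x-1)`, so
`x (x-1)^2 g'(x) = N (N-1) (x-1)`.
-/

namespace Pool.Agent.IRR

open Polynomial

variable {K : Type*} [Field K] [CharZero K] {N : ℕ} {x : K}

theorem root_pow (hN : 2 ≤ N) (hx : ev (g N) x = 0) : x ^ N = N * (x - 1) + 1 := by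
  have h := congrArg (fun q => ev q x) (f_eq N hN)
  simp only [ev_mul, hx, mul_zero] at h
  unfold f at h
  rw [ev_add, ev_sub, ev_pow, ev_mul, ev_X, ev_C, ev_C] at h
  push_cast at h
  linear_combination -h

theorem root_ne_one (hN : 2 ≤ N) (hx : ev (g N) x = 0) : x ≠ 1 := by
  rintro rfl
  have h1 := ev_intCast (K := K) (g N) 1
  rw [Int.cast_one, hx] at h1
  have h2 : (g N).eval 1 = 0 := by exact_mod_cast h1.symm
  have h3 := g_eval_one N hN
  rw [h2, mul_zero] at h3
  have h4 : (N : ℤ) * (N - 1) > 0 := by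
    have : (2 : ℤ) ≤ N := by exact_mod_cast hN
    apply mul_pos <;> linarith
  linarith

theorem root_ne_zero (hN : 2 ≤ N) (hx : ev (g N) x = 0) : x ≠ 0 := by
  rintro rfl
  have h1 := ev_intCast (K := K) (g N) 0
  rw [Int.cast_zero, hx] at h1
  have h2 : (g N).eval 0 = 0 := by exact_mod_cast h1.symm
  rw [← coeff_zero_eq_eval_zero, g_coeff_zero N hN] at h2
  have : (2 : ℤ) ≤ N := by exact_mod_cast hN
  linarith

theorem root_pow_sub (hN : 2 ≤ N) (hx : ev (g N) x = 0) :
    x * (x ^ (N - 1) - 1) = (N - 1) * (x - 1) := by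
  have h := root_pow hN hx
  have h1 : x * x ^ (N - 1) = x ^ N := by
    rw [← pow_succ']
    congr 1
    omega
  rw [mul_sub, h1, h]
  ring

theorem root_der (hN : 2 ≤ N) (hx : ev (g N) x = 0) :
    ev (derivative (g N)) x * (x * (x - 1)) = N * (N - 1) := by
  have h := congrArg (fun q => ev (derivative q) x) (f_eq N hN)
  have hd1 : derivative ((X - 1 : ℤ[X]) ^ 2 * g N) =
      C 2 * (X - 1) * g N + (X - 1) ^ 2 * derivative (g N) := by
    rw [derivative_mul, derivative_pow]
    simp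
  have hd2 : derivative (f N) = C (N : ℤ) * X ^ (N - 1) - C (N : ℤ) := by
    unfold f
    simp [derivative_X_pow]
  simp only [hd1, hd2, ev_add, ev_mul, ev_sub, ev_pow, ev_X, ev_C, ev_one, hx, mul_zero,
    zero_add] at h
  have h2 := root_pow_sub hN hx
  have h3 : x - 1 ≠ 0 := sub_ne_zero.2 (root_ne_one hN hx)
  apply mul_left_cancel₀ h3
  push_cast at h
  linear_combination x * h + (N : K) * h2

end Pool.Agent.IRR
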