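import Pool.Agent.IRR.NumDefs

/-! # IRR: kernel run of the small range, part 0 (generated) -/

set_option maxRecDepth 100000

namespace Pool.Agent.IRR

theorem c0 : rangeOK 6 0 = true := by decide +kernel
theorem c1 : rangeOK 6 64 = true := by decide +kernel
theorem c2 : rangeOK 6 128 = true := by decide +kernel
theorem c3 : rangeOK 6 192 = true := by decide +kernel
theorem c4 : rangeOK 6 256 = true := by decide +kernel
theorem c5 : rangeOK 6 320 = true := by decide +kernel
theorem c6 : rangeOK 6 384 = true := by decide +kernel
theorem c7 : rangeOK 6 448 = true := by decide +kernel
theorem c8 : rangeOK 6 512 = true := by decide +kernel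
theorem c9 : rangeOK 6 576 = true := by decide +kernel
theorem c10 : rangeOK 6 640 = true := by decide +kernel
theorem c11 : rangeOK 6 704 = true := by decide +kernel
theorem c12 : rangeOK 6 768 = true := by decide +kernel
theorem c13 : rangeOK 6 832 = true := by decide +kernel
theorem c14 : rangeOK 6 896 = true := by decide +kernel
theorem c15 : rangeOK 6 960 = true := by decide +kernel
theorem c16 : rangeOK 6 1024 = true := by decide +kernel
theorem c17 : rangeOK 6 1088 = true := by decide +kernel
theorem c18 : rangeOK 6 1152 = true := by decide +kernel
theorem c19 : rangeOK 6 1216 = true := by decide +kernel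
theorem c20 : rangeOK 6 1280 = true := by decide +kernel
theorem c21 : rangeOK 6 1344 = true := by decide +kernel
theorem c22 : rangeOK 6 1408 = true := by decide +kernel
theorem c23 : rangeOK 6 1472 = true := by decide +kernel
theorem c24 : rangeOK 6 1536 = true := by decide +kernel
theorem c25 : rangeOK 6 1600 = true := by decide +kernel
theorem c26 : rangeOK 6 1664 = true := by decide +kernel
theorem c27 : rangeOK 6 1728 = true := by decide +kernel
theorem c28 : rangeOK 6 1792 = true := by decide +kernel
theorem c29 : rangeOK 6 1856 = true := by decide +kernel
theorem c30 : rangeOK 6 1920 = true := by decide +kernel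
theorem c31 : rangeOK 6 1984 = true := by decide +kernel

end Pool.Agent.IRR
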