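import Pool.Agent.IRR.ClassOdd
import Pool.Agent.IRR.ClassTwo
import Pool.Agent.IRR.Res

/-!
# IRR.SumClasses: bounds for `v_p(Res(a,b))` (diff 2)

`v_p(Res) = ∑_{x∈rts a} ∑_{y∈rts b} v(x-y)` (`res_eq_prod`, `v_intCast`, `v_prod`)
`= ∑_{ω^M=1} W p a b ω`: if `x`, `y` are in different classes or one of them is a nonunit
(`root_class`, `nonunit_unique`, `mu_sep`), `‖x-y‖ = 1`.  The classes are disjoint,
so `∑_ω #cls a ω ≤ deg a`; there are `M` of them (`card_mu`), `M p^(e+1) = n p`.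
`v_p(Res(a, X^R-1)) = ∑_{x∈rts a} v(x^R-1)` (`res_cyc`), all terms `≥ 0` (`zval_nonneg`); it is a hypothesis
that this resultant is not zero.
-/

namespace Pool.Agent.IRR

open Polynomial

variable {p : ℕ} [Fact p.Prime] {N n e M : ℕ} {a b : ℤ[X]}

theorem SumClasses_na {x y : PadicAlgCl p} (hx : ‖x‖ < 1) (hy : ‖y‖ = 1) : ‖x + y‖ = 1 := by
  have hna := PadicAlgCl.isNonarchimedean p
  have h1 : ‖x + y‖ ≤ 1 := (hna x y).trans (max_le hx.le hy.le)
  have h2 : ‖y‖ ≤ max ‖x + y‖ ‖-x‖ := by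
    have := hna (x + y) (-x)
    rwa [show x + y + -x = y by ring] at this
  rw [hy, norm_neg] at h2
  rcases le_max_iff.1 h2 with h3 | h3
  · exact le_antisymm h1 h3
  · exact absurd h3 (not_le.2 hx)

theorem SumClasses_lt {x y z : PadicAlgCl p} (hx : ‖x - z‖ < 1) (hy : ‖y - z‖ < 1) :
    ‖x - y‖ < 1 := by
  have hna := PadicAlgCl.isNonarchimedean p
  have h1 := hna (x - z) (-(y - z))
  rw [norm_neg, show x - z + -(y - z) = x - y by ring] at h1
  exact h1.trans_lt (max_lt hx hy)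

/-- two classes with a common point are equal -/
theorem SumClasses_unique (hM : ¬ p ∣ M) {x w w' : PadicAlgCl p} (hw : w ^ M = 1)
    (hw' : w' ^ M = 1) (h1 : ‖x - w‖ < 1) (h2 : ‖x - w'‖ < 1) : w = w' := by
  by_contra hne
  have h3 := mu_sep hM hw hw' hne
  rw [← norm_neg] at h1 h2
  rw [neg_sub] at h1 h2
  have h4 := SumClasses_lt h1 h2
  rw [h3] at h4
  exact lt_irrefl _ h4

/-- roots in different classes have distance `1` -/
theorem SumClasses_dist (hL : Loc p N n e M) (h : Factn N a b) {x y : PadicAlgCl p}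
    (hx : x ∈ rts (PadicAlgCl p) a) (hy : y ∈ rts (PadicAlgCl p) b)
    (hno : ∀ w : PadicAlgCl p, w ^ M = 1 → ¬ (‖x - w‖ < 1 ∧ ‖y - w‖ < 1)) : ‖x - y‖ = 1 := by
  have hM0 : M ≠ 0 := by
    rintro rfl
    exact hL.hpM (dvd_zero p)
  have hxg : x ∈ rts (PadicAlgCl p) (g N) := (mem_rts_g h).2 (Or.inl hx)
  have hyg : y ∈ rts (PadicAlgCl p) (g N) := (mem_rts_g h).2 (Or.inr hy)
  have hxy : x ≠ y := by
    rintro rfl
    exact not_mem_both h hx hy
  rcases root_class hL hxg with hx1 | ⟨w, hw, hxw⟩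
  · rcases root_class hL hyg with hy1 | ⟨w, hw, hyw⟩
    · exact absurd (nonunit_unique hL.hN hxg hyg hx1 hy1) hxy
    · have hw1 := norm_mu hM0 hw
      have hy1 : ‖y‖ = 1 := by
        have := SumClasses_na hyw hw1
        rwa [sub_add_cancel] at this
      have h2 := SumClasses_na (x := x) (y := -y) hx1 (by rw [norm_neg, hy1])
      rwa [← sub_eq_add_neg] at h2
  · have hw1 := norm_mu hM0 hw
    rcases root_class hL hyg with hy1 | ⟨w', hw', hyw'⟩
    · have hx1 : ‖x‖ = 1 := by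
        have := SumClasses_na hxw hw1
        rwa [sub_add_cancel] at this
      have h2 := SumClasses_na (x := -y) (y := x) (by rwa [norm_neg]) hx1
      rwa [show -y + x = x - y by ring] at h2
    · by_cases hww : w = w'
      · subst hww
        exact absurd ⟨hxw, hyw'⟩ (hno w hw)
      · have hsep := mu_sep hL.hpM hw hw' hww
        have h3 : ‖(x - w) + (w - w')‖ = 1 := SumClasses_na hxw hsep
        have h4 := SumClasses_na (x := -(y - w')) (y := (x - w) + (w - w'))
          (by rwa [norm_neg]) h3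
        rwa [show -(y - w') + ((x - w) + (w - w')) = x - y by ring] at h4

open Classical in
/-- the valuation of the resultant is the sum of the cross energies of the classes -/
theorem SumClasses_res (hL : Loc p N n e M) (h : Factn N a b) :
    (padicValInt p (resultant a b) : ℝ) =
      ∑ w ∈ nthRootsFinset M (1 : PadicAlgCl p), W p a b w := by
  have hM0 : M ≠ 0 := by
    rintro rfl
    exact hL.hpM (dvd_zero p)
  have hMpos : 0 < M := Nat.pos_of_ne_zero hM0
  have hxy : ∀ x ∈ rts (PadicAlgCl p) a, ∀ y ∈ rts (PadicAlgCl p) b, x - y ≠ 0 := by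
    intro x hx y hy h0
    rw [sub_eq_zero] at h0
    subst h0
    exact not_mem_both h hx hy
  rw [← v_intCast (res_ne_zero h), res_eq_prod h, v_prod]
  swap
  · intro x hx
    exact Finset.prod_ne_zero_iff.2 fun y hy => hxy x hx y hy
  have e1 : ∀ x ∈ rts (PadicAlgCl p) a, v p (∏ y ∈ rts (PadicAlgCl p) b, (x - y)) =
      ∑ y ∈ rts (PadicAlgCl p) b, v p (x - y) := fun x hx => v_prod _ _ (hxy x hx)
  rw [Finset.sum_congr rfl e1]
  have e2 : ∀ w ∈ nthRootsFinset M (1 : PadicAlgCl p), W p a b w =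
      ∑ x ∈ rts (PadicAlgCl p) a, ∑ y ∈ rts (PadicAlgCl p) b,
        if ‖x - w‖ < 1 ∧ ‖y - w‖ < 1 then v p (x - y) else 0 := by
    intro w _
    unfold W cls
    rw [Finset.sum_filter]
    apply Finset.sum_congr rfl
    intro x _
    by_cases hx1 : ‖x - w‖ < 1
    · rw [if_pos hx1, Finset.sum_filter]
      apply Finset.sum_congr rfl
      intro y _
      by_cases hy1 : ‖y - w‖ < 1
      · rw [if_pos hy1, if_pos ⟨hx1, hy1⟩]
      · rw [if_neg hy1, if_neg (fun hh => hy1 hh.2)]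
    · rw [if_neg hx1]
      symm
      apply Finset.sum_eq_zero
      intro y _
      rw [if_neg (fun hh => hx1 hh.1)]
  rw [Finset.sum_congr rfl e2]
  symm
  rw [Finset.sum_comm]
  apply Finset.sum_congr rfl
  intro x hx
  rw [Finset.sum_comm]
  apply Finset.sum_congr rfl
  intro y hy
  by_cases hex : ∃ w : PadicAlgCl p, w ^ M = 1 ∧ ‖x - w‖ < 1 ∧ ‖y - w‖ < 1
  · obtain ⟨w, hw, hxw, hyw⟩ := hex
    rw [Finset.sum_eq_single w]
    · rw [if_pos ⟨hxw, hyw⟩]
    · intro w' hw' hne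
      rw [if_neg]
      rintro ⟨h1, -⟩
      exact hne (SumClasses_unique hL.hpM ((mem_nthRootsFinset hMpos _).1 hw') hw h1 hxw)
    · intro hw2
      exact absurd ((mem_nthRootsFinset hMpos _).2 hw) hw2
  · have hno : ∀ w : PadicAlgCl p, w ^ M = 1 → ¬ (‖x - w‖ < 1 ∧ ‖y - w‖ < 1) :=
      fun w hw hh => hex ⟨w, hw, hh⟩
    rw [v_eq_zero (SumClasses_dist hL h hx hy hno)]
    apply Finset.sum_eq_zero
    intro w hw
    rw [if_neg (hno w ((mem_nthRootsFinset hMpos _).1 hw))]

open Classical in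
/-- sums over the classes are at most the sum over all roots -/
theorem SumClasses_sum_le (hL : Loc p N n e M) (a : ℤ[X]) (G : PadicAlgCl p → ℝ)
    (hG : ∀ x ∈ rts (PadicAlgCl p) a, 0 ≤ G x) :
    ∑ w ∈ nthRootsFinset M (1 : PadicAlgCl p), ∑ x ∈ cls p a w, G x ≤
      ∑ x ∈ rts (PadicAlgCl p) a, G x := by
  have hM0 : M ≠ 0 := by
    rintro rfl
    exact hL.hpM (dvd_zero p)
  have hMpos : 0 < M := Nat.pos_of_ne_zero hM0
  have e2 : ∀ w ∈ nthRootsFinset M (1 : PadicAlgCl p), ∑ x ∈ cls p a w, G x =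
      ∑ x ∈ rts (PadicAlgCl p) a, if ‖x - w‖ < 1 then G x else 0 := by
    intro w _
    unfold cls
    rw [Finset.sum_filter]
  rw [Finset.sum_congr rfl e2, Finset.sum_comm]
  apply Finset.sum_le_sum
  intro x hx
  by_cases hex : ∃ w : PadicAlgCl p, w ^ M = 1 ∧ ‖x - w‖ < 1
  · obtain ⟨w, hw, hxw⟩ := hex
    rw [Finset.sum_eq_single w]
    · rw [if_pos hxw]
    · intro w' hw' hne
      rw [if_neg]
      intro h1
      exact hne (SumClasses_unique hL.hpM ((mem_nthRootsFinset hMpos _).1 hw') hw h1 hxw)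
    · intro hw2
      exact absurd ((mem_nthRootsFinset hMpos _).2 hw) hw2
  · rw [Finset.sum_eq_zero]
    · exact hG x hx
    · intro w hw
      rw [if_neg]
      intro h1
      exact hex ⟨w, (mem_nthRootsFinset hMpos _).1 hw, h1⟩

theorem SumClasses_cls (hL : Loc p N n e M) (h : Factn N a b) {w : PadicAlgCl p}
    (hw : w ^ M = 1) :
    W p a b w ≤ ((e : ℝ) - 1) * (cls p a w).card ∧
    (∀ j : ℕ, W p a b w ≤ j * (cls p a w).card
      + (p : ℝ) ^ (e + 1) / (((p : ℝ) ^ 2 - 1) * (p : ℝ) ^ j)) ∧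
    W p a b w ≤ ∑ x ∈ cls p a w, v p (x ^ (n / p) - 1) := by
  by_cases hp : p = 2
  · subst hp
    have h2 := class_two hL h hw
    push_cast
    exact h2
  · exact class_odd hL h hp hw

theorem local_bounds (hL : Loc p N n e M) (h : Factn N a b)
    (hR : resultant a (X ^ (n / p) - 1) ≠ 0) :
    (padicValInt p (resultant a b) : ℝ) ≤ ((e : ℝ) - 1) * a.natDegree ∧
    (∀ j : ℕ, (padicValInt p (resultant a b) : ℝ) ≤ j * a.natDegree
      + n * p / (((p : ℝ) ^ 2 - 1) * (p : ℝ) ^ j)) ∧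
    padicValInt p (resultant a b) ≤ padicValInt p (resultant a (X ^ (n / p) - 1)) := by
  have hM0 : M ≠ 0 := by
    rintro rfl
    exact hL.hpM (dvd_zero p)
  have hMpos : 0 < M := Nat.pos_of_ne_zero hM0
  have hp2 : 2 ≤ p := (Fact.out : p.Prime).two_le
  have hp2' : (2 : ℝ) ≤ p := by exact_mod_cast hp2
  have he1 : (0 : ℝ) ≤ (e : ℝ) - 1 := by
    have : (1 : ℝ) ≤ e := by exact_mod_cast hL.he
    linarith
  have hmem : ∀ w ∈ nthRootsFinset M (1 : PadicAlgCl p), w ^ M = 1 :=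
    fun w hw => (mem_nthRootsFinset hMpos _).1 hw
  have hcard : ∑ w ∈ nthRootsFinset M (1 : PadicAlgCl p), ((cls p a w).card : ℝ) ≤
      a.natDegree := by
    have h1 := SumClasses_sum_le hL a (fun _ => 1) (fun _ _ => zero_le_one)
    simp only [Finset.sum_const, nsmul_eq_mul, mul_one] at h1
    rwa [card_rts h] at h1
  rw [SumClasses_res hL h]
  refine ⟨?_, ?_, ?_⟩
  · calc ∑ w ∈ nthRootsFinset M (1 : PadicAlgCl p), W p a b w
        ≤ ∑ w ∈ nthRootsFinset M (1 : PadicAlgCl p), ((e : ℝ) - 1) * (cls p a w).card :=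
          Finset.sum_le_sum fun w hw => (SumClasses_cls hL h (hmem w hw)).1
      _ = ((e : ℝ) - 1) * ∑ w ∈ nthRootsFinset M (1 : PadicAlgCl p), ((cls p a w).card : ℝ) := by
          rw [Finset.mul_sum]
      _ ≤ _ := mul_le_mul_of_nonneg_left hcard he1
  · intro j
    calc ∑ w ∈ nthRootsFinset M (1 : PadicAlgCl p), W p a b w
        ≤ ∑ w ∈ nthRootsFinset M (1 : PadicAlgCl p), ((j : ℝ) * (cls p a w).card
          + (p : ℝ) ^ (e + 1) / (((p : ℝ) ^ 2 - 1) * (p : ℝ) ^ j)) :=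
          Finset.sum_le_sum fun w hw => (SumClasses_cls hL h (hmem w hw)).2.1 j
      _ = (j : ℝ) * ∑ w ∈ nthRootsFinset M (1 : PadicAlgCl p), ((cls p a w).card : ℝ) +
          M * ((p : ℝ) ^ (e + 1) / (((p : ℝ) ^ 2 - 1) * (p : ℝ) ^ j)) := by
          rw [Finset.sum_add_distrib, ← Finset.mul_sum, Finset.sum_const, card_mu hM0,
            nsmul_eq_mul]
      _ ≤ (j : ℝ) * a.natDegree +
          M * ((p : ℝ) ^ (e + 1) / (((p : ℝ) ^ 2 - 1) * (p : ℝ) ^ j)) := by
          have := mul_le_mul_of_nonneg_left hcard (Nat.cast_nonneg (α := ℝ) j)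
          linarith
      _ = _ := by
          have hn : (n : ℝ) = (p : ℝ) ^ e * M := by
            rw [hL.hM]; push_cast; ring
          rw [hn, pow_succ]
          ring
  · have h3 : (∑ w ∈ nthRootsFinset M (1 : PadicAlgCl p), W p a b w) ≤
        (padicValInt p (resultant a (X ^ (n / p) - 1)) : ℝ) := by
      have hne : ∀ x ∈ rts (PadicAlgCl p) a, x ^ (n / p) - 1 ≠ 0 := by
        have h5 := res_cyc (K := PadicAlgCl p) h (n / p)
        have h6 : ((resultant a (X ^ (n / p) - 1) : ℤ) : PadicAlgCl p) ≠ 0 := by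
          exact_mod_cast hR
        rw [h5, Finset.prod_ne_zero_iff] at h6
        exact h6
      rw [← v_intCast hR, res_cyc h, v_prod _ _ hne]
      calc ∑ w ∈ nthRootsFinset M (1 : PadicAlgCl p), W p a b w
          ≤ ∑ w ∈ nthRootsFinset M (1 : PadicAlgCl p),
            ∑ x ∈ cls p a w, v p (x ^ (n / p) - 1) :=
            Finset.sum_le_sum fun w hw => (SumClasses_cls hL h (hmem w hw)).2.2
        _ ≤ _ := by
          apply SumClasses_sum_le hL
          intro x hx
          exact zval_nonneg ((mem_rts_g h).2 (Or.inl hx)) hL.hN _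
    rw [← SumClasses_res hL h] at h3
    exact_mod_cast h3

end Pool.Agent.IRR
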