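import Pool.Agent.IRR.Mu

/-!
# IRR.Unram: `ℚ_p(ω)` is unramified (diff 3)

Let `ω^M = 1`, `p ∤ M`, `m = deg minpoly`, `α ≠ 0` in `ℚ_p(ω)`; write `α = q(ω)`, `q ∈ ℚ_p[X]`,
`deg q < m` (`IntermediateField.adjoin_simple...`, or `minpoly` division with remainder).
Scale by a power of `p` so that the maximum of the norms of the coefficients of `q` is `1`.
Claim: `‖α‖ = 1` (so `v α ∈ ℤ` in general).  `‖α‖ ≤ 1` is clear.  If `‖α‖ < 1`, then for all
conjugates `ω_i` of `ω` (the `m` distinct roots of the minimal polynomial; they are also `M`-th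
roots of unity) `‖q(ω_i)‖ = ‖σ α‖ = ‖α‖ < 1` (`norm_map`).  Lagrange interpolation
`q = ∑_i q(ω_i) ∏_{k≠i} (X - ω_k)/(ω_i - ω_k)` with `‖ω_i - ω_k‖ = 1` (`mu_sep`), `‖ω_k‖ = 1`
shows that all the coefficients of `q` have norm `< 1`: contradiction.
-/

namespace Pool.Agent.IRR

open Polynomial

variable {p : ℕ} [Fact p.Prime] {M : ℕ} {ω : PadicAlgCl p}

theorem Unram_coeff_mul {P Q : (PadicAlgCl p)[X]} (hP : ∀ j, ‖P.coeff j‖ ≤ 1)
    (hQ : ∀ j, ‖Q.coeff j‖ ≤ 1) (j : ℕ) : ‖(P * Q).coeff j‖ ≤ 1 := by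
  rw [coeff_mul]
  refine IsUltrametricDist.norm_sum_le_of_forall_le_of_nonneg zero_le_one (fun i _ => ?_)
  rw [norm_mul]
  exact mul_le_one₀ (hP _) (norm_nonneg _) (hQ _)

theorem Unram_coeff_prod {ι : Type*} (s : Finset ι) (P : ι → (PadicAlgCl p)[X])
    (hP : ∀ i ∈ s, ∀ j, ‖(P i).coeff j‖ ≤ 1) (j : ℕ) : ‖(∏ i ∈ s, P i).coeff j‖ ≤ 1 := by
  classical
  induction s using Finset.induction_on generalizing j with
  | empty =>
    rw [Finset.prod_empty, coeff_one]
    split_ifs <;> simp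
  | insert a s ha ih =>
    rw [Finset.prod_insert ha]
    exact Unram_coeff_mul (hP a (Finset.mem_insert_self _ _))
      (fun k => ih (fun i hi => hP i (Finset.mem_insert_of_mem hi)) k) j

theorem Unram_basisDivisor {x y : PadicAlgCl p} (hy : ‖y‖ ≤ 1) (hxy : ‖x - y‖ = 1) (j : ℕ) :
    ‖(Lagrange.basisDivisor x y).coeff j‖ ≤ 1 := by
  unfold Lagrange.basisDivisor
  rw [coeff_C_mul, norm_mul, norm_inv, hxy, inv_one, one_mul, coeff_sub, coeff_X, coeff_C]
  by_cases h1 : 1 = j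
  · subst h1; simp
  · by_cases h0 : j = 0
    · subst h0; simpa using hy
    · simp [h1, h0]

theorem unram (hM : ¬ p ∣ M) (hω : ω ^ M = 1) {α : PadicAlgCl p}
    (hα : α ∈ IntermediateField.adjoin ℚ_[p] {ω}) (h0 : α ≠ 0) : ∃ k : ℤ, v p α = k := by
  classical
  have hM0 : M ≠ 0 := by rintro rfl; exact hM (dvd_zero _)
  have hint : IsIntegral ℚ_[p] ω := (Algebra.IsIntegral.isIntegral ω)
  -- write `α = q(ω)`
  have hα' : α ∈ Algebra.adjoin ℚ_[p] {ω} := by
    rw [← IntermediateField.adjoin_simple_toSubalgebra_of_isAlgebraic hint.isAlgebraic]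
    exact hα
  rw [Algebra.adjoin_singleton_eq_range_aeval] at hα'
  obtain ⟨q₀, hq₀⟩ := hα'
  set f := minpoly ℚ_[p] ω with hf
  have hfm : f.Monic := minpoly.monic hint
  set q := q₀ %ₘ f with hq
  have hqω : aeval ω q = α := by
    rw [hq, aeval_modByMonic_eq_self_of_root (minpoly.aeval _ _)]
    exact hq₀
  have hf1 : f ≠ 1 := minpoly.ne_one _ _
  have hdeg : q.degree < f.degree := degree_modByMonic_lt _ hfm
  -- the roots of `f`
  set R := (f.map (algebraMap ℚ_[p] (PadicAlgCl p))).roots.toFinset with hR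
  have hmemR : ∀ x, x ∈ R ↔ aeval x f = 0 := by
    intro x
    rw [hR, Multiset.mem_toFinset, mem_roots (by
      exact (hfm.map _).ne_zero), IsRoot.def, eval_map_algebraMap]
  have hcard : R.card = f.natDegree := by
    have hsep : (f.map (algebraMap ℚ_[p] (PadicAlgCl p))).Separable :=
      ((minpoly.irreducible hint).separable).map
    rw [hR, Multiset.toFinset_card_of_nodup (nodup_roots hsep)]
    have := IsAlgClosed.card_roots_eq_natDegree (p := f.map (algebraMap ℚ_[p] (PadicAlgCl p)))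
    rw [this, natDegree_map]
  have hconj : ∀ x ∈ R, ∃ σ : PadicAlgCl p ≃ₐ[ℚ_[p]] PadicAlgCl p, σ ω = x := by
    intro x hx
    exact minpoly.exists_algEquiv_of_root' hint.isAlgebraic ((hmemR x).mp hx)
  have hpow : ∀ x ∈ R, x ^ M = 1 := by
    intro x hx
    obtain ⟨σ, hσ⟩ := hconj x hx
    rw [← hσ, ← map_pow, hω, map_one]
  have hval : ∀ x ∈ R, ‖aeval x q‖ = ‖α‖ := by
    intro x hx
    obtain ⟨σ, hσ⟩ := hconj x hx
    rw [← norm_map σ α, ← hqω, ← hσ]
    congr 1
    exact aeval_algHom_apply σ.toAlgHom ω q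
  -- interpolation
  set Q := q.map (algebraMap ℚ_[p] (PadicAlgCl p)) with hQ
  have hQdeg : Q.degree < R.card := by
    rw [hQ, degree_map, hcard]
    exact hdeg.trans_le degree_le_natDegree
  have hint' := Lagrange.eq_interpolate (s := R) (v := id) (f := Q)
    (Set.injOn_id _) hQdeg
  have hcoef : ∀ j, ‖Q.coeff j‖ ≤ ‖α‖ := by
    intro j
    rw [hint']
    simp only [Lagrange.interpolate_apply, finsetSum_coeff, coeff_C_mul, id]
    refine IsUltrametricDist.norm_sum_le_of_forall_le_of_nonneg (norm_nonneg _) (fun x hx => ?_)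
    rw [norm_mul, hQ, eval_map_algebraMap, hval x hx]
    refine mul_le_of_le_one_right (norm_nonneg _) ?_
    unfold Lagrange.basis
    refine Unram_coeff_prod _ _ (fun y hy k => ?_) j
    rw [Finset.mem_erase] at hy
    simp only [id]
    exact Unram_basisDivisor (norm_mu hM0 (hpow y hy.2)).le
      (mu_sep hM (hpow x hx) (hpow y hy.2) (Ne.symm hy.1)) k
  have hcoef' : ∀ j, ‖q.coeff j‖ ≤ ‖α‖ := by
    intro j
    have := hcoef j
    rw [hQ, coeff_map] at this
    rwa [← PadicAlgCl.norm_extends]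
  -- the norm of `α` is the norm of a coefficient
  have hq0 : q ≠ 0 := by
    intro h
    rw [h, map_zero] at hqω
    exact h0 hqω.symm
  have hsum : α = ∑ j ∈ q.support, algebraMap ℚ_[p] (PadicAlgCl p) (q.coeff j) * ω ^ j := by
    rw [← hqω, aeval_def, eval₂_eq_sum, Polynomial.sum]
  obtain ⟨j, hj, hjn⟩ := IsUltrametricDist.exists_norm_finsetSum_le_of_nonempty
    (t := q.support) (by rwa [Finset.nonempty_iff_ne_empty, Ne, support_eq_empty])
    (fun j => algebraMap ℚ_[p] (PadicAlgCl p) (q.coeff j) * ω ^ j)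
  rw [← hsum, norm_mul, norm_pow, norm_mu hM0 hω, one_pow, mul_one] at hjn
  have hj' : ‖α‖ ≤ ‖q.coeff j‖ := by
    rw [← PadicAlgCl.norm_extends]
    exact hjn
  have heq : ‖α‖ = ‖q.coeff j‖ := le_antisymm hj' (hcoef' j)
  have hcj : q.coeff j ≠ 0 := by rwa [mem_support_iff] at hj
  refine ⟨(q.coeff j).valuation, ?_⟩
  have hp1 : (1 : ℝ) < p := by exact_mod_cast (Fact.out : p.Prime).one_lt
  rw [v, heq, Padic.norm_eq_zpow_neg_valuation hcj, ← Real.rpow_intCast, Real.logb_rpow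
    (by positivity) (by linarith)]
  push_cast
  ring

end Pool.Agent.IRR
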