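import Pool.Agent.IRR.Defs

/-!
# IRR.Val: the valuation `v p` on `PadicAlgCl p` (diff 2)

`v p x = - logb p ‖x‖`.  Use `PadicAlgCl.isNonarchimedean`, `PadicAlgCl.norm_extends` (or the
`spectralNorm` lemmas, `spectralNorm_eq_of_equiv` for the Galois invariance).
-/

namespace Pool.Agent.IRR

open Polynomial

variable {p : ℕ} [Fact p.Prime] {x y : PadicAlgCl p}

theorem Val_p1 : (1 : ℝ) < (p : ℝ) := by
  exact_mod_cast (Fact.out : p.Prime).one_lt

theorem Val_p0 : (0 : ℝ) < (p : ℝ) := lt_trans one_pos Val_p1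

theorem Val_logb_le {a b : ℝ} (ha : 0 < a) (hb : 0 < b) :
    Real.logb p a ≤ Real.logb p b ↔ a ≤ b := Real.logb_le_logb Val_p1 ha hb

theorem v_zero : v p (0 : PadicAlgCl p) = 0 := by
  unfold v
  rw [norm_zero, Real.logb_zero, neg_zero]

theorem v_one : v p (1 : PadicAlgCl p) = 0 := by
  unfold v
  rw [norm_one, Real.logb_one, neg_zero]

theorem norm_eq (hx : x ≠ 0) : ‖x‖ = (p : ℝ) ^ (-(v p x)) := by
  unfold v
  rw [neg_neg, Real.rpow_logb Val_p0 (ne_of_gt Val_p1) (norm_pos_iff.2 hx)]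

theorem v_mul (hx : x ≠ 0) (hy : y ≠ 0) : v p (x * y) = v p x + v p y := by
  unfold v
  rw [norm_mul, Real.logb_mul (norm_ne_zero_iff.2 hx) (norm_ne_zero_iff.2 hy), neg_add]

theorem v_pow (x : PadicAlgCl p) (k : ℕ) : v p (x ^ k) = k * v p x := by
  unfold v
  rw [norm_pow, Real.logb_pow, mul_neg]

theorem v_div (hx : x ≠ 0) (hy : y ≠ 0) : v p (x / y) = v p x - v p y := by
  unfold v
  rw [norm_div, Real.logb_div (norm_ne_zero_iff.2 hx) (norm_ne_zero_iff.2 hy)]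
  ring

theorem v_neg : v p (-x) = v p x := by
  unfold v
  rw [norm_neg]

theorem v_sub_comm (x y : PadicAlgCl p) : v p (x - y) = v p (y - x) := by
  rw [← v_neg, neg_sub]

theorem v_prod {ι : Type*} (s : Finset ι) (G : ι → PadicAlgCl p) (h : ∀ i ∈ s, G i ≠ 0) :
    v p (∏ i ∈ s, G i) = ∑ i ∈ s, v p (G i) := by
  classical
  induction s using Finset.induction_on with
  | empty => rw [Finset.prod_empty, Finset.sum_empty, v_one]
  | insert a s ha ih =>
    rw [Finset.prod_insert ha, Finset.sum_insert ha, v_mul (h a (Finset.mem_insert_self a s)), ih]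
    · exact fun i hi => h i (Finset.mem_insert_of_mem hi)
    · exact Finset.prod_ne_zero_iff.2 fun i hi => h i (Finset.mem_insert_of_mem hi)

theorem Val_norm_natCast (k : ℕ) : ‖(k : PadicAlgCl p)‖ = ‖(k : ℚ_[p])‖ := by
  rw [← map_natCast (algebraMap ℚ_[p] (PadicAlgCl p))]
  exact PadicAlgCl.norm_extends p _

theorem Val_norm_intCast (k : ℤ) : ‖(k : PadicAlgCl p)‖ = ‖(k : ℚ_[p])‖ := by
  rw [← map_intCast (algebraMap ℚ_[p] (PadicAlgCl p))]
  exact PadicAlgCl.norm_extends p _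

theorem v_intCast {k : ℤ} (hk : k ≠ 0) : v p (k : PadicAlgCl p) = padicValInt p k := by
  unfold v
  rw [Val_norm_intCast, Padic.norm_eq_zpow_neg_valuation (Int.cast_ne_zero.2 hk),
    Padic.valuation_intCast, ← Real.rpow_intCast, Real.logb_rpow Val_p0 (ne_of_gt Val_p1)]
  push_cast
  ring

theorem v_natCast {k : ℕ} (hk : k ≠ 0) : v p (k : PadicAlgCl p) = padicValNat p k := by
  have h := v_intCast (p := p) (k := (k : ℤ)) (by exact_mod_cast hk)
  rw [Int.cast_natCast] at h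
  rw [h, padicValInt, Int.natAbs_natCast]

theorem norm_intCast_le (k : ℤ) : ‖(k : PadicAlgCl p)‖ ≤ 1 := by
  rw [Val_norm_intCast]
  exact Padic.norm_int_le_one k

theorem norm_natCast_le (k : ℕ) : ‖(k : PadicAlgCl p)‖ ≤ 1 := by
  have := norm_intCast_le (p := p) (k : ℤ)
  rwa [Int.cast_natCast] at this

theorem norm_natCast_eq_one {k : ℕ} (hk : ¬ p ∣ k) : ‖(k : PadicAlgCl p)‖ = 1 := by
  have hp : p.Prime := Fact.out
  rw [Val_norm_natCast, Padic.norm_natCast_eq_one_iff]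
  exact (Nat.Prime.coprime_iff_not_dvd hp).2 hk

theorem norm_natCast_lt_one {k : ℕ} (hk : p ∣ k) : ‖(k : PadicAlgCl p)‖ < 1 := by
  rw [Val_norm_natCast, Padic.norm_natCast_lt_one_iff]
  exact hk

theorem v_nonneg (hx : ‖x‖ ≤ 1) : 0 ≤ v p x := by
  unfold v
  have := Real.logb_nonpos (Val_p1 (p := p)) (norm_nonneg x) hx
  linarith

theorem v_eq_zero (hx : ‖x‖ = 1) : v p x = 0 := by
  unfold v
  rw [hx, Real.logb_one, neg_zero]

theorem v_pos_iff (hx : x ≠ 0) : 0 < v p x ↔ ‖x‖ < 1 := by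
  unfold v
  rw [neg_pos, Real.logb_neg_iff Val_p1 (norm_pos_iff.2 hx)]

theorem ne_zero_of_v_pos (hx : 0 < v p x) : x ≠ 0 := by
  rintro rfl
  rw [v_zero] at hx
  exact lt_irrefl _ hx

theorem norm_lt_one_of_v_pos (hx : 0 < v p x) : ‖x‖ < 1 := by
  have h0 : x ≠ 0 := ne_zero_of_v_pos (p := p) hx
  exact (v_pos_iff h0).1 hx

theorem v_le_iff (hx : x ≠ 0) (hy : y ≠ 0) : v p x ≤ v p y ↔ ‖y‖ ≤ ‖x‖ := by
  unfold v
  rw [neg_le_neg_iff, Val_logb_le (norm_pos_iff.2 hy) (norm_pos_iff.2 hx)]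

theorem v_lt_iff (hx : x ≠ 0) (hy : y ≠ 0) : v p x < v p y ↔ ‖y‖ < ‖x‖ := by
  rw [← not_le, v_le_iff hy hx, not_le]

theorem Val_ge_iff (c : ℝ) (hx : x ≠ 0) : c ≤ v p x ↔ ‖x‖ ≤ (p : ℝ) ^ (-c) := by
  rw [norm_eq hx, Real.rpow_le_rpow_left_iff Val_p1, neg_le_neg_iff]

theorem Val_norm_le (c : ℝ) (hx : x = 0 ∨ c ≤ v p x) : ‖x‖ ≤ (p : ℝ) ^ (-c) := by
  by_cases h0 : x = 0
  · rw [h0, norm_zero]
    exact (Real.rpow_pos_of_pos Val_p0 _).le
  · rcases hx with hx | hx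
    · exact absurd hx h0
    · exact (Val_ge_iff c h0).1 hx

/-- ultrametric inequality for `v` -/
theorem v_add_ge (c : ℝ) (hx : x = 0 ∨ c ≤ v p x) (hy : y = 0 ∨ c ≤ v p y) (h : x + y ≠ 0) :
    c ≤ v p (x + y) := by
  rw [Val_ge_iff c h]
  exact (PadicAlgCl.isNonarchimedean p x y).trans (max_le (Val_norm_le c hx) (Val_norm_le c hy))

/-- ultrametric inequality for finite sums -/
theorem v_sum_ge {ι : Type*} (s : Finset ι) (G : ι → PadicAlgCl p) (c : ℝ)
    (hG : ∀ i ∈ s, G i = 0 ∨ c ≤ v p (G i)) (h : ∑ i ∈ s, G i ≠ 0) :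
    c ≤ v p (∑ i ∈ s, G i) := by
  rw [Val_ge_iff c h]
  exact IsUltrametricDist.norm_sum_le_of_forall_le_of_nonneg (Real.rpow_pos_of_pos Val_p0 _).le
    fun i hi => Val_norm_le c (hG i hi)

theorem v_add_eq_left (hx : x ≠ 0) (hy : y = 0 ∨ v p x < v p y) :
    v p (x + y) = v p x ∧ x + y ≠ 0 := by
  by_cases h0 : y = 0
  · rw [h0, add_zero]
    exact ⟨rfl, hx⟩
  · have hlt : ‖y‖ < ‖x‖ := by
      rcases hy with hy | hy
      · exact absurd hy h0
      · exact (v_lt_iff hx h0).1 hy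
    have h1 : ‖x + y‖ = ‖x‖ := by
      rw [IsUltrametricDist.norm_add_eq_max_of_norm_ne_norm hlt.ne', max_eq_left hlt.le]
    refine ⟨?_, ?_⟩
    · unfold v
      rw [h1]
    · rw [← norm_pos_iff, h1]
      exact norm_pos_iff.2 hx

theorem v_sub_eq_left (hx : x ≠ 0) (hy : y = 0 ∨ v p x < v p y) :
    v p (x - y) = v p x ∧ x - y ≠ 0 := by
  rw [sub_eq_add_neg]
  apply v_add_eq_left hx
  rcases hy with hy | hy
  · left; rw [hy, neg_zero]
  · right; rwa [v_neg]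

theorem norm_map (σ : PadicAlgCl p ≃ₐ[ℚ_[p]] PadicAlgCl p) (x : PadicAlgCl p) : ‖σ x‖ = ‖x‖ := by
  rw [← PadicAlgCl.spectralNorm_eq, ← PadicAlgCl.spectralNorm_eq]
  exact (spectralNorm_eq_of_equiv σ x).symm

theorem v_map (σ : PadicAlgCl p ≃ₐ[ℚ_[p]] PadicAlgCl p) (x : PadicAlgCl p) : v p (σ x) = v p x := by
  unfold v
  rw [norm_map]

/-- roots of monic integer polynomials are integral -/
theorem norm_rts_le_one {a : ℤ[X]} (ha : a.Monic) (hx : x ∈ rts (PadicAlgCl p) a) : ‖x‖ ≤ 1 := by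
  classical
  have hroot : (a.map (Int.castRingHom (PadicAlgCl p))).eval x = 0 := by
    unfold rts at hx
    rw [Multiset.mem_toFinset] at hx
    exact (Polynomial.mem_roots'.1 hx).2
  by_contra hcon
  push Not at hcon
  rw [Polynomial.eval_map, Polynomial.eval₂_eq_sum_range, Finset.sum_range_succ] at hroot
  have hlead : a.coeff a.natDegree = 1 := ha
  rw [hlead, map_one, one_mul] at hroot
  have h1 : x ^ a.natDegree =
      -∑ i ∈ Finset.range a.natDegree, (Int.castRingHom (PadicAlgCl p)) (a.coeff i) * x ^ i := by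
    linear_combination hroot
  have h2 : ‖x‖ ^ a.natDegree ≤ ‖x‖ ^ (a.natDegree - 1) := by
    rw [← norm_pow, h1, norm_neg]
    refine IsUltrametricDist.norm_sum_le_of_forall_le_of_nonneg (by positivity) ?_
    intro i hi
    rw [norm_mul, norm_pow]
    have hi' : i ≤ a.natDegree - 1 := by
      have := Finset.mem_range.1 hi
      omega
    calc ‖(Int.castRingHom (PadicAlgCl p)) (a.coeff i)‖ * ‖x‖ ^ i ≤ 1 * ‖x‖ ^ i := by
          apply mul_le_mul_of_nonneg_right _ (by positivity)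
          exact norm_intCast_le (a.coeff i)
      _ = ‖x‖ ^ i := one_mul _
      _ ≤ ‖x‖ ^ (a.natDegree - 1) := pow_le_pow_right₀ hcon.le hi'
  rcases Nat.eq_zero_or_pos a.natDegree with h0 | h0
  · rw [h0] at hroot
    simp at hroot
  · have h3 : ‖x‖ ^ (a.natDegree - 1) < ‖x‖ ^ a.natDegree := pow_lt_pow_right₀ hcon (by omega)
    linarith

end Pool.Agent.IRR
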